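import Pool.Agent.W5h49.EC.Defs6

/-!
# Joint continuity of the cube averages (task CA1), written by helper74
-/

set_option autoImplicit false
set_option maxHeartbeats 1000000

open scoped ContDiff Topology
open MeasureTheory Set Metric

namespace Pool.Agent.W5h49.EC

open Pool.Agent.W71.EC Pool.Agent.W5h83.HG

variable {n : ℕ}

/-- continuity of integrals over the unit ball depending on a parameter -/
theorem cont_ball_int {P : Type} [TopologicalSpace P] {F : Type} [NormedAddCommGroup F]
    [NormedSpace ℝ F] {G : P → R2 n → F} (hG : Continuous (Function.uncurry G)) :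
    Continuous (fun p => ∫ y in ball (0 : R2 n) 1, G p y) := by
  have hGp : ∀ p, Continuous (G p) := fun p =>
    hG.comp ((continuous_const (y := p)).prodMk continuous_id)
  have hint : ∀ p, IntegrableOn (G p) (ball (0 : R2 n) 1) := fun p =>
    ((hGp p).continuousOn.integrableOn_compact (isCompact_closedBall (0 : R2 n) 1)).mono_set
      ball_subset_closedBall
  rw [continuous_iff_continuousAt]
  intro p0
  rw [ContinuousAt, Metric.tendsto_nhds]
  intro ε hε
  set V : ℝ := volume.real (ball (0 : R2 n) 1) with hV
  have hV0 : 0 ≤ V := measureReal_nonneg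
  have h1 : ∀ᶠ p in 𝓝 p0, ∀ y ∈ closedBall (0 : R2 n) 1, dist (G p y) (G p0 y) < ε / (V + 1) := by
    refine (isCompact_closedBall (0 : R2 n) 1).eventually_forall_of_forall_eventually
      fun y _ => ?_
    have h2 : Continuous (fun z : P × R2 n => dist (G z.1 z.2) (G p0 z.2)) :=
      hG.dist ((hGp p0).comp continuous_snd)
    have h3 : IsOpen {z : P × R2 n | dist (G z.1 z.2) (G p0 z.2) < ε / (V + 1)} :=
      isOpen_lt h2 continuous_const
    refine h3.mem_nhds ?_
    change dist (G p0 y) (G p0 y) < ε / (V + 1)
    rw [dist_self]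
    positivity
  filter_upwards [h1] with p hp
  rw [dist_eq_norm, ← integral_sub (hint p) (hint p0)]
  have h4 : ‖∫ y in ball (0 : R2 n) 1, (G p y - G p0 y)‖ ≤ ε / (V + 1) * V := by
    refine norm_setIntegral_le_of_norm_le_const measure_ball_lt_top fun y hy => ?_
    rw [← dist_eq_norm]
    exact (hp y (ball_subset_closedBall hy)).le
  refine h4.trans_lt ?_
  rw [div_mul_eq_mul_div, div_lt_iff₀ (by positivity)]
  nlinarith

theorem ca1 (n : ℕ) : S_CA1 n := by
  intro C _ f
  have hJ := (JS.of_continuous f.continuous 1).2.2.cont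
  have hG : Continuous (Function.uncurry (fun (z : C × (ℝ × R2 n)) (y : R2 n) =>
      fderiv ℝ (f z.1).toEquiv (z.2.2 - z.2.1 • y))) := by
    refine hJ.comp (f := fun w : (C × (ℝ × R2 n)) × R2 n => (w.1.1, w.1.2.2 - w.1.2.1 • w.2)) ?_
    exact (continuous_fst.comp continuous_fst).prodMk
      ((continuous_snd.comp (continuous_snd.comp continuous_fst)).sub
        ((continuous_fst.comp (continuous_snd.comp continuous_fst)).smul continuous_snd))
  have h := (cont_ball_int hG).const_smul ((volume.real (ball (0 : R2 n) 1))⁻¹)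
  refine h.congr fun z => ?_
  rw [CA, setAverage_eq]
  rfl

end Pool.Agent.W5h49.EC
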