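import Pool.Agent.W5h49.EC.Defs6

set_option autoImplicit false

open scoped ContDiff Topology
open MeasureTheory Metric

namespace Pool.Agent.W5h49.EC

open Pool.Agent.W71.EC Pool.Agent.W5h83.HG CubeAux

variable {n : ℕ}

/-- the vector valued form of `setIntegral_scale` -/
theorem setIntegral_scale_vec {E : Type*} [NormedAddCommGroup E] [NormedSpace ℝ E]
    {G : R2 n → E} {r : ℝ} (hr : 0 < r) (x : R2 n) :
    (volume.real (ball (0 : R2 n) 1))⁻¹ • ∫ y in ball (0 : R2 n) 1, G (x - r • y) =
      ⨍ z in ball x r, G z := by
  set d := Module.finrank ℝ (R2 n) with hd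
  have h1 : ∫ y in ball (0 : R2 n) 1, G (x - r • y) =
      ∫ y, (ball x r).indicator G (x - r • y) := by
    rw [← integral_indicator measurableSet_ball]
    refine integral_congr_ae (Filter.Eventually.of_forall fun y => ?_)
    have h2 : y ∈ ball (0 : R2 n) 1 ↔ x - r • y ∈ ball x r := by
      rw [mem_ball_zero_iff, mem_ball, dist_eq_norm]
      have h3 : x - r • y - x = -(r • y) := by abel
      rw [h3, norm_neg, norm_smul, Real.norm_of_nonneg hr.le]
      constructor
      · intro h
        nlinarith
      · intro h
        nlinarith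
    show (ball (0 : R2 n) 1).indicator (fun y => G (x - r • y)) y =
      (ball x r).indicator G (x - r • y)
    by_cases h : y ∈ ball (0 : R2 n) 1
    · rw [Set.indicator_of_mem h, Set.indicator_of_mem (h2.1 h)]
    · rw [Set.indicator_of_notMem h, Set.indicator_of_notMem (fun h' => h (h2.2 h'))]
  have h4 : ∫ y, (ball x r).indicator G (x - r • y) =
      |(r ^ d)⁻¹| • ∫ z in ball x r, G z := by
    have h6 : ∀ y : R2 n, (ball x r).indicator G (x - r • y) =
        (fun u => (ball x r).indicator G (x + u)) ((-r) • y) := by
      intro y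
      show _ = (ball x r).indicator G (x + (-r) • y)
      rw [neg_smul, sub_eq_add_neg]
    simp only [h6]
    rw [Measure.integral_comp_smul (volume : Measure (R2 n))
      (fun u => (ball x r).indicator G (x + u)) (-r), ← hd,
      integral_add_left_eq_self (fun u => (ball x r).indicator G u) x,
      integral_indicator measurableSet_ball, abs_inv, abs_pow, abs_neg, abs_inv, abs_pow]
  have h5 : volume.real (ball x r) = r ^ d * volume.real (ball (0 : R2 n) 1) := by
    rw [measureReal_def, Measure.addHaar_ball_of_pos _ _ hr, ENNReal.toReal_mul,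
      ENNReal.toReal_ofReal (by positivity)]
    rfl
  rw [h1, h4, setAverage_eq, h5, abs_of_pos (by positivity), smul_smul, mul_inv, mul_comm]

theorem ca2_cont (φ : SympCt n) (r : ℝ) (x : R2 n) :
    Continuous fun y : R2 n => fderiv ℝ φ.toEquiv (x - r • y) :=
  (φ.smooth.continuous_fderiv (by simp)).comp (by fun_prop : Continuous fun y : R2 n => x - r • y)

/-- (CA2) evaluation of the averaged differentials -/
theorem ca2 (n : ℕ) : S_CA2 n := by
  intro φ
  have hint : ∀ (r : ℝ) (x : R2 n), IntegrableOn
      (fun y : R2 n => fderiv ℝ φ.toEquiv (x - r • y)) (ball (0 : R2 n) 1) := fun r x =>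
    ((ca2_cont φ r x).continuousOn.integrableOn_compact (isCompact_closedBall 0 1)).mono_set
      ball_subset_closedBall
  have hev : ∀ (r : ℝ) (x v : R2 n), CA φ r x v =
      (volume.real (ball (0 : R2 n) 1))⁻¹ • ∫ y in ball (0 : R2 n) 1, D φ (x - r • y) v := by
    intro r x v
    unfold CA
    rw [setAverage_eq, ContinuousLinearMap.smul_apply,
      ContinuousLinearMap.integral_apply (hint r x)]
    rfl
  refine ⟨fun r hr x v => ?_, fun x v => ?_, fun η hη r x v => ?_⟩
  · rw [hev]
    exact setIntegral_scale_vec (G := fun z => D φ z v) hr x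
  · rw [hev, ← setAverage_eq]
    simp only [zero_smul, sub_zero]
    rw [setAverage_const]
    · exact (measure_ball_pos volume 0 one_pos).ne'
    · exact measure_ball_lt_top.ne
  · unfold MA MD
    rw [ContinuousLinearMap.integral_apply (integrable_smul hη (ca2_cont φ r x))]
    rfl

end Pool.Agent.W5h49.EC
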