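import Pool.Agent.W5h49.EC.Defs

set_option autoImplicit false

open scoped ContDiff Topology
open MeasureTheory Metric

namespace Pool.Agent.W5h49.EC

open Pool.Agent.W71.EC

namespace CubeAux

variable {n : ℕ}

instance haar : (volume : Measure (R2 n)).IsAddHaarMeasure :=
  Measure.prod.instIsAddHaarMeasure (volume : Measure (Fin n → ℝ)) (volume : Measure (Fin n → ℝ))

/-- the Euclidean inner product -/
def ip (u w : R2 n) : ℝ := ∑ i, (u.1 i * w.1 i + u.2 i * w.2 i)

theorem nsq_add (a b : R2 n) : nsq (a + b) = nsq a + nsq b + 2 * ip a b := by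
  unfold nsq ip
  rw [Finset.mul_sum, ← Finset.sum_add_distrib, ← Finset.sum_add_distrib]
  refine Finset.sum_congr rfl fun i _ => ?_
  simp only [Prod.fst_add, Prod.snd_add, Pi.add_apply]
  ring

theorem nsq_nonneg (v : R2 n) : 0 ≤ nsq v := by
  unfold nsq
  exact Finset.sum_nonneg fun i _ => by positivity

theorem nsq_pos {v : R2 n} (hv : v ≠ 0) : 0 < nsq v := by
  refine lt_of_le_of_ne (nsq_nonneg v) fun h => hv ?_
  unfold nsq at h
  have h1 := (Finset.sum_eq_zero_iff_of_nonneg (fun i _ => by positivity)).1 h.symm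
  ext i
  · have h2 := h1 i (Finset.mem_univ i)
    have h3 : v.1 i ^ 2 = 0 := by nlinarith [sq_nonneg (v.1 i), sq_nonneg (v.2 i)]
    simpa using h3
  · have h2 := h1 i (Finset.mem_univ i)
    have h3 : v.2 i ^ 2 = 0 := by nlinarith [sq_nonneg (v.1 i), sq_nonneg (v.2 i)]
    simpa using h3

theorem nsq_zero : nsq (0 : R2 n) = 0 := by
  unfold nsq
  simp

theorem continuous_nsq : Continuous (nsq : R2 n → ℝ) := by
  unfold nsq
  fun_prop

/-- the inner product with `w` -/
noncomputable def ipL (w : R2 n) : R2 n →L[ℝ] ℝ :=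
  LinearMap.toContinuousLinearMap
    { toFun := fun u => ip u w
      map_add' := fun a b => by
        unfold ip
        rw [← Finset.sum_add_distrib]
        refine Finset.sum_congr rfl fun i _ => ?_
        simp only [Prod.fst_add, Prod.snd_add, Pi.add_apply]
        ring
      map_smul' := fun c a => by
        unfold ip
        rw [RingHom.id_apply, smul_eq_mul, Finset.mul_sum]
        refine Finset.sum_congr rfl fun i _ => ?_
        simp only [Prod.smul_fst, Prod.smul_snd, Pi.smul_apply, smul_eq_mul]
        ring }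

theorem ipL_apply (u w : R2 n) : ipL w u = ip u w := rfl

theorem continuous_D (φ : SympCt n) (v : R2 n) : Continuous fun z => D φ z v := by
  have h : Continuous (fderiv ℝ φ.toEquiv) := φ.smooth.continuous_fderiv (by simp)
  exact h.clm_apply continuous_const

theorem continuous_Dr (φ : SympCt n) (r : ℝ) (x v : R2 n) :
    Continuous fun y : R2 n => D φ (x - r • y) v :=
  (continuous_D φ v).comp (by fun_prop : Continuous fun y : R2 n => x - r • y)

theorem integrable_smul {η : R2 n → ℝ} (hη : Moll η) {E : Type*} [NormedAddCommGroup E]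
    [NormedSpace ℝ E] {f : R2 n → E} (hf : Continuous f) :
    Integrable fun y => η y • f y := by
  refine (hη.smooth.continuous.smul hf).integrable_of_hasCompactSupport ?_
  exact hη.cpt.smul_right

/-- the mean minimizes the variance -/
theorem var_le {η : R2 n → ℝ} (hη : Moll η) {A : R2 n → R2 n} (hA : Continuous A) (c : R2 n) :
    ∫ y, η y * nsq (A y - ∫ z, η z • A z) ≤ ∫ y, η y * nsq (A y - c) := by
  set m := ∫ z, η z • A z with hm
  have h0 : ∫ y, η y • (A y - m) = 0 := by
    have h1 : (fun y => η y • (A y - m)) = fun y => η y • A y - η y • m := by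
      funext y
      rw [smul_sub]
    rw [h1, integral_sub (integrable_smul hη hA) (integrable_smul hη continuous_const), ← hm,
      integral_smul_const, hη.integral, one_smul, sub_self]
  have h2 : ∫ y, η y * ip (A y - m) (m - c) = 0 := by
    have h3 := ContinuousLinearMap.integral_comp_comm (ipL (m - c))
      (integrable_smul hη (hA.sub continuous_const) (f := fun y => A y - m))
    rw [h0, map_zero] at h3
    rw [← h3]
    refine integral_congr_ae (Filter.Eventually.of_forall fun y => ?_)
    show η y * ip (A y - m) (m - c) = ipL (m - c) (η y • (A y - m))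
    rw [map_smul, ipL_apply, smul_eq_mul]
  have hc1 : Continuous fun y => nsq (A y - m) := continuous_nsq.comp (hA.sub continuous_const)
  have hc2 : Continuous fun y => ip (A y - m) (m - c) :=
    (ipL (m - c)).continuous.comp (hA.sub continuous_const)
  have h4 : ∫ y, η y * nsq (A y - c) =
      ∫ y, (η y * nsq (A y - m) + (η y * nsq (m - c) + 2 * (η y * ip (A y - m) (m - c)))) := by
    refine integral_congr_ae (Filter.Eventually.of_forall fun y => ?_)
    have h5 : A y - c = (A y - m) + (m - c) := by abel
    show η y * nsq (A y - c) = _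
    rw [h5, nsq_add]
    ring
  have i1 : Integrable fun y => η y * nsq (A y - m) := integrable_smul hη hc1
  have i2 : Integrable fun y => η y * nsq (m - c) := integrable_smul hη continuous_const
  have i3 : Integrable fun y => 2 * (η y * ip (A y - m) (m - c)) :=
    (integrable_smul hη hc2).const_mul 2
  have i23 : Integrable fun y => η y * nsq (m - c) + 2 * (η y * ip (A y - m) (m - c)) :=
    i2.add i3
  rw [h4, integral_add i1 i23, integral_add i2 i3, integral_const_mul, h2, mul_zero,
    add_zero, integral_mul_const, hη.integral, one_mul]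
  have := nsq_nonneg (m - c)
  linarith

theorem exists_moll (n : ℕ) {k : ℝ} (hk : 0 < k) : ∃ η : R2 n → ℝ, Moll η ∧
    (∀ y, y ∉ ball (0 : R2 n) 1 → η y = 0) ∧
    ∀ y, η y ≤ (1 + k) / volume.real (ball (0 : R2 n) 1) := by
  set d := Module.finrank ℝ (R2 n) with hd
  obtain ⟨K, hK1, hK⟩ : ∃ K : ℝ, 1 < K ∧ K ^ d < 1 + k := by
    have h1 : Filter.Tendsto (fun K : ℝ => K ^ d) (𝓝[>] 1) (𝓝 (1 ^ d)) :=
      ((continuous_pow d).tendsto 1).mono_left nhdsWithin_le_nhds
    rw [one_pow] at h1
    have h2 : ∀ᶠ K : ℝ in 𝓝[>] 1, K ^ d < 1 + k := h1.eventually (gt_mem_nhds (by linarith))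
    obtain ⟨K, h3, h4⟩ := (h2.and self_mem_nhdsWithin).exists
    exact ⟨K, h4, h3⟩
  have hKpos : 0 < K := by linarith
  let f : ContDiffBump (0 : R2 n) := ⟨K⁻¹, 1, inv_pos.2 hKpos, inv_lt_one_of_one_lt₀ hK1⟩
  refine ⟨f.normed volume, ⟨?_, f.hasCompactSupport_normed, f.nonneg_normed, f.integral_normed⟩,
    ?_, ?_⟩
  · exact f.contDiff_normed
  · intro y hy
    by_contra h
    have h1 : y ∈ Function.support (f.normed volume) := h
    rw [f.support_normed_eq] at h1
    exact hy h1
  · intro y
    have h1 := f.normed_le_div_measure_closedBall_rOut (μ := volume) K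
      (by show (1 : ℝ) ≤ K * K⁻¹; rw [mul_inv_cancel₀ hKpos.ne']) y
    have h2 : volume.real (closedBall (0 : R2 n) f.rOut) = volume.real (ball (0 : R2 n) 1) := by
      have h3 := Measure.addHaar_real_closedBall (volume : Measure (R2 n)) 0
        (show (0 : ℝ) ≤ f.rOut from zero_le_one)
      rw [h3]
      show (1 : ℝ) ^ _ * _ = _
      rw [one_pow, one_mul]
    rw [h2] at h1
    refine h1.trans ?_
    gcongr

theorem pos_ball : 0 < volume.real (ball (0 : R2 n) 1) :=
  ENNReal.toReal_pos (measure_ball_pos _ _ one_pos).ne' measure_ball_lt_top.ne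

/-- change of variables -/
theorem setIntegral_scale {G : R2 n → ℝ} {r : ℝ} (hr : 0 < r) (x : R2 n) :
    (volume.real (ball (0 : R2 n) 1))⁻¹ * ∫ y in ball (0 : R2 n) 1, G (x - r • y) =
      ⨍ z in ball x r, G z := by
  set d := Module.finrank ℝ (R2 n) with hd
  have h1 : ∫ y in ball (0 : R2 n) 1, G (x - r • y) =
      ∫ y, (ball x r).indicator G (x - r • y) := by
    rw [← integral_indicator measurableSet_ball]
    refine integral_congr_ae (Filter.Eventually.of_forall fun y => ?_)
    have h2 : y ∈ ball (0 : R2 n) 1 ↔ x - r • y ∈ ball x r := by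
      rw [mem_ball_zero_iff, mem_ball, dist_eq_norm]
      have h3 : x - r • y - x = -(r • y) := by abel
      rw [h3, norm_neg, norm_smul, Real.norm_of_nonneg hr.le]
      constructor
      · intro h
        nlinarith
      · intro h
        nlinarith
    show (ball (0 : R2 n) 1).indicator (fun y => G (x - r • y)) y =
      (ball x r).indicator G (x - r • y)
    by_cases h : y ∈ ball (0 : R2 n) 1
    · rw [Set.indicator_of_mem h, Set.indicator_of_mem (h2.1 h)]
    · rw [Set.indicator_of_notMem h, Set.indicator_of_notMem (fun h' => h (h2.2 h'))]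
  have h4 : ∫ y, (ball x r).indicator G (x - r • y) =
      |(r ^ d)⁻¹| • ∫ z in ball x r, G z := by
    have h6 : ∀ y : R2 n, (ball x r).indicator G (x - r • y) =
        (fun u => (ball x r).indicator G (x + u)) ((-r) • y) := by
      intro y
      show _ = (ball x r).indicator G (x + (-r) • y)
      rw [neg_smul, sub_eq_add_neg]
    simp only [h6]
    rw [Measure.integral_comp_smul (volume : Measure (R2 n))
      (fun u => (ball x r).indicator G (x + u)) (-r), ← hd,
      integral_add_left_eq_self (fun u => (ball x r).indicator G u) x,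
      integral_indicator measurableSet_ball, abs_inv, abs_pow, abs_neg, abs_inv, abs_pow]
  have h5 : volume.real (ball x r) = r ^ d * volume.real (ball (0 : R2 n) 1) := by
    rw [measureReal_def, Measure.addHaar_ball_of_pos _ _ hr, ENNReal.toReal_mul,
      ENNReal.toReal_ofReal (by positivity)]
    rfl
  rw [h1, h4, setAverage_eq, h5, abs_of_pos (by positivity), smul_eq_mul, smul_eq_mul, mul_inv]
  ring

end CubeAux

open CubeAux

theorem cube (n : ℕ) : S_CUBE n := by
  intro θ hθ
  obtain ⟨η, hη, hη0, hη1⟩ := exists_moll n (k := (1 - θ) / 2) (by linarith)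
  refine ⟨η, hη, fun φ hφ r hr x v hv => ?_⟩
  have hvpos := nsq_pos hv
  rcases hr.eq_or_lt with h0 | hr
  · -- `r = 0`
    have h1 : ∀ y : R2 n, D φ (x - r • y) v = D φ x v := by
      intro y
      rw [← h0, zero_smul, sub_zero]
    unfold MD
    simp only [h1]
    rw [integral_smul_const, hη.integral, one_smul, sub_self, nsq_zero]
    simp only [mul_zero, integral_zero]
    exact hvpos
  · set c := ⨍ z in ball x r, D φ z v with hc
    have h1 := var_le hη (continuous_Dr φ r x v) c
    refine lt_of_le_of_lt h1 ?_
    have hcont : Continuous fun y : R2 n => nsq (D φ (x - r • y) v - c) :=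
      continuous_nsq.comp ((continuous_Dr φ r x v).sub continuous_const)
    have h2 : ∫ y, η y * nsq (D φ (x - r • y) v - c) =
        ∫ y in ball (0 : R2 n) 1, η y * nsq (D φ (x - r • y) v - c) := by
      rw [setIntegral_eq_integral_of_forall_compl_eq_zero]
      intro y hy
      rw [hη0 y hy, zero_mul]
    have hint : IntegrableOn (fun y : R2 n => nsq (D φ (x - r • y) v - c)) (ball (0 : R2 n) 1) :=
      (hcont.continuousOn.integrableOn_compact (isCompact_closedBall 0 1)).mono_set
        ball_subset_closedBall
    have h3 : ∫ y in ball (0 : R2 n) 1, η y * nsq (D φ (x - r • y) v - c) ≤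
        ∫ y in ball (0 : R2 n) 1, (1 + (1 - θ) / 2) / volume.real (ball (0 : R2 n) 1) *
          nsq (D φ (x - r • y) v - c) := by
      refine integral_mono (integrable_smul hη hcont).integrableOn (hint.const_mul _) fun y => ?_
      exact mul_le_mul_of_nonneg_right (hη1 y) (nsq_nonneg _)
    rw [h2]
    refine lt_of_le_of_lt h3 ?_
    rw [integral_const_mul]
    have h4 := setIntegral_scale (G := fun z => nsq (D φ z v - c)) hr x
    have h5 := hφ r hr x v
    rw [← hc] at h5
    have h6 : (1 + (1 - θ) / 2) / volume.real (ball (0 : R2 n) 1) *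
        ∫ y in ball (0 : R2 n) 1, nsq (D φ (x - r • y) v - c) =
        (1 + (1 - θ) / 2) * ⨍ z in ball x r, nsq (D φ z v - c) := by
      rw [← h4]
      ring
    rw [h6]
    have h7 : (1 + (1 - θ) / 2) * ⨍ z in ball x r, nsq (D φ z v - c) ≤
        (1 + (1 - θ) / 2) * (θ * nsq v) :=
      mul_le_mul_of_nonneg_left h5 (by linarith)
    refine lt_of_le_of_lt h7 ?_
    have h8 : (1 + (1 - θ) / 2) * θ < 1 := by nlinarith
    calc (1 + (1 - θ) / 2) * (θ * nsq v) = ((1 + (1 - θ) / 2) * θ) * nsq v := by ring
      _ < 1 * nsq v := mul_lt_mul_of_pos_right h8 hvpos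
      _ = nsq v := one_mul _

end Pool.Agent.W5h49.EC
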