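import Pool.Agent.W5h49.EC.Defs2
import Pool.Agent.W5h49.EC.Cube

set_option autoImplicit false

open scoped ContDiff Topology
open MeasureTheory Metric

namespace Pool.Agent.W5h49.EC

open Pool.Agent.W71.EC CubeAux

/-- From a mollifier close to the normalized indicator of the cube to the variance. -/
theorem var_le_osc {n : ℕ} {η : R2 n → ℝ} (hη : Moll η) {k : ℝ} (hk : 0 ≤ 1 + k)
    (hη0 : ∀ y, y ∉ ball (0 : R2 n) 1 → η y = 0)
    (hη1 : ∀ y, η y ≤ (1 + k) / volume.real (ball (0 : R2 n) 1)) (φ : SympCt n) {r : ℝ}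
    (hr : 0 < r) (x v : R2 n) {θ : ℝ}
    (h5 : ⨍ y in Metric.ball x r, nsq (D φ y v - ⨍ z in Metric.ball x r, D φ z v) ≤ θ * nsq v) :
    ∫ y, η y * nsq (D φ (x - r • y) v - MD η φ r x v) ≤ ((1 + k) * θ) * nsq v := by
  set c := ⨍ z in ball x r, D φ z v with hc
  have h1 := var_le hη (continuous_Dr φ r x v) c
  refine h1.trans ?_
  have hcont : Continuous fun y : R2 n => nsq (D φ (x - r • y) v - c) :=
    continuous_nsq.comp ((continuous_Dr φ r x v).sub continuous_const)
  have h2 : ∫ y, η y * nsq (D φ (x - r • y) v - c) =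
      ∫ y in ball (0 : R2 n) 1, η y * nsq (D φ (x - r • y) v - c) := by
    rw [setIntegral_eq_integral_of_forall_compl_eq_zero]
    intro y hy
    rw [hη0 y hy, zero_mul]
  have hint : IntegrableOn (fun y : R2 n => nsq (D φ (x - r • y) v - c)) (ball (0 : R2 n) 1) :=
    (hcont.continuousOn.integrableOn_compact (isCompact_closedBall 0 1)).mono_set
      ball_subset_closedBall
  have h3 : ∫ y in ball (0 : R2 n) 1, η y * nsq (D φ (x - r • y) v - c) ≤
      ∫ y in ball (0 : R2 n) 1, (1 + k) / volume.real (ball (0 : R2 n) 1) *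
        nsq (D φ (x - r • y) v - c) := by
    refine integral_mono (integrable_smul hη hcont).integrableOn (hint.const_mul _) fun y => ?_
    exact mul_le_mul_of_nonneg_right (hη1 y) (nsq_nonneg _)
  rw [h2]
  refine h3.trans ?_
  rw [integral_const_mul]
  have h4 := setIntegral_scale (G := fun z => nsq (D φ z v - c)) hr x
  have h6 : (1 + k) / volume.real (ball (0 : R2 n) 1) *
      ∫ y in ball (0 : R2 n) 1, nsq (D φ (x - r • y) v - c) =
      (1 + k) * ⨍ z in ball x r, nsq (D φ z v - c) := by
    rw [← h4]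
    ring
  rw [h6, mul_assoc]
  exact mul_le_mul_of_nonneg_left h5 hk

theorem cube2 (n : ℕ) : S_CUBE2 n := by
  intro θ hθ
  obtain ⟨η, hη, hη0, hη1⟩ := exists_moll n (k := (1 - θ) / 2) (by linarith)
  refine ⟨η, max 0 ((1 + (1 - θ) / 2) * θ), hη, ?_, ?_, fun φ R hφ r hr hrR x v => ?_⟩
  · intro y hy
    by_contra h
    exact hy (hη0 y h)
  · refine max_lt one_pos ?_
    nlinarith
  · have hvn := nsq_nonneg v
    rcases hr.eq_or_lt with h0 | hr
    · -- `r = 0`
      have h1 : ∀ y : R2 n, D φ (x - r • y) v = D φ x v := by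
        intro y
        rw [← h0, zero_smul, sub_zero]
      unfold MD
      simp only [h1]
      rw [integral_smul_const, hη.integral, one_smul, sub_self, nsq_zero]
      simp only [mul_zero, integral_zero]
      exact mul_nonneg (le_max_left _ _) hvn
    · refine (var_le_osc hη (by linarith) hη0 hη1 φ hr x v (hφ r hr hrR x v)).trans ?_
      exact mul_le_mul_of_nonneg_right (le_max_right _ _) hvn

end Pool.Agent.W5h49.EC
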