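import Mathlib
import Pool.Agent.W71.EC.Path

set_option autoImplicit false

open scoped ContDiff Topology
open MeasureTheory

namespace Pool.Agent.W5h49.EC

open Pool.Agent.W71.EC

variable {n : ℕ}

/-- the complex structure: `omega v (J v) = |v|²` -/
def J (v : R2 n) : R2 n := (-v.2, v.1)

/-- the square of the Euclidean norm of `v` -/
def nsq (v : R2 n) : ℝ := ∑ i, (v.1 i ^ 2 + v.2 i ^ 2)

/-- the differential of `φ` at `x` in direction `v` -/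
noncomputable def D (φ : SympCt n) (x v : R2 n) : R2 n := fderiv ℝ φ.toEquiv x v

/-- the differential in `x` of `y ↦ F (t, y)` -/
noncomputable def DF (F : ℝ × R2 n → R2 n) (t : ℝ) (x : R2 n) : R2 n →L[ℝ] R2 n :=
  fderiv ℝ (fun y => F (t, y)) x

/-- a mollifier -/
structure Moll (η : R2 n → ℝ) : Prop where
  smooth : ContDiff ℝ ∞ η
  cpt : HasCompactSupport η
  nonneg : ∀ y, 0 ≤ η y
  integral : ∫ y, η y = 1

/-- mollified differential of `φ` at `x`, scale `r`, in direction `v` -/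
noncomputable def MD (η : R2 n → ℝ) (φ : SympCt n) (r : ℝ) (x v : R2 n) : R2 n :=
  ∫ y, η y • D φ (x - r • y) v

/-- small variance at all scales -/
def SmallVar (η : R2 n → ℝ) (φ : SympCt n) : Prop :=
  ∀ (r : ℝ), 0 ≤ r → ∀ x v : R2 n, v ≠ 0 →
    ∫ y, η y * nsq (D φ (x - r • y) v - MD η φ r x v) < nsq v

/-- small mean oscillation of all directional derivatives on all cubes -/
def SmallOsc (θ : ℝ) (φ : SympCt n) : Prop :=
  ∀ (r : ℝ), 0 < r → ∀ x v : R2 n,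
    ⨍ y in Metric.ball x r, nsq (D φ y v - ⨍ z in Metric.ball x r, D φ z v) ≤ θ * nsq v

/-- TASK A (mollified family) -/
def S_MOL (n : ℕ) : Prop := ∀ (φ : SympCt n) (η : R2 n → ℝ), Moll η → ∀ ε : ℝ, 0 < ε →
  ∃ (F : ℝ × R2 n → R2 n) (K : Set (R2 n)) (r : ℝ → ℝ), ContDiff ℝ ∞ F ∧ IsCompact K ∧
    (∀ t, 0 ≤ r t) ∧ (∀ t x, x ∉ K → F (t, x) = x) ∧ (∀ x, F (0, x) = φ.toEquiv x) ∧
    (∀ x, F (1, x) = x) ∧
    ∀ t x, (∀ v, DF F t x v = MD η φ (r t) x v) ∨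
      ‖DF F t x - ContinuousLinearMap.id ℝ (R2 n)‖ ≤ ε

/-- TASK B (variance identity) -/
def S_VAR (n : ℕ) : Prop := ∀ (φ : SympCt n) (η : R2 n → ℝ), Moll η → SmallVar η φ →
  ∀ (r : ℝ), 0 ≤ r → ∀ x v : R2 n, v ≠ 0 → 0 < omega (MD η φ r x v) (MD η φ r x (J v))

/-- TASK C (from cubes to a mollifier) -/
def S_CUBE (n : ℕ) : Prop := ∀ θ : ℝ, θ < 1 → ∃ η : R2 n → ℝ, Moll η ∧
  ∀ φ : SympCt n, SmallOsc θ φ → SmallVar η φ

/-- TASK D (near isometries) -/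
def S_NEAR (n : ℕ) : Prop := ∃ (ε : ℝ) (η : R2 n → ℝ), 0 < ε ∧ Moll η ∧
  ∀ φ : SympCt n, (∀ x v, nsq (D φ x v) ≤ (1 + ε) * nsq v) → SmallVar η φ

/-- the Moser step (helper49) -/
def S_MOSER (n : ℕ) : Prop := ∀ (F : ℝ × R2 n → R2 n) (K : Set (R2 n)), ContDiff ℝ ∞ F →
  IsCompact K → (∀ t x, x ∉ K → F (t, x) = x) →
  (∀ t x v, v ≠ 0 → 0 < omega (DF F t x v) (DF F t x (J v))) →
  ∀ φ ψ : SympCt n, (∀ x, F (0, x) = φ.toEquiv x) → (∀ x, F (1, x) = ψ.toEquiv x) → Joined φ ψ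

end Pool.Agent.W5h49.EC
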