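import Mathlib
import Pool.Agent.W5h49.EC.Defs

set_option autoImplicit false

open scoped ContDiff Topology
open MeasureTheory

namespace Pool.Agent.W5h49.EC

open Pool.Agent.W71.EC

/-- variance of the directional derivatives at most `θ` at the scales `r ≤ R` -/
def VarLe {n : ℕ} (η : R2 n → ℝ) (θ R : ℝ) (φ : SympCt n) : Prop :=
  ∀ (r : ℝ), 0 ≤ r → r ≤ R → ∀ x v : R2 n,
    ∫ y, η y * nsq (D φ (x - r • y) v - MD η φ r x v) ≤ θ * nsq v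

/-- mean oscillation of the directional derivatives at most `θ` on all cubes of half-side at most
`R` -/
def OscLe {n : ℕ} (θ R : ℝ) (φ : SympCt n) : Prop :=
  ∀ (r : ℝ), 0 < r → r ≤ R → ∀ x v : R2 n,
    ⨍ y in Metric.ball x r, nsq (D φ y v - ⨍ z in Metric.ball x r, D φ z v) ≤ θ * nsq v

/-- TASK A2 (mollified family for pairs) -/
def S_MOL2 (n : ℕ) : Prop := ∀ (φ ψ : SympCt n) (η : R2 n → ℝ), Moll η → ∀ R : ℝ, 0 < R →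
  ∃ (F : ℝ × R2 n → R2 n) (K : Set (R2 n)) (c r : ℝ → ℝ), ContDiff ℝ ∞ F ∧ IsCompact K ∧
    (∀ t x, x ∉ K → F (t, x) = x) ∧ (∀ x, F (0, x) = φ.toEquiv x) ∧
    (∀ x, F (1, x) = ψ.toEquiv x) ∧ (∀ t, 0 ≤ r t ∧ r t ≤ R) ∧
    (∀ t, 0 ≤ c t ∧ c t ≤ 1) ∧ (∀ t, c t = 0 ∨ c t = 1 ∨ r t = R) ∧
    ∀ t x v, DF F t x v = (1 - c t) • MD η φ (r t) x v + c t • MD η ψ (r t) x v

/-- TASK B2 (variance identity) -/
def S_VAR2 (n : ℕ) : Prop := ∀ (φ : SympCt n) (η : R2 n → ℝ), Moll η → ∀ θ R : ℝ,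
  VarLe η θ R φ → ∀ r : ℝ, 0 ≤ r → r ≤ R → ∀ x v : R2 n,
    (1 - θ) * nsq v ≤ omega (MD η φ r x v) (MD η φ r x (J v))

/-- TASK C2 (from cubes to a mollifier) -/
def S_CUBE2 (n : ℕ) : Prop := ∀ θ : ℝ, θ < 1 → ∃ (η : R2 n → ℝ) (θ' : ℝ), Moll η ∧
  Function.support η ⊆ Metric.ball 0 1 ∧ θ' < 1 ∧
  ∀ (φ : SympCt n) (R : ℝ), OscLe θ R φ → VarLe η θ' R φ

/-- TASK E (difference of mollified differentials) -/
def S_DIFF (n : ℕ) : Prop := ∀ η : R2 n → ℝ, Moll η → Function.support η ⊆ Metric.ball 0 1 →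
  ∃ C : ℝ, 0 < C ∧ ∀ (φ ψ : SympCt n) (R : ℝ), 0 < R → ∀ x v : R2 n,
    nsq (MD η φ R x v - MD η ψ R x v) ≤
      (C / R * ⨍ y in Metric.ball x R, ‖φ.toEquiv y - ψ.toEquiv y‖) ^ 2 * nsq v

/-- TASK G (compactness) -/
def S_CODE (n : ℕ) : Prop := ∀ (η : R2 n → ℝ), Moll η → ∀ (K : Set (R2 n)), IsCompact K →
  ∀ R κ : ℝ, 0 < R → 0 < κ → ∃ (N : ℕ) (code : SympCt n → Fin N), ∀ φ ψ : SympCt n,
    φ ∈ supportedIn K → ψ ∈ supportedIn K → code φ = code ψ →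
    ∀ x v : R2 n, nsq (MD η φ R x v - MD η ψ R x v) ≤ κ * nsq v

/-- TASK H (local near isometries: the pulled back metric oscillates little at the scale `R`) -/
def S_NEARLOC (n : ℕ) : Prop := ∀ Λ θ : ℝ, 0 < Λ → 0 < θ → ∃ (ε c : ℝ) (η : R2 n → ℝ),
  0 < ε ∧ 0 < c ∧ Moll η ∧ Function.support η ⊆ Metric.ball 0 1 ∧
  ∀ (φ : SympCt n) (R : ℝ), (∀ x v, nsq (D φ x v) ≤ Λ * nsq v) →
    (∀ x y v, ‖x - y‖ ≤ R → nsq (D φ y v) ≤ (1 + ε) * nsq (D φ x v)) → VarLe η θ (c * R) φ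

end Pool.Agent.W5h49.EC
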