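import Mathlib
import Pool.Agent.W5h49.EC.Defs

set_option autoImplicit false

open scoped ContDiff Topology

namespace Pool.Agent.W5h49.EC

open Pool.Agent.W71.EC

variable {n : ℕ}

/-- `omega` as a continuous bilinear form -/
noncomputable def W (n : ℕ) : R2 n →L[ℝ] R2 n →L[ℝ] ℝ :=
  LinearMap.toContinuousLinearMap
    ({ toFun := fun u => LinearMap.toContinuousLinearMap
        ({ toFun := fun v => omega u v
           map_add' := fun v v' => omega_add_right u v v'
           map_smul' := fun c v => omega_smul_right c u v } : R2 n →ₗ[ℝ] ℝ)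
       map_add' := fun u u' => by
        ext v
        all_goals exact omega_add_left _ _ _
       map_smul' := fun c u => by
        ext v
        all_goals exact omega_smul_left _ _ _ } : R2 n →ₗ[ℝ] (R2 n →L[ℝ] ℝ))

theorem W_apply (u v : R2 n) : W n u v = omega u v := rfl

theorem W_anti (u v : R2 n) : W n u v = - W n v u := by
  rw [W_apply, W_apply]
  unfold omega
  rw [← Finset.sum_neg_distrib]
  exact Finset.sum_congr rfl fun i _ => by ring

theorem omJ (v : R2 n) : omega v (J v) = nsq v := by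
  unfold omega J nsq
  refine Finset.sum_congr rfl fun i _ => ?_
  simp only [Pi.neg_apply]
  ring

theorem nsqNN (v : R2 n) : 0 ≤ nsq v := Finset.sum_nonneg fun i _ => by positivity

theorem nsqPos {v : R2 n} (hv : v ≠ 0) : 0 < nsq v := by
  refine lt_of_le_of_ne (nsqNN v) fun h => hv ?_
  have h1 := (Finset.sum_eq_zero_iff_of_nonneg (fun i _ => by positivity)).1 h.symm
  refine Prod.ext (funext fun i => ?_) (funext fun i => ?_)
  · have := h1 i (Finset.mem_univ i)
    have h2 : v.1 i ^ 2 = 0 := by nlinarith [sq_nonneg (v.1 i), sq_nonneg (v.2 i)]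
    simpa using h2
  · have := h1 i (Finset.mem_univ i)
    have h2 : v.2 i ^ 2 = 0 := by nlinarith [sq_nonneg (v.1 i), sq_nonneg (v.2 i)]
    simpa using h2

/-- the interpolated form `(1 - s) ω + s A^* ω` -/
noncomputable def Om (s : ℝ) (A : R2 n →L[ℝ] R2 n) : R2 n →L[ℝ] R2 n →L[ℝ] ℝ :=
  (1 - s) • W n + s • (((ContinuousLinearMap.compL ℝ (R2 n) (R2 n) ℝ).flip A).comp ((W n).comp A))

theorem Om_apply (s : ℝ) (A : R2 n →L[ℝ] R2 n) (u v : R2 n) :
    Om s A u v = (1 - s) * W n u v + s * W n (A u) (A v) := by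
  unfold Om
  simp

theorem smul_smooth {P F : Type*} [NormedAddCommGroup P] [NormedSpace ℝ P] [NormedAddCommGroup F]
    [NormedSpace ℝ F] {s : P → ℝ} {f : P → F} (hs : ContDiff ℝ ∞ s) (hf : ContDiff ℝ ∞ f) :
    ContDiff ℝ ∞ (fun p => s p • f p) := hs.smul hf

theorem Om_smooth {P : Type*} [NormedAddCommGroup P] [NormedSpace ℝ P] {s : P → ℝ}
    {A : P → R2 n →L[ℝ] R2 n} (hs : ContDiff ℝ ∞ s) (hA : ContDiff ℝ ∞ A) :
    ContDiff ℝ ∞ (fun p => Om (s p) (A p)) := by
  unfold Om
  have h1 : ContDiff ℝ ∞ (fun p => (ContinuousLinearMap.compL ℝ (R2 n) (R2 n) ℝ).flip (A p)) :=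
    (ContinuousLinearMap.contDiff _).comp hA
  have h2 : ContDiff ℝ ∞ (fun p => (W n).comp (A p)) := contDiff_const.clm_comp hA
  exact (smul_smooth (contDiff_const.sub hs) contDiff_const).add
    (smul_smooth hs (h1.clm_comp h2))

/-- an injective map between spaces of the same dimension is invertible -/
theorem exists_equiv {E F : Type*} [NormedAddCommGroup E] [NormedSpace ℝ E]
    [FiniteDimensional ℝ E] [NormedAddCommGroup F] [NormedSpace ℝ F] [FiniteDimensional ℝ F]
    (hd : Module.finrank ℝ E = Module.finrank ℝ F) (L : E →L[ℝ] F) (hL : ∀ v, L v = 0 → v = 0) :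
    ∃ e : E ≃L[ℝ] F, (e : E →L[ℝ] F) = L := by
  have hi : Function.Injective (L : E →ₗ[ℝ] F) := by
    rw [← LinearMap.ker_eq_bot, LinearMap.ker_eq_bot']
    exact hL
  refine ⟨(LinearEquiv.ofInjectiveOfFinrankEq (L : E →ₗ[ℝ] F) hi hd).toContinuousLinearEquiv, ?_⟩
  ext v
  rfl

theorem finrank_dual : Module.finrank ℝ (R2 n) = Module.finrank ℝ (R2 n →L[ℝ] ℝ) := by
  have h1 : Module.finrank ℝ (R2 n →L[ℝ] ℝ) = Module.finrank ℝ (R2 n →ₗ[ℝ] ℝ) :=
    (LinearMap.toContinuousLinearMap (𝕜 := ℝ) (E := R2 n) (F' := ℝ)).symm.finrank_eq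
  rw [h1, Module.finrank_linearMap]
  simp

/-- taming implies that the interpolated forms are nondegenerate -/
theorem Om_inj {s : ℝ} (h0 : 0 ≤ s) (h1 : s ≤ 1) {A : R2 n →L[ℝ] R2 n}
    (hA : ∀ v, v ≠ 0 → 0 < omega (A v) (A (J v))) (v : R2 n) (h : Om s A v = 0) : v = 0 := by
  by_contra hv
  have h2 : Om s A v (J v) = 0 := by rw [h]; rfl
  rw [Om_apply, W_apply, W_apply, omJ] at h2
  have h3 := nsqPos hv
  have h4 := hA v hv
  rcases eq_or_lt_of_le h0 with h5 | h5
  · rw [← h5] at h2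
    linarith
  · nlinarith [mul_pos h5 h4, mul_nonneg (sub_nonneg.2 h1) h3.le]

theorem A_inj {A : R2 n →L[ℝ] R2 n}
    (hA : ∀ v, v ≠ 0 → 0 < omega (A v) (A (J v))) (v : R2 n) (h : A v = 0) : v = 0 := by
  by_contra hv
  have h4 := hA v hv
  rw [h] at h4
  have : omega (0 : R2 n) (A (J v)) = 0 := by
    simp [omega]
  linarith

/-- inverse of a smooth family of invertible maps -/
theorem inverse_smooth {P E F : Type*} [NormedAddCommGroup P] [NormedSpace ℝ P]
    [NormedAddCommGroup E] [NormedSpace ℝ E]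
    [FiniteDimensional ℝ E] [NormedAddCommGroup F] [NormedSpace ℝ F] [FiniteDimensional ℝ F]
    (hd : Module.finrank ℝ E = Module.finrank ℝ F) {L : P → E →L[ℝ] F} (hL : ContDiff ℝ ∞ L)
    (hi : ∀ p v, L p v = 0 → v = 0) : ContDiff ℝ ∞ (fun p => (L p).inverse) := by
  have : CompleteSpace E := FiniteDimensional.complete ℝ E
  rw [contDiff_iff_contDiffAt]
  intro p
  obtain ⟨e, he⟩ := exists_equiv hd (L p) (hi p)
  have h1 : ContDiffAt ℝ ∞ ContinuousLinearMap.inverse (L p) := by
    rw [← he]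
    exact contDiffAt_map_inverse e
  exact h1.comp p hL.contDiffAt

theorem inverse_apply {E F : Type*} [NormedAddCommGroup E] [NormedSpace ℝ E]
    [FiniteDimensional ℝ E] [NormedAddCommGroup F] [NormedSpace ℝ F] [FiniteDimensional ℝ F]
    (hd : Module.finrank ℝ E = Module.finrank ℝ F) (L : E →L[ℝ] F) (hL : ∀ v, L v = 0 → v = 0)
    (y : F) : L (L.inverse y) = y := by
  obtain ⟨e, he⟩ := exists_equiv hd L hL
  rw [← he, ContinuousLinearMap.inverse_equiv]
  simp

end Pool.Agent.W5h49.EC
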