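import Mathlib
import Pool.Agent.W5h49.EC.Flow
import Pool.Agent.W5h49.EC.Calc
import Pool.Agent.W5h49.EC.Lin

set_option autoImplicit false

open scoped ContDiff Topology
open Set

namespace Pool.Agent.W5h49.EC

open Pool.Agent.W71.EC

variable {n : ℕ}

/-- cutoff: one on `[-1, 2]`, zero outside `[-2, 3]` -/
noncomputable def rho (t : ℝ) : ℝ := Real.smoothTransition (t + 2) * Real.smoothTransition (3 - t)

theorem rho_smooth : ContDiff ℝ ∞ rho :=
  (Real.smoothTransition.contDiff.comp (contDiff_id.add contDiff_const)).mul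
    (Real.smoothTransition.contDiff.comp (contDiff_const.sub contDiff_id))

theorem rho_one {t : ℝ} (h0 : 0 ≤ t) (h1 : t ≤ 1) : rho t = 1 := by
  unfold rho
  rw [Real.smoothTransition.one_of_one_le (by linarith),
    Real.smoothTransition.one_of_one_le (by linarith), one_mul]

theorem rho_zero {t : ℝ} (h : t ∉ Icc (-2 : ℝ) 3) : rho t = 0 := by
  unfold rho
  by_cases h1 : t + 2 ≤ 0
  · rw [Real.smoothTransition.zero_of_nonpos h1, zero_mul]
  · rw [Real.smoothTransition.zero_of_nonpos (x := 3 - t), mul_zero]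
    by_contra h2
    exact h ⟨by linarith, by linarith⟩

theorem step_deriv_zero {s : ℝ} (h : s ∉ Icc (0 : ℝ) 1) : deriv Real.smoothTransition s = 0 := by
  by_cases h1 : s < 0
  · have : Real.smoothTransition =ᶠ[𝓝 s] fun _ => (0 : ℝ) := by
      filter_upwards [gt_mem_nhds h1] with r hr
      exact Real.smoothTransition.zero_of_nonpos hr.le
    rw [this.deriv_eq, deriv_const]
  · have h2 : 1 < s := by
      by_contra h2
      exact h ⟨by linarith, by linarith⟩
    have : Real.smoothTransition =ᶠ[𝓝 s] fun _ => (1 : ℝ) := by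
      filter_upwards [lt_mem_nhds h2] with r hr
      exact Real.smoothTransition.one_of_one_le hr.le
    rw [this.deriv_eq, deriv_const]

theorem step_deriv_smooth : ContDiff ℝ ∞ (deriv Real.smoothTransition) :=
  (contDiff_infty_iff_deriv.1 Real.smoothTransition.contDiff).2

/-- the differential in `x` as a smooth family of linear maps -/
noncomputable def DFm (F : ℝ × R2 n → R2 n) (z : ℝ × R2 n) : R2 n →L[ℝ] R2 n :=
  (fderiv ℝ F z).comp (ContinuousLinearMap.inr ℝ ℝ (R2 n))

theorem DFm_smooth {F : ℝ × R2 n → R2 n} (hF : ContDiff ℝ ∞ F) : ContDiff ℝ ∞ (DFm F) :=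
  (hF.fderiv_right (m := ∞) (by simp)).clm_comp contDiff_const

theorem DFm_apply (F : ℝ × R2 n → R2 n) (z : ℝ × R2 n) (v : R2 n) :
    DFm F z v = dd F (iv v) z := rfl

theorem DFm_eq {F : ℝ × R2 n → R2 n} (hF : ContDiff ℝ ∞ F) (t : ℝ) (x : R2 n) :
    DF F t x = DFm F (t, x) := by
  have h1 : HasFDerivAt F (fderiv ℝ F (t, x)) (t, x) :=
    ((hF.differentiable (by simp)) _).hasFDerivAt
  have h2 : HasFDerivAt (fun y : R2 n => ((t, y) : ℝ × R2 n))
      (ContinuousLinearMap.inr ℝ ℝ (R2 n)) x := by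
    have := (hasFDerivAt_const (𝕜 := ℝ) (E := R2 n) t x).prodMk
      (hasFDerivAt_id (𝕜 := ℝ) (E := R2 n) x)
    exact this
  exact (h1.comp x h2).fderiv

/-- constancy on an interval -/
theorem const_Icc {f : ℝ → R2 n} (h : ∀ t ∈ Icc (0 : ℝ) 1, HasDerivAt f 0 t) :
    ∀ t ∈ Icc (0 : ℝ) 1, f t = f 0 :=
  constant_of_has_deriv_right_zero (fun t ht => (h t ht).continuousAt.continuousWithinAt)
    fun t ht => (h t ⟨ht.1, ht.2.le⟩).hasDerivWithinAt

/-- A smooth family of local diffeomorphisms, the identity outside a compact set, which starts with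
a bijection consists of bijections. -/
theorem bij {F : ℝ × R2 n → R2 n} (hF : ContDiff ℝ ∞ F) {K : Set (R2 n)} (hK : IsCompact K)
    (h0 : ∀ t x, x ∉ K → F (t, x) = x) (hinj : ∀ z v, DFm F z v = 0 → v = 0)
    (hb : Function.Bijective (fun x => F (0, x))) :
    ∀ t ∈ Icc (0 : ℝ) 1, Function.Bijective (fun x => F (t, x)) := by
  set Z : ℝ × R2 n → R2 n := fun z => - (rho z.1 • (DFm F z).inverse (dd F (ee (R2 n)) z)) with hZ
  have hZs : ContDiff ℝ ∞ Z := by
    refine ContDiff.neg (smul_smooth (rho_smooth.comp contDiff_fst) ?_)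
    exact (inverse_smooth rfl (DFm_smooth hF) hinj).clm_apply (dd_smooth hF _)
  have hline : ∀ (t : ℝ) (x : R2 n),
      HasDerivAt (fun r : ℝ => ((r, x) : ℝ × R2 n)) (ee (R2 n)) t := fun t x =>
    (hasDerivAt_id t).prodMk (hasDerivAt_const t x)
  have hddt : ∀ t x, x ∉ K → dd F (ee (R2 n)) (t, x) = 0 := by
    intro t x hx
    have h1 := (((hF.differentiable (by simp)) (t, x)).hasFDerivAt).comp_hasDerivAt t (hline t x)
    have h2 : (F ∘ fun r : ℝ => ((r, x) : ℝ × R2 n)) = fun _ => x := by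
      funext r
      exact h0 r x hx
    rw [h2] at h1
    exact h1.unique (hasDerivAt_const t x)
  have hZc : HasCompactSupport Z := by
    refine HasCompactSupport.intro ((isCompact_Icc (a := (-2 : ℝ)) (b := 3)).prod hK) ?_
    rintro ⟨t, x⟩ hz
    rw [hZ]
    simp only
    by_cases ht : t ∈ Icc (-2 : ℝ) 3
    · have hx : x ∉ K := fun hx => hz ⟨ht, hx⟩
      rw [hddt t x hx]
      simp
    · rw [rho_zero ht]
      simp
  obtain ⟨Φ, hΦ, hΦ0, hΦd, hΦb, -⟩ := flow_time Z hZs hZc
  intro t ht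
  have key : ∀ x, F (t, Φ (t, x)) = F (0, x) := by
    intro x
    have h1 : ∀ s ∈ Icc (0 : ℝ) 1, HasDerivAt (fun s => F (s, Φ (s, x))) 0 s := by
      intro s hs
      have h2 : HasDerivAt (fun s => ((s, Φ (s, x)) : ℝ × R2 n)) (1, Z (s, Φ (s, x))) s :=
        (hasDerivAt_id s).prodMk (hΦd s x)
      have h3 := (((hF.differentiable (by simp)) (s, Φ (s, x))).hasFDerivAt).comp_hasDerivAt s h2
      have h4 : fderiv ℝ F (s, Φ (s, x)) (1, Z (s, Φ (s, x))) = 0 := by
        have h5 : ((1, Z (s, Φ (s, x))) : ℝ × R2 n) = ee (R2 n) + iv (Z (s, Φ (s, x))) := by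
          simp [ee, iv]
        rw [h5, map_add]
        have h6 : fderiv ℝ F (s, Φ (s, x)) (iv (Z (s, Φ (s, x)))) =
            DFm F (s, Φ (s, x)) (Z (s, Φ (s, x))) := rfl
        rw [h6, hZ]
        simp only
        rw [rho_one hs.1 hs.2, one_smul, map_neg, inverse_apply rfl _ (hinj _)]
        exact add_neg_cancel _
      rw [h4] at h3
      exact h3
    have h2 := const_Icc h1 t ht
    simp only [hΦ0] at h2
    exact h2
  have hcomp : (fun x => F (t, x)) ∘ (fun x => Φ (t, x)) = fun x => F (0, x) := funext key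
  have hb2 : Function.Bijective ((fun x => F (t, x)) ∘ (fun x => Φ (t, x))) := by
    rw [hcomp]
    exact hb
  exact (Function.Bijective.of_comp_iff _ (hΦb t)).1 hb2

end Pool.Agent.W5h49.EC
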