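import Mathlib
import Pool.Agent.W71.EC.Crit
import Pool.Agent.W5h49.EC.Bij

set_option autoImplicit false

open scoped ContDiff Topology
open Set

namespace Pool.Agent.W5h49.EC

open Pool.Agent.W71.EC

variable {n : ℕ}

/-- the primitive `F_t^* λ - λ` -/
noncomputable def al (F : ℝ × R2 n → R2 n) (z : ℝ × R2 n) : R2 n →L[ℝ] ℝ :=
  (1 / 2 : ℝ) • ((W n (F z)).comp (DFm F z) - W n z.2)

theorem al_smooth {F : ℝ × R2 n → R2 n} (hF : ContDiff ℝ ∞ F) : ContDiff ℝ ∞ (al F) := by
  unfold al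
  refine smul_smooth contDiff_const (ContDiff.sub ?_ ?_)
  · exact ((W n).contDiff.comp hF).clm_comp (DFm_smooth hF)
  · exact (W n).contDiff.comp contDiff_snd

/-- the Moser vector field; `q = (s, (t, x))` -/
noncomputable def Xf (F : ℝ × R2 n → R2 n) (q : ℝ × (ℝ × R2 n)) : R2 n :=
  - ((rho q.2.1 * deriv Real.smoothTransition q.1) •
    (Om (Real.smoothTransition q.1) (DFm F q.2)).inverse (al F q.2))

section

variable {F : ℝ × R2 n → R2 n} (hF : ContDiff ℝ ∞ F)
  (tame : ∀ z v, v ≠ 0 → 0 < omega (DFm F z v) (DFm F z (J v)))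

include tame in
theorem Om_inj' (s : ℝ) (z : ℝ × R2 n) (v : R2 n)
    (h : Om (Real.smoothTransition s) (DFm F z) v = 0) : v = 0 :=
  Om_inj (Real.smoothTransition.nonneg s) (Real.smoothTransition.le_one s) (tame z) v h

include hF tame in
theorem Xf_smooth : ContDiff ℝ ∞ (Xf F) := by
  unfold Xf
  refine ContDiff.neg (smul_smooth ?_ ?_)
  · exact (rho_smooth.comp (contDiff_fst.comp contDiff_snd)).mul
      (step_deriv_smooth.comp contDiff_fst)
  · refine (inverse_smooth finrank_dual (L := fun q : ℝ × (ℝ × R2 n) =>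
      Om (Real.smoothTransition q.1) (DFm F q.2)) ?_ ?_).clm_apply
      ((al_smooth hF).comp contDiff_snd)
    · exact Om_smooth (Real.smoothTransition.contDiff.comp contDiff_fst)
        ((DFm_smooth hF).comp contDiff_snd)
    · intro q v h
      exact Om_inj' tame q.1 q.2 v h

include tame in
theorem Xf_eq {t : ℝ} (ht : t ∈ Icc (0 : ℝ) 1) (s : ℝ) (x w : R2 n) :
    Om (Real.smoothTransition s) (DFm F (t, x)) (Xf F (s, (t, x))) w =
      - (deriv Real.smoothTransition s * al F (t, x) w) := by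
  unfold Xf
  simp only
  rw [rho_one ht.1 ht.2, one_mul, map_neg, map_smul,
    inverse_apply finrank_dual _ (fun v h => Om_inj' tame s (t, x) v h)]
  simp

variable {K : Set (R2 n)} (hK : IsCompact K) (h0 : ∀ t x, x ∉ K → F (t, x) = x)

include hK h0 hF in
theorem al_out (t : ℝ) (x : R2 n) (hx : x ∉ K) : al F (t, x) = 0 := by
  have h1 : DFm F (t, x) = ContinuousLinearMap.id ℝ (R2 n) := by
    rw [← DFm_eq hF]
    unfold DF
    have h2 : (fun y => F (t, y)) =ᶠ[𝓝 x] id := by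
      filter_upwards [hK.isClosed.isOpen_compl.mem_nhds hx] with y hy
      exact h0 t y hy
    rw [h2.fderiv_eq, fderiv_id]
  unfold al
  rw [h1, h0 t x hx]
  simp

include hK h0 hF in
theorem Xf_out (q : ℝ × (ℝ × R2 n)) (hq : q ∉ Icc (0 : ℝ) 1 ×ˢ (Icc (-2 : ℝ) 3 ×ˢ K)) :
    Xf F q = 0 := by
  obtain ⟨s, t, x⟩ := q
  unfold Xf
  simp only
  by_cases hs : s ∈ Icc (0 : ℝ) 1
  · by_cases ht : t ∈ Icc (-2 : ℝ) 3
    · have hx : x ∉ K := fun hx => hq ⟨hs, ht, hx⟩
      rw [al_out hF hK h0 t x hx]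
      simp
    · rw [rho_zero ht]
      simp
  · rw [step_deriv_zero hs]
    simp

include hF tame hK h0 in
/-- the flow of the Moser vector field -/
theorem exists_flow : ∃ Φ : ℝ → ℝ × R2 n → R2 n,
    ContDiff ℝ ∞ (fun q : ℝ × (ℝ × R2 n) => Φ q.1 q.2) ∧
    (∀ t x, Φ t (0, x) = x) ∧
    (∀ t s x, HasDerivAt (fun s => Φ t (s, x)) (Xf F (s, (t, Φ t (s, x)))) s) ∧
    (∀ t s, Function.Bijective (fun x => Φ t (s, x))) ∧
    (∀ t x, x ∉ K → ∀ s, Φ t (s, x) = x) := by
  set Y : ℝ × (ℝ × R2 n) → ℝ × R2 n := fun q => (0, Xf F q) with hY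
  have hYs : ContDiff ℝ ∞ Y := contDiff_const.prodMk (Xf_smooth hF tame)
  have hYc : HasCompactSupport Y := by
    refine HasCompactSupport.intro ((isCompact_Icc (a := (0 : ℝ)) (b := 1)).prod
      ((isCompact_Icc (a := (-2 : ℝ)) (b := 3)).prod hK)) ?_
    intro q hq
    rw [hY]
    simp only
    rw [Xf_out hF hK h0 q hq]
    rfl
  obtain ⟨Ψ, hΨ, hΨ0, hΨd, hΨb, hΨc⟩ := flow_time Y hYs hYc
  have hfst : ∀ s t x, (Ψ (s, (t, x))).1 = t := by
    intro s t x
    have h1 : ∀ r, HasDerivAt (fun r => (Ψ (r, (t, x))).1) 0 r := by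
      intro r
      have h3 := (hΨd r (t, x))
      have h4 := (ContinuousLinearMap.fst ℝ ℝ (R2 n)).hasFDerivAt.comp_hasDerivAt r h3
      have h5 : (ContinuousLinearMap.fst ℝ ℝ (R2 n)) (Y (r, Ψ (r, (t, x)))) = 0 := rfl
      rw [h5] at h4
      exact h4
    have h2 := is_const_of_deriv_eq_zero (fun r => (h1 r).differentiableAt)
      (fun r => (h1 r).deriv) s 0
    simp only [hΨ0] at h2
    exact h2
  have hpair : ∀ s t x, Ψ (s, (t, x)) = (t, (Ψ (s, (t, x))).2) := fun s t x =>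
    Prod.ext (hfst s t x) rfl
  refine ⟨fun t q => (Ψ (q.1, (t, q.2))).2, ?_, ?_, ?_, ?_, ?_⟩
  · exact contDiff_snd.comp (hΨ.comp ((contDiff_fst.comp contDiff_snd).prodMk
      (contDiff_fst.prodMk (contDiff_snd.comp contDiff_snd))))
  · intro t x
    simp [hΨ0]
  · intro t s x
    have h3 := (hΨd s (t, x))
    have h4 := (ContinuousLinearMap.snd ℝ ℝ (R2 n)).hasFDerivAt.comp_hasDerivAt s h3
    have h5 : (ContinuousLinearMap.snd ℝ ℝ (R2 n)) (Y (s, Ψ (s, (t, x)))) =
        Xf F (s, (t, (Ψ (s, (t, x))).2)) := by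
      rw [← hpair]
      rfl
    rw [h5] at h4
    exact h4
  · intro t s
    constructor
    · intro x x' h
      have h1 : Ψ (s, (t, x)) = Ψ (s, (t, x')) := by
        rw [hpair, hpair s t x']
        exact Prod.ext rfl h
      have h2 := (hΨb s).1 h1
      exact (Prod.ext_iff.1 h2).2
    · intro y
      obtain ⟨⟨t', x⟩, hx⟩ := (hΨb s).2 (t, y)
      have h1 : t' = t := by
        have := congrArg Prod.fst hx
        simp only [hfst] at this
        exact this
      subst h1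
      refine ⟨x, ?_⟩
      have := congrArg Prod.snd hx
      exact this
  · intro t x hx s
    have h1 := hΨc (t, x) (fun s => by
      rw [hY]
      simp only
      rw [Xf_out hF hK h0 (s, (t, x)) (fun h => hx h.2.2)]
      rfl) s
    simp only
    rw [h1]

include hF tame in
/-- the pulled back forms are constant along the Moser flow -/
theorem moser_const {Φ : ℝ → ℝ × R2 n → R2 n}
    (hΦ : ContDiff ℝ ∞ (fun q : ℝ × (ℝ × R2 n) => Φ q.1 q.2)) (hΦ0 : ∀ t x, Φ t (0, x) = x)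
    (hΦd : ∀ t s x, HasDerivAt (fun s => Φ t (s, x)) (Xf F (s, (t, Φ t (s, x)))) s)
    {t : ℝ} (ht : t ∈ Icc (0 : ℝ) 1) (s : ℝ) (x v w : R2 n) :
    (1 - Real.smoothTransition s) * W n (dd (Φ t) (iv v) (s, x)) (dd (Φ t) (iv w) (s, x))
      + Real.smoothTransition s * W n (DFm F (t, Φ t (s, x)) (dd (Φ t) (iv v) (s, x)))
        (DFm F (t, Φ t (s, x)) (dd (Φ t) (iv w) (s, x))) = W n v w := by
  have hΦt : ContDiff ℝ ∞ (Φ t) := hΦ.comp (contDiff_const.prodMk contDiff_id)
  set f : ℝ × R2 n → R2 n := fun p => F (t, Φ t p) with hf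
  have hfs : ContDiff ℝ ∞ f := hF.comp (contDiff_const.prodMk hΦt)
  have hddf : ∀ (b p : ℝ × R2 n), dd f b p = DFm F (t, Φ t p) (dd (Φ t) b p) := by
    intro b p
    have h1 : HasFDerivAt (fun y => F (t, y)) (DFm F (t, Φ t p)) (Φ t p) := by
      rw [← DFm_eq hF]
      have : ContDiff ℝ ∞ (fun y => F (t, y)) := hF.comp (contDiff_const.prodMk contDiff_id)
      exact ((this.differentiable (by simp)) _).hasFDerivAt
    have h2 : HasFDerivAt (Φ t) (fderiv ℝ (Φ t) p) p :=
      ((hΦt.differentiable (by simp)) _).hasFDerivAt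
    have h3 := h1.comp p h2
    have h4 : HasFDerivAt f ((DFm F (t, Φ t p)).comp (fderiv ℝ (Φ t) p)) p := h3
    unfold dd
    rw [h4.fderiv]
    rfl
  have hdde : ∀ p : ℝ × R2 n, dd (Φ t) (ee (R2 n)) p = Xf F (p.1, (t, Φ t p)) := by
    intro p
    have h1 : HasDerivAt (fun r : ℝ => ((r, p.2) : ℝ × R2 n)) (ee (R2 n)) p.1 :=
      (hasDerivAt_id p.1).prodMk (hasDerivAt_const p.1 p.2)
    have h2 : HasFDerivAt (Φ t) (fderiv ℝ (Φ t) (p.1, p.2)) (p.1, p.2) :=
      ((hΦt.differentiable (by simp)) _).hasFDerivAt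
    have h3 := h2.comp_hasDerivAt p.1 h1
    exact h3.unique (hΦd t p.1 p.2)
  have h := conserve (W n) W_anti Real.smoothTransition Real.smoothTransition.contDiff (Φ t) f
    hΦt hfs (fun p w => ?_) x v w s
  · rw [hddf, hddf] at h
    rw [h, Real.smoothTransition.zero]
    have h1 : ∀ u : R2 n, dd (Φ t) (iv u) (0, x) = u := by
      intro u
      have h2 : HasFDerivAt (fun y : R2 n => Φ t (0, y))
          ((fderiv ℝ (Φ t) (0, x)).comp (ContinuousLinearMap.inr ℝ ℝ (R2 n))) x := by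
        have h3 : HasFDerivAt (Φ t) (fderiv ℝ (Φ t) (0, x)) (0, x) :=
          ((hΦt.differentiable (by simp)) _).hasFDerivAt
        have h4 : HasFDerivAt (fun y : R2 n => ((0, y) : ℝ × R2 n))
            (ContinuousLinearMap.inr ℝ ℝ (R2 n)) x := by
          have := (hasFDerivAt_const (𝕜 := ℝ) (E := R2 n) (0 : ℝ) x).prodMk
            (hasFDerivAt_id (𝕜 := ℝ) (E := R2 n) x)
          exact this
        exact h3.comp x h4
      have h5 : (fun y : R2 n => Φ t (0, y)) = id := funext (hΦ0 t)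
      rw [h5] at h2
      have h6 := h2.unique (hasFDerivAt_id x)
      exact DFunLike.congr_fun h6 u
    rw [h1, h1]
    ring
  · rw [hddf, hddf, hdde]
    have h1 := Xf_eq tame ht p.1 (Φ t p) (dd (Φ t) (iv w) p)
    rw [Om_apply] at h1
    have h2 : al F (t, Φ t p) (dd (Φ t) (iv w) p) = 1 / 2 *
        (W n (f p) (DFm F (t, Φ t p) (dd (Φ t) (iv w) p)) - W n (Φ t p) (dd (Φ t) (iv w) p)) := by
      unfold al
      simp [hf]
    rw [h2] at h1
    linear_combination h1

/-- constructing elements of the group -/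
theorem fderiv_inj_of {f : R2 n → R2 n}
    (hsym : ∀ p u v, omega (fderiv ℝ f p u) (fderiv ℝ f p v) = omega u v) (p v : R2 n)
    (h : fderiv ℝ f p v = 0) : v = 0 := by
  by_contra hv
  have h1 := hsym p v (J v)
  rw [h, omJ] at h1
  have h2 := nsqPos hv
  have h3 : omega (0 : R2 n) (fderiv ℝ f p (J v)) = 0 := by simp [omega]
  linarith

/-- constructing elements of the group -/
noncomputable def mk (f : R2 n → R2 n) (hb : Function.Bijective f) (hs : ContDiff ℝ ∞ f)
    (hsym : ∀ p u v, omega (fderiv ℝ f p u) (fderiv ℝ f p v) = omega u v)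
    (K : Set (R2 n)) (hK : IsCompact K) (h0 : ∀ x, x ∉ K → f x = x) : SympCt n where
  toEquiv := Equiv.ofBijective f hb
  smooth := hs
  smooth_symm := contDiff_symm_of (Equiv.ofBijective f hb) hs
    (fun p v h => fderiv_inj_of hsym p v h)
  symplectic := hsym
  compact_support := ⟨K, hK, h0⟩

/-- a smooth family of symplectic bijections gives joined elements -/
theorem joined_of_family (H : ℝ × R2 n → R2 n) (hH : ContDiff ℝ ∞ H) (K : Set (R2 n))
    (hK : IsCompact K) (h0 : ∀ t x, x ∉ K → H (t, x) = x)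
    (hb : ∀ t, Function.Bijective (fun x => H (t, x)))
    (hsym : ∀ t p u v, omega (DFm H (t, p) u) (DFm H (t, p) v) = omega u v) (φ ψ : SympCt n)
    (hφ : ∀ x, H (0, x) = φ.toEquiv x) (hψ : ∀ x, H (1, x) = ψ.toEquiv x) : Joined φ ψ := by
  have hs : ∀ t, ContDiff ℝ ∞ (fun x => H (t, x)) := fun t =>
    hH.comp (contDiff_const.prodMk contDiff_id)
  have hsym' : ∀ t p u v, omega (fderiv ℝ (fun x => H (t, x)) p u)
      (fderiv ℝ (fun x => H (t, x)) p v) = omega u v := by
    intro t p u v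
    have h1 : fderiv ℝ (fun x => H (t, x)) p = DFm H (t, p) := DFm_eq hH t p
    rw [h1]
    exact hsym t p u v
  let γ : ℝ → SympCt n := fun t => mk (fun x => H (t, x)) (hb t) (hs t) (hsym' t) K hK (h0 t)
  have hc : Continuous γ := continuous_family K hK γ hH (fun t x hx => h0 t x hx)
  have h1 := joined_of_path γ hc
  have e0 : γ 0 = φ := SympCt.ext' fun x => hφ x
  have e1 : γ 1 = ψ := SympCt.ext' fun x => hψ x
  rwa [e0, e1] at h1

end

/-- **Moser's argument.** -/
theorem moser (n : ℕ) : S_MOSER n := by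
  intro F₀ K hF₀ hK h0₀ tame₀ φ ψ hφ hψ
  -- clamp the time
  set c : ℝ → ℝ := Real.smoothTransition with hc
  have hcs : ContDiff ℝ ∞ c := Real.smoothTransition.contDiff
  have hcI : ∀ t, c t ∈ Icc (0 : ℝ) 1 := fun t =>
    ⟨Real.smoothTransition.nonneg t, Real.smoothTransition.le_one t⟩
  have tame : ∀ z v, v ≠ 0 → 0 < omega (DFm F₀ z v) (DFm F₀ z (J v)) := by
    rintro ⟨t, x⟩ v hv
    rw [← DFm_eq hF₀]
    exact tame₀ t x v hv
  obtain ⟨Φ, hΦ, hΦ0, hΦd, hΦb, hΦc⟩ := exists_flow hF₀ tame hK h0₀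
  have hΦt : ∀ t, ContDiff ℝ ∞ (Φ t) := fun t => hΦ.comp (contDiff_const.prodMk contDiff_id)
  have hb0 : Function.Bijective (fun x => F₀ (0, x)) := by
    have : (fun x => F₀ (0, x)) = φ.toEquiv := funext hφ
    rw [this]
    exact φ.toEquiv.bijective
  have hbF : ∀ t ∈ Icc (0 : ℝ) 1, Function.Bijective (fun x => F₀ (t, x)) :=
    bij hF₀ hK h0₀ (fun z v h => A_inj (tame z) v h) hb0
  -- conservation law
  have hcons := fun (t : ℝ) (ht : t ∈ Icc (0 : ℝ) 1) (s : ℝ) (x v w : R2 n) =>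
    moser_const hF₀ tame hΦ hΦ0 hΦd ht s x v w
  -- the differential of compositions
  have hcompd : ∀ (t s : ℝ) (x v : R2 n), HasFDerivAt (fun y => F₀ (t, Φ t (s, y)))
      ((DFm F₀ (t, Φ t (s, x))).comp (DFm (Φ t) (s, x))) x := by
    intro t s x v
    have h1 : HasFDerivAt (fun y => F₀ (t, y)) (DFm F₀ (t, Φ t (s, x))) (Φ t (s, x)) := by
      rw [← DFm_eq hF₀]
      have : ContDiff ℝ ∞ (fun y => F₀ (t, y)) := hF₀.comp (contDiff_const.prodMk contDiff_id)
      exact ((this.differentiable (by simp)) _).hasFDerivAt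
    have h2 : HasFDerivAt (fun y => Φ t (s, y)) (DFm (Φ t) (s, x)) x := by
      rw [← DFm_eq (hΦt t)]
      have : ContDiff ℝ ∞ (fun y => Φ t (s, y)) := (hΦt t).comp (contDiff_const.prodMk contDiff_id)
      exact ((this.differentiable (by simp)) _).hasFDerivAt
    exact h1.comp x h2
  -- the family in `s` at fixed `t` with `F_t` symplectic
  have leg : ∀ (t : ℝ) (ht : t ∈ Icc (0 : ℝ) 1) (χ : SympCt n), (∀ x, F₀ (t, x) = χ.toEquiv x) →
      ∀ θ : SympCt n, (∀ x, F₀ (t, Φ t (1, x)) = θ.toEquiv x) → Joined χ θ := by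
    intro t ht χ hχ θ hθ
    have hH : ContDiff ℝ ∞ (fun q : ℝ × R2 n => F₀ (t, Φ t q)) :=
      hF₀.comp (contDiff_const.prodMk (hΦt t))
    refine joined_of_family (fun q => F₀ (t, Φ t q)) hH K hK ?_ ?_ ?_ χ θ ?_ hθ
    · intro s x hx
      rw [hΦc t x hx, h0₀ t x hx]
    · intro s
      exact (hbF t ht).comp (hΦb t s)
    · intro s p u v
      have e1 : DFm (fun q : ℝ × R2 n => F₀ (t, Φ t q)) (s, p) =
          (DFm F₀ (t, Φ t (s, p))).comp (DFm (Φ t) (s, p)) := by
        rw [← DFm_eq hH]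
        exact (hcompd t s p u).fderiv
      have e2 : ∀ a b : R2 n, omega (DFm F₀ (t, Φ t (s, p)) a) (DFm F₀ (t, Φ t (s, p)) b) =
          omega a b := by
        intro a b
        rw [← DFm_eq hF₀]
        unfold DF
        have : (fun y => F₀ (t, y)) = χ.toEquiv := funext hχ
        rw [this]
        exact χ.symplectic _ a b
      rw [e1]
      simp only [ContinuousLinearMap.comp_apply]
      rw [e2]
      have h1 := hcons t ht s p u v
      rw [W_apply, W_apply, W_apply] at h1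
      rw [e2] at h1
      have h2 : omega (dd (Φ t) (iv u) (s, p)) (dd (Φ t) (iv v) (s, p)) = omega u v := by
        linarith
      exact h2
    · intro x
      rw [hΦ0]
      exact hχ x
  -- the family in `t` at `s = 1`
  have hH : ContDiff ℝ ∞ (fun q : ℝ × R2 n => F₀ (c q.1, Φ (c q.1) (1, q.2))) := by
    refine hF₀.comp ((hcs.comp contDiff_fst).prodMk ?_)
    exact hΦ.comp ((hcs.comp contDiff_fst).prodMk (contDiff_const.prodMk contDiff_snd))
  have hsymH : ∀ t p u v, omega (DFm (fun q : ℝ × R2 n => F₀ (c q.1, Φ (c q.1) (1, q.2))) (t, p) u)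
      (DFm (fun q : ℝ × R2 n => F₀ (c q.1, Φ (c q.1) (1, q.2))) (t, p) v) = omega u v := by
    intro t p u v
    have e1 : DFm (fun q : ℝ × R2 n => F₀ (c q.1, Φ (c q.1) (1, q.2))) (t, p) =
        (DFm F₀ (c t, Φ (c t) (1, p))).comp (DFm (Φ (c t)) (1, p)) := by
      rw [← DFm_eq hH]
      exact (hcompd (c t) 1 p u).fderiv
    rw [e1]
    have h1 := hcons (c t) (hcI t) 1 p u v
    rw [Real.smoothTransition.one] at h1
    simp only [sub_self, zero_mul, one_mul, zero_add] at h1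
    exact h1
  have hbH : ∀ t, Function.Bijective
      (fun x => (fun q : ℝ × R2 n => F₀ (c q.1, Φ (c q.1) (1, q.2))) (t, x)) := by
    intro t
    exact (hbF (c t) (hcI t)).comp (hΦb (c t) 1)
  have h0H : ∀ t x, x ∉ K → (fun q : ℝ × R2 n => F₀ (c q.1, Φ (c q.1) (1, q.2))) (t, x) = x := by
    intro t x hx
    simp only
    rw [hΦc (c t) x hx, h0₀ (c t) x hx]
  have hs : ∀ t, ContDiff ℝ ∞ (fun x => (fun q : ℝ × R2 n => F₀ (c q.1, Φ (c q.1) (1, q.2))) (t, x)) :=
    fun t => hH.comp (contDiff_const.prodMk contDiff_id)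
  have hsym' : ∀ t p u v, omega
      (fderiv ℝ (fun x => (fun q : ℝ × R2 n => F₀ (c q.1, Φ (c q.1) (1, q.2))) (t, x)) p u)
      (fderiv ℝ (fun x => (fun q : ℝ × R2 n => F₀ (c q.1, Φ (c q.1) (1, q.2))) (t, x)) p v)
        = omega u v := by
    intro t p u v
    have h1 := DFm_eq hH t p
    unfold DF at h1
    rw [h1]
    exact hsymH t p u v
  let θ : ℝ → SympCt n := fun t => mk _ (hbH t) (hs t) (hsym' t) K hK (h0H t)
  have hθ : ∀ t x, (θ t).toEquiv x = F₀ (c t, Φ (c t) (1, x)) := fun t x => rfl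
  have c0 : c 0 = 0 := Real.smoothTransition.zero
  have c1 : c 1 = 1 := Real.smoothTransition.one
  have j1 : Joined φ (θ 0) := by
    refine leg 0 ⟨le_rfl, zero_le_one⟩ φ hφ (θ 0) fun x => ?_
    rw [hθ, c0]
  have j2 : Joined (θ 0) (θ 1) :=
    joined_of_family _ hH K hK h0H hbH hsymH (θ 0) (θ 1) (fun x => rfl) (fun x => rfl)
  have j3 : Joined ψ (θ 1) := by
    refine leg 1 ⟨zero_le_one, le_rfl⟩ ψ hψ (θ 1) fun x => ?_
    rw [hθ, c1]
  exact (j1.trans j2).trans j3.symm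

end Pool.Agent.W5h49.EC
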