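import Mathlib
import Pool.Agent.W5h49.EC.Defs2
import Pool.Agent.W5h49.EC.Mos
import Pool.Agent.W5h83.HG.Fam
import Pool.Agent.W5h83.HG.Supp

set_option autoImplicit false

open scoped ContDiff Topology
open MeasureTheory

namespace Pool.Agent.W5h49.EC

open Pool.Agent.W71.EC Pool.Agent.W5h83.HG

/-- TASK NEM (Nemytskii operators are smooth) -/
def S_NEM : Prop := ∀ (P E F : Type) [TopologicalSpace P] [CompactSpace P]
  [NormedAddCommGroup E] [NormedSpace ℝ E] [NormedAddCommGroup F] [NormedSpace ℝ F]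
  (X : P → E → F), (∀ k, JC k F X) →
  ∃ N : C(P, E) → C(P, F), ContDiff ℝ ∞ N ∧ ∀ u p, N u p = X p (u p)

/-- TASK EV (smooth maps into `C(P, F)` are jointly smooth families) -/
def S_EV : Prop := ∀ (P E F : Type) [TopologicalSpace P] [CompactSpace P]
  [NormedAddCommGroup E] [NormedSpace ℝ E] [FiniteDimensional ℝ E] [NormedAddCommGroup F]
  [NormedSpace ℝ F] (Ψ : ℝ × E → C(P, F)), ContDiff ℝ ∞ Ψ →
  ∀ k, JC k F (fun (q : P × ℝ) (x : E) => Ψ (q.2, x) q.1)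

/-- TASK FLOW (flows of jointly smooth families of vector fields) -/
def S_FLOWJC (n : ℕ) : Prop := ∀ (P : Type) [TopologicalSpace P] [CompactSpace P]
  (X : P → ℝ × R2 n → R2 n) (L : Set (ℝ × R2 n)), IsCompact L → (∀ p z, z ∉ L → X p z = 0) →
  (∀ k, JC k (R2 n) X) → ∀ Φ : P → ℝ × R2 n → R2 n, (∀ p x, Φ p (0, x) = x) →
  (∀ p s x, HasDerivAt (fun s => Φ p (s, x)) (X p (s, Φ p (s, x))) s) →
  ∀ k, JC k (R2 n) (fun (q : P × ℝ) (x : R2 n) => Φ q.1 (q.2, x))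

/-- TASK XJC (the Moser vector field of a jointly smooth family) -/
def S_XJC (n : ℕ) : Prop := ∀ (C : Type) [TopologicalSpace C] (F : C → ℝ × R2 n → R2 n),
  (∀ c, ContDiff ℝ ∞ (F c)) →
  (∀ k, JC k (R2 n) (fun (q : C × ℝ) (x : R2 n) => F q.1 (q.2, x))) →
  (∀ c z v, v ≠ 0 → 0 < omega (DFm (F c) z v) (DFm (F c) z (J v))) →
  ∀ k, JC k (R2 n) (fun (q : C × ℝ) (z : ℝ × R2 n) => Xf (F q.1) (z.1, (q.2, z.2)))

/-- TASK MOLJC (mollified families of families) -/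
def S_MOLJC (n : ℕ) : Prop := ∀ (C : Type) [TopologicalSpace C] [CompactSpace C]
  (f g : C(C, SympCt n)) (η : R2 n → ℝ), Moll η → ∀ R : ℝ, 0 < R →
  ∃ (F : C → ℝ × R2 n → R2 n) (K : Set (R2 n)) (c r : ℝ → ℝ), (∀ p, ContDiff ℝ ∞ (F p)) ∧
    (∀ k, JC k (R2 n) (fun (q : C × ℝ) (x : R2 n) => F q.1 (q.2, x))) ∧ IsCompact K ∧
    (∀ p t x, x ∉ K → F p (t, x) = x) ∧ (∀ p x, F p (0, x) = (f p).toEquiv x) ∧
    (∀ p x, F p (1, x) = (g p).toEquiv x) ∧ (∀ t, 0 ≤ r t ∧ r t ≤ R) ∧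
    (∀ t, 0 ≤ c t ∧ c t ≤ 1) ∧ (∀ t, c t = 0 ∨ c t = 1 ∨ r t = R) ∧
    ∀ p t x v, DF (F p) t x v = (1 - c t) • MD η (f p) (r t) x v + c t • MD η (g p) (r t) x v

/-- the Moser step for families (helper49) -/
def S_MOSERFAM (n : ℕ) : Prop := ∀ (C : Type) [TopologicalSpace C] [CompactSpace C]
  (F : C → ℝ × R2 n → R2 n) (K : Set (R2 n)), (∀ p, ContDiff ℝ ∞ (F p)) →
  (∀ k, JC k (R2 n) (fun (q : C × ℝ) (x : R2 n) => F q.1 (q.2, x))) → IsCompact K →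
  (∀ p t x, x ∉ K → F p (t, x) = x) →
  (∀ p t x v, v ≠ 0 → 0 < omega (DF (F p) t x v) (DF (F p) t x (J v))) →
  ∀ f g : C(C, SympCt n), (∀ p x, F p (0, x) = (f p).toEquiv x) →
    (∀ p x, F p (1, x) = (g p).toEquiv x) → f.Homotopic g

end Pool.Agent.W5h49.EC
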