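import Mathlib
import Pool.Agent.W5h49.EC.Defs3

set_option autoImplicit false

open scoped ContDiff Topology
open MeasureTheory

namespace Pool.Agent.W5h49.EC

open Pool.Agent.W71.EC Pool.Agent.W5h83.HG

/-- TASK MOLJC2 (mollified families of families, scale `R p` depending on the parameter) -/
def S_MOLJC2 (n : ℕ) : Prop := ∀ (C : Type) [TopologicalSpace C] [CompactSpace C]
  (f g : C(C, SympCt n)) (η : R2 n → ℝ), Moll η → ∀ R : C(C, ℝ), (∀ p, 0 ≤ R p) →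
  ∃ (F : C → ℝ × R2 n → R2 n) (K : Set (R2 n)) (c r : ℝ → ℝ), (∀ p, ContDiff ℝ ∞ (F p)) ∧
    (∀ k, JC k (R2 n) (fun (q : C × ℝ) (x : R2 n) => F q.1 (q.2, x))) ∧ IsCompact K ∧
    (∀ p t x, x ∉ K → F p (t, x) = x) ∧ (∀ p x, F p (0, x) = (f p).toEquiv x) ∧
    (∀ p x, F p (1, x) = (g p).toEquiv x) ∧ (∀ t, 0 ≤ r t ∧ r t ≤ 1) ∧
    (∀ t, 0 ≤ c t ∧ c t ≤ 1) ∧ (∀ t, c t = 0 ∨ c t = 1 ∨ r t = 1) ∧
    (∀ p t x v, DF (F p) t x v =
      (1 - c t) • MD η (f p) (r t * R p) x v + c t • MD η (g p) (r t * R p) x v) ∧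
    ∀ p, R p = 0 → f p = g p → ∀ t x, F p (t, x) = F p (0, x)

/-- the kernel theorem for families with variable scale (helper49) -/
def S_KERFAM (n : ℕ) : Prop := ∀ (η : R2 n → ℝ), Moll η → ∀ θ κ : ℝ, θ < 1 →
  κ < 4 * (1 - θ) → ∀ (C : Type) [TopologicalSpace C] [CompactSpace C] (f g : C(C, SympCt n))
    (R : C(C, ℝ)), (∀ p, 0 ≤ R p) → (∀ p, R p = 0 → f p = g p) →
    (∀ p, VarLe η θ (R p) (f p)) → (∀ p, VarLe η θ (R p) (g p)) →
    (∀ p, 0 < R p → ∀ x v, nsq (MD η (f p) (R p) x v - MD η (g p) (R p) x v) ≤ κ * nsq v) →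
    f.HomotopicRel g {p | R p = 0}

/-- TASK SUPC (the maximal distance depends continuously on the parameter) -/
def S_SUPC (n : ℕ) : Prop := ∀ (C : Type) [TopologicalSpace C] [CompactSpace C]
  (f g : C(C, SympCt n)), ∃ M : C(C, ℝ), (∀ p, 0 ≤ M p) ∧
    (∀ p x, ‖(f p).toEquiv x - (g p).toEquiv x‖ ≤ M p) ∧ ∀ p, f p = g p → M p = 0

/-- TASK FINFAM (finitely many homotopy classes of families) -/
def S_FINFAM (n : ℕ) : Prop := S_KERFAM n → ∀ θ : ℝ, θ < 1 → ∀ R L : ℝ, 0 < R → 0 < L →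
  ∀ K : Set (R2 n), IsCompact K → ∀ (C : Type) [MetricSpace C] [CompactSpace C] (A : Set C)
    (f₀ : C(C, SympCt n)), ∃ S : Finset C(C, SympCt n), ∀ f : C(C, SympCt n),
      (∀ p, f p ∈ supportedIn K) → (∀ p, OscLe θ R (f p)) →
      (∀ p q x, ‖(f p).toEquiv x - (f q).toEquiv x‖ ≤ L * dist p q) →
      (∀ p ∈ A, f p = f₀ p) → ∃ g ∈ S, f.HomotopicRel g A

end Pool.Agent.W5h49.EC
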