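import Mathlib
import Pool.Agent.W5h49.EC.Defs4

set_option autoImplicit false

open scoped ContDiff Topology
open MeasureTheory

namespace Pool.Agent.W5h49.EC

open Pool.Agent.W71.EC Pool.Agent.W5h83.HG

/-- the map `A` does not reverse `ω` in any direction -/
def NR {n : ℕ} (A : R2 n → R2 n) : Prop :=
  ¬ ∃ v : R2 n, v ≠ 0 ∧ ∃ c : ℝ, 0 ≤ c ∧ ∀ w : R2 n, omega (A v) (A w) = -c * omega v w

/-- TASK FAR (at large scales the averaged differentials are close to the identity) -/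
def S_FAR (n : ℕ) : Prop := ∀ (η : R2 n → ℝ), Moll η → ∀ (C : Type) [TopologicalSpace C]
  [CompactSpace C] (f : C(C, SympCt n)) (ε : ℝ), 0 < ε → ∃ R₀ : ℝ, 0 < R₀ ∧
    ∀ (R : ℝ), R₀ ≤ R → ∀ (p : C) (x v : R2 n), nsq (MD η (f p) R x v - v) ≤ ε * nsq v

end Pool.Agent.W5h49.EC
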