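import Pool.Agent.W5h49.EC.Defs

/-!
# The mollified family (task A)
-/

set_option autoImplicit false
set_option maxHeartbeats 1000000

open scoped ContDiff Topology
open MeasureTheory Set Metric

namespace Pool.Agent.W5h49.EC

open Pool.Agent.W71.EC

variable {n : ℕ}

/-- the displacement of `φ` -/
noncomputable def hh (φ : SympCt n) (x : R2 n) : R2 n := φ.toEquiv x - x

/-- the mollified displacement -/
noncomputable def HH (η : R2 n → ℝ) (φ : SympCt n) (s : ℝ) (x : R2 n) : R2 n :=
  ∫ y, η y • hh φ (x - s • y)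

theorem hh_smooth (φ : SympCt n) : ContDiff ℝ ∞ (hh φ) := φ.smooth.sub contDiff_id

theorem hh_cpt (φ : SympCt n) : HasCompactSupport (hh φ) := by
  obtain ⟨K, hK, h⟩ := φ.compact_support
  exact HasCompactSupport.intro hK (fun x hx => by simp [hh, h x hx])

theorem HH_smooth {η : R2 n → ℝ} (hη : Moll η) (φ : SympCt n) :
    ContDiff ℝ ∞ (fun p : ℝ × R2 n => HH η φ p.1 p.2) := by
  have hg : ContDiff ℝ ∞
      (fun q : (ℝ × R2 n) × R2 n => η (-q.2) • hh φ (q.1.2 + q.1.1 • q.2)) := by
    have e1 : ContDiff ℝ ∞ (fun q : (ℝ × R2 n) × R2 n => η (-q.2)) :=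
      hη.smooth.comp contDiff_snd.neg
    have e3 : ContDiff ℝ ∞ (fun q : (ℝ × R2 n) × R2 n => q.1.1 • q.2) := by
      have := (contDiff_fst.fst : ContDiff ℝ ∞ (fun q : (ℝ × R2 n) × R2 n => q.1.1)).smul
        (contDiff_snd : ContDiff ℝ ∞ (fun q : (ℝ × R2 n) × R2 n => q.2))
      exact this
    have e2 : ContDiff ℝ ∞ (fun q : (ℝ × R2 n) × R2 n => hh φ (q.1.2 + q.1.1 • q.2)) :=
      (hh_smooth φ).comp (contDiff_fst.snd.add e3)
    exact e1.smul e2
  have hk : IsCompact ((fun u : R2 n => -u) '' tsupport η) := hη.cpt.isCompact.image continuous_neg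
  have h1 := contDiffOn_convolution_right_with_param (𝕜 := ℝ) (μ := (volume : Measure (R2 n)))
    (n := (⊤ : ℕ∞)) (f := fun _ : R2 n => (1 : ℝ)) (ContinuousLinearMap.lsmul ℝ ℝ)
    (g := fun (p : ℝ × R2 n) (u : R2 n) => η (-u) • hh φ (p.2 + p.1 • u)) (s := univ)
    isOpen_univ hk
    (by
      intro p u _ hu
      have : η (-u) = 0 := by
        apply image_eq_zero_of_notMem_tsupport
        intro h
        exact hu ⟨-u, h, by simp⟩
      simp [this])
    (locallyIntegrable_const _) (by
      apply ContDiff.contDiffOn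
      exact hg)
  rw [univ_prod_univ, contDiffOn_univ] at h1
  have h2 : ContDiff ℝ ∞ (fun p : ℝ × R2 n => ((p, (0 : R2 n)) : (ℝ × R2 n) × R2 n)) :=
    contDiff_id.prodMk contDiff_const
  have h3 := h1.comp h2
  convert h3 using 1
  funext p
  simp only [HH, Function.comp, convolution_def, ContinuousLinearMap.lsmul_apply, one_smul]
  refine integral_congr_ae (Filter.Eventually.of_forall fun t => ?_)
  simp [sub_eq_add_neg]

theorem fderiv_hh_le (φ : SympCt n) : ∃ C : ℝ, 0 ≤ C ∧ ∀ x, ‖fderiv ℝ (hh φ) x‖ ≤ C := by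
  have h1 : HasCompactSupport (fderiv ℝ (hh φ)) := (hh_cpt φ).fderiv ℝ
  have h2 : Continuous (fderiv ℝ (hh φ)) := (hh_smooth φ).continuous_fderiv (by simp)
  obtain ⟨C, hC⟩ := h1.exists_bound_of_continuous h2
  exact ⟨C, (norm_nonneg _).trans (hC 0), hC⟩

theorem eta_int {η : R2 n → ℝ} (hη : Moll η) : Integrable η :=
  hη.smooth.continuous.integrable_of_hasCompactSupport hη.cpt

/-- integrability of `η` times a continuous function -/
theorem eta_smul_int {E : Type*} [NormedAddCommGroup E] [NormedSpace ℝ E] {η : R2 n → ℝ}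
    (hη : Moll η) {g : R2 n → E} (hg : Continuous g) : Integrable (fun y => η y • g y) := by
  apply (hη.smooth.continuous.smul hg).integrable_of_hasCompactSupport
  exact hη.cpt.smul_right

theorem HH_fderiv {η : R2 n → ℝ} (hη : Moll η) (φ : SympCt n) (s : ℝ) (x : R2 n) :
    HasFDerivAt (fun x => HH η φ s x) (∫ y, η y • fderiv ℝ (hh φ) (x - s • y)) x := by
  obtain ⟨C, hC0, hC⟩ := fderiv_hh_le φ
  have hc1 : ∀ x : R2 n, Continuous (fun y : R2 n => hh φ (x - s • y)) := fun x =>
    (hh_smooth φ).continuous.comp (by fun_prop)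
  have hc2 : ∀ x : R2 n, Continuous (fun y : R2 n => fderiv ℝ (hh φ) (x - s • y)) := fun x =>
    ((hh_smooth φ).continuous_fderiv (by simp)).comp (by fun_prop)
  refine hasFDerivAt_integral_of_dominated_of_fderiv_le (s := univ) Filter.univ_mem
    (F := fun x y => η y • hh φ (x - s • y))
    (F' := fun x y => η y • fderiv ℝ (hh φ) (x - s • y)) (bound := fun y => η y * C)
    (Filter.Eventually.of_forall fun x => (eta_smul_int hη (hc1 x)).aestronglyMeasurable)
    (eta_smul_int hη (hc1 x)) (eta_smul_int hη (hc2 x)).aestronglyMeasurable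
    (Filter.Eventually.of_forall fun y z _ => ?_) ((eta_int hη).mul_const C)
    (Filter.Eventually.of_forall fun y z _ => ?_)
  · rw [norm_smul, Real.norm_of_nonneg (hη.nonneg y)]
    exact mul_le_mul_of_nonneg_left (hC _) (hη.nonneg y)
  · have h1 : HasFDerivAt (hh φ) (fderiv ℝ (hh φ) (z - s • y)) (z - s • y) :=
      ((hh_smooth φ).differentiable (by simp)).differentiableAt.hasFDerivAt
    have h2 : HasFDerivAt (fun z : R2 n => z - s • y) (ContinuousLinearMap.id ℝ (R2 n)) z :=
      (hasFDerivAt_id z).sub_const _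
    have h3 := h1.comp z h2
    rw [ContinuousLinearMap.comp_id] at h3
    exact h3.const_smul (η y)

/-- for large scales the derivative of the mollified displacement is small -/
theorem HH_small {η : R2 n → ℝ} (hη : Moll η) (φ : SympCt n) {ε : ℝ} (hε : 0 < ε) :
    ∃ T : ℝ, 0 < T ∧ ∀ x : R2 n, ‖∫ y, η y • fderiv ℝ (hh φ) (x - T • y)‖ ≤ ε := by
  rcases Nat.eq_zero_or_pos n with hn | hn
  · subst hn
    refine ⟨1, one_pos, fun x => ?_⟩
    have : (∫ y, η y • fderiv ℝ (hh φ) (x - (1 : ℝ) • y)) = 0 := Subsingleton.elim _ _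
    rw [this, norm_zero]
    exact hε.le
  · have : (volume : Measure (R2 n)).IsAddHaarMeasure := Measure.prod.instIsAddHaarMeasure _ _
    obtain ⟨C, hC0, hC⟩ := fderiv_hh_le φ
    obtain ⟨B, hB⟩ := hη.cpt.exists_bound_of_continuous hη.smooth.continuous
    have hB0 : 0 ≤ B := (norm_nonneg _).trans (hB 0)
    obtain ⟨R, hR⟩ := (hh_cpt φ).isCompact.isBounded.subset_closedBall (0 : R2 n)
    set R' : ℝ := max R 1 with hR'
    have hR1 : 0 < R' := lt_of_lt_of_le one_pos (le_max_right _ _)
    have hsupp : ∀ z : R2 n, R' < ‖z‖ → fderiv ℝ (hh φ) z = 0 := by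
      intro z hz
      by_contra h
      have h1 : z ∈ tsupport (hh φ) := support_fderiv_subset ℝ (Function.mem_support.2 h)
      have h2 := hR h1
      rw [mem_closedBall, dist_zero_right] at h2
      linarith [le_max_left R 1]
    set c : ℝ := (volume : Measure (R2 n)).real (ball (0 : R2 n) 1) with hc
    have hc0 : 0 ≤ c := measureReal_nonneg
    set T : ℝ := max R' (R' * (B * C * c) / ε) with hT
    have hT1 : R' ≤ T := le_max_left _ _
    have hT0 : 0 < T := hR1.trans_le hT1
    refine ⟨T, hT0, fun x => ?_⟩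
    have hq : R' / T ≤ 1 := (div_le_one hT0).2 hT1
    have hq0 : 0 ≤ R' / T := by positivity
    have hpt : ∀ y : R2 n, ‖η y • fderiv ℝ (hh φ) (x - T • y)‖ ≤
        (closedBall (T⁻¹ • x) (R' / T)).indicator (fun _ => B * C) y := by
      intro y
      by_cases hy : y ∈ closedBall (T⁻¹ • x) (R' / T)
      · rw [indicator_of_mem hy, norm_smul]
        exact mul_le_mul (hB y) (hC _) (norm_nonneg _) hB0
      · rw [indicator_of_notMem hy]
        have h1 : fderiv ℝ (hh φ) (x - T • y) = 0 := by
          apply hsupp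
          rw [mem_closedBall, not_le, dist_eq_norm] at hy
          have h2 : x - T • y = -(T • (y - T⁻¹ • x)) := by
            rw [smul_sub, smul_smul, mul_inv_cancel₀ hT0.ne', one_smul]
            abel
          rw [h2, norm_neg, norm_smul, Real.norm_of_nonneg hT0.le]
          rw [div_lt_iff₀ hT0] at hy
          linarith
        rw [h1, smul_zero, norm_zero]
    have hint : Integrable ((closedBall (T⁻¹ • x) (R' / T)).indicator (fun _ : R2 n => B * C)) := by
      rw [integrable_indicator_iff measurableSet_closedBall]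
      exact integrableOn_const (measure_closedBall_lt_top.ne)
    calc ‖∫ y, η y • fderiv ℝ (hh φ) (x - T • y)‖
        ≤ ∫ y, (closedBall (T⁻¹ • x) (R' / T)).indicator (fun _ : R2 n => B * C) y :=
          norm_integral_le_of_norm_le hint (Filter.Eventually.of_forall hpt)
      _ = (volume : Measure (R2 n)).real (closedBall (T⁻¹ • x) (R' / T)) * (B * C) := by
          rw [integral_indicator measurableSet_closedBall, setIntegral_const, smul_eq_mul]
      _ = (R' / T) ^ Module.finrank ℝ (R2 n) * c * (B * C) := by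
          rw [Measure.addHaar_real_closedBall _ _ hq0]
      _ ≤ (R' / T) * c * (B * C) := by
          have hf : Module.finrank ℝ (R2 n) ≠ 0 := by
            have : Module.finrank ℝ (R2 n) = n + n := by simp [R2]
            omega
          have h2 : (R' / T) ^ Module.finrank ℝ (R2 n) ≤ R' / T := pow_le_of_le_one hq0 hq hf
          gcongr
      _ ≤ ε := by
          have h3 : R' * (B * C * c) / ε ≤ T := le_max_right _ _
          rw [div_le_iff₀ hε] at h3
          have h4 : (R' / T) * c * (B * C) = R' * (B * C * c) / T := by ring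
          rw [h4, div_le_iff₀ hT0]
          linarith

theorem mol (n : ℕ) : S_MOL n := by
  intro φ η hη ε hε
  obtain ⟨T, hT0, hT⟩ := HH_small hη φ hε
  set ρ : ℝ → ℝ := fun t => T * Real.smoothTransition (2 * t) with hρ
  set χ : ℝ → ℝ := fun t => 1 - Real.smoothTransition (2 * t - 1) with hχ
  have hρs : ContDiff ℝ ∞ ρ :=
    contDiff_const.mul (Real.smoothTransition.contDiff.comp (contDiff_const.mul contDiff_id))
  have hχs : ContDiff ℝ ∞ χ :=
    contDiff_const.sub (Real.smoothTransition.contDiff.comp
      ((contDiff_const.mul contDiff_id).sub contDiff_const))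
  have hρ0 : ∀ t, 0 ≤ ρ t := fun t => mul_nonneg hT0.le (Real.smoothTransition.nonneg _)
  have hρ1 : ∀ t, ρ t ≤ T := fun t => by
    have := Real.smoothTransition.le_one (2 * t)
    show T * _ ≤ T
    nlinarith
  have hχ0 : ∀ t, 0 ≤ χ t := fun t => sub_nonneg.2 (Real.smoothTransition.le_one _)
  have hχ1 : ∀ t, χ t ≤ 1 := fun t => by
    have := Real.smoothTransition.nonneg (2 * t - 1)
    show 1 - _ ≤ (1 : ℝ)
    linarith
  obtain ⟨R, hR⟩ := (hh_cpt φ).isCompact.isBounded.subset_closedBall (0 : R2 n)
  obtain ⟨S, hS⟩ := hη.cpt.isCompact.isBounded.subset_closedBall (0 : R2 n)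
  have hDF : ∀ t x, DF (fun p : ℝ × R2 n => p.2 + χ p.1 • HH η φ (ρ p.1) p.2) t x =
      ContinuousLinearMap.id ℝ (R2 n) + χ t • ∫ y, η y • fderiv ℝ (hh φ) (x - ρ t • y) := by
    intro t x
    exact ((hasFDerivAt_id x).add ((HH_fderiv hη φ (ρ t) x).const_smul (χ t))).fderiv
  refine ⟨fun p => p.2 + χ p.1 • HH η φ (ρ p.1) p.2, closedBall 0 (R + T * |S|), ρ, ?_,
    isCompact_closedBall _ _, hρ0, ?_, ?_, ?_, ?_⟩
  · apply contDiff_snd.add
    apply (hχs.comp contDiff_fst).smul
    exact (HH_smooth hη φ).comp ((hρs.comp contDiff_fst).prodMk contDiff_snd)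
  · intro t x hx
    have h1 : HH η φ (ρ t) x = 0 := by
      unfold HH
      rw [← integral_zero (R2 n) (R2 n)]
      refine integral_congr_ae (Filter.Eventually.of_forall fun y => ?_)
      show η y • hh φ (x - ρ t • y) = 0
      by_cases hy : y ∈ tsupport η
      · have h2 : hh φ (x - ρ t • y) = 0 := by
          apply image_eq_zero_of_notMem_tsupport
          intro h3
          have h4 := hR h3
          have h5 := hS hy
          rw [mem_closedBall, dist_zero_right] at h4 h5
          apply hx
          rw [mem_closedBall, dist_zero_right]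
          have h6 : ‖x‖ ≤ ‖x - ρ t • y‖ + ‖ρ t • y‖ := by
            have := norm_add_le (x - ρ t • y) (ρ t • y)
            rwa [sub_add_cancel] at this
          have h7 : ‖ρ t • y‖ ≤ T * |S| := by
            rw [norm_smul, Real.norm_of_nonneg (hρ0 t)]
            exact mul_le_mul (hρ1 t) (h5.trans (le_abs_self S)) (norm_nonneg _) hT0.le
          linarith
        rw [h2, smul_zero]
      · rw [image_eq_zero_of_notMem_tsupport hy, zero_smul]
    show x + χ t • HH η φ (ρ t) x = x
    rw [h1, smul_zero, add_zero]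
  · intro x
    show x + χ 0 • HH η φ (ρ 0) x = φ.toEquiv x
    have h1 : χ 0 = 1 := by
      show 1 - Real.smoothTransition (2 * 0 - 1) = 1
      rw [Real.smoothTransition.zero_of_nonpos (by norm_num), sub_zero]
    have h2 : ρ 0 = 0 := by
      show T * Real.smoothTransition (2 * 0) = 0
      rw [mul_zero, Real.smoothTransition.zero, mul_zero]
    rw [h1, h2, one_smul]
    have h3 : HH η φ 0 x = hh φ x := by
      unfold HH
      simp only [zero_smul, sub_zero]
      rw [integral_smul_const, hη.integral, one_smul]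
    rw [h3]
    simp [hh]
  · intro x
    show x + χ 1 • HH η φ (ρ 1) x = x
    have h1 : χ 1 = 0 := by
      show 1 - Real.smoothTransition (2 * 1 - 1) = 0
      rw [Real.smoothTransition.one_of_one_le (by norm_num), sub_self]
    rw [h1, zero_smul, add_zero]
  · intro t x
    rw [hDF]
    rcases le_total t (1 / 2) with ht | ht
    · left
      intro v
      have h1 : χ t = 1 := by
        show 1 - Real.smoothTransition (2 * t - 1) = 1
        rw [Real.smoothTransition.zero_of_nonpos (by linarith), sub_zero]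
      have hc2 : Continuous (fun y : R2 n => fderiv ℝ (hh φ) (x - ρ t • y)) :=
        ((hh_smooth φ).continuous_fderiv (by simp)).comp (by fun_prop)
      have hi := eta_smul_int hη hc2
      rw [h1, one_smul, _root_.add_apply, ContinuousLinearMap.id_apply,
        ContinuousLinearMap.integral_apply hi]
      have h2 : ∀ z : R2 n, D φ z v = v + fderiv ℝ (hh φ) z v := by
        intro z
        have h3 : HasFDerivAt (hh φ) (fderiv ℝ φ.toEquiv z - ContinuousLinearMap.id ℝ (R2 n)) z :=
          ((φ.smooth.differentiable (by simp)).differentiableAt.hasFDerivAt).sub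
            (hasFDerivAt_id z)
        rw [h3.fderiv]
        simp [D]
      unfold MD
      simp_rw [h2, smul_add]
      have hv : Integrable (fun y : R2 n => η y • v) := (eta_int hη).smul_const v
      have hw : Integrable (fun y : R2 n => η y • fderiv ℝ (hh φ) (x - ρ t • y) v) :=
        eta_smul_int hη (hc2.clm_apply continuous_const)
      rw [integral_add hv hw, integral_smul_const, hη.integral, one_smul]
      rfl
    · right
      have h1 : ρ t = T := by
        show T * Real.smoothTransition (2 * t) = T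
        rw [Real.smoothTransition.one_of_one_le (by linarith), mul_one]
      rw [h1, add_sub_cancel_left, norm_smul, Real.norm_of_nonneg (hχ0 t)]
      calc χ t * ‖∫ y, η y • fderiv ℝ (hh φ) (x - T • y)‖ ≤ 1 * ε :=
            mul_le_mul (hχ1 t) (hT x) (norm_nonneg _) zero_le_one
        _ = ε := one_mul _

end Pool.Agent.W5h49.EC
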