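import Pool.Agent.W5h49.EC.Defs2
import Pool.Agent.W5h49.EC.Mol

/-!
# The mollified family for pairs (task A2)
-/

set_option autoImplicit false
set_option maxHeartbeats 1000000

open scoped ContDiff Topology
open MeasureTheory Set Metric

namespace Pool.Agent.W5h49.EC

open Pool.Agent.W71.EC

variable {n : ℕ}

/-- the mollified displacement vanishes off a compact set, uniformly in the scales `0 ≤ s ≤ T` -/
theorem HH_supp {η : R2 n → ℝ} (hη : Moll η) (φ : SympCt n) {T : ℝ} (hT0 : 0 ≤ T) :
    ∃ B : ℝ, ∀ s : ℝ, 0 ≤ s → s ≤ T → ∀ x : R2 n, x ∉ closedBall (0 : R2 n) B →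
      HH η φ s x = 0 := by
  obtain ⟨R, hR⟩ := (hh_cpt φ).isCompact.isBounded.subset_closedBall (0 : R2 n)
  obtain ⟨S, hS⟩ := hη.cpt.isCompact.isBounded.subset_closedBall (0 : R2 n)
  refine ⟨R + T * |S|, fun s hs0 hs1 x hx => ?_⟩
  unfold HH
  rw [← integral_zero (R2 n) (R2 n)]
  refine integral_congr_ae (Filter.Eventually.of_forall fun y => ?_)
  show η y • hh φ (x - s • y) = 0
  by_cases hy : y ∈ tsupport η
  · have h2 : hh φ (x - s • y) = 0 := by
      apply image_eq_zero_of_notMem_tsupport
      intro h3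
      have h4 := hR h3
      have h5 := hS hy
      rw [mem_closedBall, dist_zero_right] at h4 h5
      apply hx
      rw [mem_closedBall, dist_zero_right]
      have h6 : ‖x‖ ≤ ‖x - s • y‖ + ‖s • y‖ := by
        have := norm_add_le (x - s • y) (s • y)
        rwa [sub_add_cancel] at this
      have h7 : ‖s • y‖ ≤ T * |S| := by
        rw [norm_smul, Real.norm_of_nonneg hs0]
        exact mul_le_mul hs1 (h5.trans (le_abs_self S)) (norm_nonneg _) hT0
      linarith
    rw [h2, smul_zero]
  · rw [image_eq_zero_of_notMem_tsupport hy, zero_smul]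

theorem HH_zero {η : R2 n → ℝ} (hη : Moll η) (φ : SympCt n) (x : R2 n) :
    HH η φ 0 x = hh φ x := by
  unfold HH
  simp only [zero_smul, sub_zero]
  rw [integral_smul_const, hη.integral, one_smul]

/-- the mollified differential in terms of the displacement -/
theorem MD_eq {η : R2 n → ℝ} (hη : Moll η) (φ : SympCt n) (s : ℝ) (x v : R2 n) :
    MD η φ s x v = v + (∫ y, η y • fderiv ℝ (hh φ) (x - s • y)) v := by
  have hc2 : Continuous (fun y : R2 n => fderiv ℝ (hh φ) (x - s • y)) :=
    ((hh_smooth φ).continuous_fderiv (by simp)).comp (by fun_prop)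
  have hi := eta_smul_int hη hc2
  rw [ContinuousLinearMap.integral_apply hi]
  have h2 : ∀ z : R2 n, D φ z v = v + fderiv ℝ (hh φ) z v := by
    intro z
    have h3 : HasFDerivAt (hh φ) (fderiv ℝ φ.toEquiv z - ContinuousLinearMap.id ℝ (R2 n)) z :=
      ((φ.smooth.differentiable (by simp)).differentiableAt.hasFDerivAt).sub
        (hasFDerivAt_id z)
    rw [h3.fderiv]
    simp [D]
  unfold MD
  simp_rw [h2, smul_add]
  have hv : Integrable (fun y : R2 n => η y • v) := (eta_int hη).smul_const v
  have hw : Integrable (fun y : R2 n => η y • fderiv ℝ (hh φ) (x - s • y) v) :=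
    eta_smul_int hη (hc2.clm_apply continuous_const)
  rw [integral_add hv hw, integral_smul_const, hη.integral, one_smul]
  rfl

theorem mol2 (n : ℕ) : S_MOL2 n := by
  intro φ ψ η hη R hR
  set c : ℝ → ℝ := fun t => Real.smoothTransition (3 * t - 1) with hc
  set r : ℝ → ℝ := fun t =>
    R * (Real.smoothTransition (3 * t) * Real.smoothTransition (3 - 3 * t)) with hr
  have hcs : ContDiff ℝ ∞ c :=
    Real.smoothTransition.contDiff.comp ((contDiff_const.mul contDiff_id).sub contDiff_const)
  have hrs : ContDiff ℝ ∞ r :=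
    contDiff_const.mul ((Real.smoothTransition.contDiff.comp
      (contDiff_const.mul contDiff_id)).mul (Real.smoothTransition.contDiff.comp
        (contDiff_const.sub (contDiff_const.mul contDiff_id))))
  have hc0 : ∀ t, 0 ≤ c t ∧ c t ≤ 1 := fun t =>
    ⟨Real.smoothTransition.nonneg _, Real.smoothTransition.le_one _⟩
  have hr0 : ∀ t, 0 ≤ r t ∧ r t ≤ R := by
    intro t
    have h1 := Real.smoothTransition.nonneg (3 * t)
    have h2 := Real.smoothTransition.le_one (3 * t)
    have h3 := Real.smoothTransition.nonneg (3 - 3 * t)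
    have h4 := Real.smoothTransition.le_one (3 - 3 * t)
    refine ⟨mul_nonneg hR.le (mul_nonneg h1 h3), ?_⟩
    show R * _ ≤ R
    have h5 : Real.smoothTransition (3 * t) * Real.smoothTransition (3 - 3 * t) ≤ 1 :=
      mul_le_one₀ h2 h3 h4
    nlinarith
  obtain ⟨B1, hB1⟩ := HH_supp hη φ hR.le
  obtain ⟨B2, hB2⟩ := HH_supp hη ψ hR.le
  have hDF : ∀ t x, DF (fun p : ℝ × R2 n => p.2 + ((1 - c p.1) • HH η φ (r p.1) p.2 +
      c p.1 • HH η ψ (r p.1) p.2)) t x =
      ContinuousLinearMap.id ℝ (R2 n) + ((1 - c t) • (∫ y, η y • fderiv ℝ (hh φ) (x - r t • y)) +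
        c t • ∫ y, η y • fderiv ℝ (hh ψ) (x - r t • y)) := by
    intro t x
    exact ((hasFDerivAt_id x).add (((HH_fderiv hη φ (r t) x).const_smul (1 - c t)).add
      ((HH_fderiv hη ψ (r t) x).const_smul (c t)))).fderiv
  refine ⟨fun p => p.2 + ((1 - c p.1) • HH η φ (r p.1) p.2 + c p.1 • HH η ψ (r p.1) p.2),
    closedBall 0 (max B1 B2), c, r, ?_, isCompact_closedBall _ _, ?_, ?_, ?_, hr0, hc0, ?_, ?_⟩
  · apply contDiff_snd.add
    have e1 : ContDiff ℝ ∞ (fun p : ℝ × R2 n => (r p.1, p.2)) :=
      (hrs.comp contDiff_fst).prodMk contDiff_snd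
    have e2 : ContDiff ℝ ∞ (fun p : ℝ × R2 n => c p.1) := hcs.comp contDiff_fst
    exact ((contDiff_const.sub e2).smul ((HH_smooth hη φ).comp e1)).add
      (e2.smul ((HH_smooth hη ψ).comp e1))
  · intro t x hx
    have h1 : HH η φ (r t) x = 0 := hB1 (r t) (hr0 t).1 (hr0 t).2 x
      (fun h => hx (closedBall_subset_closedBall (le_max_left _ _) h))
    have h2 : HH η ψ (r t) x = 0 := hB2 (r t) (hr0 t).1 (hr0 t).2 x
      (fun h => hx (closedBall_subset_closedBall (le_max_right _ _) h))
    show x + ((1 - c t) • HH η φ (r t) x + c t • HH η ψ (r t) x) = x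
    rw [h1, h2, smul_zero, smul_zero, add_zero, add_zero]
  · intro x
    show x + ((1 - c 0) • HH η φ (r 0) x + c 0 • HH η ψ (r 0) x) = φ.toEquiv x
    have h1 : c 0 = 0 := Real.smoothTransition.zero_of_nonpos (by norm_num)
    have h2 : r 0 = 0 := by
      show R * (Real.smoothTransition (3 * 0) * _) = 0
      rw [mul_zero, Real.smoothTransition.zero, zero_mul, mul_zero]
    rw [h1, h2, HH_zero hη]
    simp [hh]
  · intro x
    show x + ((1 - c 1) • HH η φ (r 1) x + c 1 • HH η ψ (r 1) x) = ψ.toEquiv x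
    have h1 : c 1 = 1 := Real.smoothTransition.one_of_one_le (by norm_num)
    have h2 : r 1 = 0 := by
      show R * (_ * Real.smoothTransition (3 - 3 * 1)) = 0
      have : (3 : ℝ) - 3 * 1 = 0 := by norm_num
      rw [this, Real.smoothTransition.zero, mul_zero, mul_zero]
    rw [h1, h2, HH_zero hη ψ]
    simp [hh]
  · intro t
    rcases le_total (3 * t) 1 with ht | ht
    · left
      exact Real.smoothTransition.zero_of_nonpos (by linarith)
    · rcases le_total (3 * t) 2 with ht2 | ht2
      · right; right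
        show R * (Real.smoothTransition (3 * t) * Real.smoothTransition (3 - 3 * t)) = R
        rw [Real.smoothTransition.one_of_one_le ht,
          Real.smoothTransition.one_of_one_le (by linarith), mul_one, mul_one]
      · right; left
        exact Real.smoothTransition.one_of_one_le (by linarith)
  · intro t x v
    rw [hDF, MD_eq hη φ, MD_eq hη ψ]
    simp only [_root_.add_apply, ContinuousLinearMap.id_apply, ContinuousLinearMap.smul_apply,
      smul_add]
    have h5 : (1 - c t) • v + c t • v = v := by rw [← add_smul]; simp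
    calc _ = ((1 - c t) • v + c t • v) + _ := by rw [h5]
      _ = _ := by abel

end Pool.Agent.W5h49.EC
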