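import Pool.Agent.W5h49.EC.Defs3
import Pool.Agent.W5h49.EC.Mol2

/-!
# Mollified families of families (task MOLJC)
-/

set_option autoImplicit false
set_option maxHeartbeats 1000000

open scoped ContDiff Topology
open MeasureTheory Set Metric

namespace Pool.Agent.W5h49.EC

open Pool.Agent.W71.EC Pool.Agent.W5h83.HG

variable {n : ℕ}

section

variable {P : Type} [TopologicalSpace P] {F : Type} [NormedAddCommGroup F] [NormedSpace ℝ F]

/-- continuity of mollified families over arbitrary parameter spaces -/
theorem cont_int {η : R2 n → ℝ} (hη : Moll η) {G : P → R2 n → F}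
    (hG : Continuous (Function.uncurry G)) : Continuous (fun p => ∫ y, η y • G p y) := by
  have hGp : ∀ p, Continuous (G p) := fun p =>
    hG.comp ((continuous_const (y := p)).prodMk continuous_id)
  rw [continuous_iff_continuousAt]
  intro p0
  rw [ContinuousAt, Metric.tendsto_nhds]
  intro ε hε
  have h1 : ∀ᶠ p in 𝓝 p0, ∀ y ∈ tsupport η, dist (G p y) (G p0 y) < ε / 2 := by
    refine hη.cpt.isCompact.eventually_forall_of_forall_eventually fun y _ => ?_
    have h2 : Continuous (fun z : P × R2 n => dist (G z.1 z.2) (G p0 z.2)) :=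
      hG.dist ((hGp p0).comp continuous_snd)
    have h3 : IsOpen {z : P × R2 n | dist (G z.1 z.2) (G p0 z.2) < ε / 2} :=
      isOpen_lt h2 continuous_const
    refine h3.mem_nhds ?_
    change dist (G p0 y) (G p0 y) < ε / 2
    rw [dist_self]
    positivity
  filter_upwards [h1] with p hp
  rw [dist_eq_norm, ← integral_sub (eta_smul_int hη (hGp p)) (eta_smul_int hη (hGp p0))]
  calc ‖∫ y, (η y • G p y - η y • G p0 y)‖ ≤ ∫ y, η y * (ε / 2) := by
        refine norm_integral_le_of_norm_le ((eta_int hη).mul_const _)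
          (Filter.Eventually.of_forall fun y => ?_)
        rw [← smul_sub, norm_smul, Real.norm_of_nonneg (hη.nonneg y)]
        by_cases hy : y ∈ tsupport η
        · refine mul_le_mul_of_nonneg_left ?_ (hη.nonneg y)
          rw [← dist_eq_norm]
          exact (hp y hy).le
        · rw [image_eq_zero_of_notMem_tsupport hy, zero_mul, zero_mul]
    _ = ε / 2 := by rw [integral_mul_const, hη.integral, one_mul]
    _ < ε := by linarith

/-- differentiation under the integral -/
theorem hasFDerivAt_int {η : R2 n → ℝ} (hη : Moll η) {h : R2 n → F}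
    (hd : Differentiable ℝ h) (hc : Continuous (fderiv ℝ h)) (s : ℝ) (x : R2 n) :
    HasFDerivAt (fun x => ∫ y, η y • h (x - s • y)) (∫ y, η y • fderiv ℝ h (x - s • y)) x := by
  have hK : IsCompact (closedBall x 1 ×ˢ tsupport η) :=
    (isCompact_closedBall x 1).prod hη.cpt.isCompact
  have hcc : Continuous (fun z : R2 n × R2 n => fderiv ℝ h (z.1 - s • z.2)) :=
    hc.comp (continuous_fst.sub (continuous_snd.const_smul s))
  obtain ⟨C, hC⟩ := hK.exists_bound_of_continuousOn hcc.continuousOn
  have hc1 : ∀ x : R2 n, Continuous (fun y : R2 n => h (x - s • y)) := fun x =>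
    hd.continuous.comp (by fun_prop)
  have hc2 : ∀ x : R2 n, Continuous (fun y : R2 n => fderiv ℝ h (x - s • y)) := fun x =>
    hc.comp (by fun_prop)
  refine hasFDerivAt_integral_of_dominated_of_fderiv_le (s := ball x 1)
    (ball_mem_nhds x one_pos)
    (F := fun x y => η y • h (x - s • y))
    (F' := fun x y => η y • fderiv ℝ h (x - s • y)) (bound := fun y => η y * C)
    (Filter.Eventually.of_forall fun x => (eta_smul_int hη (hc1 x)).aestronglyMeasurable)
    (eta_smul_int hη (hc1 x)) (eta_smul_int hη (hc2 x)).aestronglyMeasurable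
    (Filter.Eventually.of_forall fun y z hz => ?_) ((eta_int hη).mul_const C)
    (Filter.Eventually.of_forall fun y z _ => ?_)
  · rw [norm_smul, Real.norm_of_nonneg (hη.nonneg y)]
    by_cases hy : y ∈ tsupport η
    · exact mul_le_mul_of_nonneg_left (hC (z, y) ⟨ball_subset_closedBall hz, hy⟩) (hη.nonneg y)
    · rw [image_eq_zero_of_notMem_tsupport hy, zero_mul, zero_mul]
  · have h1 : HasFDerivAt h (fderiv ℝ h (z - s • y)) (z - s • y) := (hd _).hasFDerivAt
    have h2 : HasFDerivAt (fun z : R2 n => z - s • y) (ContinuousLinearMap.id ℝ (R2 n)) z :=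
      (hasFDerivAt_id z).sub_const _
    have h3 := h1.comp z h2
    rw [ContinuousLinearMap.comp_id] at h3
    exact h3.const_smul (η y)

end

/-- mollified jointly smooth families are jointly smooth -/
theorem JC_int {P : Type} [TopologicalSpace P] {η : R2 n → ℝ} (hη : Moll η) {σ : P → ℝ}
    (hσ : Continuous σ) (k : ℕ) {F : Type} [NormedAddCommGroup F] [NormedSpace ℝ F]
    {h : P → R2 n → F} (hh : JC k F h) :
    JC k F (fun p x => ∫ y, η y • h p (x - σ p • y)) := by
  have hc : ∀ {G : Type} [NormedAddCommGroup G] [NormedSpace ℝ G] {h : P → R2 n → G},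
      Continuous (Function.uncurry h) →
      Continuous (Function.uncurry fun p x => ∫ y, η y • h p (x - σ p • y)) := by
    intro G _ _ h hh
    refine cont_int hη (P := P × R2 n) (G := fun z y => h z.1 (z.2 - σ z.1 • y)) ?_
    have e : Continuous (fun w : (P × R2 n) × R2 n => (w.1.1, w.1.2 - σ w.1.1 • w.2)) :=
      (continuous_fst.comp continuous_fst).prodMk
        ((continuous_snd.comp continuous_fst).sub
          ((hσ.comp (continuous_fst.comp continuous_fst)).smul continuous_snd))
    exact hh.comp e
  induction k generalizing F with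
  | zero => exact hc hh
  | succ k ih =>
    have hcd : ∀ p, Continuous (fderiv ℝ (h p)) := fun p =>
      hh.2.2.cont.comp ((continuous_const (y := p)).prodMk continuous_id)
    have hd : ∀ p x, HasFDerivAt (fun x => ∫ y, η y • h p (x - σ p • y))
        (∫ y, η y • fderiv ℝ (h p) (x - σ p • y)) x := fun p x =>
      hasFDerivAt_int hη (fun x => hh.2.1 p x) (hcd p) (σ p) x
    refine ⟨hc hh.1, fun p x => (hd p x).differentiableAt, ?_⟩
    have : (fun p x => fderiv ℝ (fun x => ∫ y, η y • h p (x - σ p • y)) x) =
        fun p x => ∫ y, η y • fderiv ℝ (h p) (x - σ p • y) := by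
      funext p x
      exact (hd p x).fderiv
    rw [this]
    exact ih (h := fun p x => fderiv ℝ (h p) x) hh.2.2

/-- the mollified displacement vanishes off a compact set, with a bound which depends only on the
support -/
theorem HH_supp_unif {η : R2 n → ℝ} (hη : Moll η) (m : ℕ) {T : ℝ} (hT0 : 0 ≤ T) :
    ∃ B : ℝ, ∀ φ : SympCt n, φ ∈ supportedIn (closedBall (0 : R2 n) m) →
      ∀ s : ℝ, 0 ≤ s → s ≤ T → ∀ x : R2 n, x ∉ closedBall (0 : R2 n) B → HH η φ s x = 0 := by
  obtain ⟨S, hS⟩ := hη.cpt.isCompact.isBounded.subset_closedBall (0 : R2 n)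
  refine ⟨m + T * |S|, fun φ hφ s hs0 hs1 x hx => ?_⟩
  unfold HH
  rw [← integral_zero (R2 n) (R2 n)]
  refine integral_congr_ae (Filter.Eventually.of_forall fun y => ?_)
  show η y • hh φ (x - s • y) = 0
  by_cases hy : y ∈ tsupport η
  · have h2 : hh φ (x - s • y) = 0 := by
      by_cases h3 : x - s • y ∈ closedBall (0 : R2 n) m
      · exfalso
        have h5 := hS hy
        rw [mem_closedBall, dist_zero_right] at h3 h5
        apply hx
        rw [mem_closedBall, dist_zero_right]
        have h6 : ‖x‖ ≤ ‖x - s • y‖ + ‖s • y‖ := by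
          have := norm_add_le (x - s • y) (s • y)
          rwa [sub_add_cancel] at this
        have h7 : ‖s • y‖ ≤ T * |S| := by
          rw [norm_smul, Real.norm_of_nonneg hs0]
          exact mul_le_mul hs1 (h5.trans (le_abs_self S)) (norm_nonneg _) hT0
        linarith
      · show φ.toEquiv (x - s • y) - (x - s • y) = 0
        rw [hφ _ h3, sub_self]
    rw [h2, smul_zero]
  · rw [image_eq_zero_of_notMem_tsupport hy, zero_smul]

theorem moljc (n : ℕ) : S_MOLJC n := by
  intro C _ _ f g η hη R hR
  set c : ℝ → ℝ := fun t => Real.smoothTransition (3 * t - 1) with hc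
  set r : ℝ → ℝ := fun t =>
    R * (Real.smoothTransition (3 * t) * Real.smoothTransition (3 - 3 * t)) with hr
  have hcs : ContDiff ℝ ∞ c :=
    Real.smoothTransition.contDiff.comp ((contDiff_const.mul contDiff_id).sub contDiff_const)
  have hrs : ContDiff ℝ ∞ r :=
    contDiff_const.mul ((Real.smoothTransition.contDiff.comp
      (contDiff_const.mul contDiff_id)).mul (Real.smoothTransition.contDiff.comp
        (contDiff_const.sub (contDiff_const.mul contDiff_id))))
  have hc0 : ∀ t, 0 ≤ c t ∧ c t ≤ 1 := fun t =>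
    ⟨Real.smoothTransition.nonneg _, Real.smoothTransition.le_one _⟩
  have hr0 : ∀ t, 0 ≤ r t ∧ r t ≤ R := by
    intro t
    have h1 := Real.smoothTransition.nonneg (3 * t)
    have h2 := Real.smoothTransition.le_one (3 * t)
    have h3 := Real.smoothTransition.nonneg (3 - 3 * t)
    have h4 := Real.smoothTransition.le_one (3 - 3 * t)
    refine ⟨mul_nonneg hR.le (mul_nonneg h1 h3), ?_⟩
    show R * _ ≤ R
    have h5 : Real.smoothTransition (3 * t) * Real.smoothTransition (3 - 3 * t) ≤ 1 :=
      mul_le_one₀ h2 h3 h4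
    nlinarith
  obtain ⟨m1, hm1⟩ := supp_unif (isCompact_range f.continuous)
  obtain ⟨m2, hm2⟩ := supp_unif (isCompact_range g.continuous)
  obtain ⟨B1, hB1⟩ := HH_supp_unif hη m1 hR.le
  obtain ⟨B2, hB2⟩ := HH_supp_unif hη m2 hR.le
  have hDF : ∀ p t x, DF (fun q : ℝ × R2 n => q.2 + ((1 - c q.1) • HH η (f p) (r q.1) q.2 +
      c q.1 • HH η (g p) (r q.1) q.2)) t x =
      ContinuousLinearMap.id ℝ (R2 n) +
        ((1 - c t) • (∫ y, η y • fderiv ℝ (hh (f p)) (x - r t • y)) +
        c t • ∫ y, η y • fderiv ℝ (hh (g p)) (x - r t • y)) := by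
    intro p t x
    exact ((hasFDerivAt_id x).add (((HH_fderiv hη (f p) (r t) x).const_smul (1 - c t)).add
      ((HH_fderiv hη (g p) (r t) x).const_smul (c t)))).fderiv
  have hhJ : ∀ (f : C(C, SympCt n)) (k : ℕ), JC k (R2 n) (fun p x => hh (f p) x) := by
    intro f k
    have h1 := (JS.of_continuous f.continuous k).add
      (JC.ofSmooth (P := C) (φ := fun x : R2 n => -x) contDiff_neg k)
    have h2 : (fun p x => hh (f p) x) = fun p x => (f p).toEquiv x + -x := by
      funext p x
      rw [hh, sub_eq_add_neg]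
    rw [h2]
    exact h1
  have hHJ : ∀ (f : C(C, SympCt n)) (k : ℕ),
      JC k (R2 n) (fun (q : C × ℝ) x => HH η (f q.1) (r q.2) x) := by
    intro f k
    exact JC_int hη (σ := fun q : C × ℝ => r q.2) (hrs.continuous.comp continuous_snd) k
      ((hhJ f k).param continuous_fst)
  refine ⟨fun p q => q.2 + ((1 - c q.1) • HH η (f p) (r q.1) q.2 +
      c q.1 • HH η (g p) (r q.1) q.2),
    closedBall 0 (max B1 B2), c, r, ?_, ?_, isCompact_closedBall _ _, ?_, ?_, ?_, hr0, hc0, ?_, ?_⟩
  · intro p
    apply contDiff_snd.add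
    have e1 : ContDiff ℝ ∞ (fun p : ℝ × R2 n => (r p.1, p.2)) :=
      (hrs.comp contDiff_fst).prodMk contDiff_snd
    have e2 : ContDiff ℝ ∞ (fun p : ℝ × R2 n => c p.1) := hcs.comp contDiff_fst
    exact ((contDiff_const.sub e2).smul ((HH_smooth hη (f p)).comp e1)).add
      (e2.smul ((HH_smooth hη (g p)).comp e1))
  · intro k
    have h1 : Continuous (fun q : C × ℝ => 1 - c q.2) :=
      continuous_const.sub (hcs.continuous.comp continuous_snd)
    have h2 : Continuous (fun q : C × ℝ => c q.2) := hcs.continuous.comp continuous_snd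
    exact (JC.ofSmooth (P := C × ℝ) (φ := fun x : R2 n => x) contDiff_id k).add
      (((hHJ f k).smulP h1).add ((hHJ g k).smulP h2))
  · intro p t x hx
    have h1 : HH η (f p) (r t) x = 0 := hB1 (f p) (hm1 _ ⟨p, rfl⟩) (r t) (hr0 t).1 (hr0 t).2 x
      (fun h => hx (closedBall_subset_closedBall (le_max_left _ _) h))
    have h2 : HH η (g p) (r t) x = 0 := hB2 (g p) (hm2 _ ⟨p, rfl⟩) (r t) (hr0 t).1 (hr0 t).2 x
      (fun h => hx (closedBall_subset_closedBall (le_max_right _ _) h))
    show x + ((1 - c t) • HH η (f p) (r t) x + c t • HH η (g p) (r t) x) = x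
    rw [h1, h2, smul_zero, smul_zero, add_zero, add_zero]
  · intro p x
    show x + ((1 - c 0) • HH η (f p) (r 0) x + c 0 • HH η (g p) (r 0) x) = (f p).toEquiv x
    have h1 : c 0 = 0 := Real.smoothTransition.zero_of_nonpos (by norm_num)
    have h2 : r 0 = 0 := by
      show R * (Real.smoothTransition (3 * 0) * _) = 0
      rw [mul_zero, Real.smoothTransition.zero, zero_mul, mul_zero]
    rw [h1, h2, HH_zero hη]
    simp [hh]
  · intro p x
    show x + ((1 - c 1) • HH η (f p) (r 1) x + c 1 • HH η (g p) (r 1) x) = (g p).toEquiv x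
    have h1 : c 1 = 1 := Real.smoothTransition.one_of_one_le (by norm_num)
    have h2 : r 1 = 0 := by
      show R * (_ * Real.smoothTransition (3 - 3 * 1)) = 0
      have : (3 : ℝ) - 3 * 1 = 0 := by norm_num
      rw [this, Real.smoothTransition.zero, mul_zero, mul_zero]
    rw [h1, h2, HH_zero hη (g p)]
    simp [hh]
  · intro t
    rcases le_total (3 * t) 1 with ht | ht
    · left
      exact Real.smoothTransition.zero_of_nonpos (by linarith)
    · rcases le_total (3 * t) 2 with ht2 | ht2
      · right; right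
        show R * (Real.smoothTransition (3 * t) * Real.smoothTransition (3 - 3 * t)) = R
        rw [Real.smoothTransition.one_of_one_le ht,
          Real.smoothTransition.one_of_one_le (by linarith), mul_one, mul_one]
      · right; left
        exact Real.smoothTransition.one_of_one_le (by linarith)
  · intro p t x v
    rw [hDF, MD_eq hη (f p), MD_eq hη (g p)]
    simp only [_root_.add_apply, ContinuousLinearMap.id_apply, ContinuousLinearMap.smul_apply,
      smul_add]
    have h5 : (1 - c t) • v + c t • v = v := by rw [← add_smul]; simp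
    calc _ = ((1 - c t) • v + c t • v) + _ := by rw [h5]
      _ = _ := by abel

end Pool.Agent.W5h49.EC
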