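import Mathlib
import Pool.Agent.W5h49.EC.Defs5
import Pool.Agent.W5h49.EC.MolJC
import Pool.Agent.W5h49.EC.Cube2

set_option autoImplicit false

open scoped ContDiff Topology
open MeasureTheory

namespace Pool.Agent.W5h49.EC

open Pool.Agent.W71.EC Pool.Agent.W5h83.HG

/-- the differential averaged over the cube with centre `x` and half-side `r ≥ 0` -/
noncomputable def CA {n : ℕ} (φ : SympCt n) (r : ℝ) (x : R2 n) : R2 n →L[ℝ] R2 n :=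
  ⨍ y in Metric.ball (0 : R2 n) 1, fderiv ℝ φ.toEquiv (x - r • y)

/-- the differential averaged with a mollifier -/
noncomputable def MA {n : ℕ} (η : R2 n → ℝ) (φ : SympCt n) (r : ℝ) (x : R2 n) :
    R2 n →L[ℝ] R2 n :=
  ∫ y, η y • fderiv ℝ φ.toEquiv (x - r • y)

/-- TASK NROPEN -/
def S_NROPEN (n : ℕ) : Prop := IsOpen {A : R2 n →L[ℝ] R2 n | NR A}

/-- TASK CA1 (continuity in the parameter, the point and the scale) -/
def S_CA1 (n : ℕ) : Prop := ∀ (C : Type) [TopologicalSpace C] (f : C(C, SympCt n)),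
  Continuous (fun z : C × (ℝ × R2 n) => CA (f z.1) z.2.1 z.2.2)

/-- TASK CA2 (evaluation) -/
def S_CA2 (n : ℕ) : Prop := ∀ φ : SympCt n,
  (∀ (r : ℝ), 0 < r → ∀ x v, CA φ r x v = ⨍ y in Metric.ball x r, D φ y v) ∧
  (∀ x v, CA φ 0 x v = D φ x v) ∧
  ∀ η : R2 n → ℝ, Moll η → ∀ r x v, MA η φ r x v = MD η φ r x v

/-- TASK CA3 (approximation of the cube averages by smooth averages) -/
def S_CA3 (n : ℕ) : Prop := ∀ (C : Type) [TopologicalSpace C] [CompactSpace C]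
  (f : C(C, SympCt n)) (δ : ℝ), 0 < δ → ∃ k₀ : ℝ, 0 < k₀ ∧ ∀ k : ℝ, 0 < k → k ≤ k₀ →
    ∀ η : R2 n → ℝ, Moll η → (∀ y, y ∉ Metric.ball (0 : R2 n) 1 → η y = 0) →
    (∀ y, η y ≤ (1 + k) / volume.real (Metric.ball (0 : R2 n) 1)) →
    ∀ p r x, ‖MA η (f p) r x - CA (f p) r x‖ < δ

/-- TASK CA4 (large scales) -/
def S_CA4 (n : ℕ) : Prop := ∀ (C : Type) [TopologicalSpace C] [CompactSpace C]
  (f : C(C, SympCt n)) (δ : ℝ), 0 < δ → ∃ R₀ : ℝ, 0 < R₀ ∧ ∀ R : ℝ, R₀ ≤ R → ∀ p x,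
    ‖CA (f p) R x - ContinuousLinearMap.id ℝ (R2 n)‖ ≤ δ

/-- TASK CA5 (far away) -/
def S_CA5 (n : ℕ) : Prop := ∀ (C : Type) [TopologicalSpace C] [CompactSpace C]
  (f : C(C, SympCt n)) (T : ℝ), ∃ M : ℝ, ∀ p r x, 0 ≤ r → r ≤ T → M < ‖x‖ →
    CA (f p) r x = ContinuousLinearMap.id ℝ (R2 n)

end Pool.Agent.W5h49.EC
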