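import Mathlib
import Pool.Agent.W5h49.EC.Defs6

/-!
# Approximation of the cube averages by smooth averages (task CA3)
-/

set_option autoImplicit false

open scoped ContDiff Topology
open MeasureTheory

namespace Pool.Agent.W5h49.EC

open Pool.Agent.W71.EC Pool.Agent.W5h83.HG

variable {n : ℕ}

/-- the differentials of a compact family are uniformly bounded -/
theorem fderiv_bound_unif {C : Type} [TopologicalSpace C] [CompactSpace C] (f : C(C, SympCt n)) :
    ∃ Λ : ℝ, 0 ≤ Λ ∧ ∀ p x, ‖fderiv ℝ (f p).toEquiv x‖ ≤ Λ := by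
  obtain ⟨m, hm⟩ := supp_unif (isCompact_range f.continuous)
  have hJ : JC 1 (R2 n) (fun p x => (f p).toEquiv x) := JS.of_continuous f.continuous 1
  have hc : Continuous (fun z : C × R2 n => fderiv ℝ (f z.1).toEquiv z.2) := hJ.2.2
  obtain ⟨K, hK⟩ := ((isCompact_univ (X := C)).prod
    (isCompact_closedBall (0 : R2 n) m)).exists_bound_of_continuousOn hc.continuousOn
  refine ⟨max K 1, le_max_of_le_right zero_le_one, fun p x => ?_⟩
  by_cases hx : x ∈ Metric.closedBall (0 : R2 n) m
  · exact (hK (p, x) ⟨Set.mem_univ _, hx⟩).trans (le_max_left _ _)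
  · have h1 : (f p).toEquiv =ᶠ[𝓝 x] (fun y => y) := by
      have h2 : (Metric.closedBall (0 : R2 n) m)ᶜ ∈ 𝓝 x :=
        Metric.isClosed_closedBall.isOpen_compl.mem_nhds hx
      filter_upwards [h2] with y hy
      exact hm (f p) ⟨p, rfl⟩ y hy
    rw [h1.fderiv_eq, fderiv_fun_id]
    exact ContinuousLinearMap.norm_id_le.trans (le_max_right _ _)

theorem ca3 (n : ℕ) : S_CA3 n := by
  intro C _ _ f δ hδ
  obtain ⟨Λ, hΛ0, hΛ⟩ := fderiv_bound_unif f
  refine ⟨δ / (4 * (Λ + 1)), by positivity, fun k hk hk0 η hη hηs hηb p r x => ?_⟩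
  set V : ℝ := volume.real (Metric.ball (0 : R2 n) 1) with hV
  have hV0 : 0 < V := ENNReal.toReal_pos (Metric.measure_ball_pos _ _ one_pos).ne'
    measure_ball_lt_top.ne
  have hF : Continuous (fun y : R2 n => fderiv ℝ (f p).toEquiv (x - r • y)) :=
    ((f p).smooth.continuous_fderiv (by simp)).comp (by fun_prop)
  have hηi : ∫ y in Metric.ball (0 : R2 n) 1, η y = 1 := by
    rw [setIntegral_eq_integral_of_forall_compl_eq_zero (fun y hy => hηs y hy), hη.integral]
  have h1 : MA η (f p) r x =
      ∫ y in Metric.ball (0 : R2 n) 1, η y • fderiv ℝ (f p).toEquiv (x - r • y) := by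
    unfold MA
    rw [setIntegral_eq_integral_of_forall_compl_eq_zero]
    intro y hy
    rw [hηs y hy, zero_smul]
  have h2 : CA (f p) r x =
      ∫ y in Metric.ball (0 : R2 n) 1, V⁻¹ • fderiv ℝ (f p).toEquiv (x - r • y) := by
    unfold CA
    rw [setAverage_eq, integral_smul]
  have hb : IntegrableOn (fun y : R2 n => fderiv ℝ (f p).toEquiv (x - r • y))
      (Metric.ball (0 : R2 n) 1) :=
    (hF.continuousOn.integrableOn_compact (isCompact_closedBall (0 : R2 n) 1)).mono_set
      Metric.ball_subset_closedBall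
  have hη' : IntegrableOn η (Metric.ball (0 : R2 n) 1) := (eta_int hη).integrableOn
  have h3 : MA η (f p) r x - CA (f p) r x =
      ∫ y in Metric.ball (0 : R2 n) 1, (η y - V⁻¹) • fderiv ℝ (f p).toEquiv (x - r • y) := by
    rw [h1, h2, ← integral_sub]
    · refine integral_congr_ae (Filter.Eventually.of_forall fun y => ?_)
      exact (sub_smul _ _ _).symm
    · exact (eta_smul_int hη hF).integrableOn
    · exact hb.smul V⁻¹
  rw [h3]
  have hconst : IntegrableOn (fun _ : R2 n => (1 + 2 * k) / V) (Metric.ball (0 : R2 n) 1) :=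
    integrableOn_const measure_ball_lt_top.ne
  calc ‖∫ y in Metric.ball (0 : R2 n) 1, (η y - V⁻¹) • fderiv ℝ (f p).toEquiv (x - r • y)‖
      ≤ ∫ y in Metric.ball (0 : R2 n) 1, ((1 + 2 * k) / V - η y) * Λ := by
        refine norm_integral_le_of_norm_le ((hconst.sub hη').mul_const Λ)
          (Filter.Eventually.of_forall fun y => ?_)
        rw [norm_smul]
        refine mul_le_mul ?_ (hΛ p _) (norm_nonneg _) ?_
        · have hy := hηb y
          rw [Real.norm_eq_abs, abs_le]
          have e1 : (1 + 2 * k) / V = V⁻¹ + 2 * (k / V) := by ring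
          have e2 : (1 + k) / V = V⁻¹ + k / V := by ring
          have e3 : 0 < k / V := div_pos hk hV0
          constructor
          · linarith
          · linarith
        · have hy := hηb y
          have e1 : (1 + 2 * k) / V = V⁻¹ + 2 * (k / V) := by ring
          have e2 : (1 + k) / V = V⁻¹ + k / V := by ring
          have e3 : 0 < k / V := div_pos hk hV0
          linarith
    _ = 2 * k * Λ := by
        rw [integral_mul_const, integral_sub hconst hη', hηi, setIntegral_const, smul_eq_mul,
          ← hV]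
        field_simp
        ring
    _ < δ := by
        have h4 : k * (4 * (Λ + 1)) ≤ δ := by
          rwa [le_div_iff₀ (by positivity)] at hk0
        nlinarith

end Pool.Agent.W5h49.EC
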