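import Mathlib
import Pool.Agent.W5h49.EC.Defs6

set_option autoImplicit false

open scoped ContDiff Topology
open MeasureTheory Metric

namespace Pool.Agent.W5h49.EC

open Pool.Agent.W71.EC Pool.Agent.W5h83.HG

namespace CAH

variable {n : ℕ}

/-- common support and a common bound of the differentials of a compact family -/
theorem common {C : Type} [TopologicalSpace C] [CompactSpace C] (f : C(C, SympCt n)) :
    ∃ (m : ℕ) (Λ : ℝ), 0 ≤ Λ ∧
      (∀ p y, y ∉ closedBall (0 : R2 n) m →
        fderiv ℝ (f p).toEquiv y = ContinuousLinearMap.id ℝ (R2 n)) ∧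
      ∀ p y, ‖fderiv ℝ (f p).toEquiv y - ContinuousLinearMap.id ℝ (R2 n)‖ ≤ Λ := by
  obtain ⟨m, hm⟩ := supp_unif (isCompact_range f.continuous)
  have hout : ∀ p y, y ∉ closedBall (0 : R2 n) m →
      fderiv ℝ (f p).toEquiv y = ContinuousLinearMap.id ℝ (R2 n) := by
    intro p y hy
    have h1 : (f p).toEquiv =ᶠ[𝓝 y] id := by
      filter_upwards [(isClosed_closedBall (x := (0 : R2 n)) (ε := (m : ℝ))).isOpen_compl.mem_nhds
        hy] with z hz
      exact hm (f p) ⟨p, rfl⟩ z hz
    rw [h1.fderiv_eq]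
    exact fderiv_id
  have hJ := JS.of_continuous f.continuous 1
  have hc : Continuous (Function.uncurry fun (p : C) (y : R2 n) =>
      fderiv ℝ (f p).toEquiv y - ContinuousLinearMap.id ℝ (R2 n)) :=
    (hJ.2.2 : Continuous (Function.uncurry fun (p : C) (y : R2 n) =>
      fderiv ℝ (f p).toEquiv y)).sub continuous_const
  obtain ⟨Λ, hΛ⟩ := ((isCompact_univ (X := C)).prod
    (isCompact_closedBall (0 : R2 n) (m : ℝ))).exists_bound_of_continuousOn hc.continuousOn
  refine ⟨m, max Λ 0, le_max_right _ _, hout, fun p y => ?_⟩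
  by_cases hy : y ∈ closedBall (0 : R2 n) m
  · exact (hΛ (p, y) ⟨trivial, hy⟩).trans (le_max_left _ _)
  · rw [hout p y hy, sub_self, norm_zero]
    exact le_max_right _ _

theorem ball_ne_zero : volume (ball (0 : R2 n) 1) ≠ 0 :=
  (measure_ball_pos volume _ one_pos).ne'

theorem ball_ne_top : volume (ball (0 : R2 n) 1) ≠ ⊤ := measure_ball_lt_top.ne

end CAH

open CAH

/-- TASK CA4 (large scales) -/
theorem ca4 (n : ℕ) : S_CA4 n := by
  intro C _ _ f δ hδ
  obtain ⟨m, Λ, hΛ0, hout, hΛ⟩ := common f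
  rcases Nat.eq_zero_or_pos n with rfl | hn
  · refine ⟨1, one_pos, fun R _ p x => ?_⟩
    have h1 : CA (f p) R x - ContinuousLinearMap.id ℝ (R2 0) = 0 :=
      ContinuousLinearMap.ext fun v => Subsingleton.elim _ _
    rw [h1, norm_zero]
    exact hδ.le
  have hd : 1 ≤ Module.finrank ℝ (R2 n) := by
    rw [Module.finrank_prod, Module.finrank_fin_fun]
    omega
  set d := Module.finrank ℝ (R2 n) with hdd
  refine ⟨(m + 1) * (1 + Λ / δ), by positivity, fun R hR p x => ?_⟩
  have hm1 : (1 : ℝ) ≤ m + 1 := by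
    have : (0 : ℝ) ≤ m := Nat.cast_nonneg m
    linarith
  have hq : 0 ≤ Λ / δ := by positivity
  have hR1 : (m : ℝ) + 1 ≤ R := by
    refine le_trans ?_ hR
    nlinarith
  have hR0 : 0 < R := by linarith
  have hR2 : (m : ℝ) * Λ ≤ δ * R := by
    have h1 : δ * ((m + 1) * (1 + Λ / δ)) ≤ δ * R := by gcongr
    have h2 : δ * ((m + 1) * (1 + Λ / δ)) = (m + 1) * (δ + Λ) := by
      field_simp
    rw [h2] at h1
    have : (0 : ℝ) ≤ m := Nat.cast_nonneg m
    nlinarith
  have hcf : Continuous (fun y : R2 n => fderiv ℝ (f p).toEquiv (x - R • y)) :=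
    ((f p).smooth.continuous_fderiv (by norm_num)).comp
      (continuous_const.sub (continuous_id.const_smul R))
  have hint : IntegrableOn (fun y : R2 n => fderiv ℝ (f p).toEquiv (x - R • y)) (ball 0 1) :=
    (hcf.continuousOn.integrableOn_compact (isCompact_closedBall 0 1)).mono_set
      ball_subset_closedBall
  have hint2 : IntegrableOn (fun _ : R2 n => ContinuousLinearMap.id ℝ (R2 n)) (ball 0 1) :=
    (continuous_const.continuousOn.integrableOn_compact (isCompact_closedBall 0 1)).mono_set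
      ball_subset_closedBall
  have e1 : CA (f p) R x - ContinuousLinearMap.id ℝ (R2 n) =
      (volume.real (ball (0 : R2 n) 1))⁻¹ • ∫ y in ball (0 : R2 n) 1,
        (fderiv ℝ (f p).toEquiv (x - R • y) - ContinuousLinearMap.id ℝ (R2 n)) := by
    rw [integral_sub hint hint2, smul_sub, ← setAverage_eq, ← setAverage_eq,
      setAverage_const ball_ne_zero ball_ne_top]
    rfl
  have hv0 : 0 < volume.real (ball (0 : R2 n) 1) :=
    ENNReal.toReal_pos ball_ne_zero ball_ne_top
  set S : Set (R2 n) := closedBall (R⁻¹ • x) (m / R) with hS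
  have hbound : ∀ y : R2 n,
      ‖fderiv ℝ (f p).toEquiv (x - R • y) - ContinuousLinearMap.id ℝ (R2 n)‖ ≤
        S.indicator (fun _ => Λ) y := by
    intro y
    by_cases hy : y ∈ S
    · rw [Set.indicator_of_mem hy]
      exact hΛ p _
    · rw [Set.indicator_of_notMem hy, hout p, sub_self, norm_zero]
      intro h
      apply hy
      rw [mem_closedBall, dist_zero_right] at h
      rw [hS, mem_closedBall, dist_eq_norm, le_div_iff₀ hR0]
      have h2 : x - R • y = -(R • (y - R⁻¹ • x)) := by
        rw [smul_sub, smul_smul, mul_inv_cancel₀ hR0.ne', one_smul]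
        abel
      rw [h2, norm_neg, norm_smul, Real.norm_of_nonneg hR0.le] at h
      linarith
  have hSm : MeasurableSet S := isClosed_closedBall.measurableSet
  have hSv : volume.real S = (m / R) ^ d * volume.real (ball (0 : R2 n) 1) := by
    rw [measureReal_def, hS, Measure.addHaar_closedBall _ _ (by positivity), ENNReal.toReal_mul,
      ENNReal.toReal_ofReal (by positivity), measureReal_def]
  have hSt : volume S ≠ ⊤ := measure_closedBall_lt_top.ne
  have hle : ‖∫ y in ball (0 : R2 n) 1,
      (fderiv ℝ (f p).toEquiv (x - R • y) - ContinuousLinearMap.id ℝ (R2 n))‖ ≤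
        volume.real S * Λ := by
    have h1 : Integrable (S.indicator fun _ : R2 n => Λ) volume :=
      (integrable_indicator_iff hSm).2 (integrableOn_const hSt)
    refine (norm_integral_le_of_norm_le h1.integrableOn (ae_of_all _ hbound)).trans ?_
    refine (setIntegral_le_integral h1 (ae_of_all _ fun y => ?_)).trans ?_
    · exact Set.indicator_nonneg (fun _ _ => hΛ0) y
    · rw [integral_indicator hSm, setIntegral_const, smul_eq_mul]
  rw [e1, norm_smul, norm_inv, Real.norm_of_nonneg hv0.le, inv_mul_le_iff₀ hv0]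
  refine hle.trans ?_
  rw [hSv]
  have hmR0 : 0 ≤ (m : ℝ) / R := by positivity
  have hmR1 : (m : ℝ) / R ≤ 1 := by
    rw [div_le_one hR0]
    linarith
  have hpow : ((m : ℝ) / R) ^ d ≤ m / R := by
    calc ((m : ℝ) / R) ^ d ≤ ((m : ℝ) / R) ^ 1 := pow_le_pow_of_le_one hmR0 hmR1 hd
      _ = m / R := pow_one _
  have hfin : (m : ℝ) / R * Λ ≤ δ := by
    rw [div_mul_eq_mul_div, div_le_iff₀ hR0]
    exact hR2
  calc ((m : ℝ) / R) ^ d * volume.real (ball (0 : R2 n) 1) * Λ
      ≤ (m / R) * volume.real (ball (0 : R2 n) 1) * Λ := by gcongr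
    _ = volume.real (ball (0 : R2 n) 1) * (m / R * Λ) := by ring
    _ ≤ volume.real (ball (0 : R2 n) 1) * δ := by gcongr

end Pool.Agent.W5h49.EC
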