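import Pool.Agent.W5h49.EC.Defs6
import Pool.Agent.W5h83.HG.Supp

set_option autoImplicit false

open scoped ContDiff Topology
open MeasureTheory Metric

namespace Pool.Agent.W5h49.EC

open Pool.Agent.W71.EC Pool.Agent.W5h83.HG CubeAux

variable {n : ℕ}

theorem ca5_fderiv_far {φ : SympCt n} {m : ℝ} (hφ : φ ∈ supportedIn (closedBall (0 : R2 n) m))
    {y : R2 n} (hy : m < ‖y‖) : fderiv ℝ φ.toEquiv y = ContinuousLinearMap.id ℝ (R2 n) := by
  have hev : φ.toEquiv =ᶠ[𝓝 y] id := by
    have ho : (closedBall (0 : R2 n) m)ᶜ ∈ 𝓝 y :=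
      isClosed_closedBall.isOpen_compl.mem_nhds (by simpa using hy)
    filter_upwards [ho] with z hz
    exact hφ z hz
  rw [hev.fderiv_eq, fderiv_id]

/-- (CA5) the averaged differentials are the identity far away -/
theorem ca5 (n : ℕ) : S_CA5 n := by
  intro C _ _ f T
  obtain ⟨m, hm⟩ := supp_unif (isCompact_range f.continuous)
  refine ⟨m + |T|, fun p r x hr hrT hx => ?_⟩
  have h1 : ∀ y ∈ ball (0 : R2 n) 1, fderiv ℝ (f p).toEquiv (x - r • y) =
      ContinuousLinearMap.id ℝ (R2 n) := by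
    intro y hy
    rw [mem_ball_zero_iff] at hy
    refine ca5_fderiv_far (hm _ ⟨p, rfl⟩) ?_
    have h2 : ‖r • y‖ ≤ |T| := by
      rw [norm_smul, Real.norm_of_nonneg hr]
      calc r * ‖y‖ ≤ r * 1 := mul_le_mul_of_nonneg_left hy.le hr
        _ = r := mul_one r
        _ ≤ |T| := hrT.trans (le_abs_self T)
    have h3 := norm_sub_norm_le x (r • y)
    linarith
  unfold CA
  rw [setAverage_congr_fun measurableSet_ball (Filter.Eventually.of_forall h1), setAverage_const]
  · exact (measure_ball_pos volume 0 one_pos).ne'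
  · exact measure_ball_lt_top.ne

end Pool.Agent.W5h49.EC
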