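import Mathlib
import Pool.Agent.W5h49.EC.Defs

/-!
# Near isometries have small variance at all scales (task D)
-/

set_option autoImplicit false

open scoped ContDiff Topology
open MeasureTheory

namespace Pool.Agent.W5h49.EC

open Pool.Agent.W71.EC

namespace Near

variable {n : ℕ}

/-- the Euclidean inner product -/
def ip (u v : R2 n) : ℝ := ∑ i, (u.1 i * v.1 i + u.2 i * v.2 i)

theorem omega_J (u v : R2 n) : omega u (J v) = ip u v := by
  unfold omega ip J
  refine Finset.sum_congr rfl fun i _ => ?_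
  simp only [Pi.neg_apply]
  ring

theorem omega_eq (u v : R2 n) : omega u v = -ip u (J v) := by
  unfold omega ip J
  rw [← Finset.sum_neg_distrib]
  refine Finset.sum_congr rfl fun i _ => ?_
  simp only [Pi.neg_apply]
  ring

theorem ip_self (u : R2 n) : ip u u = nsq u := by
  unfold ip nsq
  refine Finset.sum_congr rfl fun i _ => ?_
  ring

theorem nsq_J (v : R2 n) : nsq (J v) = nsq v := by
  unfold nsq J
  refine Finset.sum_congr rfl fun i _ => ?_
  simp only [Pi.neg_apply]
  ring

theorem nsq_nonneg (v : R2 n) : 0 ≤ nsq v :=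
  Finset.sum_nonneg fun i _ => by positivity

theorem nsq_smul (c : ℝ) (v : R2 n) : nsq (c • v) = c ^ 2 * nsq v := by
  unfold nsq
  rw [Finset.mul_sum]
  refine Finset.sum_congr rfl fun i _ => ?_
  simp only [Prod.smul_fst, Prod.smul_snd, Pi.smul_apply, smul_eq_mul]
  ring

theorem nsq_neg (v : R2 n) : nsq (-v) = nsq v := by
  unfold nsq
  refine Finset.sum_congr rfl fun i _ => ?_
  simp only [Prod.fst_neg, Prod.snd_neg, Pi.neg_apply]
  ring

theorem nsq_sub (u v : R2 n) : nsq (u - v) = nsq u - 2 * ip u v + nsq v := by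
  unfold nsq ip
  rw [Finset.mul_sum, ← Finset.sum_sub_distrib, ← Finset.sum_add_distrib]
  refine Finset.sum_congr rfl fun i _ => ?_
  simp only [Prod.fst_sub, Prod.snd_sub, Pi.sub_apply]
  ring

theorem nsq_sub_le (u v : R2 n) : nsq (u - v) ≤ 2 * nsq u + 2 * nsq v := by
  unfold nsq
  rw [Finset.mul_sum, Finset.mul_sum, ← Finset.sum_add_distrib]
  refine Finset.sum_le_sum fun i _ => ?_
  simp only [Prod.fst_sub, Prod.snd_sub, Pi.sub_apply]
  nlinarith [sq_nonneg (u.1 i + v.1 i), sq_nonneg (u.2 i + v.2 i)]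

theorem ip_add_left (u u' v : R2 n) : ip (u + u') v = ip u v + ip u' v := by
  unfold ip
  rw [← Finset.sum_add_distrib]
  refine Finset.sum_congr rfl fun i _ => ?_
  simp only [Prod.fst_add, Prod.snd_add, Pi.add_apply]
  ring

theorem ip_smul_left (c : ℝ) (u v : R2 n) : ip (c • u) v = c * ip u v := by
  unfold ip
  rw [Finset.mul_sum]
  refine Finset.sum_congr rfl fun i _ => ?_
  simp only [Prod.smul_fst, Prod.smul_snd, Pi.smul_apply, smul_eq_mul]
  ring

theorem ip_smul_right (c : ℝ) (u v : R2 n) : ip u (c • v) = c * ip u v := by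
  unfold ip
  rw [Finset.mul_sum]
  refine Finset.sum_congr rfl fun i _ => ?_
  simp only [Prod.smul_fst, Prod.smul_snd, Pi.smul_apply, smul_eq_mul]
  ring

theorem cs (u v : R2 n) : ip u v ^ 2 ≤ nsq u * nsq v := by
  have h := Finset.sum_mul_sq_le_sq_mul_sq (Finset.univ : Finset (Fin n ⊕ Fin n))
    (Sum.elim u.1 u.2) (Sum.elim v.1 v.2)
  simp only [Fintype.sum_sum_type, Sum.elim_inl, Sum.elim_inr] at h
  unfold ip nsq
  rw [Finset.sum_add_distrib, Finset.sum_add_distrib, Finset.sum_add_distrib]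
  exact h

/-- `u ↦ ⟨u, b⟩` -/
noncomputable def ipL (b : R2 n) : R2 n →L[ℝ] ℝ :=
  LinearMap.toContinuousLinearMap
    { toFun := fun u => ip u b
      map_add' := fun u u' => ip_add_left u u' b
      map_smul' := fun c u => ip_smul_left c u b }

theorem ipL_apply (b u : R2 n) : ipL b u = ip u b := rfl

theorem nsq_cont : Continuous (nsq : R2 n → ℝ) := by
  unfold nsq
  fun_prop

theorem norm_le_one (v : R2 n) (hv : nsq v = 1) : ‖v‖ ≤ 1 := by
  have key : ∀ i, v.1 i ^ 2 + v.2 i ^ 2 ≤ 1 := by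
    intro i
    rw [← hv]
    exact Finset.single_le_sum (f := fun i => v.1 i ^ 2 + v.2 i ^ 2)
      (fun i _ => by positivity) (Finset.mem_univ i)
  rw [Prod.norm_def]
  refine max_le ?_ ?_
  · rw [pi_norm_le_iff_of_nonneg zero_le_one]
    intro i
    rw [Real.norm_eq_abs]
    exact abs_le_one_iff_mul_self_le_one.2 (by nlinarith [key i, sq_nonneg (v.2 i)])
  · rw [pi_norm_le_iff_of_nonneg zero_le_one]
    intro i
    rw [Real.norm_eq_abs]
    exact abs_le_one_iff_mul_self_le_one.2 (by nlinarith [key i, sq_nonneg (v.1 i)])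

theorem nsq_pos (v : R2 n) (hv : v ≠ 0) : 0 < nsq v := by
  rcases (nsq_nonneg v).lt_or_eq with h | h
  · exact h
  exfalso
  apply hv
  have h2 := (Finset.sum_eq_zero_iff_of_nonneg (s := (Finset.univ : Finset (Fin n)))
    (f := fun i => v.1 i ^ 2 + v.2 i ^ 2) (fun i _ => by positivity)).1 h.symm
  refine Prod.ext ?_ ?_
  · funext i
    have := h2 i (Finset.mem_univ i)
    have h3 : v.1 i ^ 2 = 0 := by nlinarith [sq_nonneg (v.1 i), sq_nonneg (v.2 i)]
    exact pow_eq_zero_iff (two_ne_zero) |>.1 h3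
  · funext i
    have := h2 i (Finset.mem_univ i)
    have h3 : v.2 i ^ 2 = 0 := by nlinarith [sq_nonneg (v.1 i), sq_nonneg (v.2 i)]
    exact pow_eq_zero_iff (two_ne_zero) |>.1 h3

/-- the mean value inequality for the Euclidean norm -/
theorem mv {f : R2 n → R2 n} (hf : Differentiable ℝ f) {c : ℝ}
    (hc : ∀ x v, nsq (fderiv ℝ f x v) ≤ c * nsq v) (p q : R2 n) :
    nsq (f p - f q) ≤ c * nsq (p - q) := by
  set w := f p - f q with hw
  have hd : ∀ t : ℝ, HasDerivAt (fun t : ℝ => ipL w (f (q + t • (p - q))))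
      (ipL w (fderiv ℝ f (q + t • (p - q)) (p - q))) t := by
    intro t
    have h1 : HasDerivAt (fun t : ℝ => q + t • (p - q)) (p - q) t := by
      have := ((hasDerivAt_id t).smul_const (p - q)).const_add q
      simpa using this
    have h2 := (hf (q + t • (p - q))).hasFDerivAt.comp_hasDerivAt t h1
    exact (ipL w).hasFDerivAt.comp_hasDerivAt t h2
  obtain ⟨t, -, ht⟩ := exists_hasDerivAt_eq_slope
    (fun t : ℝ => ipL w (f (q + t • (p - q))))
    (fun t : ℝ => ipL w (fderiv ℝ f (q + t • (p - q)) (p - q))) (zero_lt_one' ℝ)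
    (fun t _ => (hd t).continuousAt.continuousWithinAt) (fun t _ => hd t)
  have h3 : ipL w (fderiv ℝ f (q + t • (p - q)) (p - q)) = nsq w := by
    rw [ht]
    simp only [one_smul, zero_smul, add_zero, sub_zero, div_one]
    rw [← map_sub, add_sub_cancel, ← hw, ipL_apply, ip_self]
  rw [ipL_apply] at h3
  have h4 := cs (fderiv ℝ f (q + t • (p - q)) (p - q)) w
  rw [h3] at h4
  have h5 := hc (q + t • (p - q)) (p - q)
  have h6 := nsq_nonneg w
  have h7 := nsq_nonneg (fderiv ℝ f (q + t • (p - q)) (p - q))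
  rcases h6.lt_or_eq with h8 | h8
  · have : nsq w * nsq w ≤ c * nsq (p - q) * nsq w := by
      calc nsq w * nsq w = nsq w ^ 2 := by ring
        _ ≤ _ := h4
        _ ≤ _ := mul_le_mul_of_nonneg_right h5 h6
    exact le_of_mul_le_mul_right this h8
  · rw [← h8]
    linarith

theorem smooth_diff (φ : SympCt n) : Differentiable ℝ φ.toEquiv :=
  φ.smooth.differentiable (by norm_num)

theorem smooth_symm_diff (φ : SympCt n) : Differentiable ℝ φ.toEquiv.symm :=
  φ.smooth_symm.differentiable (by norm_num)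

theorem inv_bound {ε : ℝ} (φ : SympCt n)
    (h : ∀ x v, nsq (D φ x v) ≤ (1 + ε) * nsq v) (x v : R2 n) :
    nsq v ≤ (1 + ε) * nsq (D φ x v) := by
  have h1 : nsq v = -ip (D φ x v) (J (D φ x (J v))) := by
    rw [← omega_eq, ← ip_self, ← omega_J]
    exact (φ.symplectic x v (J v)).symm
  have h2 := cs (D φ x v) (J (D φ x (J v)))
  rw [nsq_J] at h2
  have h3 := h x (J v)
  rw [nsq_J] at h3
  have h4 : nsq v * nsq v ≤ (1 + ε) * nsq (D φ x v) * nsq v := by
    calc nsq v * nsq v = ip (D φ x v) (J (D φ x (J v))) ^ 2 := by rw [h1]; ring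
      _ ≤ _ := h2
      _ ≤ nsq (D φ x v) * ((1 + ε) * nsq v) := mul_le_mul_of_nonneg_left h3 (nsq_nonneg _)
      _ = _ := by ring
  rcases (nsq_nonneg v).lt_or_eq with h8 | h8
  · exact le_of_mul_le_mul_right h4 h8
  · have h9 : v = 0 := by
      by_contra h10
      exact (nsq_pos v h10).ne h8
    subst h9
    have h10 : D φ x (0 : R2 n) = 0 := by
      unfold D
      exact map_zero _
    rw [h10]
    have : nsq (0 : R2 n) = 0 := h8.symm
    rw [this]
    simp

theorem dist_up {ε : ℝ} (φ : SympCt n)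
    (h : ∀ x v, nsq (D φ x v) ≤ (1 + ε) * nsq v) (p q : R2 n) :
    nsq (φ.toEquiv p - φ.toEquiv q) ≤ (1 + ε) * nsq (p - q) :=
  mv (smooth_diff φ) h p q

theorem dist_lo {ε : ℝ} (φ : SympCt n)
    (h : ∀ x v, nsq (D φ x v) ≤ (1 + ε) * nsq v) (p q : R2 n) :
    nsq (p - q) ≤ (1 + ε) * nsq (φ.toEquiv p - φ.toEquiv q) := by
  have h1 : ∀ y w, nsq (fderiv ℝ φ.toEquiv.symm y w) ≤ (1 + ε) * nsq w := by
    intro y w
    have h2 := inv_bound φ h (φ.toEquiv.symm y) (fderiv ℝ φ.toEquiv.symm y w)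
    have h3 : D φ (φ.toEquiv.symm y) (fderiv ℝ φ.toEquiv.symm y w) = w := by
      have h4 := (smooth_diff φ (φ.toEquiv.symm y)).hasFDerivAt.comp y
        (smooth_symm_diff φ y).hasFDerivAt
      have h5 : (φ.toEquiv ∘ φ.toEquiv.symm : R2 n → R2 n) = id := by
        funext z
        simp
      rw [h5] at h4
      have h6 := h4.unique (hasFDerivAt_id y)
      have h7 := congrArg (fun L : R2 n →L[ℝ] R2 n => L w) h6
      simpa [D] using h7
    rw [h3] at h2
    exact h2
  have h2 := mv (smooth_symm_diff φ) h1 (φ.toEquiv p) (φ.toEquiv q)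
  simpa using h2

/-- polarization: `φ` almost preserves inner products -/
theorem polar {ε : ℝ} (hε : 0 ≤ ε) (φ : SympCt n)
    (h : ∀ x v, nsq (D φ x v) ≤ (1 + ε) * nsq v) (x y z : R2 n) :
    |ip (φ.toEquiv (x + y) - φ.toEquiv x) (φ.toEquiv (x + z) - φ.toEquiv x) - ip y z| ≤
      3 / 2 * ε * (nsq y + nsq z) := by
  have key : ∀ p q : R2 n, |nsq (φ.toEquiv p - φ.toEquiv q) - nsq (p - q)| ≤ ε * nsq (p - q) := by
    intro p q
    have h1 := dist_up φ h p q
    have h2 := dist_lo φ h p q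
    have h3 := nsq_nonneg (p - q)
    have h4 := nsq_nonneg (φ.toEquiv p - φ.toEquiv q)
    rw [abs_le]
    constructor
    · nlinarith [mul_nonneg hε h3, mul_nonneg hε h4]
    · linarith
  have k1 := key (x + y) x
  have k2 := key (x + z) x
  have k3 := key (x + y) (x + z)
  have e1 : x + y - x = y := by abel
  have e2 : x + z - x = z := by abel
  have e3 : x + y - (x + z) = y - z := by abel
  rw [e1] at k1
  rw [e2] at k2
  rw [e3] at k3
  have e4 : φ.toEquiv (x + y) - φ.toEquiv (x + z) =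
      (φ.toEquiv (x + y) - φ.toEquiv x) - (φ.toEquiv (x + z) - φ.toEquiv x) := by abel
  rw [e4, nsq_sub] at k3
  have k4 := nsq_sub y z
  have k5 := nsq_sub_le y z
  rw [abs_le] at k1 k2 k3 ⊢
  have k6 : ε * nsq (y - z) ≤ ε * (2 * nsq y + 2 * nsq z) := mul_le_mul_of_nonneg_left k5 hε
  constructor <;> nlinarith [k1.1, k1.2, k2.1, k2.2, k3.1, k3.2]

section main

variable {η : R2 n → ℝ}

theorem cont_D (φ : SympCt n) (v : R2 n) : Continuous (fun x => D φ x v) := by
  unfold D
  exact (φ.smooth.continuous_fderiv (by norm_num)).clm_apply continuous_const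

theorem int_mul (hη : Moll η) {g : R2 n → ℝ} (hg : Continuous g) :
    Integrable (fun y => η y * g y) :=
  (hη.smooth.continuous.mul hg).integrable_of_hasCompactSupport hη.cpt.mul_right

theorem int_smul (hη : Moll η) {g : R2 n → R2 n} (hg : Continuous g) :
    Integrable (fun y => η y • g y) :=
  (hη.smooth.continuous.smul hg).integrable_of_hasCompactSupport hη.cpt.smul_right

theorem int_fd (hη : Moll η) (v : R2 n) {g : R2 n → ℝ} (hg : Continuous g) :
    Integrable (fun y => fderiv ℝ η y v * g y) := by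
  refine Continuous.integrable_of_hasCompactSupport ?_ ?_
  · exact ((hη.smooth.continuous_fderiv (by norm_num)).clm_apply continuous_const).mul hg
  · exact (hη.cpt.fderiv_apply ℝ v).mul_right

theorem int_nfd (hη : Moll η) {g : R2 n → ℝ} (hg : Continuous g) :
    Integrable (fun y => ‖fderiv ℝ η y‖ * g y) := by
  refine Continuous.integrable_of_hasCompactSupport ?_ ?_
  · exact (hη.smooth.continuous_fderiv (by norm_num)).norm.mul hg
  · exact (hη.cpt.fderiv ℝ).norm.mul_right

theorem haarR2 (n : ℕ) : (volume : Measure (R2 n)).IsAddHaarMeasure :=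
  MeasureTheory.Measure.prod.instIsAddHaarMeasure _ _

/-- integration by parts -/
theorem parts (hη : Moll η) (v : R2 n) {g : R2 n → ℝ} (hg : ContDiff ℝ ∞ g) :
    ∫ y, η y * fderiv ℝ g y v = -∫ y, fderiv ℝ η y v * g y :=
  haveI := haarR2 n
  integral_mul_fderiv_eq_neg_fderiv_mul_of_integrable (int_fd hη v hg.continuous)
    (int_mul hη ((hg.continuous_fderiv (by norm_num)).clm_apply continuous_const))
    (int_mul hη hg.continuous)
    (fun x _ => hη.smooth.contDiffAt.differentiableAt (by norm_num))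
    (fun x _ => hg.contDiffAt.differentiableAt (by norm_num))

theorem cont_arg (φ : SympCt n) (r : ℝ) (x v : R2 n) :
    Continuous (fun y : R2 n => D φ (x - r • y) v) :=
  (cont_D φ v).comp (by fun_prop)

theorem ip_MD (hη : Moll η) (φ : SympCt n) (r : ℝ) (x v b : R2 n) :
    ip (MD η φ r x v) b = ∫ y, η y * ip (D φ (x - r • y) v) b := by
  unfold MD
  rw [← ipL_apply, ← ContinuousLinearMap.integral_comp_comm _
    (int_smul hη (cont_arg φ r x v))]
  refine integral_congr_ae (Filter.Eventually.of_forall fun y => ?_)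
  simp only [map_smul, smul_eq_mul, ipL_apply]

theorem main_lower (hη : Moll η) {ε : ℝ} (hε : 0 ≤ ε) (φ : SympCt n)
    (h : ∀ x v, nsq (D φ x v) ≤ (1 + ε) * nsq v) (r : ℝ) (hr : 0 < r) (x v : R2 n)
    (hv : nsq v = 1) :
    r * (1 - ε * (3 / 2 * ∫ y, ‖fderiv ℝ η y‖ * (nsq y + 1))) ≤
      ip (MD η φ r x v) (φ.toEquiv (x + r • v) - φ.toEquiv x) := by
  set b := φ.toEquiv (x + r • v) - φ.toEquiv x with hb
  set g : R2 n → ℝ := fun y => ipL b (φ.toEquiv (x - r • y) - φ.toEquiv x) with hg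
  have hin : ContDiff ℝ ∞ (fun y : R2 n => x - r • y) := by
    fun_prop
  have hsm : ContDiff ℝ ∞ (fun y : R2 n => φ.toEquiv (x - r • y)) :=
    φ.smooth.comp hin
  have hgs : ContDiff ℝ ∞ g := (ipL b).contDiff.comp (hsm.sub contDiff_const)
  have hgd : ∀ y, fderiv ℝ g y v = -r * ip (D φ (x - r • y) v) b := by
    intro y
    have h1 : HasFDerivAt (fun y : R2 n => x - r • y) (-(r • ContinuousLinearMap.id ℝ (R2 n))) y := by
      have h0 : HasFDerivAt (fun y : R2 n => y) (ContinuousLinearMap.id ℝ (R2 n)) y :=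
        hasFDerivAt_id y
      exact (h0.const_smul r).const_sub x
    have h2 := ((smooth_diff φ (x - r • y)).hasFDerivAt.comp y h1).sub_const (φ.toEquiv x)
    have h3 := (ipL b).hasFDerivAt.comp y h2
    have h4 : fderiv ℝ g y = _ := h3.fderiv
    rw [h4]
    simp only [ContinuousLinearMap.comp_apply, ContinuousLinearMap.neg_apply,
      ContinuousLinearMap.smul_apply, ContinuousLinearMap.id_apply, map_neg, map_smul,
      ipL_apply, smul_eq_mul, D]
    ring
  have hp := parts hη v hgs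
  have h5 : ∫ y, η y * fderiv ℝ g y v = -r * ip (MD η φ r x v) b := by
    rw [ip_MD hη, ← integral_const_mul]
    refine integral_congr_ae (Filter.Eventually.of_forall fun y => ?_)
    simp only [hgd]
    ring
  have hp2 := parts hη v (ipL v).contDiff
  have h6 : ∫ y, η y * fderiv ℝ (ipL v) y v = 1 := by
    have : ∀ y, η y * fderiv ℝ (ipL v) y v = η y := by
      intro y
      rw [ContinuousLinearMap.fderiv, ipL_apply, ip_self, hv, mul_one]
    simp only [this]
    exact hη.integral
  have h7 : ∫ y, fderiv ℝ η y v * ip y v = -1 := by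
    have : ∀ y, fderiv ℝ η y v * ip y v = fderiv ℝ η y v * ipL v y := fun y => rfl
    simp only [this]
    linarith
  have hvn := norm_le_one v hv
  have hdiff : |(∫ y, fderiv ℝ η y v * g y) - ∫ y, fderiv ℝ η y v * (-(r ^ 2) * ip y v)| ≤
      ε * r ^ 2 * (3 / 2 * ∫ y, ‖fderiv ℝ η y‖ * (nsq y + 1)) := by
    have c1 : Continuous (fun y : R2 n => -(r ^ 2) * ip y v) := by
      have : Continuous (fun y : R2 n => ipL v y) := (ipL v).continuous
      exact continuous_const.mul this
    rw [← integral_sub (int_fd hη v hgs.continuous) (int_fd hη v c1)]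
    have c2 : Continuous (fun y : R2 n => nsq y + 1) := nsq_cont.add continuous_const
    rw [← integral_const_mul, ← integral_const_mul]
    rw [← Real.norm_eq_abs]
    refine (norm_integral_le_integral_norm _).trans ?_
    refine integral_mono_of_nonneg (Filter.Eventually.of_forall fun y => norm_nonneg _)
      (((int_nfd hη c2).const_mul _).const_mul _) (Filter.Eventually.of_forall fun y => ?_)
    simp only
    have hpol := polar hε φ h x (-(r • y)) (r • v)
    rw [← hb, nsq_neg, nsq_smul, nsq_smul, hv, mul_one] at hpol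
    have e1 : ip (-(r • y)) (r • v) = -(r ^ 2) * ip y v := by
      rw [← neg_smul, ip_smul_left, ip_smul_right]
      ring
    rw [e1, ← sub_eq_add_neg] at hpol
    rw [← mul_sub, norm_mul, Real.norm_eq_abs (g y - _)]
    have e2 : ‖fderiv ℝ η y v‖ ≤ ‖fderiv ℝ η y‖ := by
      calc ‖fderiv ℝ η y v‖ ≤ ‖fderiv ℝ η y‖ * ‖v‖ := ContinuousLinearMap.le_opNorm _ _
        _ ≤ ‖fderiv ℝ η y‖ * 1 := mul_le_mul_of_nonneg_left hvn (norm_nonneg _)
        _ = _ := mul_one _
    calc ‖fderiv ℝ η y v‖ * |g y - -(r ^ 2) * ip y v|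
        ≤ ‖fderiv ℝ η y‖ * (3 / 2 * ε * (r ^ 2 * nsq y + r ^ 2)) :=
          mul_le_mul e2 hpol (abs_nonneg _) (norm_nonneg _)
      _ = _ := by ring
  have h8 : ∫ y, fderiv ℝ η y v * (-(r ^ 2) * ip y v) = r ^ 2 := by
    have : ∀ y, fderiv ℝ η y v * (-(r ^ 2) * ip y v) = -(r ^ 2) * (fderiv ℝ η y v * ip y v) :=
      fun y => by ring
    simp only [this]
    rw [integral_const_mul, h7]
    ring
  rw [h8, abs_le] at hdiff
  have h9 : r * (r * (1 - ε * (3 / 2 * ∫ y, ‖fderiv ℝ η y‖ * (nsq y + 1)))) ≤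
      r * ip (MD η φ r x v) b := by
    have e : r * ip (MD η φ r x v) b = ∫ y, fderiv ℝ η y v * g y := by linarith
    rw [e]
    nlinarith [hdiff.1]
  exact le_of_mul_le_mul_left h9 hr

theorem small_one (hη : Moll η) {ε : ℝ} (hε : 0 ≤ ε) (hε1 : ε ≤ 1 / 8)
    (hε2 : ε * (3 / 2 * ∫ y, ‖fderiv ℝ η y‖ * (nsq y + 1)) ≤ 1 / 2) (φ : SympCt n)
    (h : ∀ x v, nsq (D φ x v) ≤ (1 + ε) * nsq v) (r : ℝ) (hr : 0 < r) (x v : R2 n)
    (hv : nsq v = 1) :
    ∫ y, η y * nsq (D φ (x - r • y) v - MD η φ r x v) < 1 := by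
  have h1 := main_lower hη hε φ h r hr x v hv
  set b := φ.toEquiv (x + r • v) - φ.toEquiv x with hb
  set M := MD η φ r x v with hM
  have h2 : nsq b ≤ (1 + ε) * r ^ 2 := by
    have := dist_up φ h (x + r • v) x
    rw [add_sub_cancel_left, nsq_smul, hv, mul_one] at this
    exact this
  have h3 := cs M b
  have h4 : r / 2 ≤ ip M b := by nlinarith
  have h5 : 1 / 5 ≤ nsq M := by
    have h6 : (r / 2) ^ 2 ≤ ip M b ^ 2 := pow_le_pow_left₀ (by positivity) h4 2
    have h7 : nsq M * nsq b ≤ nsq M * ((1 + ε) * r ^ 2) :=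
      mul_le_mul_of_nonneg_left h2 (nsq_nonneg _)
    have h8 : nsq M * ((1 + ε) * r ^ 2) ≤ nsq M * (9 / 8 * r ^ 2) :=
      mul_le_mul_of_nonneg_left (by nlinarith [sq_nonneg r]) (nsq_nonneg _)
    have h9 : r ^ 2 * (1 / 4) ≤ r ^ 2 * (9 / 8 * nsq M) := by nlinarith
    have h10 := le_of_mul_le_mul_left h9 (by positivity)
    linarith
  have e1 : ∀ y, η y * nsq (D φ (x - r • y) v - M) =
      η y * nsq (D φ (x - r • y) v) - 2 * (η y * ip (D φ (x - r • y) v) M) + nsq M * η y := by
    intro y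
    rw [nsq_sub]
    ring
  have hcA : Continuous (fun y : R2 n => nsq (D φ (x - r • y) v)) :=
    nsq_cont.comp (cont_arg φ r x v)
  have hcB : Continuous (fun y : R2 n => ip (D φ (x - r • y) v) M) :=
    (ipL M).continuous.comp (cont_arg φ r x v)
  have i1 := int_mul hη hcA
  have i2 := int_mul hη hcB
  have i3 : Integrable η := hη.smooth.continuous.integrable_of_hasCompactSupport hη.cpt
  simp only [e1]
  have i12 : Integrable (fun y : R2 n => η y * nsq (D φ (x - r • y) v) -
      2 * (η y * ip (D φ (x - r • y) v) M)) := i1.sub (i2.const_mul 2)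
  have e5 : ∫ y, (η y * nsq (D φ (x - r • y) v) - 2 * (η y * ip (D φ (x - r • y) v) M) +
      nsq M * η y) = (∫ y, η y * nsq (D φ (x - r • y) v)) - 2 * nsq M + nsq M := by
    rw [integral_add i12 (i3.const_mul _), integral_sub i1 (i2.const_mul 2),
      integral_const_mul, integral_const_mul, hη.integral, ← ip_MD hη, ← hM, ip_self, mul_one]
  rw [e5]
  have h6 : ∫ y, η y * nsq (D φ (x - r • y) v) ≤ 1 + ε := by
    calc ∫ y, η y * nsq (D φ (x - r • y) v) ≤ ∫ y, (1 + ε) * η y := by
          refine integral_mono i1 (i3.const_mul _) fun y => ?_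
          have := h (x - r • y) v
          rw [hv, mul_one] at this
          simp only
          rw [mul_comm (1 + ε)]
          exact mul_le_mul_of_nonneg_left this (hη.nonneg y)
      _ = 1 + ε := by rw [integral_const_mul, hη.integral, mul_one]
  linarith

theorem smallVar (hη : Moll η) {ε : ℝ} (hε : 0 ≤ ε) (hε1 : ε ≤ 1 / 8)
    (hε2 : ε * (3 / 2 * ∫ y, ‖fderiv ℝ η y‖ * (nsq y + 1)) ≤ 1 / 2) (φ : SympCt n)
    (h : ∀ x v, nsq (D φ x v) ≤ (1 + ε) * nsq v) : SmallVar η φ := by
  intro r hr x v hv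
  have hv0 := nsq_pos v hv
  rcases hr.lt_or_eq with hr | hr
  · set c := Real.sqrt (nsq v) with hc
    have hc0 : 0 < c := Real.sqrt_pos.2 hv0
    have hc2 : c ^ 2 = nsq v := Real.sq_sqrt hv0.le
    set u := c⁻¹ • v with hu
    have huv : v = c • u := by
      rw [hu, smul_smul, mul_inv_cancel₀ hc0.ne', one_smul]
    have hu1 : nsq u = 1 := by
      rw [hu, nsq_smul, ← hc2]
      field_simp
    have h1 := small_one hη hε hε1 hε2 φ h r hr x u hu1
    have e1 : ∀ z, D φ z v = c • D φ z u := by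
      intro z
      unfold D
      rw [huv, map_smul]
    have e2 : MD η φ r x v = c • MD η φ r x u := by
      unfold MD
      rw [← integral_smul]
      refine integral_congr_ae (Filter.Eventually.of_forall fun y => ?_)
      simp only [e1]
      rw [smul_comm]
    have e3 : ∀ y, η y * nsq (D φ (x - r • y) v - MD η φ r x v) =
        c ^ 2 * (η y * nsq (D φ (x - r • y) u - MD η φ r x u)) := by
      intro y
      rw [e1, e2, ← smul_sub, nsq_smul]
      ring
    simp only [e3]
    rw [integral_const_mul, ← hc2]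
    nlinarith [pow_pos hc0 2]
  · subst hr
    have e1 : MD η φ 0 x v = D φ x v := by
      unfold MD
      simp only [zero_smul, sub_zero]
      rw [integral_smul_const, hη.integral, one_smul]
    have e2 : ∀ y : R2 n, η y * nsq (D φ (x - (0 : ℝ) • y) v - MD η φ 0 x v) = 0 := by
      intro y
      rw [e1, zero_smul, sub_zero, sub_self]
      have : nsq (0 : R2 n) = 0 := by
        unfold nsq
        simp
      rw [this, mul_zero]
    simp only [e2]
    simpa using hv0

theorem exists_moll (n : ℕ) : ∃ η : R2 n → ℝ, Moll η := by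
  let f : ContDiffBump (0 : R2 n) := ⟨1, 2, zero_lt_one, one_lt_two⟩
  refine ⟨f.normed volume, ⟨f.contDiff_normed, f.hasCompactSupport_normed,
    f.nonneg_normed, f.integral_normed⟩⟩

end main

end Near

theorem near (n : ℕ) : S_NEAR n := by
  obtain ⟨η, hη⟩ := Near.exists_moll n
  set C := 3 / 2 * ∫ y, ‖fderiv ℝ η y‖ * (nsq y + 1) with hC
  have hC0 : 0 ≤ C := by
    refine mul_nonneg (by norm_num) (integral_nonneg fun y => ?_)
    exact mul_nonneg (norm_nonneg _) (add_nonneg (Near.nsq_nonneg y) zero_le_one)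
  refine ⟨min (1 / 8) (1 / (2 * (C + 1))), η, by positivity, hη, fun φ h =>
    Near.smallVar hη (by positivity) (min_le_left _ _) ?_ φ h⟩
  calc min (1 / 8) (1 / (2 * (C + 1))) * C ≤ 1 / (2 * (C + 1)) * C :=
        mul_le_mul_of_nonneg_right (min_le_right _ _) hC0
    _ ≤ 1 / 2 := by
        rw [div_mul_eq_mul_div, one_mul, div_le_div_iff₀ (by positivity) (by norm_num)]
        linarith

end Pool.Agent.W5h49.EC
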