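import Mathlib
import Pool.Agent.W5h49.EC.Defs2
import Pool.Agent.W5h49.EC.Near

/-!
# The difference of two mollified differentials as an integral
-/

set_option autoImplicit false

open scoped ContDiff Topology
open MeasureTheory

namespace Pool.Agent.W5h49.EC

open Pool.Agent.W71.EC

namespace Form

variable {n : ℕ} {η : R2 n → ℝ}

theorem norm_sq_le_nsq (v : R2 n) : ‖v‖ ^ 2 ≤ nsq v := by
  have key : ∀ i, v.1 i ^ 2 + v.2 i ^ 2 ≤ nsq v := fun i =>
    Finset.single_le_sum (f := fun i => v.1 i ^ 2 + v.2 i ^ 2)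
      (fun i _ => by positivity) (Finset.mem_univ i)
  have h0 : 0 ≤ nsq v := Near.nsq_nonneg v
  have h1 : ‖v‖ ≤ Real.sqrt (nsq v) := by
    rw [Prod.norm_def]
    refine max_le ?_ ?_
    · rw [pi_norm_le_iff_of_nonneg (Real.sqrt_nonneg _)]
      intro i
      rw [Real.norm_eq_abs]
      exact Real.abs_le_sqrt (by nlinarith [key i, sq_nonneg (v.2 i)])
    · rw [pi_norm_le_iff_of_nonneg (Real.sqrt_nonneg _)]
      intro i
      rw [Real.norm_eq_abs]
      exact Real.abs_le_sqrt (by nlinarith [key i, sq_nonneg (v.1 i)])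
  calc ‖v‖ ^ 2 ≤ Real.sqrt (nsq v) ^ 2 := pow_le_pow_left₀ (norm_nonneg _) h1 2
    _ = nsq v := Real.sq_sqrt h0

theorem nsq_le_norm_sq (v : R2 n) : nsq v ≤ 2 * n * ‖v‖ ^ 2 := by
  have key : ∀ i, v.1 i ^ 2 + v.2 i ^ 2 ≤ 2 * ‖v‖ ^ 2 := by
    intro i
    have h1 : |v.1 i| ≤ ‖v‖ := (norm_le_pi_norm v.1 i).trans (norm_fst_le v)
    have h2 : |v.2 i| ≤ ‖v‖ := (norm_le_pi_norm v.2 i).trans (norm_snd_le v)
    have h3 : v.1 i ^ 2 ≤ ‖v‖ ^ 2 := sq_le_sq' (by linarith [neg_abs_le (v.1 i)])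
      ((le_abs_self _).trans h1)
    have h4 : v.2 i ^ 2 ≤ ‖v‖ ^ 2 := sq_le_sq' (by linarith [neg_abs_le (v.2 i)])
      ((le_abs_self _).trans h2)
    linarith
  calc nsq v ≤ ∑ _i : Fin n, 2 * ‖v‖ ^ 2 := Finset.sum_le_sum fun i _ => key i
    _ = 2 * n * ‖v‖ ^ 2 := by
      rw [Finset.sum_const, Finset.card_univ, Fintype.card_fin, nsmul_eq_mul]
      ring

theorem eq_of_ip {a b : R2 n} (h : ∀ c, Near.ip a c = Near.ip b c) : a = b := by
  by_contra hne
  have h1 := Near.nsq_pos (a - b) (sub_ne_zero.2 hne)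
  rw [← Near.ip_self] at h1
  have h2 : Near.ip (a - b) (a - b) = Near.ip a (a - b) - Near.ip b (a - b) := by
    rw [sub_eq_add_neg a b, Near.ip_add_left, ← neg_one_smul ℝ b, Near.ip_smul_left]
    ring
  rw [h2, h (a - b), sub_self] at h1
  exact lt_irrefl _ h1

/-- integration by parts in the difference of two mollified differentials -/
theorem diff_eq (hη : Moll η) (φ ψ : SympCt n) {R : ℝ} (hR : 0 < R) (x v : R2 n) :
    MD η φ R x v - MD η ψ R x v =
      R⁻¹ • ∫ y, fderiv ℝ η y v • (φ.toEquiv (x - R • y) - ψ.toEquiv (x - R • y)) := by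
  have hcu : Continuous (fun y : R2 n => φ.toEquiv (x - R • y) - ψ.toEquiv (x - R • y)) :=
    (φ.smooth.continuous.comp (by fun_prop)).sub (ψ.smooth.continuous.comp (by fun_prop))
  have hint : Integrable (fun y : R2 n =>
      fderiv ℝ η y v • (φ.toEquiv (x - R • y) - ψ.toEquiv (x - R • y))) := by
    refine Continuous.integrable_of_hasCompactSupport ?_ ?_
    · exact ((hη.smooth.continuous_fderiv (by norm_num)).clm_apply continuous_const).smul hcu
    · exact (hη.cpt.fderiv_apply ℝ v).smul_right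
  refine eq_of_ip fun b => ?_
  set g : R2 n → ℝ := fun y => Near.ipL b (φ.toEquiv (x - R • y) - ψ.toEquiv (x - R • y)) with hg
  have hin : ContDiff ℝ ∞ (fun y : R2 n => x - R • y) := by fun_prop
  have hgs : ContDiff ℝ ∞ g :=
    (Near.ipL b).contDiff.comp ((φ.smooth.comp hin).sub (ψ.smooth.comp hin))
  have hgd : ∀ y, fderiv ℝ g y v =
      -R * Near.ip (D φ (x - R • y) v - D ψ (x - R • y) v) b := by
    intro y
    have h1 : HasFDerivAt (fun y : R2 n => x - R • y) (-(R • ContinuousLinearMap.id ℝ (R2 n))) y := by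
      have h0 : HasFDerivAt (fun y : R2 n => y) (ContinuousLinearMap.id ℝ (R2 n)) y :=
        hasFDerivAt_id y
      exact (h0.const_smul R).const_sub x
    have h2 := ((Near.smooth_diff φ (x - R • y)).hasFDerivAt.comp y h1).sub
      ((Near.smooth_diff ψ (x - R • y)).hasFDerivAt.comp y h1)
    have h3 := (Near.ipL b).hasFDerivAt.comp y h2
    have h4 : fderiv ℝ g y = _ := h3.fderiv
    rw [h4]
    simp only [ContinuousLinearMap.comp_apply, neg_apply, sub_apply,
      smul_apply, ContinuousLinearMap.id_apply, map_neg, map_smul, map_sub,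
      smul_eq_mul, D, ← Near.ipL_apply]
    ring
  have hp := Near.parts hη v hgs
  have hA : Integrable (fun y => η y * Near.ip (D φ (x - R • y) v) b) :=
    Near.int_mul hη ((Near.ipL b).continuous.comp (Near.cont_arg φ R x v))
  have hB : Integrable (fun y => η y * Near.ip (D ψ (x - R • y) v) b) :=
    Near.int_mul hη ((Near.ipL b).continuous.comp (Near.cont_arg ψ R x v))
  have h5 : ∫ y, η y * fderiv ℝ g y v =
      -R * Near.ip (MD η φ R x v - MD η ψ R x v) b := by
    have e0 : Near.ip (MD η φ R x v - MD η ψ R x v) b =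
        Near.ip (MD η φ R x v) b - Near.ip (MD η ψ R x v) b := by
      rw [← Near.ipL_apply, map_sub, Near.ipL_apply, Near.ipL_apply]
    rw [e0, Near.ip_MD hη, Near.ip_MD hη, ← integral_sub hA hB, ← integral_const_mul]
    refine integral_congr_ae (Filter.Eventually.of_forall fun y => ?_)
    simp only [hgd]
    rw [← Near.ipL_apply, map_sub, Near.ipL_apply, Near.ipL_apply]
    ring
  have h6 : Near.ip (R⁻¹ • ∫ y, fderiv ℝ η y v •
      (φ.toEquiv (x - R • y) - ψ.toEquiv (x - R • y))) b = R⁻¹ * ∫ y, fderiv ℝ η y v * g y := by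
    rw [Near.ip_smul_left, ← Near.ipL_apply, ← ContinuousLinearMap.integral_comp_comm _ hint]
    simp only [map_smul, smul_eq_mul, hg]
  rw [h6]
  have h7 : R * Near.ip (MD η φ R x v - MD η ψ R x v) b = ∫ y, fderiv ℝ η y v * g y := by
    linarith
  rw [← h7, inv_mul_cancel_left₀ hR.ne']

/-- the same integral after the change of variables `z = x - R y` -/
theorem diff_eq' (hη : Moll η) (φ ψ : SympCt n) {R : ℝ} (hR : 0 < R) (x v : R2 n) :
    MD η φ R x v - MD η ψ R x v = (R⁻¹ * |(R ^ Module.finrank ℝ (R2 n))⁻¹|) •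
      ∫ z, fderiv ℝ η (R⁻¹ • (x - z)) v • (φ.toEquiv z - ψ.toEquiv z) := by
  have := Near.haarR2 n
  rw [diff_eq hη φ ψ hR, mul_smul]
  congr 1
  set F : R2 n → R2 n := fun z => fderiv ℝ η (R⁻¹ • (x - z)) v • (φ.toEquiv z - ψ.toEquiv z)
    with hF
  have h1 : ∀ y, fderiv ℝ η y v • (φ.toEquiv (x - R • y) - ψ.toEquiv (x - R • y)) =
      (fun w => F (x + w)) ((-R) • y) := by
    intro y
    simp only [hF]
    rw [neg_smul, ← sub_eq_add_neg, sub_sub_cancel, smul_smul, inv_mul_cancel₀ hR.ne', one_smul]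
  have h2 := Measure.integral_comp_smul (volume : Measure (R2 n)) (fun w => F (x + w)) (-R)
  have h3 : ∫ w, F (x + w) = ∫ w, F w := integral_add_left_eq_self F x
  have h4 : |((-R) ^ Module.finrank ℝ (R2 n))⁻¹| = |(R ^ Module.finrank ℝ (R2 n))⁻¹| := by
    rw [abs_inv, abs_inv, abs_pow, abs_pow, abs_neg]
  rw [integral_congr_ae (Filter.Eventually.of_forall h1), h2, h3, h4]

end Form

end Pool.Agent.W5h49.EC
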