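import Pool.Agent.W5h49.EC.Defs3

set_option autoImplicit false

open scoped ContDiff Topology

namespace Pool.Agent.W5h49.EC.Ev

open Pool.Agent.W5h83.HG

/-- Flipping the arguments, as a continuous linear map. -/
theorem exists_flip (P E F : Type) [TopologicalSpace P] [CompactSpace P]
    [NormedAddCommGroup E] [NormedSpace ℝ E] [FiniteDimensional ℝ E] [NormedAddCommGroup F]
    [NormedSpace ℝ F] : ∃ L : (E →L[ℝ] C(P, F)) →L[ℝ] C(P, E →L[ℝ] F),
      ∀ (A : E →L[ℝ] C(P, F)) (p : P) (v : E), L A p v = A v p := by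
  let b := Module.finBasis ℝ E
  let c : Fin (Module.finrank ℝ E) → (E →L[ℝ] ℝ) := fun i =>
    LinearMap.toContinuousLinearMap (b.coord i)
  refine ⟨∑ i, ((ContinuousLinearMap.smulRightL ℝ E F (c i)).compLeftContinuous ℝ P).comp
    (ContinuousLinearMap.apply ℝ C(P, F) (b i)), ?_⟩
  intro A p v
  have h1 : ∀ i, ((((ContinuousLinearMap.smulRightL ℝ E F (c i)).compLeftContinuous ℝ P).comp
      (ContinuousLinearMap.apply ℝ C(P, F) (b i))) A) p v = b.repr v i • A (b i) p := fun i => rfl
  rw [sum_apply]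
  have h2 : (∑ i, (((ContinuousLinearMap.smulRightL ℝ E F (c i)).compLeftContinuous ℝ P).comp
      (ContinuousLinearMap.apply ℝ C(P, F) (b i))) A) p v =
      ∑ i, ((((ContinuousLinearMap.smulRightL ℝ E F (c i)).compLeftContinuous ℝ P).comp
      (ContinuousLinearMap.apply ℝ C(P, F) (b i))) A) p v := by
    rw [ContinuousMap.sum_apply, sum_apply]
  rw [h2]
  simp only [h1]
  conv_rhs => rw [← b.sum_repr v]
  rw [map_sum, ContinuousMap.sum_apply]
  refine Finset.sum_congr rfl fun i _ => ?_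
  rw [map_smul]
  rfl

theorem continuous_ev {P F : Type} [TopologicalSpace P] [CompactSpace P] [NormedAddCommGroup F] :
    Continuous (fun z : C(P, F) × P => z.1 z.2) := by
  have h1 : Continuous (fun z : BoundedContinuousFunction P F × P => z.1 z.2) :=
    continuous_eval
  have h2 : Continuous (fun f : C(P, F) => BoundedContinuousFunction.mkOfCompact f) :=
    (ContinuousMap.isometryEquivBoundedOfCompact P F).continuous
  exact h1.comp ((h2.comp continuous_fst).prodMk continuous_snd)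

set_option backward.isDefEq.respectTransparency false in
theorem flip_contDiff {P E F : Type} [TopologicalSpace P] [CompactSpace P] [NormedAddCommGroup E]
    [NormedSpace ℝ E] [NormedAddCommGroup F] [NormedSpace ℝ F]
    (L : (E →L[ℝ] C(P, F)) →L[ℝ] C(P, E →L[ℝ] F)) :
    ContDiff ℝ ∞ (fun A : E →L[ℝ] C(P, F) => L A) :=
  ContinuousLinearMap.contDiff (𝕜 := ℝ) (E := E →L[ℝ] C(P, F)) (F := C(P, E →L[ℝ] F)) L

theorem ev_aux {P E : Type} [TopologicalSpace P] [CompactSpace P] [NormedAddCommGroup E]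
    [NormedSpace ℝ E] [FiniteDimensional ℝ E] (k : ℕ) : ∀ (F : Type) [NormedAddCommGroup F]
    [NormedSpace ℝ F] (Ψ : ℝ × E → C(P, F)), ContDiff ℝ ∞ Ψ →
    JC k F (fun (q : P × ℝ) (x : E) => Ψ (q.2, x) q.1) := by
  induction k with
  | zero =>
    intro F _ _ Ψ hΨ
    exact continuous_ev.comp ((hΨ.continuous.comp ((continuous_snd.comp continuous_fst).prodMk
      continuous_snd)).prodMk (continuous_fst.comp continuous_fst))
  | succ k ih =>
    intro F _ _ Ψ hΨ
    obtain ⟨L, hL⟩ := exists_flip P E F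
    have hd : ∀ (q : P × ℝ) (x : E), HasFDerivAt (fun x => Ψ (q.2, x) q.1)
        ((ContinuousMap.evalCLM ℝ q.1).comp ((fderiv ℝ Ψ (q.2, x)).comp
          (ContinuousLinearMap.inr ℝ ℝ E))) x := by
      intro q x
      have h1 : HasFDerivAt Ψ (fderiv ℝ Ψ (q.2, x)) (q.2, x) :=
        (hΨ.contDiffAt.differentiableAt (by norm_num)).hasFDerivAt
      have h2 : HasFDerivAt (fun x : E => (q.2, x)) (ContinuousLinearMap.inr ℝ ℝ E) x :=
        hasFDerivAt_prodMk_right q.2 x
      have h3 : HasFDerivAt (fun x : E => Ψ (q.2, x)) ((fderiv ℝ Ψ (q.2, x)).comp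
          (ContinuousLinearMap.inr ℝ ℝ E)) x := HasFDerivAt.comp x h1 h2
      exact (ContinuousMap.evalCLM ℝ q.1).hasFDerivAt.comp x h3
    refine ⟨?_, fun q x => (hd q x).differentiableAt, ?_⟩
    · exact continuous_ev.comp ((hΨ.continuous.comp ((continuous_snd.comp continuous_fst).prodMk
        continuous_snd)).prodMk (continuous_fst.comp continuous_fst))
    · have h4 : (fun (q : P × ℝ) (x : E) => fderiv ℝ (fun x => Ψ (q.2, x) q.1) x) =
          fun q x => (fun z : ℝ × E => L ((fderiv ℝ Ψ z).comp (ContinuousLinearMap.inr ℝ ℝ E)))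
            (q.2, x) q.1 := by
        funext q x
        rw [(hd q x).fderiv]
        refine ContinuousLinearMap.ext fun v => ?_
        rw [hL]
        rfl
      rw [h4]
      refine ih (E →L[ℝ] F) (fun z : ℝ × E => L ((fderiv ℝ Ψ z).comp
        (ContinuousLinearMap.inr ℝ ℝ E))) ?_
      have h5 : ContDiff ℝ ∞ (fun A : E →L[ℝ] C(P, F) => L A) := flip_contDiff L
      have h6 : ContDiff ℝ ∞ (fderiv ℝ Ψ) := hΨ.fderiv_right (m := ∞) (by norm_num)
      exact h5.comp (h6.clm_comp contDiff_const)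

end Pool.Agent.W5h49.EC.Ev

namespace Pool.Agent.W5h49.EC

/-- **TASK EV** -/
theorem ev : S_EV := by
  intro P E F _ _ _ _ _ _ _ Ψ hΨ k
  exact Ev.ev_aux k F Ψ hΨ

end Pool.Agent.W5h49.EC
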