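import Mathlib
import Pool.Agent.W5h49.EC.Defs3
import Pool.Agent.GR.Flow

set_option autoImplicit false

open scoped ContDiff Topology NNReal
open Set

namespace Pool.Agent.W5h49.EC

open Pool.Agent.W71.EC Pool.Agent.W5h83.HG

namespace FlowJCP

/-- post-composition with a continuous linear map -/
theorem jc_clm {P : Type*} [TopologicalSpace P] {E : Type} [NormedAddCommGroup E]
    [NormedSpace ℝ E] (k : ℕ) : ∀ {F H : Type} [NormedAddCommGroup F] [NormedSpace ℝ F]
    [NormedAddCommGroup H] [NormedSpace ℝ H] (A : F →L[ℝ] H) {f : P → E → F},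
    JC k F f → JC k H (fun p x => A (f p x)) := by
  induction k with
  | zero =>
    intro F H _ _ _ _ A f hf
    exact A.continuous.comp hf
  | succ k ih =>
    intro F H _ _ _ _ A f hf
    refine ⟨A.continuous.comp hf.1, fun p x => A.differentiableAt.comp x (hf.2.1 p x), ?_⟩
    have : (fun p x => fderiv ℝ (fun x => A (f p x)) x) =
        fun p x => ContinuousLinearMap.compL ℝ E F H A (fderiv ℝ (f p) x) := by
      funext p x
      have h := (A.hasFDerivAt.comp x (hf.2.1 p x).hasFDerivAt).fderiv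
      exact h
    rw [this]
    exact ih (ContinuousLinearMap.compL ℝ E F H A) hf.2.2

section

variable {P : Type} [TopologicalSpace P] [CompactSpace P]

/-- constant maps -/
noncomputable def cstP (P : Type) [TopologicalSpace P] [CompactSpace P] (E : Type)
    [NormedAddCommGroup E] [NormedSpace ℝ E] : E →L[ℝ] C(P, E) :=
  LinearMap.mkContinuous
    { toFun := fun x => ContinuousMap.const P x
      map_add' := fun x y => by ext; simp
      map_smul' := fun c x => by ext; simp } 1 (fun x => by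
    rw [one_mul]
    exact (ContinuousMap.norm_le _ (norm_nonneg _)).2 fun s => le_rfl)

@[simp] lemma cstP_apply {E : Type} [NormedAddCommGroup E] [NormedSpace ℝ E] (x : E) (p : P) :
    cstP P E x p = x := rfl

end

end FlowJCP

open FlowJCP in
/-- TASK FLOW -/
theorem flow_jc (h1 : S_NEM) (h2 : S_EV) (n : ℕ) : S_FLOWJC n := by
  intro P _ _ X L hL h0 hX Φ hΦ0 hΦ k
  classical
  -- the field on the Banach space
  set Y : P → ℝ × R2 n → ℝ × R2 n := fun p z => (1, X p z) with hY
  have hYJ : ∀ k, JC k (ℝ × R2 n) Y := by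
    intro k
    have a1 : JC k (ℝ × R2 n) (fun (_ : P) (_ : ℝ × R2 n) => ((1, 0) : ℝ × R2 n)) :=
      JC.constX continuous_const k
    have a2 := jc_clm k (ContinuousLinearMap.inr ℝ ℝ (R2 n)) (hX k)
    have a3 := a1.add a2
    have : (fun (p : P) (z : ℝ × R2 n) => ((1, 0) : ℝ × R2 n) +
        ContinuousLinearMap.inr ℝ ℝ (R2 n) (X p z)) = Y := by
      funext p z
      simp [hY]
    rw [this] at a3
    exact a3
  obtain ⟨N, hN, hNY⟩ := h1 P (ℝ × R2 n) (ℝ × R2 n) Y hYJ
  -- bounds
  have hXc : Continuous (Function.uncurry X) := (hX 0).cont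
  obtain ⟨M, hM⟩ : ∃ M : ℝ, ∀ p z, ‖X p z‖ ≤ M := by
    obtain ⟨M, hM⟩ := (isCompact_univ (X := P)).prod hL |>.exists_bound_of_continuousOn
      hXc.continuousOn
    refine ⟨max M 0, fun p z => ?_⟩
    by_cases hz : z ∈ L
    · exact (hM (p, z) ⟨trivial, hz⟩).trans (le_max_left _ _)
    · rw [h0 p z hz, norm_zero]; exact le_max_right _ _
  have hdX : ∀ p, Differentiable ℝ (X p) := fun p z => (hX 1).2.1 p z
  have hdc : Continuous (Function.uncurry fun p z => fderiv ℝ (X p) z) := (hX 1).2.2.cont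
  obtain ⟨K, hK⟩ : ∃ K : ℝ≥0, ∀ p z, ‖fderiv ℝ (X p) z‖₊ ≤ K := by
    obtain ⟨K, hK⟩ := (isCompact_univ (X := P)).prod hL |>.exists_bound_of_continuousOn
      hdc.continuousOn
    refine ⟨(max K 0).toNNReal, fun p z => ?_⟩
    rw [← NNReal.coe_le_coe, coe_nnnorm, Real.coe_toNNReal _ (le_max_right _ _)]
    by_cases hz : z ∈ L
    · exact (hK (p, z) ⟨trivial, hz⟩).trans (le_max_left _ _)
    · have h3 : X p =ᶠ[𝓝 z] fun _ => 0 := by
        filter_upwards [hL.isClosed.isOpen_compl.mem_nhds hz] with y hy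
        exact h0 p y hy
      rw [h3.fderiv_eq]
      simp
  have hXL : ∀ p, LipschitzWith K (X p) := fun p =>
    lipschitzWith_of_nnnorm_fderiv_le (hdX p) (hK p)
  have hYL : ∀ p, LipschitzWith K (Y p) := by
    intro p
    refine LipschitzWith.of_dist_le_mul fun a b => ?_
    rw [hY]
    simp only [Prod.dist_eq, dist_self]
    rw [← Prod.dist_eq]
    exact max_le (by positivity) ((hXL p).dist_le_mul a b)
  have hNL : LipschitzWith K N := by
    refine LipschitzWith.of_dist_le_mul fun u v => ?_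
    refine (ContinuousMap.dist_le (by positivity)).2 fun p => ?_
    rw [hNY, hNY]
    refine ((hYL p).dist_le_mul _ _).trans ?_
    gcongr
    exact ContinuousMap.dist_apply_le_dist p
  have hNM : ∀ u, ‖N u‖ ≤ (Real.toNNReal (max 1 M) : NNReal) := by
    intro u
    rw [Real.coe_toNNReal _ (by positivity)]
    refine (ContinuousMap.norm_le _ (by positivity)).2 fun p => ?_
    rw [hNY, hY]
    simp only [Prod.norm_def, norm_one]
    exact max_le_max le_rfl (hM _ _)
  choose g g0 g1 using fun u => Pool.Agent.GR.Flow.exists_solution hNL hNM u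
  have hfl : Pool.Agent.GR.Flow.IsFlowOf N (fun t u => g u t) := ⟨g0, g1⟩
  have hG : ContDiff ℝ ∞ (fun q : ℝ × C(P, ℝ × R2 n) => g q.2 q.1) := by
    rw [contDiff_infty]
    intro m
    have key : ∀ m : ℕ, m ≠ 0 → ContDiff ℝ m (fun q : ℝ × C(P, ℝ × R2 n) => g q.2 q.1) := by
      intro m hm
      exact Pool.Agent.GR.Flow.contDiff_flow (X := ⟨N, hN.continuous⟩) hm
        (hN.of_le (by exact_mod_cast le_top)) hNL hfl
    exact (key (m + 1) (by omega)).of_le (by exact_mod_cast Nat.le_succ m)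
  -- the smooth map into `C(P, R2 n)`
  set Ψ : ℝ × R2 n → C(P, R2 n) := fun q =>
    (ContinuousLinearMap.snd ℝ ℝ (R2 n)).compLeftContinuous ℝ P
      (g (cstP P (ℝ × R2 n) (0, q.2)) q.1) with hΨ
  have hΨs : ContDiff ℝ ∞ Ψ := by
    refine (ContinuousLinearMap.contDiff _).comp (hG.comp (contDiff_fst.prodMk ?_))
    exact (ContinuousLinearMap.contDiff _).comp (contDiff_const.prodMk contDiff_snd)
  have hfin := h2 P (R2 n) (R2 n) Ψ hΨs k
  have heq : (fun (q : P × ℝ) (x : R2 n) => Ψ (q.2, x) q.1) =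
      fun (q : P × ℝ) (x : R2 n) => Φ q.1 (q.2, x) := by
    funext q x
    obtain ⟨p, s⟩ := q
    have e1 : (fun r => (g (cstP P (ℝ × R2 n) (0, x)) r) p) =
        fun r => ((r, Φ p (r, x)) : ℝ × R2 n) := by
      refine ODE_solution_unique_univ (v := fun _ => Y p) (s := fun _ => univ) (K := K)
        (t₀ := 0) (fun t => (hYL p).lipschitzOnWith) (fun t => ⟨?_, trivial⟩)
        (fun t => ⟨?_, trivial⟩) ?_
      · have h3 := (ContinuousMap.evalCLM ℝ p : C(P, ℝ × R2 n) →L[ℝ] ℝ × R2 n).hasFDerivAt.comp_hasDerivAt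
          t (g1 (cstP P (ℝ × R2 n) (0, x)) t)
        have h4 : (ContinuousMap.evalCLM ℝ p : C(P, ℝ × R2 n) →L[ℝ] ℝ × R2 n)
            (N (g (cstP P (ℝ × R2 n) (0, x)) t)) =
            Y p ((g (cstP P (ℝ × R2 n) (0, x)) t) p) := by
          rw [← hNY]; rfl
        rw [h4] at h3
        exact h3
      · exact (hasDerivAt_id t).prodMk (hΦ p t x)
      · simp only [g0, cstP_apply, hΦ0]
    have e2 := congrFun e1 s
    change ((g (cstP P (ℝ × R2 n) (0, x)) s) p).2 = Φ p (s, x)
    rw [e2]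
  rw [← heq]
  exact hfin

end Pool.Agent.W5h49.EC
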