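import Mathlib
import Pool.Agent.W5h49.EC.Form

/-!
# Compactness: finitely many mollified differentials up to a small error (task G)
-/

set_option autoImplicit false

open scoped ContDiff Topology
open MeasureTheory

namespace Pool.Agent.W5h49.EC

open Pool.Agent.W71.EC

namespace Code

variable {n : ℕ} {η : R2 n → ℝ}

/-- elements supported in `K` map `K` to itself -/
theorem map_mem {K : Set (R2 n)} {φ : SympCt n} (h : φ ∈ supportedIn K) {z : R2 n} (hz : z ∈ K) :
    φ.toEquiv z ∈ K := by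
  by_contra hc
  have h1 := h (φ.toEquiv z) hc
  have h2 := φ.toEquiv.injective h1
  rw [h2] at hc
  exact hc hz

/-- the kernel -/
noncomputable def ker (η : R2 n → ℝ) (R : ℝ) (a : R2 n × R2 n) (z : R2 n) : ℝ :=
  fderiv ℝ η (R⁻¹ • (a.1 - z)) a.2

theorem ker_cont (hη : Moll η) (R : ℝ) :
    Continuous (fun p : (R2 n × R2 n) × R2 n => ker η R p.1 p.2) := by
  unfold ker
  exact ((hη.smooth.continuous_fderiv (by norm_num)).comp (by fun_prop)).clm_apply (by fun_prop)

theorem ker_cont_right (hη : Moll η) (R : ℝ) (a : R2 n × R2 n) : Continuous (ker η R a) :=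
  (ker_cont hη R).comp (by fun_prop : Continuous (fun z : R2 n => (a, z)))

theorem net (hη : Moll η) (R : ℝ) {K : Set (R2 n)} (hK : IsCompact K) {A : Set (R2 n × R2 n)}
    (hA : IsCompact A) {ε : ℝ} (hε : 0 < ε) :
    ∃ t : Finset (R2 n × R2 n), ∀ a ∈ A, ∃ b ∈ t, ∀ z ∈ K, |ker η R a z - ker η R b z| < ε := by
  have : CompactSpace K := isCompact_iff_compactSpace.1 hK
  let Φ : R2 n × R2 n → C(K, ℝ) := fun a =>
    ⟨fun z => ker η R a z, (ker_cont_right hη R a).comp continuous_subtype_val⟩
  have hΦ : Continuous Φ := by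
    refine ContinuousMap.continuous_of_continuous_uncurry _ ?_
    exact (ker_cont hη R).comp
      (continuous_fst.prodMk (continuous_subtype_val.comp continuous_snd))
  obtain ⟨t, -, ht⟩ := hA.elim_nhds_subcover (fun a => {a' | dist (Φ a') (Φ a) < ε})
    (fun a _ => by
      have h1 : IsOpen {a' | dist (Φ a') (Φ a) < ε} :=
        isOpen_lt (hΦ.dist continuous_const) continuous_const
      exact h1.mem_nhds (by simpa using hε))
  refine ⟨t, fun a ha => ?_⟩
  obtain ⟨b, hb, hab⟩ := Set.mem_iUnion₂.1 (ht ha)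
  refine ⟨b, hb, fun z hz => ?_⟩
  calc |ker η R a z - ker η R b z| = dist (Φ a ⟨z, hz⟩) (Φ b ⟨z, hz⟩) := (Real.dist_eq _ _).symm
    _ ≤ dist (Φ a) (Φ b) := ContinuousMap.dist_apply_le_dist _
    _ < ε := hab

/-- the integrals of a map against the finitely many kernels -/
noncomputable def T (η : R2 n → ℝ) (R : ℝ) (K : Set (R2 n)) (t : Finset (R2 n × R2 n))
    (φ : SympCt n) : t → R2 n := fun b => ∫ z in K, ker η R b z • φ.toEquiv z

theorem int_K (hη : Moll η) (R : ℝ) {K : Set (R2 n)} (hK : IsCompact K) (b : R2 n × R2 n)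
    {f : R2 n → R2 n} (hf : Continuous f) :
    IntegrableOn (fun z => ker η R b z • f z) K :=
  ((ker_cont_right hη R b).smul hf).continuousOn.integrableOn_compact hK

theorem T_bound (hη : Moll η) (R : ℝ) {K : Set (R2 n)} (hK : IsCompact K)
    (t : Finset (R2 n × R2 n)) : ∃ C : t → ℝ, ∀ φ ∈ supportedIn K, ∀ b, ‖T η R K t φ b‖ ≤ C b := by
  obtain ⟨B, hB⟩ := hK.isBounded.exists_norm_le
  have hex : ∀ b : t, ∃ M, ∀ z ∈ K, ‖ker η R b z‖ ≤ M := fun b =>
    hK.exists_bound_of_continuousOn (ker_cont_right hη R b).continuousOn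
  choose M hM using hex
  refine ⟨fun b => M b * B * volume.real K, fun φ hφ b => ?_⟩
  refine norm_setIntegral_le_of_norm_le_const hK.measure_lt_top fun z hz => ?_
  rw [norm_smul]
  exact mul_le_mul (hM b z hz) (hB _ (map_mem hφ hz)) (norm_nonneg _)
    ((norm_nonneg _).trans (hM b z hz))

theorem exists_code (hη : Moll η) (R : ℝ) {K : Set (R2 n)} (hK : IsCompact K)
    (t : Finset (R2 n × R2 n)) {δ : ℝ} (hδ : 0 < δ) :
    ∃ (N : ℕ) (code : SympCt n → Fin N), ∀ φ ψ : SympCt n,
      φ ∈ supportedIn K → ψ ∈ supportedIn K → code φ = code ψ →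
        ∀ b : t, ‖T η R K t φ b - T η R K t ψ b‖ < δ := by
  classical
  obtain ⟨C, hC⟩ := T_bound hη R hK t
  have hP : IsCompact (Set.pi Set.univ (fun b : t => Metric.closedBall (0 : R2 n) (C b))) :=
    isCompact_univ_pi fun b => isCompact_closedBall 0 (C b)
  obtain ⟨s, -, hs⟩ := hP.elim_nhds_subcover (fun y => Metric.ball y (δ / 2))
    (fun y _ => Metric.ball_mem_nhds y (by positivity))
  have hmem : ∀ φ ∈ supportedIn K, ∃ y : s, dist (T η R K t φ) y < δ / 2 := by
    intro φ hφ
    have h1 : T η R K t φ ∈ Set.pi Set.univ (fun b : t => Metric.closedBall (0 : R2 n) (C b)) := by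
      intro b _
      rw [mem_closedBall_zero_iff]
      exact hC φ hφ b
    obtain ⟨y, hy, h2⟩ := Set.mem_iUnion₂.1 (hs h1)
    exact ⟨⟨y, hy⟩, h2⟩
  let c0 : SympCt n → Option s := fun φ =>
    if h : ∃ y : s, dist (T η R K t φ) y < δ / 2 then some h.choose else none
  refine ⟨Fintype.card (Option s), fun φ => Fintype.equivFin (Option s) (c0 φ), ?_⟩
  intro φ ψ hφ hψ hc b
  have hc' : c0 φ = c0 ψ := (Fintype.equivFin (Option s)).injective hc
  have h1 := hmem φ hφ
  have h2 := hmem ψ hψ
  have e1 : c0 φ = some h1.choose := dif_pos h1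
  have e2 : c0 ψ = some h2.choose := dif_pos h2
  rw [e1, e2] at hc'
  have e3 : h1.choose = h2.choose := Option.some_injective _ hc'
  have d1 := h1.choose_spec
  have d2 := h2.choose_spec
  rw [← e3] at d2
  have d3 : dist (T η R K t φ) (T η R K t ψ) < δ := by
    calc dist (T η R K t φ) (T η R K t ψ) ≤ dist (T η R K t φ) h1.choose +
          dist (T η R K t ψ) h1.choose := dist_triangle_right _ _ _
      _ < δ := by linarith
  rw [← dist_eq_norm]
  exact (dist_le_pi_dist _ _ b).trans_lt d3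

/-- far away the kernel vanishes on `K` -/
theorem ker_far (hη : Moll η) {R : ℝ} (hR : 0 < R) {K : Set (R2 n)} (hK : IsCompact K) :
    ∃ r : ℝ, ∀ x, x ∉ Metric.closedBall (0 : R2 n) r → ∀ v, ∀ z ∈ K, ker η R (x, v) z = 0 := by
  obtain ⟨B, hB⟩ := hK.isBounded.exists_norm_le
  obtain ⟨ρ, hρ⟩ := hη.cpt.isCompact.isBounded.exists_norm_le
  refine ⟨B + R * ρ, fun x hx v z hz => ?_⟩
  have h1 : B + R * ρ < ‖x‖ := by
    rw [mem_closedBall_zero_iff, not_le] at hx
    exact hx
  have h2 : ρ < ‖R⁻¹ • (x - z)‖ := by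
    rw [norm_smul, norm_inv, Real.norm_eq_abs, abs_of_pos hR, ← div_eq_inv_mul,
      lt_div_iff₀ hR]
    have := norm_sub_norm_le x z
    have := hB z hz
    nlinarith
  have h3 : R⁻¹ • (x - z) ∉ tsupport η := fun h => absurd (hρ _ h) (not_le.2 h2)
  have h4 : fderiv ℝ η (R⁻¹ • (x - z)) = 0 := by
    by_contra h
    exact h3 (support_fderiv_subset ℝ (Function.mem_support.2 h))
  unfold ker
  simp only [h4, zero_apply]

theorem ker_scale (R : ℝ) (x v z : R2 n) :
    ker η R (x, v) z = ‖v‖ * ker η R (x, ‖v‖⁻¹ • v) z := by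
  unfold ker
  simp only [map_smul, smul_eq_mul]
  rcases eq_or_ne v 0 with h | h
  · subst h
    simp
  · rw [mul_inv_cancel_left₀ (norm_ne_zero_iff.2 h)]

end Code

theorem code (n : ℕ) : S_CODE n := by
  intro η hη K hK R κ hR hκ
  obtain ⟨B, hB0, hB⟩ := hK.isBounded.exists_pos_norm_le
  obtain ⟨r, hr⟩ := Code.ker_far hη hR hK
  set V : ℝ := volume.real K with hV
  have hV0 : 0 ≤ V := measureReal_nonneg
  set c : ℝ := R⁻¹ * |(R ^ Module.finrank ℝ (R2 n))⁻¹| with hc
  have hc0 : 0 ≤ c := by positivity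
  set L : ℝ := Real.sqrt (κ / (2 * n + 1)) with hL
  have hL0 : 0 < L := Real.sqrt_pos.2 (by positivity)
  have hL2 : L ^ 2 = κ / (2 * n + 1) := Real.sq_sqrt (by positivity)
  set ε : ℝ := L / (2 * (c + 1) * (2 * B * V + 1)) with hε
  have hε0 : 0 < ε := by positivity
  set δ : ℝ := L / (2 * (c + 1)) with hδ
  have hδ0 : 0 < δ := by positivity
  have hA : IsCompact ((Metric.closedBall (0 : R2 n) r) ×ˢ (Metric.closedBall (0 : R2 n) 1)) :=
    (isCompact_closedBall _ _).prod (isCompact_closedBall _ _)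
  obtain ⟨t, ht⟩ := Code.net hη R hK hA hε0
  obtain ⟨N, cd, hcd⟩ := Code.exists_code hη R hK t hδ0
  refine ⟨N, cd, fun φ ψ hφ hψ hco x v => ?_⟩
  have hT := hcd φ ψ hφ hψ hco
  set u : R2 n → R2 n := fun z => φ.toEquiv z - ψ.toEquiv z with hu
  have huc : Continuous u := φ.smooth.continuous.sub ψ.smooth.continuous
  have hu0 : ∀ z, z ∉ K → u z = 0 := by
    intro z hz
    simp only [hu]
    rw [hφ z hz, hψ z hz, sub_self]
  have huB : ∀ z ∈ K, ‖u z‖ ≤ 2 * B := by
    intro z hz
    refine (norm_sub_le _ _).trans ?_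
    have h1 := hB _ (Code.map_mem hφ hz)
    have h2 := hB _ (Code.map_mem hψ hz)
    linarith
  set v' : R2 n := ‖v‖⁻¹ • v with hv'
  have hv1 : ‖v'‖ ≤ 1 := by
    rw [hv', norm_smul, norm_inv, norm_norm]
    exact inv_mul_le_one
  -- the integral for the normalized direction
  have hI : ‖∫ z in K, Code.ker η R (x, v') z • u z‖ ≤ ε * (2 * B) * V + δ := by
    by_cases hx : x ∈ Metric.closedBall (0 : R2 n) r
    · obtain ⟨b, hb, hab⟩ := ht (x, v') ⟨hx, mem_closedBall_zero_iff.2 hv1⟩
      have e1 : ∫ z in K, Code.ker η R (x, v') z • u z =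
          (∫ z in K, (Code.ker η R (x, v') z - Code.ker η R b z) • u z) +
            (Code.T η R K t φ ⟨b, hb⟩ - Code.T η R K t ψ ⟨b, hb⟩) := by
        unfold Code.T
        rw [← integral_sub (Code.int_K hη R hK b φ.smooth.continuous)
          (Code.int_K hη R hK b ψ.smooth.continuous)]
        have i1 : IntegrableOn (fun z => (Code.ker η R (x, v') z - Code.ker η R b z) • u z) K :=
          ((((Code.ker_cont_right hη R (x, v')).sub (Code.ker_cont_right hη R b)).smul
            huc).continuousOn).integrableOn_compact hK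
        have i2 : IntegrableOn (fun z => Code.ker η R b z • φ.toEquiv z -
            Code.ker η R b z • ψ.toEquiv z) K :=
          (Code.int_K hη R hK b φ.smooth.continuous).sub
            (Code.int_K hη R hK b ψ.smooth.continuous)
        rw [← integral_add i1 i2]
        refine integral_congr_ae (Filter.Eventually.of_forall fun z => ?_)
        simp only [hu]
        module
      rw [e1]
      refine (norm_add_le _ _).trans (add_le_add ?_ (hT ⟨b, hb⟩).le)
      refine norm_setIntegral_le_of_norm_le_const hK.measure_lt_top fun z hz => ?_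
      rw [norm_smul]
      exact mul_le_mul (hab z hz).le (huB z hz) (norm_nonneg _) hε0.le
    · have e1 : ∫ z in K, Code.ker η R (x, v') z • u z = ∫ z in K, (0 : R2 n) := by
        refine setIntegral_congr_fun hK.measurableSet fun z hz => ?_
        simp only [hr x hx v' z hz, zero_smul]
      rw [e1]
      simp only [integral_zero, norm_zero]
      positivity
  have hW : ‖MD η φ R x v - MD η ψ R x v‖ ≤ L * ‖v‖ := by
    rw [Form.diff_eq' hη φ ψ hR]
    have e1 : ∫ z, fderiv ℝ η (R⁻¹ • (x - z)) v • (φ.toEquiv z - ψ.toEquiv z) =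
        ‖v‖ • ∫ z in K, Code.ker η R (x, v') z • u z := by
      rw [← integral_smul]
      have e2 : ∀ z, z ∉ K →
          fderiv ℝ η (R⁻¹ • (x - z)) v • (φ.toEquiv z - ψ.toEquiv z) = 0 := by
        intro z hz
        have := hu0 z hz
        simp only [hu] at this
        rw [this, smul_zero]
      rw [← setIntegral_eq_integral_of_forall_compl_eq_zero e2]
      refine setIntegral_congr_fun hK.measurableSet fun z _ => ?_
      have e3 := Code.ker_scale (η := η) R x v z
      simp only [Code.ker] at e3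
      simp only [Code.ker, hu]
      rw [smul_smul, e3]
    rw [e1, norm_smul, norm_smul, Real.norm_eq_abs, abs_of_nonneg hc0, norm_norm]
    have e4 : c * (ε * (2 * B) * V + δ) ≤ L := by
      have f1 : c * δ ≤ L / 2 := by
        rw [hδ, mul_div_assoc', div_le_div_iff₀ (by positivity) (by positivity)]
        nlinarith
      have f2 : c * (ε * (2 * B) * V) ≤ L / 2 := by
        have f3 : ε * (2 * B * V + 1) = δ := by
          rw [hε, hδ]
          field_simp
        have f4 : ε * (2 * B) * V ≤ δ := by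
          rw [← f3]
          nlinarith
        exact (mul_le_mul_of_nonneg_left f4 hc0).trans f1
      linarith
    calc c * (‖v‖ * ‖∫ z in K, Code.ker η R (x, v') z • u z‖)
        = ‖v‖ * (c * ‖∫ z in K, Code.ker η R (x, v') z • u z‖) := by ring
      _ ≤ ‖v‖ * (c * (ε * (2 * B) * V + δ)) := by gcongr
      _ ≤ ‖v‖ * L := mul_le_mul_of_nonneg_left e4 (norm_nonneg _)
      _ = L * ‖v‖ := mul_comm _ _
  calc nsq (MD η φ R x v - MD η ψ R x v) ≤ 2 * n * ‖MD η φ R x v - MD η ψ R x v‖ ^ 2 :=
        Form.nsq_le_norm_sq _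
    _ ≤ 2 * n * (L * ‖v‖) ^ 2 := by gcongr
    _ = (2 * n / (2 * n + 1)) * κ * ‖v‖ ^ 2 := by
        rw [mul_pow, hL2]
        ring
    _ ≤ 1 * κ * ‖v‖ ^ 2 := by
        gcongr
        rw [div_le_one (by positivity)]
        linarith
    _ ≤ κ * nsq v := by
        rw [one_mul]
        exact mul_le_mul_of_nonneg_left (Form.norm_sq_le_nsq v) hκ.le

end Pool.Agent.W5h49.EC
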