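import Pool.Agent.W5h49.EC.Defs2
import Pool.Agent.W5h49.EC.Cube

set_option autoImplicit false

open scoped ContDiff Topology
open MeasureTheory Metric

namespace Pool.Agent.W5h49.EC

open Pool.Agent.W71.EC CubeAux

namespace DiffAux

variable {n : ℕ}

theorem abs_fst_le (w : R2 n) (i : Fin n) : |w.1 i| ≤ ‖w‖ :=
  ((Real.norm_eq_abs _).symm.le.trans (norm_le_pi_norm w.1 i)).trans (norm_fst_le w)

theorem abs_snd_le (w : R2 n) (i : Fin n) : |w.2 i| ≤ ‖w‖ :=
  ((Real.norm_eq_abs _).symm.le.trans (norm_le_pi_norm w.2 i)).trans (norm_snd_le w)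

theorem nsq_le (w : R2 n) : nsq w ≤ 2 * n * ‖w‖ ^ 2 := by
  unfold nsq
  have h1 : ∀ i : Fin n, w.1 i ^ 2 + w.2 i ^ 2 ≤ 2 * ‖w‖ ^ 2 := by
    intro i
    have h2 : w.1 i ^ 2 ≤ ‖w‖ ^ 2 := by
      rw [← sq_abs]
      exact pow_le_pow_left₀ (abs_nonneg _) (abs_fst_le w i) 2
    have h3 : w.2 i ^ 2 ≤ ‖w‖ ^ 2 := by
      rw [← sq_abs]
      exact pow_le_pow_left₀ (abs_nonneg _) (abs_snd_le w i) 2
    linarith
  refine (Finset.sum_le_sum fun i _ => h1 i).trans (le_of_eq ?_)
  rw [Finset.sum_const, Finset.card_univ, Fintype.card_fin, nsmul_eq_mul]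
  ring

theorem norm_le_sqrt (v : R2 n) : ‖v‖ ≤ Real.sqrt (nsq v) := by
  have h1 : ∀ i : Fin n, v.1 i ^ 2 + v.2 i ^ 2 ≤ nsq v := by
    intro i
    unfold nsq
    exact Finset.single_le_sum (f := fun i => v.1 i ^ 2 + v.2 i ^ 2)
      (fun i _ => by positivity) (Finset.mem_univ i)
  have hs := Real.sqrt_nonneg (nsq v)
  rw [norm_prod_le_iff]
  constructor
  · rw [pi_norm_le_iff_of_nonneg hs]
    intro i
    rw [Real.norm_eq_abs]
    apply Real.abs_le_sqrt
    have := h1 i
    nlinarith [sq_nonneg (v.2 i)]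
  · rw [pi_norm_le_iff_of_nonneg hs]
    intro i
    rw [Real.norm_eq_abs]
    apply Real.abs_le_sqrt
    have := h1 i
    nlinarith [sq_nonneg (v.1 i)]

theorem norm_sq_le (v : R2 n) : ‖v‖ ^ 2 ≤ nsq v := by
  have h := pow_le_pow_left₀ (norm_nonneg v) (norm_le_sqrt v) 2
  rwa [Real.sq_sqrt (nsq_nonneg v)] at h

/-- the difference of the mollified differentials, after integration by parts -/
theorem md_sub {η : R2 n → ℝ} (hη : Moll η) (φ ψ : SympCt n) {R : ℝ} (hR : 0 < R) (x v : R2 n) :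
    MD η φ R x v - MD η ψ R x v =
      R⁻¹ • ∫ y, fderiv ℝ η y v • (φ.toEquiv (x - R • y) - ψ.toEquiv (x - R • y)) := by
  set g : R2 n → R2 n := fun y => φ.toEquiv (x - R • y) - ψ.toEquiv (x - R • y) with hg
  have hin : ContDiff ℝ ∞ (fun y : R2 n => x - R • y) := by fun_prop
  have hgs : ContDiff ℝ ∞ g := (φ.smooth.comp hin).sub (ψ.smooth.comp hin)
  have hgd : ∀ y, fderiv ℝ g y v = -R • (D φ (x - R • y) v - D ψ (x - R • y) v) := by
    intro y
    have h1 : HasFDerivAt (fun y : R2 n => x - R • y) (-(R • ContinuousLinearMap.id ℝ (R2 n))) y :=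
      ((hasFDerivAt_id y).const_smul R).const_sub x
    have hd : ∀ χ : SympCt n, HasFDerivAt χ.toEquiv (fderiv ℝ χ.toEquiv (x - R • y)) (x - R • y) :=
      fun χ => (χ.smooth.contDiffAt.differentiableAt (by norm_num)).hasFDerivAt
    have h2 := ((hd φ).comp y h1).sub ((hd ψ).comp y h1)
    have h3 : fderiv ℝ g y = _ := h2.fderiv
    rw [h3]
    simp only [ContinuousLinearMap.sub_apply, ContinuousLinearMap.comp_apply,
      ContinuousLinearMap.neg_apply, ContinuousLinearMap.smul_apply, ContinuousLinearMap.id_apply,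
      map_neg, map_smul]
    unfold D
    rw [smul_sub]
    simp only [neg_smul]
  have hηd : Continuous fun y => fderiv ℝ η y v :=
    (hη.smooth.continuous_fderiv (by simp)).clm_apply continuous_const
  have hcs : HasCompactSupport fun y => fderiv ℝ η y v :=
    hη.cpt.fderiv_apply (𝕜 := ℝ) (v := v)
  have i1 : Integrable fun y => fderiv ℝ η y v • g y :=
    (hηd.smul hgs.continuous).integrable_of_hasCompactSupport hcs.smul_right
  have hgd' : Continuous fun y => fderiv ℝ g y v :=
    (hgs.continuous_fderiv (by simp)).clm_apply continuous_const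
  have i2 : Integrable fun y => η y • fderiv ℝ g y v := integrable_smul hη hgd'
  have i3 : Integrable fun y => η y • g y := integrable_smul hη hgs.continuous
  have h4 := integral_smul_fderiv_eq_neg_fderiv_smul_of_integrable i1 i2 i3
    (fun y _ => hη.smooth.contDiffAt.differentiableAt (by norm_num))
    (fun y _ => hgs.contDiffAt.differentiableAt (by norm_num))
  have h5 : MD η φ R x v - MD η ψ R x v =
      ∫ y, η y • (D φ (x - R • y) v - D ψ (x - R • y) v) := by
    unfold MD
    rw [← integral_sub (integrable_smul hη (continuous_Dr φ R x v))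
      (integrable_smul hη (continuous_Dr ψ R x v))]
    refine integral_congr_ae (Filter.Eventually.of_forall fun y => ?_)
    simp only [smul_sub]
  rw [h5]
  have h6 : ∫ y, η y • fderiv ℝ g y v =
      -R • ∫ y, η y • (D φ (x - R • y) v - D ψ (x - R • y) v) := by
    rw [← integral_smul]
    refine integral_congr_ae (Filter.Eventually.of_forall fun y => ?_)
    simp only [hgd]
    rw [smul_comm]
  rw [h6] at h4
  have h7 : R • ∫ y, η y • (D φ (x - R • y) v - D ψ (x - R • y) v) =
      ∫ y, fderiv ℝ η y v • g y := by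
    rw [neg_smul, neg_inj] at h4
    exact h4
  rw [← h7, smul_smul, inv_mul_cancel₀ hR.ne', one_smul]

end DiffAux

open DiffAux

theorem diff (n : ℕ) : S_DIFF n := by
  intro η hη hsupp
  have hηd : Continuous (fderiv ℝ η) := hη.smooth.continuous_fderiv (by simp)
  obtain ⟨L, hL⟩ := hηd.bounded_above_of_compact_support (hη.cpt.fderiv (𝕜 := ℝ))
  have hL0 : 0 ≤ L := (norm_nonneg _).trans (hL 0)
  have hvol := pos_ball (n := n)
  set V := volume.real (ball (0 : R2 n) 1) with hV
  have hzero : ∀ y, y ∉ ball (0 : R2 n) 1 → fderiv ℝ η y = 0 := by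
    intro y hy
    have h1 : η y = 0 := by
      by_contra h
      exact hy (hsupp h)
    have h2 : IsLocalMin η y := Filter.Eventually.of_forall fun z => by
      rw [h1]
      exact hη.nonneg z
    exact h2.fderiv_eq_zero
  refine ⟨Real.sqrt (2 * n) * (L * V) + 1, by positivity, fun φ ψ R hR x v => ?_⟩
  set A := ⨍ y in ball x R, ‖φ.toEquiv y - ψ.toEquiv y‖ with hA
  have hA0 : 0 ≤ A := by
    rw [hA, setAverage_eq]
    exact smul_nonneg (by positivity) (integral_nonneg fun y => norm_nonneg _)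
  have h1 : ‖MD η φ R x v - MD η ψ R x v‖ ≤ R⁻¹ * (L * ‖v‖ * (V * A)) := by
    rw [md_sub hη φ ψ hR x v, norm_smul, Real.norm_of_nonneg (by positivity)]
    refine mul_le_mul_of_nonneg_left ?_ (by positivity)
    refine (norm_integral_le_integral_norm _).trans ?_
    have hcg : Continuous fun y : R2 n =>
        ‖φ.toEquiv (x - R • y) - ψ.toEquiv (x - R • y)‖ := by
      have hin : Continuous (fun y : R2 n => x - R • y) := by fun_prop
      exact ((φ.smooth.continuous.comp hin).sub (ψ.smooth.continuous.comp hin)).norm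
    have h2 : ∫ y, ‖fderiv ℝ η y v • (φ.toEquiv (x - R • y) - ψ.toEquiv (x - R • y))‖ =
        ∫ y in ball (0 : R2 n) 1,
          ‖fderiv ℝ η y v • (φ.toEquiv (x - R • y) - ψ.toEquiv (x - R • y))‖ := by
      rw [setIntegral_eq_integral_of_forall_compl_eq_zero]
      intro y hy
      rw [hzero y hy]
      simp
    rw [h2]
    have hint : IntegrableOn (fun y : R2 n =>
        ‖φ.toEquiv (x - R • y) - ψ.toEquiv (x - R • y)‖) (ball (0 : R2 n) 1) :=
      (hcg.continuousOn.integrableOn_compact (isCompact_closedBall 0 1)).mono_set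
        ball_subset_closedBall
    have hint2 : IntegrableOn (fun y : R2 n =>
        ‖fderiv ℝ η y v • (φ.toEquiv (x - R • y) - ψ.toEquiv (x - R • y))‖)
        (ball (0 : R2 n) 1) := by
      have hin : Continuous (fun y : R2 n => x - R • y) := by fun_prop
      have hc : Continuous fun y : R2 n =>
          ‖fderiv ℝ η y v • (φ.toEquiv (x - R • y) - ψ.toEquiv (x - R • y))‖ :=
        ((hηd.clm_apply continuous_const).smul
          ((φ.smooth.continuous.comp hin).sub (ψ.smooth.continuous.comp hin))).norm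
      exact (hc.continuousOn.integrableOn_compact (isCompact_closedBall 0 1)).mono_set
        ball_subset_closedBall
    have h3 : ∫ y in ball (0 : R2 n) 1,
          ‖fderiv ℝ η y v • (φ.toEquiv (x - R • y) - ψ.toEquiv (x - R • y))‖ ≤
        ∫ y in ball (0 : R2 n) 1, (L * ‖v‖) *
          ‖φ.toEquiv (x - R • y) - ψ.toEquiv (x - R • y)‖ := by
      refine integral_mono hint2 (hint.const_mul _) fun y => ?_
      simp only [norm_smul]
      refine mul_le_mul_of_nonneg_right ?_ (norm_nonneg _)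
      exact ((fderiv ℝ η y).le_opNorm v).trans
        (mul_le_mul_of_nonneg_right (hL y) (norm_nonneg v))
    refine h3.trans (le_of_eq ?_)
    rw [integral_const_mul]
    have h4 := setIntegral_scale (G := fun z => ‖φ.toEquiv z - ψ.toEquiv z‖) hR x
    rw [← hA, ← hV] at h4
    congr 1
    rw [← h4, ← mul_assoc, mul_inv_cancel₀ hvol.ne', one_mul]
  have h5 := nsq_le (MD η φ R x v - MD η ψ R x v)
  refine h5.trans ?_
  have h6 : ‖MD η φ R x v - MD η ψ R x v‖ ^ 2 ≤ (R⁻¹ * (L * ‖v‖ * (V * A))) ^ 2 :=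
    pow_le_pow_left₀ (norm_nonneg _) h1 2
  have h7 : (2 * n : ℝ) * (R⁻¹ * (L * ‖v‖ * (V * A))) ^ 2 =
      (Real.sqrt (2 * n) * (L * V) / R * A) ^ 2 * ‖v‖ ^ 2 := by
    have h8 : Real.sqrt (2 * n) ^ 2 = 2 * n := Real.sq_sqrt (by positivity)
    calc (2 * n : ℝ) * (R⁻¹ * (L * ‖v‖ * (V * A))) ^ 2
        = Real.sqrt (2 * n) ^ 2 * (R⁻¹ * (L * ‖v‖ * (V * A))) ^ 2 := by rw [h8]
      _ = _ := by ring
  have h9 : (2 * n : ℝ) * ‖MD η φ R x v - MD η ψ R x v‖ ^ 2 ≤
      (Real.sqrt (2 * n) * (L * V) / R * A) ^ 2 * ‖v‖ ^ 2 := by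
    rw [← h7]
    exact mul_le_mul_of_nonneg_left h6 (by positivity)
  refine h9.trans ?_
  have h10 : (Real.sqrt (2 * n) * (L * V) / R * A) ^ 2 ≤
      ((Real.sqrt (2 * n) * (L * V) + 1) / R * A) ^ 2 := by
    refine pow_le_pow_left₀ (by positivity) ?_ 2
    gcongr
    linarith
  exact mul_le_mul h10 (norm_sq_le v) (by positivity) (by positivity)

end Pool.Agent.W5h49.EC
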