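import Mathlib
import Pool.Agent.W5h49.EC.Defs

set_option autoImplicit false

open scoped ContDiff Topology
open MeasureTheory

namespace Pool.Agent.W5h49.EC

open Pool.Agent.W71.EC

variable {n : ℕ}

/-- `omega (·) c` as a continuous linear map -/
noncomputable def omL (c : R2 n) : R2 n →L[ℝ] ℝ :=
  LinearMap.toContinuousLinearMap
    { toFun := fun u => omega u c
      map_add' := fun u v => omega_add_left u v c
      map_smul' := fun a u => by simpa using omega_smul_left a u c }

@[simp] theorem omL_apply (c u : R2 n) : omL c u = omega u c := rfl

/-- `omega c (·)` as a continuous linear map -/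
noncomputable def omR (c : R2 n) : R2 n →L[ℝ] ℝ :=
  LinearMap.toContinuousLinearMap
    { toFun := fun u => omega c u
      map_add' := fun u v => omega_add_right c u v
      map_smul' := fun a u => by simpa using omega_smul_right a c u }

@[simp] theorem omR_apply (c u : R2 n) : omR c u = omega c u := rfl

theorem continuous_omega {X : Type*} [TopologicalSpace X] {f g : X → R2 n} (hf : Continuous f)
    (hg : Continuous g) : Continuous fun x => omega (f x) (g x) := by
  unfold omega
  fun_prop

theorem continuous_nsq {X : Type*} [TopologicalSpace X] {f : X → R2 n} (hf : Continuous f) :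
    Continuous fun x => nsq (f x) := by
  unfold nsq
  fun_prop

theorem continuous_D (φ : SympCt n) (r : ℝ) (x v : R2 n) :
    Continuous fun y : R2 n => D φ (x - r • y) v := by
  have h1 : Continuous (fderiv ℝ φ.toEquiv) := φ.smooth.continuous_fderiv (by simp)
  unfold D
  exact (h1.comp (by fun_prop : Continuous fun y : R2 n => x - r • y)).clm_apply continuous_const

theorem nsq_J (v : R2 n) : nsq (J v) = nsq v := by
  unfold nsq J
  refine Finset.sum_congr rfl fun i _ => ?_
  simp only [Pi.neg_apply]
  ring

theorem omega_J (v : R2 n) : omega v (J v) = nsq v := by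
  unfold nsq J omega
  refine Finset.sum_congr rfl fun i _ => ?_
  simp only [Pi.neg_apply]
  ring

theorem J_ne_zero {v : R2 n} (hv : v ≠ 0) : J v ≠ 0 := by
  intro h
  apply hv
  have h1 : -v.2 = 0 := congrArg Prod.fst h
  have h2 : v.1 = 0 := congrArg Prod.snd h
  exact Prod.ext h2 (neg_eq_zero.1 h1)

theorem omega_le (a b : R2 n) : omega a b ≤ (nsq a + nsq b) / 2 := by
  unfold nsq omega
  rw [← Finset.sum_add_distrib, Finset.sum_div]
  refine Finset.sum_le_sum fun i _ => ?_
  nlinarith [sq_nonneg (a.1 i - b.2 i), sq_nonneg (a.2 i + b.1 i)]

/-- TASK B (variance identity) -/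
theorem var (n : ℕ) : S_VAR n := by
  intro φ η hη hs r hr x v hv
  have hηc : Continuous η := hη.smooth.continuous
  set M := MD η φ r x v with hM
  set N := MD η φ r x (J v) with hN
  have ca := continuous_D φ r x v
  have cb := continuous_D φ r x (J v)
  -- integrability of `η` times a continuous function
  have hint : ∀ f : R2 n → ℝ, Continuous f → Integrable (fun y => η y * f y) := fun f hf =>
    (hηc.mul hf).integrable_of_hasCompactSupport hη.cpt.mul_right
  have hinta : Integrable (fun y => η y • D φ (x - r • y) v) :=
    (hηc.smul ca).integrable_of_hasCompactSupport hη.cpt.smul_right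
  have hintb : Integrable (fun y => η y • D φ (x - r • y) (J v)) :=
    (hηc.smul cb).integrable_of_hasCompactSupport hη.cpt.smul_right
  have h1 : ∫ y, η y * omega (D φ (x - r • y) v) N = omega M N := by
    have := (omL N).integral_comp_comm hinta
    simp only [omL_apply, omega_smul_left] at this
    exact this
  have h2 : ∫ y, η y * omega M (D φ (x - r • y) (J v)) = omega M N := by
    have := (omR M).integral_comp_comm hintb
    simp only [omR_apply, omega_smul_right] at this
    exact this
  have h3 : ∀ y, η y * omega (D φ (x - r • y) v - M) (D φ (x - r • y) (J v) - N) =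
      η y * nsq v - η y * omega (D φ (x - r • y) v) N - η y * omega M (D φ (x - r • y) (J v)) +
        η y * omega M N := by
    intro y
    have : omega (D φ (x - r • y) v) (D φ (x - r • y) (J v)) = nsq v := by
      unfold D
      rw [φ.symplectic, omega_J]
    rw [omega_sub_left, omega_sub_right, omega_sub_right, this]
    ring
  have h4 : ∫ y, η y * omega (D φ (x - r • y) v - M) (D φ (x - r • y) (J v) - N) =
      nsq v - omega M N := by
    simp_rw [h3]
    rw [integral_add, integral_sub, integral_sub, h1, h2, integral_mul_const, integral_mul_const,
      hη.integral]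
    · ring
    · exact hint _ continuous_const
    · exact hint _ (continuous_omega ca continuous_const)
    · exact (hint _ continuous_const).sub (hint _ (continuous_omega ca continuous_const))
    · exact hint _ (continuous_omega continuous_const cb)
    · exact ((hint _ continuous_const).sub (hint _ (continuous_omega ca continuous_const))).sub
        (hint _ (continuous_omega continuous_const cb))
    · exact hint _ continuous_const
  have ina : Integrable fun y => η y * nsq (D φ (x - r • y) v - M) :=
    hint _ (continuous_nsq (ca.sub continuous_const))
  have inb : Integrable fun y => η y * nsq (D φ (x - r • y) (J v) - N) :=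
    hint _ (continuous_nsq (cb.sub continuous_const))
  have h5 : ∫ y, η y * omega (D φ (x - r • y) v - M) (D φ (x - r • y) (J v) - N) ≤
      ∫ y, (1 / 2 : ℝ) * (η y * nsq (D φ (x - r • y) v - M) +
        η y * nsq (D φ (x - r • y) (J v) - N)) := by
    refine integral_mono (hint _ (continuous_omega (ca.sub continuous_const)
      (cb.sub continuous_const))) ((ina.add inb).const_mul _) fun y => ?_
    have := mul_le_mul_of_nonneg_left
      (omega_le (D φ (x - r • y) v - M) (D φ (x - r • y) (J v) - N)) (hη.nonneg y)
    calc _ ≤ _ := this
      _ = _ := by ring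
  rw [integral_const_mul, integral_add ina inb, h4] at h5
  have h6 := hs r hr x v hv
  have h7 := hs r hr x (J v) (J_ne_zero hv)
  rw [nsq_J] at h7
  linarith

end Pool.Agent.W5h49.EC
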