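import Mathlib
import Pool.Agent.W5h49.EC.Defs2
import Pool.Agent.W5h49.EC.Mos
import Pool.Agent.W5h49.EC.Var

set_option autoImplicit false

open scoped ContDiff Topology
open MeasureTheory

namespace Pool.Agent.W5h49.EC

open Pool.Agent.W71.EC

variable {n : ℕ}

theorem pencil (c : ℝ) (a a' b b' : R2 n) :
    omega ((1 - c) • a + c • b) ((1 - c) • a' + c • b') =
      (1 - c) * omega a a' + c * omega b b' - c * (1 - c) * omega (a - b) (a' - b') := by
  simp only [omega_add_left, omega_add_right, omega_smul_left, omega_smul_right, omega_sub_left,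
    omega_sub_right]
  ring

/-- **Kernel form of the theorem.** -/
theorem kernel (hM : S_MOL2 n) (hV : S_VAR2 n) {η : R2 n → ℝ} (hη : Moll η) {θ κ R : ℝ}
    (hR : 0 < R) (hθ : θ < 1) (hκ : κ < 4 * (1 - θ)) (φ ψ : SympCt n) (hφ : VarLe η θ R φ)
    (hψ : VarLe η θ R ψ)
    (hd : ∀ x v : R2 n, nsq (MD η φ R x v - MD η ψ R x v) ≤ κ * nsq v) : Joined φ ψ := by
  obtain ⟨F, K, c, r, hF, hK, hF0, hF1, hF2, hr, hc, hcr, hDF⟩ := hM φ ψ η hη R hR
  refine moser n F K hF hK hF0 ?_ φ ψ hF1 hF2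
  intro t x v hv
  rw [hDF, hDF, pencil]
  have h1 := hV φ η hη θ R hφ (r t) (hr t).1 (hr t).2 x v
  have h2 := hV ψ η hη θ R hψ (r t) (hr t).1 (hr t).2 x v
  have hp := nsqPos hv
  have h3 : 0 < (1 - θ) * nsq v := mul_pos (by linarith) hp
  rcases hcr t with h | h | h
  · rw [h]
    linarith
  · rw [h]
    linarith
  · rw [h] at h1 h2 ⊢
    have h4 := omega_le (MD η φ R x v - MD η ψ R x v) (MD η φ R x (J v) - MD η ψ R x (J v))
    have h5 := hd x v
    have h6 := hd x (J v)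
    rw [nsq_J] at h6
    have h7 : omega (MD η φ R x v - MD η ψ R x v) (MD η φ R x (J v) - MD η ψ R x (J v))
        ≤ κ * nsq v := by linarith
    have h8 : 0 ≤ κ * nsq v := (nsqNN _).trans h5
    have h9 : 0 ≤ c t * (1 - c t) := mul_nonneg (hc t).1 (by linarith [(hc t).2])
    have h10 : c t * (1 - c t) ≤ 1 / 4 := by nlinarith [sq_nonneg (c t - 1 / 2)]
    have h11 : c t * (1 - c t) * omega (MD η φ R x v - MD η ψ R x v)
        (MD η φ R x (J v) - MD η ψ R x (J v)) ≤ 1 / 4 * (κ * nsq v) := by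
      calc _ ≤ c t * (1 - c t) * (κ * nsq v) := mul_le_mul_of_nonneg_left h7 h9
        _ ≤ 1 / 4 * (κ * nsq v) := mul_le_mul_of_nonneg_right h10 h8
    have h12 : κ * nsq v < 4 * (1 - θ) * nsq v := mul_lt_mul_of_pos_right hκ hp
    have h13 : (1 - c t) * ((1 - θ) * nsq v) ≤
        (1 - c t) * omega (MD η φ R x v) (MD η φ R x (J v)) :=
      mul_le_mul_of_nonneg_left h1 (by linarith [(hc t).2])
    have h14 : c t * ((1 - θ) * nsq v) ≤ c t * omega (MD η ψ R x v) (MD η ψ R x (J v)) :=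
      mul_le_mul_of_nonneg_left h2 (hc t).1
    nlinarith

end Pool.Agent.W5h49.EC
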