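import Mathlib
import Pool.Agent.W5h49.EC.Main2
import Pool.Agent.W71.EC.Chain

set_option autoImplicit false

open scoped ContDiff Topology
open MeasureTheory

namespace Pool.Agent.W5h49.EC

open Pool.Agent.W71.EC

variable {n : ℕ}

/-- constant for the two-map theorem -/
theorem two_maps (hM : S_MOL2 n) (hV : S_VAR2 n) (hC : S_CUBE2 n) (hE : S_DIFF n) {θ : ℝ}
    (hθ : θ < 1) : ∃ c : ℝ, 0 < c ∧ ∀ (R : ℝ), 0 < R → ∀ φ ψ : SympCt n, OscLe θ R φ →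
      OscLe θ R ψ →
      (∀ x, ⨍ y in Metric.ball x R, ‖φ.toEquiv y - ψ.toEquiv y‖ ≤ c * R) → Joined φ ψ := by
  obtain ⟨η, θ', hη, hs, hθ', hcube⟩ := hC θ hθ
  obtain ⟨C, hC0, hdiff⟩ := hE η hη hs
  have h1 : 0 < 1 - θ' := by linarith
  refine ⟨Real.sqrt (1 - θ') / C, div_pos (Real.sqrt_pos.2 h1) hC0, ?_⟩
  intro R hR φ ψ hφ hψ hd
  refine kernel hM hV hη (κ := 1 - θ') hR hθ' (by linarith) φ ψ (hcube φ R hφ) (hcube ψ R hψ) ?_
  intro x v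
  refine (hdiff φ ψ R hR x v).trans ?_
  refine mul_le_mul_of_nonneg_right ?_ (nsqNN v)
  have h2 : C / R * ⨍ y in Metric.ball x R, ‖φ.toEquiv y - ψ.toEquiv y‖ ≤ Real.sqrt (1 - θ') := by
    calc _ ≤ C / R * (Real.sqrt (1 - θ') / C * R) :=
          mul_le_mul_of_nonneg_left (hd x) (by positivity)
      _ = Real.sqrt (1 - θ') := by
          field_simp
  have h3 : 0 ≤ C / R * ⨍ y in Metric.ball x R, ‖φ.toEquiv y - ψ.toEquiv y‖ := by
    refine mul_nonneg (by positivity) ?_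
    rw [setAverage_eq]
    refine smul_nonneg (by positivity) (integral_nonneg fun y => norm_nonneg _)
  calc _ ≤ Real.sqrt (1 - θ') ^ 2 := by gcongr
    _ = 1 - θ' := Real.sq_sqrt h1.le

/-- finiteness -/
theorem finite_classes (hM : S_MOL2 n) (hV : S_VAR2 n) (hC : S_CUBE2 n) (hG : S_CODE n) {θ : ℝ}
    (hθ : θ < 1) (R : ℝ) (hR : 0 < R) (K : Set (R2 n)) (hK : IsCompact K) :
    ∃ S : Finset (SympCt n), ∀ φ ∈ supportedIn K, OscLe θ R φ → ∃ ψ ∈ S, Joined φ ψ := by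
  classical
  obtain ⟨η, θ', hη, hs, hθ', hcube⟩ := hC θ hθ
  obtain ⟨N, code, hcode⟩ := hG η hη K hK R (1 - θ') hR (by linarith)
  have key : ∀ i : Fin N, ∃ ψ : SympCt n, ∀ φ ∈ supportedIn K, OscLe θ R φ → code φ = i →
      Joined φ ψ := by
    intro i
    by_cases h : ∃ ψ ∈ supportedIn K, OscLe θ R ψ ∧ code ψ = i
    · obtain ⟨ψ, hψK, hψ, hi⟩ := h
      refine ⟨ψ, fun φ hφK hφ hφi => ?_⟩
      exact kernel hM hV hη (κ := 1 - θ') hR hθ' (by linarith) φ ψ (hcube φ R hφ) (hcube ψ R hψ)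
        (hcode φ ψ hφK hψK (hφi.trans hi.symm))
    · exact ⟨one, fun φ hφK hφ hφi => (h ⟨φ, hφK, hφ, hφi⟩).elim⟩
  choose ψ hψ using key
  exact ⟨Finset.univ.image ψ, fun φ hφK hφ =>
    ⟨ψ (code φ), Finset.mem_image_of_mem _ (Finset.mem_univ _), hψ (code φ) φ hφK hφ rfl⟩⟩

end Pool.Agent.W5h49.EC
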