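import Mathlib
import Pool.Agent.W5h49.EC.Defs2
import Pool.Agent.W5h49.EC.Near

/-!
# Local near isometries have small variance (task H)
-/

set_option autoImplicit false

open scoped ContDiff Topology
open MeasureTheory

namespace Pool.Agent.W5h49.EC

open Pool.Agent.W71.EC

namespace NearLoc

open Near

variable {n : ℕ}

theorem norm_sq_le (v : R2 n) : ‖v‖ ^ 2 ≤ nsq v := by
  have key : ∀ i, v.1 i ^ 2 + v.2 i ^ 2 ≤ nsq v := fun i =>
    Finset.single_le_sum (f := fun i => v.1 i ^ 2 + v.2 i ^ 2)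
      (fun i _ => by positivity) (Finset.mem_univ i)
  have h1 : ‖v‖ ≤ Real.sqrt (nsq v) := by
    rw [Prod.norm_def]
    refine max_le ?_ ?_
    · rw [pi_norm_le_iff_of_nonneg (Real.sqrt_nonneg _)]
      intro i
      rw [Real.norm_eq_abs]
      exact Real.abs_le_sqrt (by nlinarith [key i, sq_nonneg (v.2 i)])
    · rw [pi_norm_le_iff_of_nonneg (Real.sqrt_nonneg _)]
      intro i
      rw [Real.norm_eq_abs]
      exact Real.abs_le_sqrt (by nlinarith [key i, sq_nonneg (v.1 i)])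
  calc ‖v‖ ^ 2 ≤ Real.sqrt (nsq v) ^ 2 := pow_le_pow_left₀ (norm_nonneg _) h1 2
    _ = nsq v := Real.sq_sqrt (nsq_nonneg v)

theorem nsq_le_norm (v : R2 n) : nsq v ≤ 2 * n * ‖v‖ ^ 2 := by
  have h1 : ∀ i, v.1 i ^ 2 + v.2 i ^ 2 ≤ 2 * ‖v‖ ^ 2 := by
    intro i
    have h2 : |v.1 i| ≤ ‖v‖ := by
      have := (norm_le_pi_norm v.1 i).trans (norm_fst_le v)
      rwa [Real.norm_eq_abs] at this
    have h3 : |v.2 i| ≤ ‖v‖ := by
      have := (norm_le_pi_norm v.2 i).trans (norm_snd_le v)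
      rwa [Real.norm_eq_abs] at this
    have h4 : v.1 i ^ 2 ≤ ‖v‖ ^ 2 := by
      rw [← sq_abs (v.1 i)]
      exact pow_le_pow_left₀ (abs_nonneg _) h2 2
    have h5 : v.2 i ^ 2 ≤ ‖v‖ ^ 2 := by
      rw [← sq_abs (v.2 i)]
      exact pow_le_pow_left₀ (abs_nonneg _) h3 2
    linarith
  calc nsq v ≤ ∑ _i : Fin n, 2 * ‖v‖ ^ 2 := Finset.sum_le_sum fun i _ => h1 i
    _ = 2 * n * ‖v‖ ^ 2 := by
      rw [Finset.sum_const, Finset.card_univ, Fintype.card_fin, nsmul_eq_mul]
      ring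

/-- the mean value inequality for the Euclidean norm on a segment -/
theorem mvseg {f : R2 n → R2 n} (hf : Differentiable ℝ f) {c : ℝ} (p q : R2 n)
    (hc : ∀ t : ℝ, 0 < t → t < 1 → nsq (fderiv ℝ f (q + t • (p - q)) (p - q)) ≤ c) :
    nsq (f p - f q) ≤ c := by
  set w := f p - f q with hw
  have hd : ∀ t : ℝ, HasDerivAt (fun t : ℝ => ipL w (f (q + t • (p - q))))
      (ipL w (fderiv ℝ f (q + t • (p - q)) (p - q))) t := by
    intro t
    have h1 : HasDerivAt (fun t : ℝ => q + t • (p - q)) (p - q) t := by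
      have := ((hasDerivAt_id t).smul_const (p - q)).const_add q
      simpa using this
    have h2 := (hf (q + t • (p - q))).hasFDerivAt.comp_hasDerivAt t h1
    exact (ipL w).hasFDerivAt.comp_hasDerivAt t h2
  obtain ⟨t, ht01, ht⟩ := exists_hasDerivAt_eq_slope
    (fun t : ℝ => ipL w (f (q + t • (p - q))))
    (fun t : ℝ => ipL w (fderiv ℝ f (q + t • (p - q)) (p - q))) (zero_lt_one' ℝ)
    (fun t _ => (hd t).continuousAt.continuousWithinAt) (fun t _ => hd t)
  have h3 : ipL w (fderiv ℝ f (q + t • (p - q)) (p - q)) = nsq w := by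
    rw [ht]
    simp only [one_smul, zero_smul, add_zero, sub_zero, div_one]
    rw [← map_sub, add_sub_cancel, ← hw, ipL_apply, ip_self]
  rw [ipL_apply] at h3
  have h4 := cs (fderiv ℝ f (q + t • (p - q)) (p - q)) w
  rw [h3] at h4
  have h5 := hc t ht01.1 ht01.2
  have h6 := nsq_nonneg w
  have h7 := nsq_nonneg (fderiv ℝ f (q + t • (p - q)) (p - q))
  rcases h6.lt_or_eq with h8 | h8
  · have : nsq w * nsq w ≤ c * nsq w := by
      calc nsq w * nsq w = nsq w ^ 2 := by ring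
        _ ≤ _ := h4
        _ ≤ _ := mul_le_mul_of_nonneg_right h5 h6
    exact le_of_mul_le_mul_right this h8
  · rw [← h8]
    exact h7.trans h5

theorem inv_apply (φ : SympCt n) (y w : R2 n) :
    D φ (φ.toEquiv.symm y) (fderiv ℝ φ.toEquiv.symm y w) = w := by
  have h4 := (smooth_diff φ (φ.toEquiv.symm y)).hasFDerivAt.comp y
    (smooth_symm_diff φ y).hasFDerivAt
  have h5 : (φ.toEquiv ∘ φ.toEquiv.symm : R2 n → R2 n) = id := by
    funext z
    simp
  rw [h5] at h4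
  have h6 := h4.unique (hasFDerivAt_id y)
  have h7 := congrArg (fun L : R2 n →L[ℝ] R2 n => L w) h6
  simpa [D] using h7

theorem pre_close (φ : SympCt n) {Λ : ℝ} (hΛ : 0 < Λ)
    (h1 : ∀ x v, nsq (D φ x v) ≤ Λ * nsq v) {r : ℝ} (hr : 0 ≤ r) (x p p' : R2 n)
    (hp : ‖p - x‖ ≤ r) (hp' : ‖p' - x‖ ≤ r) (t : ℝ) (ht0 : 0 ≤ t) (ht1 : t ≤ 1) :
    ‖φ.toEquiv.symm (φ.toEquiv p' + t • (φ.toEquiv p - φ.toEquiv p')) - x‖ ≤
      r * (1 + 2 * Λ * (2 * n + 1)) := by
  set z := φ.toEquiv.symm (φ.toEquiv p' + t • (φ.toEquiv p - φ.toEquiv p')) with hz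
  have h1' : ∀ x v, nsq (D φ x v) ≤ (1 + (Λ - 1)) * nsq v := fun x v => by
    rw [add_sub_cancel]
    exact h1 x v
  have hlo := dist_lo φ h1' z p'
  have hup := dist_up φ h1' p p'
  rw [add_sub_cancel] at hlo hup
  have e1 : φ.toEquiv z - φ.toEquiv p' = t • (φ.toEquiv p - φ.toEquiv p') := by
    rw [hz, Equiv.apply_symm_apply, add_sub_cancel_left]
  rw [e1, nsq_smul] at hlo
  have ht2 : t ^ 2 ≤ 1 := pow_le_one₀ ht0 ht1
  have h3 : nsq (p - p') ≤ 2 * n * (2 * r) ^ 2 := by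
    refine (nsq_le_norm _).trans ?_
    have h4 : ‖p - p'‖ ≤ 2 * r := by
      calc ‖p - p'‖ = ‖(p - x) - (p' - x)‖ := by
            congr 1
            abel
        _ ≤ ‖p - x‖ + ‖p' - x‖ := norm_sub_le _ _
        _ ≤ 2 * r := by linarith
    exact mul_le_mul_of_nonneg_left (pow_le_pow_left₀ (norm_nonneg _) h4 2) (by positivity)
  have h5 : ‖z - p'‖ ^ 2 ≤ (2 * Λ * (2 * n + 1) * r) ^ 2 := by
    calc ‖z - p'‖ ^ 2 ≤ nsq (z - p') := norm_sq_le _
      _ ≤ Λ * (t ^ 2 * nsq (φ.toEquiv p - φ.toEquiv p')) := hlo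
      _ ≤ Λ * (1 * nsq (φ.toEquiv p - φ.toEquiv p')) :=
        mul_le_mul_of_nonneg_left (mul_le_mul_of_nonneg_right ht2 (nsq_nonneg _)) hΛ.le
      _ ≤ Λ * (1 * (Λ * nsq (p - p'))) := by
        refine mul_le_mul_of_nonneg_left ?_ hΛ.le
        rw [one_mul, one_mul]
        exact hup
      _ ≤ Λ * (1 * (Λ * (2 * n * (2 * r) ^ 2))) := by
        refine mul_le_mul_of_nonneg_left ?_ hΛ.le
        rw [one_mul, one_mul]
        exact mul_le_mul_of_nonneg_left h3 hΛ.le
      _ = (2 * Λ * r) ^ 2 * (2 * n) := by ring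
      _ ≤ (2 * Λ * r) ^ 2 * (2 * n + 1) ^ 2 := by
        refine mul_le_mul_of_nonneg_left ?_ (sq_nonneg _)
        have : (0 : ℝ) ≤ n := Nat.cast_nonneg n
        nlinarith
      _ = (2 * Λ * (2 * n + 1) * r) ^ 2 := by ring
  have h6 : ‖z - p'‖ ≤ 2 * Λ * (2 * n + 1) * r :=
    le_of_sq_le_sq h5 (by positivity)
  calc ‖z - x‖ = ‖(z - p') + (p' - x)‖ := by
        congr 1
        abel
    _ ≤ ‖z - p'‖ + ‖p' - x‖ := norm_add_le _ _
    _ ≤ 2 * Λ * (2 * n + 1) * r + r := add_le_add h6 hp'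
    _ = _ := by ring

theorem keyLoc (φ : SympCt n) {Λ ε R r : ℝ} (hΛ : 0 < Λ) (hε : 0 ≤ ε)
    (h1 : ∀ x v, nsq (D φ x v) ≤ Λ * nsq v)
    (h2 : ∀ x y v, ‖x - y‖ ≤ R → nsq (D φ y v) ≤ (1 + ε) * nsq (D φ x v))
    (hr : 0 ≤ r) (hrR : r * (1 + 2 * Λ * (2 * n + 1)) ≤ R) (x p p' : R2 n)
    (hp : ‖p - x‖ ≤ r) (hp' : ‖p' - x‖ ≤ r) :
    |nsq (φ.toEquiv p - φ.toEquiv p') - nsq (D φ x (p - p'))| ≤
      ε * nsq (D φ x (p - p')) := by
  have hrR' : r ≤ R := by
    refine le_trans ?_ hrR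
    have : 0 ≤ r * (2 * Λ * (2 * n + 1)) := by positivity
    linarith
  have hup : nsq (φ.toEquiv p - φ.toEquiv p') ≤ (1 + ε) * nsq (D φ x (p - p')) := by
    refine mvseg (smooth_diff φ) p p' fun t ht0 ht1 => ?_
    refine h2 x (p' + t • (p - p')) (p - p') ?_
    refine le_trans ?_ hrR'
    have e : x - (p' + t • (p - p')) = -((1 - t) • (p' - x) + t • (p - x)) := by
      simp only [smul_sub, sub_smul, one_smul]
      abel
    rw [e, norm_neg]
    calc ‖(1 - t) • (p' - x) + t • (p - x)‖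
        ≤ ‖(1 - t) • (p' - x)‖ + ‖t • (p - x)‖ := norm_add_le _ _
      _ = (1 - t) * ‖p' - x‖ + t * ‖p - x‖ := by
        rw [norm_smul, norm_smul, Real.norm_of_nonneg ht0.le,
          Real.norm_of_nonneg (by linarith : (0 : ℝ) ≤ 1 - t)]
      _ ≤ (1 - t) * r + t * r :=
        add_le_add (mul_le_mul_of_nonneg_left hp' (by linarith))
          (mul_le_mul_of_nonneg_left hp ht0.le)
      _ = r := by ring
  have hlo : nsq (D φ x (p - p')) ≤ (1 + ε) * nsq (φ.toEquiv p - φ.toEquiv p') := by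
    have hd : Differentiable ℝ (fun y => fderiv ℝ φ.toEquiv x (φ.toEquiv.symm y)) :=
      (fderiv ℝ φ.toEquiv x).differentiable.comp (smooth_symm_diff φ)
    have h3 := mvseg hd (φ.toEquiv p) (φ.toEquiv p')
      (c := (1 + ε) * nsq (φ.toEquiv p - φ.toEquiv p')) fun t ht0 ht1 => ?_
    · have e : fderiv ℝ φ.toEquiv x (φ.toEquiv.symm (φ.toEquiv p)) -
          fderiv ℝ φ.toEquiv x (φ.toEquiv.symm (φ.toEquiv p')) = D φ x (p - p') := by
        rw [Equiv.symm_apply_apply, Equiv.symm_apply_apply, ← map_sub]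
        rfl
      rw [e] at h3
      exact h3
    · set y := φ.toEquiv p' + t • (φ.toEquiv p - φ.toEquiv p') with hy
      set w := φ.toEquiv p - φ.toEquiv p' with hw
      have e : fderiv ℝ (fun y => fderiv ℝ φ.toEquiv x (φ.toEquiv.symm y)) y w =
          D φ x (fderiv ℝ φ.toEquiv.symm y w) := by
        have := ((fderiv ℝ φ.toEquiv x).hasFDerivAt.comp y
          (smooth_symm_diff φ y).hasFDerivAt).fderiv
        have h4 : fderiv ℝ (fun y => fderiv ℝ φ.toEquiv x (φ.toEquiv.symm y)) y =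
            (fderiv ℝ φ.toEquiv x).comp (fderiv ℝ φ.toEquiv.symm y) := this
        rw [h4]
        rfl
      rw [e]
      have h5 := h2 (φ.toEquiv.symm y) x (fderiv ℝ φ.toEquiv.symm y w)
        ((pre_close φ hΛ h1 hr x p p' hp hp' t ht0.le ht1.le).trans hrR)
      rw [inv_apply] at h5
      exact h5
  have h3 := nsq_nonneg (D φ x (p - p'))
  have h4 := nsq_nonneg (φ.toEquiv p - φ.toEquiv p')
  rw [abs_le]
  constructor
  · rcases le_total (nsq (D φ x (p - p'))) (nsq (φ.toEquiv p - φ.toEquiv p')) with h5 | h5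
    · nlinarith [mul_nonneg hε h3]
    · nlinarith [mul_le_mul_of_nonneg_left h5 hε]
  · linarith

theorem map_D_sub (φ : SympCt n) (x u v : R2 n) : D φ x (u - v) = D φ x u - D φ x v :=
  map_sub _ _ _

/-- polarization -/
theorem polarLoc (φ : SympCt n) {Λ ε R r : ℝ} (hΛ : 0 < Λ) (hε : 0 ≤ ε)
    (h1 : ∀ x v, nsq (D φ x v) ≤ Λ * nsq v)
    (h2 : ∀ x y v, ‖x - y‖ ≤ R → nsq (D φ y v) ≤ (1 + ε) * nsq (D φ x v))
    (hr : 0 ≤ r) (hrR : r * (1 + 2 * Λ * (2 * n + 1)) ≤ R) (x y z : R2 n)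
    (hy : ‖y‖ ≤ r) (hz : ‖z‖ ≤ r) :
    |ip (φ.toEquiv (x + y) - φ.toEquiv x) (φ.toEquiv (x + z) - φ.toEquiv x) -
        ip (D φ x y) (D φ x z)| ≤
      3 / 2 * ε * (nsq (D φ x y) + nsq (D φ x z)) := by
  have e1 : x + y - x = y := by abel
  have e2 : x + z - x = z := by abel
  have e3 : x + y - (x + z) = y - z := by abel
  have n0 : ‖x - x‖ ≤ r := by
    rw [sub_self, norm_zero]
    exact hr
  have ny : ‖x + y - x‖ ≤ r := by
    rw [e1]
    exact hy
  have nz : ‖x + z - x‖ ≤ r := by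
    rw [e2]
    exact hz
  have k1 := keyLoc φ hΛ hε h1 h2 hr hrR x (x + y) x ny n0
  have k2 := keyLoc φ hΛ hε h1 h2 hr hrR x (x + z) x nz n0
  have k3 := keyLoc φ hΛ hε h1 h2 hr hrR x (x + y) (x + z) ny nz
  rw [e1] at k1
  rw [e2] at k2
  rw [e3, map_D_sub] at k3
  have e4 : φ.toEquiv (x + y) - φ.toEquiv (x + z) =
      (φ.toEquiv (x + y) - φ.toEquiv x) - (φ.toEquiv (x + z) - φ.toEquiv x) := by abel
  rw [e4, nsq_sub (φ.toEquiv (x + y) - φ.toEquiv x)] at k3
  have k4 := nsq_sub (D φ x y) (D φ x z)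
  have k5 := nsq_sub_le (D φ x y) (D φ x z)
  rw [abs_le] at k1 k2 k3 ⊢
  have k6 : ε * nsq (D φ x y - D φ x z) ≤ ε * (2 * nsq (D φ x y) + 2 * nsq (D φ x z)) :=
    mul_le_mul_of_nonneg_left k5 hε
  constructor <;> nlinarith [k1.1, k1.2, k2.1, k2.2, k3.1, k3.2]

section main

variable {η : R2 n → ℝ}

theorem main_lower (hη : Moll η) (hsup : Function.support η ⊆ Metric.ball 0 1)
    (φ : SympCt n) {Λ ε R r : ℝ} (hΛ : 0 < Λ) (hε : 0 ≤ ε)
    (h1 : ∀ x v, nsq (D φ x v) ≤ Λ * nsq v)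
    (h2 : ∀ x y v, ‖x - y‖ ≤ R → nsq (D φ y v) ≤ (1 + ε) * nsq (D φ x v))
    (hr : 0 < r) (hrR : r * (1 + 2 * Λ * (2 * n + 1)) ≤ R) (x v : R2 n)
    (hv : nsq v = 1) :
    r * (nsq (D φ x v) - ε * Λ * (3 / 2 * ∫ y, ‖fderiv ℝ η y‖ * (nsq y + 1))) ≤
      ip (MD η φ r x v) (φ.toEquiv (x + r • v) - φ.toEquiv x) := by
  set b := φ.toEquiv (x + r • v) - φ.toEquiv x with hb
  set g : R2 n → ℝ := fun y => ipL b (φ.toEquiv (x - r • y) - φ.toEquiv x) with hg
  have hin : ContDiff ℝ ∞ (fun y : R2 n => x - r • y) := by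
    fun_prop
  have hsm : ContDiff ℝ ∞ (fun y : R2 n => φ.toEquiv (x - r • y)) :=
    φ.smooth.comp hin
  have hgs : ContDiff ℝ ∞ g := (ipL b).contDiff.comp (hsm.sub contDiff_const)
  have hgd : ∀ y, fderiv ℝ g y v = -r * ip (D φ (x - r • y) v) b := by
    intro y
    have h1 : HasFDerivAt (fun y : R2 n => x - r • y) (-(r • ContinuousLinearMap.id ℝ (R2 n))) y := by
      have h0 : HasFDerivAt (fun y : R2 n => y) (ContinuousLinearMap.id ℝ (R2 n)) y :=
        hasFDerivAt_id y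
      exact (h0.const_smul r).const_sub x
    have h2 := ((smooth_diff φ (x - r • y)).hasFDerivAt.comp y h1).sub_const (φ.toEquiv x)
    have h3 := (ipL b).hasFDerivAt.comp y h2
    have h4 : fderiv ℝ g y = _ := h3.fderiv
    rw [h4]
    simp only [ContinuousLinearMap.comp_apply, neg_apply,
      smul_apply, ContinuousLinearMap.id_apply, map_neg, map_smul,
      ipL_apply, smul_eq_mul, D]
    ring
  have hp := parts hη v hgs
  have h5 : ∫ y, η y * fderiv ℝ g y v = -r * ip (MD η φ r x v) b := by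
    rw [ip_MD hη, ← integral_const_mul]
    refine integral_congr_ae (Filter.Eventually.of_forall fun y => ?_)
    simp only [hgd]
    ring
  -- the linear functional `y ↦ ⟨A y, A v⟩`
  set ℓ : R2 n →L[ℝ] ℝ := (ipL (D φ x v)).comp (fderiv ℝ φ.toEquiv x) with hℓ
  have hℓa : ∀ y, ℓ y = ip (D φ x y) (D φ x v) := fun y => rfl
  have hp2 := parts hη v ℓ.contDiff
  have h6 : ∫ y, η y * fderiv ℝ ℓ y v = nsq (D φ x v) := by
    have : ∀ y, η y * fderiv ℝ ℓ y v = nsq (D φ x v) * η y := by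
      intro y
      rw [ContinuousLinearMap.fderiv, hℓa, ip_self, mul_comm]
    simp only [this]
    rw [integral_const_mul, hη.integral, mul_one]
  have h7 : ∫ y, fderiv ℝ η y v * ℓ y = -nsq (D φ x v) := by
    linarith
  have hvn := norm_le_one v hv
  have hdiff : |(∫ y, fderiv ℝ η y v * g y) - ∫ y, fderiv ℝ η y v * (-(r ^ 2) * ℓ y)| ≤
      ε * Λ * r ^ 2 * (3 / 2 * ∫ y, ‖fderiv ℝ η y‖ * (nsq y + 1)) := by
    have c1 : Continuous (fun y : R2 n => -(r ^ 2) * ℓ y) := continuous_const.mul ℓ.continuous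
    rw [← integral_sub (int_fd hη v hgs.continuous) (int_fd hη v c1)]
    have c2 : Continuous (fun y : R2 n => nsq y + 1) := nsq_cont.add continuous_const
    rw [← integral_const_mul, ← integral_const_mul]
    rw [← Real.norm_eq_abs]
    refine (norm_integral_le_integral_norm _).trans ?_
    refine integral_mono_of_nonneg (Filter.Eventually.of_forall fun y => norm_nonneg _)
      (((int_nfd hη c2).const_mul _).const_mul _) (Filter.Eventually.of_forall fun y => ?_)
    simp only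
    by_cases hy0 : fderiv ℝ η y = 0
    · simp [hy0]
    have hy1 : ‖y‖ ≤ 1 := by
      have h8 : y ∈ tsupport η := support_fderiv_subset ℝ hy0
      have h9 : tsupport η ⊆ Metric.closedBall 0 1 :=
        closure_minimal (hsup.trans Metric.ball_subset_closedBall) Metric.isClosed_closedBall
      simpa using h9 h8
    have hny : ‖-(r • y)‖ ≤ r := by
      rw [norm_neg, norm_smul, Real.norm_of_nonneg hr.le]
      calc r * ‖y‖ ≤ r * 1 := mul_le_mul_of_nonneg_left hy1 hr.le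
        _ = r := mul_one r
    have hnv : ‖r • v‖ ≤ r := by
      rw [norm_smul, Real.norm_of_nonneg hr.le]
      calc r * ‖v‖ ≤ r * 1 := mul_le_mul_of_nonneg_left hvn hr.le
        _ = r := mul_one r
    have hpol := polarLoc φ hΛ hε h1 h2 hr.le hrR x (-(r • y)) (r • v) hny hnv
    have d1 : D φ x (-(r • y)) = -(r • D φ x y) := by
      unfold D
      rw [map_neg, map_smul]
    have d2 : D φ x (r • v) = r • D φ x v := by
      unfold D
      rw [map_smul]
    rw [← hb, d1, d2, nsq_neg, nsq_smul, nsq_smul] at hpol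
    have e1 : ip (-(r • D φ x y)) (r • D φ x v) = -(r ^ 2) * ℓ y := by
      rw [← neg_smul, ip_smul_left, ip_smul_right, hℓa]
      ring
    rw [e1, ← sub_eq_add_neg] at hpol
    rw [← mul_sub, norm_mul, Real.norm_eq_abs (g y - _)]
    have e2 : ‖fderiv ℝ η y v‖ ≤ ‖fderiv ℝ η y‖ := by
      calc ‖fderiv ℝ η y v‖ ≤ ‖fderiv ℝ η y‖ * ‖v‖ := ContinuousLinearMap.le_opNorm _ _
        _ ≤ ‖fderiv ℝ η y‖ * 1 := mul_le_mul_of_nonneg_left hvn (norm_nonneg _)
        _ = _ := mul_one _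
    have e3 : 3 / 2 * ε * (r ^ 2 * nsq (D φ x y) + r ^ 2 * nsq (D φ x v)) ≤
        3 / 2 * ε * (r ^ 2 * (Λ * nsq y) + r ^ 2 * (Λ * 1)) := by
      have f1 := h1 x y
      have f2 := h1 x v
      rw [hv] at f2
      refine mul_le_mul_of_nonneg_left ?_ (by positivity)
      exact add_le_add (mul_le_mul_of_nonneg_left f1 (sq_nonneg r))
        (mul_le_mul_of_nonneg_left f2 (sq_nonneg r))
    calc ‖fderiv ℝ η y v‖ * |g y - -(r ^ 2) * ℓ y|
        ≤ ‖fderiv ℝ η y‖ * (3 / 2 * ε * (r ^ 2 * (Λ * nsq y) + r ^ 2 * (Λ * 1))) :=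
          mul_le_mul e2 (hpol.trans e3) (abs_nonneg _) (norm_nonneg _)
      _ = _ := by ring
  have h8 : ∫ y, fderiv ℝ η y v * (-(r ^ 2) * ℓ y) = r ^ 2 * nsq (D φ x v) := by
    have : ∀ y, fderiv ℝ η y v * (-(r ^ 2) * ℓ y) = -(r ^ 2) * (fderiv ℝ η y v * ℓ y) :=
      fun y => by ring
    simp only [this]
    rw [integral_const_mul, h7]
    ring
  rw [h8, abs_le] at hdiff
  have h9 : r * (r * (nsq (D φ x v) -
      ε * Λ * (3 / 2 * ∫ y, ‖fderiv ℝ η y‖ * (nsq y + 1)))) ≤ r * ip (MD η φ r x v) b := by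
    have e : r * ip (MD η φ r x v) b = ∫ y, fderiv ℝ η y v * g y := by linarith
    rw [e]
    nlinarith [hdiff.1]
  exact le_of_mul_le_mul_left h9 hr

theorem small_one (hη : Moll η) (hsup : Function.support η ⊆ Metric.ball 0 1)
    (φ : SympCt n) {Λ ε θ R r : ℝ} (hΛ : 0 < Λ) (hε : 0 ≤ ε)
    (hε2 : 2 * ε * Λ * (1 + 3 / 2 * ∫ y, ‖fderiv ℝ η y‖ * (nsq y + 1)) ≤ θ)
    (h1 : ∀ x v, nsq (D φ x v) ≤ Λ * nsq v)
    (h2 : ∀ x y v, ‖x - y‖ ≤ R → nsq (D φ y v) ≤ (1 + ε) * nsq (D φ x v))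
    (hr : 0 < r) (hrR : r * (1 + 2 * Λ * (2 * n + 1)) ≤ R) (x v : R2 n)
    (hv : nsq v = 1) :
    ∫ y, η y * nsq (D φ (x - r • y) v - MD η φ r x v) ≤ θ := by
  have hlow := main_lower hη hsup φ hΛ hε h1 h2 hr hrR x v hv
  have hrR' : r ≤ R := by
    refine le_trans ?_ hrR
    have : 0 ≤ r * (2 * Λ * (2 * n + 1)) := by positivity
    linarith
  set b := φ.toEquiv (x + r • v) - φ.toEquiv x with hb
  set M := MD η φ r x v with hM
  set C := 3 / 2 * ∫ y, ‖fderiv ℝ η y‖ * (nsq y + 1) with hC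
  have hvn := norm_le_one v hv
  have hnv : ‖x + r • v - x‖ ≤ r := by
    rw [add_sub_cancel_left, norm_smul, Real.norm_of_nonneg hr.le]
    calc r * ‖v‖ ≤ r * 1 := mul_le_mul_of_nonneg_left hvn hr.le
      _ = r := mul_one r
  have hb2 : nsq b ≤ (1 + ε) * (r ^ 2 * nsq (D φ x v)) := by
    have k := keyLoc φ hΛ hε h1 h2 hr.le hrR x (x + r • v) x hnv
      (by rw [sub_self, norm_zero]; exact hr.le)
    rw [add_sub_cancel_left] at k
    have d2 : D φ x (r • v) = r • D φ x v := by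
      unfold D
      rw [map_smul]
    rw [← hb, d2, nsq_smul, abs_le] at k
    linarith [k.2]
  -- lower bound for `nsq M`
  have hM2 : nsq (D φ x v) - ε * nsq (D φ x v) - 2 * (ε * Λ * C) ≤ nsq M := by
    have h3 := nsq_nonneg (r • M - b)
    rw [nsq_sub, nsq_smul, ip_smul_left] at h3
    have h4 : r * (r * (nsq (D φ x v) - ε * Λ * C)) ≤ r * ip M b :=
      mul_le_mul_of_nonneg_left hlow hr.le
    have h5 : r ^ 2 * (nsq (D φ x v) - ε * nsq (D φ x v) - 2 * (ε * Λ * C)) ≤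
        r ^ 2 * nsq M := by nlinarith
    exact le_of_mul_le_mul_left h5 (by positivity)
  have e1 : ∀ y, η y * nsq (D φ (x - r • y) v - M) =
      η y * nsq (D φ (x - r • y) v) - 2 * (η y * ip (D φ (x - r • y) v) M) + nsq M * η y := by
    intro y
    rw [nsq_sub]
    ring
  have hcA : Continuous (fun y : R2 n => nsq (D φ (x - r • y) v)) :=
    nsq_cont.comp (cont_arg φ r x v)
  have hcB : Continuous (fun y : R2 n => ip (D φ (x - r • y) v) M) :=
    (ipL M).continuous.comp (cont_arg φ r x v)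
  have i1 := int_mul hη hcA
  have i2 := int_mul hη hcB
  have i3 : Integrable η := hη.smooth.continuous.integrable_of_hasCompactSupport hη.cpt
  simp only [e1]
  have i12 : Integrable (fun y : R2 n => η y * nsq (D φ (x - r • y) v) -
      2 * (η y * ip (D φ (x - r • y) v) M)) := i1.sub (i2.const_mul 2)
  have e5 : ∫ y, (η y * nsq (D φ (x - r • y) v) - 2 * (η y * ip (D φ (x - r • y) v) M) +
      nsq M * η y) = (∫ y, η y * nsq (D φ (x - r • y) v)) - 2 * nsq M + nsq M := by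
    rw [integral_add i12 (i3.const_mul _), integral_sub i1 (i2.const_mul 2),
      integral_const_mul, integral_const_mul, hη.integral, ← ip_MD hη, ← hM, ip_self, mul_one]
  rw [e5]
  have h6 : ∫ y, η y * nsq (D φ (x - r • y) v) ≤ (1 + ε) * nsq (D φ x v) := by
    calc ∫ y, η y * nsq (D φ (x - r • y) v) ≤ ∫ y, ((1 + ε) * nsq (D φ x v)) * η y := by
          refine integral_mono i1 (i3.const_mul _) fun y => ?_
          simp only
          by_cases hy0 : η y = 0
          · simp [hy0]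
          have hy1 : ‖y‖ ≤ 1 := by
            have := hsup (Function.mem_support.2 hy0)
            rw [mem_ball_zero_iff] at this
            exact this.le
          have := h2 x (x - r • y) v (by
            rw [sub_sub_cancel, norm_smul, Real.norm_of_nonneg hr.le]
            calc r * ‖y‖ ≤ r * 1 := mul_le_mul_of_nonneg_left hy1 hr.le
              _ ≤ R := by rw [mul_one]; exact hrR')
          rw [mul_comm ((1 + ε) * nsq (D φ x v))]
          exact mul_le_mul_of_nonneg_left this (hη.nonneg y)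
      _ = (1 + ε) * nsq (D φ x v) := by rw [integral_const_mul, hη.integral, mul_one]
  have h7 := h1 x v
  rw [hv, mul_one] at h7
  nlinarith [mul_le_mul_of_nonneg_left h7 hε]

theorem varLe (hη : Moll η) (hsup : Function.support η ⊆ Metric.ball 0 1)
    (φ : SympCt n) {Λ ε θ R : ℝ} (hΛ : 0 < Λ) (hε : 0 ≤ ε)
    (hε2 : 2 * ε * Λ * (1 + 3 / 2 * ∫ y, ‖fderiv ℝ η y‖ * (nsq y + 1)) ≤ θ) (hθ : 0 ≤ θ)
    (h1 : ∀ x v, nsq (D φ x v) ≤ Λ * nsq v)
    (h2 : ∀ x y v, ‖x - y‖ ≤ R → nsq (D φ y v) ≤ (1 + ε) * nsq (D φ x v)) :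
    VarLe η θ ((1 + 2 * Λ * (2 * n + 1))⁻¹ * R) φ := by
  intro r hr hrR x v
  have hk : (0 : ℝ) < 1 + 2 * Λ * (2 * n + 1) := by positivity
  rcases hr.lt_or_eq with hr | hr
  · have hrR2 : r * (1 + 2 * Λ * (2 * n + 1)) ≤ R := by
      have h3 := mul_le_mul_of_nonneg_right hrR hk.le
      have h4 : (1 + 2 * Λ * (2 * n + 1))⁻¹ * R * (1 + 2 * Λ * (2 * n + 1)) = R := by
        rw [mul_comm _ R, mul_assoc R, inv_mul_cancel₀ hk.ne', mul_one]
      rwa [h4] at h3
    rcases (nsq_nonneg v).lt_or_eq with hv0 | hv0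
    · set c := Real.sqrt (nsq v) with hc
      have hc0 : 0 < c := Real.sqrt_pos.2 hv0
      have hc2 : c ^ 2 = nsq v := Real.sq_sqrt hv0.le
      set u := c⁻¹ • v with hu
      have huv : v = c • u := by
        rw [hu, smul_smul, mul_inv_cancel₀ hc0.ne', one_smul]
      have hu1 : nsq u = 1 := by
        rw [hu, nsq_smul, ← hc2]
        field_simp
      have h3 := small_one hη hsup φ hΛ hε hε2 h1 h2 hr hrR2 x u hu1
      have e1 : ∀ z, D φ z v = c • D φ z u := by
        intro z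
        unfold D
        rw [huv, map_smul]
      have e2 : MD η φ r x v = c • MD η φ r x u := by
        unfold MD
        rw [← integral_smul]
        refine integral_congr_ae (Filter.Eventually.of_forall fun y => ?_)
        simp only [e1]
        rw [smul_comm]
      have e3 : ∀ y, η y * nsq (D φ (x - r • y) v - MD η φ r x v) =
          c ^ 2 * (η y * nsq (D φ (x - r • y) u - MD η φ r x u)) := by
        intro y
        rw [e1, e2, ← smul_sub, nsq_smul]
        ring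
      simp only [e3]
      rw [integral_const_mul, ← hc2, mul_comm θ]
      exact mul_le_mul_of_nonneg_left h3 (sq_nonneg c)
    · have hvz : v = 0 := by
        by_contra h10
        exact (nsq_pos v h10).ne hv0
      subst hvz
      have e1 : ∀ z, D φ z (0 : R2 n) = 0 := fun z => map_zero _
      have e2 : MD η φ r x 0 = 0 := by
        unfold MD
        simp only [e1, smul_zero, integral_zero]
      have e3 : ∀ y, η y * nsq (D φ (x - r • y) (0 : R2 n) - MD η φ r x 0) = 0 := by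
        intro y
        rw [e1, e2, sub_self, ← hv0, mul_zero]
      simp only [e3]
      rw [← hv0]
      simp
  · subst hr
    have e1 : MD η φ 0 x v = D φ x v := by
      unfold MD
      simp only [zero_smul, sub_zero]
      rw [integral_smul_const, hη.integral, one_smul]
    have e2 : ∀ y : R2 n, η y * nsq (D φ (x - (0 : ℝ) • y) v - MD η φ 0 x v) = 0 := by
      intro y
      rw [e1, zero_smul, sub_zero, sub_self]
      have : nsq (0 : R2 n) = 0 := by
        unfold nsq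
        simp
      rw [this, mul_zero]
    simp only [e2]
    simpa using mul_nonneg hθ (nsq_nonneg v)

theorem exists_moll_ball (n : ℕ) : ∃ η : R2 n → ℝ, Moll η ∧
    Function.support η ⊆ Metric.ball 0 1 := by
  let f : ContDiffBump (0 : R2 n) := ⟨1 / 4, 1 / 2, by norm_num, by norm_num⟩
  refine ⟨f.normed volume, ⟨f.contDiff_normed, f.hasCompactSupport_normed,
    f.nonneg_normed, f.integral_normed⟩, ?_⟩
  rw [f.support_normed_eq]
  exact Metric.ball_subset_ball (by norm_num [f])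

end main

end NearLoc

theorem nearloc (n : ℕ) : S_NEARLOC n := by
  intro Λ θ hΛ hθ
  obtain ⟨η, hη, hsup⟩ := NearLoc.exists_moll_ball n
  set C := 3 / 2 * ∫ y, ‖fderiv ℝ η y‖ * (nsq y + 1) with hC
  have hC0 : 0 ≤ C := by
    refine mul_nonneg (by norm_num) (integral_nonneg fun y => ?_)
    exact mul_nonneg (norm_nonneg _) (add_nonneg (Near.nsq_nonneg y) zero_le_one)
  refine ⟨θ / (2 * Λ * (1 + C)), (1 + 2 * Λ * (2 * n + 1))⁻¹, η, by positivity, by positivity,
    hη, hsup, fun φ R h1 h2 => NearLoc.varLe hη hsup φ hΛ (by positivity) ?_ hθ.le h1 h2⟩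
  rw [← hC]
  apply le_of_eq
  field_simp

end Pool.Agent.W5h49.EC
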