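import Mathlib
import Pool.Agent.W5h49.EC.Var
import Pool.Agent.W5h49.EC.Defs2

set_option autoImplicit false

open scoped ContDiff Topology
open MeasureTheory

namespace Pool.Agent.W5h49.EC

open Pool.Agent.W71.EC

variable {n : ℕ}

/-- the variance identity, quantitative form -/
theorem var2 (n : ℕ) : S_VAR2 n := by
  intro φ η hη θ R hs r hr hrR x v
  have hηc : Continuous η := hη.smooth.continuous
  set M := MD η φ r x v with hM
  set N := MD η φ r x (J v) with hN
  have ca := continuous_D φ r x v
  have cb := continuous_D φ r x (J v)
  -- integrability of `η` times a continuous function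
  have hint : ∀ f : R2 n → ℝ, Continuous f → Integrable (fun y => η y * f y) := fun f hf =>
    (hηc.mul hf).integrable_of_hasCompactSupport hη.cpt.mul_right
  have hinta : Integrable (fun y => η y • D φ (x - r • y) v) :=
    (hηc.smul ca).integrable_of_hasCompactSupport hη.cpt.smul_right
  have hintb : Integrable (fun y => η y • D φ (x - r • y) (J v)) :=
    (hηc.smul cb).integrable_of_hasCompactSupport hη.cpt.smul_right
  have h1 : ∫ y, η y * omega (D φ (x - r • y) v) N = omega M N := by
    have := (omL N).integral_comp_comm hinta
    simp only [omL_apply, omega_smul_left] at this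
    exact this
  have h2 : ∫ y, η y * omega M (D φ (x - r • y) (J v)) = omega M N := by
    have := (omR M).integral_comp_comm hintb
    simp only [omR_apply, omega_smul_right] at this
    exact this
  have h3 : ∀ y, η y * omega (D φ (x - r • y) v - M) (D φ (x - r • y) (J v) - N) =
      η y * nsq v - η y * omega (D φ (x - r • y) v) N - η y * omega M (D φ (x - r • y) (J v)) +
        η y * omega M N := by
    intro y
    have : omega (D φ (x - r • y) v) (D φ (x - r • y) (J v)) = nsq v := by
      unfold D
      rw [φ.symplectic, omega_J]
    rw [omega_sub_left, omega_sub_right, omega_sub_right, this]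
    ring
  have h4 : ∫ y, η y * omega (D φ (x - r • y) v - M) (D φ (x - r • y) (J v) - N) =
      nsq v - omega M N := by
    simp_rw [h3]
    rw [integral_add, integral_sub, integral_sub, h1, h2, integral_mul_const, integral_mul_const,
      hη.integral]
    · ring
    · exact hint _ continuous_const
    · exact hint _ (continuous_omega ca continuous_const)
    · exact (hint _ continuous_const).sub (hint _ (continuous_omega ca continuous_const))
    · exact hint _ (continuous_omega continuous_const cb)
    · exact ((hint _ continuous_const).sub (hint _ (continuous_omega ca continuous_const))).sub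
        (hint _ (continuous_omega continuous_const cb))
    · exact hint _ continuous_const
  have ina : Integrable fun y => η y * nsq (D φ (x - r • y) v - M) :=
    hint _ (continuous_nsq (ca.sub continuous_const))
  have inb : Integrable fun y => η y * nsq (D φ (x - r • y) (J v) - N) :=
    hint _ (continuous_nsq (cb.sub continuous_const))
  have h5 : ∫ y, η y * omega (D φ (x - r • y) v - M) (D φ (x - r • y) (J v) - N) ≤
      ∫ y, (1 / 2 : ℝ) * (η y * nsq (D φ (x - r • y) v - M) +
        η y * nsq (D φ (x - r • y) (J v) - N)) := by
    refine integral_mono (hint _ (continuous_omega (ca.sub continuous_const)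
      (cb.sub continuous_const))) ((ina.add inb).const_mul _) fun y => ?_
    have := mul_le_mul_of_nonneg_left
      (omega_le (D φ (x - r • y) v - M) (D φ (x - r • y) (J v) - N)) (hη.nonneg y)
    calc _ ≤ _ := this
      _ = _ := by ring
  rw [integral_const_mul, integral_add ina inb, h4] at h5
  have h6 := hs r hr hrR x v
  have h7 := hs r hr hrR x (J v)
  rw [nsq_J] at h7
  linarith

end Pool.Agent.W5h49.EC
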