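import Mathlib
import Pool.Agent.W5h49.EC.Main3
import Pool.Agent.W5h49.EC.Mol2
import Pool.Agent.W5h49.EC.Var2
import Pool.Agent.W5h49.EC.Cube2
import Pool.Agent.W5h49.EC.Diff
import Pool.Agent.W5h49.EC.Code
import Pool.Agent.W5h49.EC.NearLoc
import Pool.Agent.W5h49.EC.Mol

set_option autoImplicit false

open scoped ContDiff Topology
open MeasureTheory

namespace Pool.Agent.W5h49.EC

open Pool.Agent.W71.EC

variable {n : ℕ}

/-- averages are at most upper bounds -/
theorem avg_le {f : R2 n → ℝ} (hf : Continuous f) {M : ℝ} (hM : 0 ≤ M) (h : ∀ y, f y ≤ M)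
    (x : R2 n) (R : ℝ) : ⨍ y in Metric.ball x R, f y ≤ M := by
  rw [setAverage_eq, smul_eq_mul]
  have h1 : ∫ y in Metric.ball x R, f y ≤ ∫ y in Metric.ball x R, M := by
    refine setIntegral_mono ?_ ?_ h
    · exact (hf.continuousOn.integrableOn_compact (isCompact_closedBall x R)).mono_set
        Metric.ball_subset_closedBall
    · exact integrableOn_const (by exact measure_ball_lt_top.ne)
  rw [setIntegral_const, smul_eq_mul] at h1
  by_cases h0 : volume.real (Metric.ball x R) = 0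
  · rw [h0, inv_zero, zero_mul]
    exact hM
  · have h2 : 0 < volume.real (Metric.ball x R) := lt_of_le_of_ne measureReal_nonneg (Ne.symm h0)
    calc (volume.real (Metric.ball x R))⁻¹ * ∫ y in Metric.ball x R, f y
        ≤ (volume.real (Metric.ball x R))⁻¹ * (volume.real (Metric.ball x R) * M) :=
          mul_le_mul_of_nonneg_left h1 (by positivity)
      _ = M := by field_simp

theorem avg_const {E : Type*} [NormedAddCommGroup E] [NormedSpace ℝ E] [CompleteSpace E] (a : E)
    (x : R2 n) {R : ℝ} (hR : 0 < R) : ⨍ _y in Metric.ball x R, a = a := by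
  rw [setAverage_const]
  · exact (Metric.measure_ball_pos volume x hR).ne'
  · exact measure_ball_lt_top.ne

/-- elements whose directional derivatives have small mean oscillation at all scales -/
theorem all_scales {θ : ℝ} (hθ : θ < 1) (φ : SympCt n) (h : ∀ R : ℝ, 0 < R → OscLe θ R φ) :
    Joined φ one := by
  obtain ⟨c, hc, key⟩ := two_maps (mol2 n) (var2 n) (cube2 n) (diff n) hθ
  obtain ⟨K, hK, hφK⟩ := φ.compact_support
  have hcont : Continuous (fun y => ‖φ.toEquiv y - (one : SympCt n).toEquiv y‖) := by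
    have h1 : Continuous φ.toEquiv := φ.smooth.continuous
    exact (h1.sub continuous_id).norm
  obtain ⟨M, hM⟩ := hK.bddAbove_image hcont.continuousOn
  have hM' : ∀ y, ‖φ.toEquiv y - (one : SympCt n).toEquiv y‖ ≤ max M 0 := by
    intro y
    by_cases hy : y ∈ K
    · exact (hM ⟨y, hy, rfl⟩).trans (le_max_left _ _)
    · have : φ.toEquiv y - (one : SympCt n).toEquiv y = 0 := by
        rw [hφK y hy]
        exact sub_self y
      rw [this, norm_zero]
      exact le_max_right _ _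
  set R : ℝ := max M 0 / c + 1 with hR
  have hR0 : 0 < R := by positivity
  refine key R hR0 φ one (h R hR0) ?_ ?_
  · intro r hr hrR x v
    have h1 := h R hR0 r hr hrR x v
    have h2 : 0 ≤ ⨍ y in Metric.ball x r, nsq (D φ y v - ⨍ z in Metric.ball x r, D φ z v) := by
      rw [setAverage_eq]
      exact smul_nonneg (by positivity) (integral_nonneg fun y => nsqNN _)
    have h3 : ∀ y, D (one : SympCt n) y v = v := fun y => one_fderiv y v
    have h4 : (fun y => nsq (D (one : SympCt n) y v - ⨍ z in Metric.ball x r,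
        D (one : SympCt n) z v)) = fun _ => (0 : ℝ) := by
      funext y
      simp only [h3]
      rw [avg_const v x hr, sub_self]
      simp [nsq]
    rw [h4, avg_const (0 : ℝ) x hr]
    linarith
  · intro x
    refine (avg_le hcont (le_max_right _ _) hM' x R).trans ?_
    rw [hR, mul_add, mul_div_cancel₀ _ hc.ne']
    linarith

/-- local near isometries -/
theorem metric_maps (n : ℕ) (Λ : ℝ) (hΛ : 0 < Λ) : ∃ ε c : ℝ, 0 < ε ∧ 0 < c ∧
    ∀ (R : ℝ), 0 < R → ∀ φ ψ : SympCt n,
      (∀ x v, nsq (D φ x v) ≤ Λ * nsq v) → (∀ x v, nsq (D ψ x v) ≤ Λ * nsq v) →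
      (∀ x y v, ‖x - y‖ ≤ R → nsq (D φ y v) ≤ (1 + ε) * nsq (D φ x v)) →
      (∀ x y v, ‖x - y‖ ≤ R → nsq (D ψ y v) ≤ (1 + ε) * nsq (D ψ x v)) →
      (∀ x, ‖φ.toEquiv x - ψ.toEquiv x‖ ≤ c * R) → Joined φ ψ := by
  obtain ⟨ε, c, η, hε, hc, hη, hs, hloc⟩ := nearloc n Λ (1 / 2) hΛ (by norm_num)
  obtain ⟨C, hC0, hdiff⟩ := diff n η hη hs
  refine ⟨ε, c / C, hε, div_pos hc hC0, ?_⟩
  intro R hR φ ψ hφΛ hψΛ hφ hψ hd
  have hcR : 0 < c * R := mul_pos hc hR
  refine kernel (mol2 n) (var2 n) hη (θ := 1 / 2) (κ := 1) hcR (by norm_num) (by norm_num) φ ψ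
    (hloc φ R hφΛ hφ) (hloc ψ R hψΛ hψ) ?_
  intro x v
  refine (hdiff φ ψ (c * R) hcR x v).trans ?_
  refine mul_le_mul_of_nonneg_right ?_ (nsqNN v)
  have hcont : Continuous (fun y => ‖φ.toEquiv y - ψ.toEquiv y‖) :=
    (φ.smooth.continuous.sub ψ.smooth.continuous).norm
  have h1 := avg_le hcont (by positivity) hd x (c * R)
  have h0 : 0 ≤ ⨍ y in Metric.ball x (c * R), ‖φ.toEquiv y - ψ.toEquiv y‖ := by
    rw [setAverage_eq]
    exact smul_nonneg (by positivity) (integral_nonneg fun y => norm_nonneg _)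
  have h2 : C / (c * R) * ⨍ y in Metric.ball x (c * R), ‖φ.toEquiv y - ψ.toEquiv y‖ ≤ 1 := by
    calc _ ≤ C / (c * R) * (c / C * R) := mul_le_mul_of_nonneg_left h1 (by positivity)
      _ = 1 := by
          field_simp
  have h3 : 0 ≤ C / (c * R) * ⨍ y in Metric.ball x (c * R), ‖φ.toEquiv y - ψ.toEquiv y‖ :=
    mul_nonneg (by positivity) h0
  exact pow_le_one₀ h3 h2

theorem joined_comp_right {a b : SympCt n} (h : Joined a b) (ψ : SympCt n) :
    Joined (comp a ψ) (comp b ψ) := by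
  rw [joined_iff] at h ⊢
  induction h with
  | refl => exact Relation.ReflTransGen.refl
  | tail _ hbc ih =>
    refine ih.tail fun x v hv c hc => ?_
    rw [comp_fderiv, comp_fderiv]
    exact hbc _ _ (fderiv_ne_zero ψ x hv) c hc

/-- near isometries are isotopic to the identity -/
theorem near_one (n : ℕ) : ∃ ε : ℝ, 0 < ε ∧ ∀ χ : SympCt n,
    (∀ x v, nsq (D χ x v) ≤ (1 + ε) * nsq v) → Joined χ one := by
  obtain ⟨ε', c, hε', hc, key⟩ := metric_maps n 2 (by norm_num)
  set ε : ℝ := min 1 (ε' / 3) with hε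
  have hε0 : 0 < ε := lt_min one_pos (by positivity)
  have hε1 : ε ≤ 1 := min_le_left _ _
  have hε3 : 3 * ε ≤ ε' := by
    have := min_le_right 1 (ε' / 3)
    linarith
  refine ⟨ε, hε0, fun χ h => ?_⟩
  obtain ⟨K, hK, hχK⟩ := χ.compact_support
  have hcont : Continuous (fun y => ‖χ.toEquiv y - (one : SympCt n).toEquiv y‖) := by
    have h1 : Continuous χ.toEquiv := χ.smooth.continuous
    exact (h1.sub continuous_id).norm
  obtain ⟨M, hM⟩ := hK.bddAbove_image hcont.continuousOn
  have hM' : ∀ y, ‖χ.toEquiv y - (one : SympCt n).toEquiv y‖ ≤ max M 0 := by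
    intro y
    by_cases hy : y ∈ K
    · exact (hM ⟨y, hy, rfl⟩).trans (le_max_left _ _)
    · have : χ.toEquiv y - (one : SympCt n).toEquiv y = 0 := by
        rw [hχK y hy]
        exact sub_self y
      rw [this, norm_zero]
      exact le_max_right _ _
  have hD1 : ∀ y v, D (one : SympCt n) y v = v := fun y v => one_fderiv y v
  have hlow : ∀ x v, nsq v ≤ (1 + ε) * nsq (D χ x v) := fun x v => Near.inv_bound χ h x v
  refine key (max M 0 / c + 1) (by positivity) χ one ?_ ?_ ?_ ?_ ?_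
  · intro x v
    refine (h x v).trans (mul_le_mul_of_nonneg_right (by linarith) (nsqNN v))
  · intro x v
    rw [hD1]
    linarith [nsqNN v]
  · intro x y v _
    have h1 := h y v
    have h2 := hlow x v
    have h3 := nsqNN (D χ x v)
    calc nsq (D χ y v) ≤ (1 + ε) * nsq v := h1
      _ ≤ (1 + ε) * ((1 + ε) * nsq (D χ x v)) := mul_le_mul_of_nonneg_left h2 (by linarith)
      _ = (1 + (2 * ε + ε ^ 2)) * nsq (D χ x v) := by ring
      _ ≤ (1 + ε') * nsq (D χ x v) := by
          refine mul_le_mul_of_nonneg_right ?_ h3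
          nlinarith
  · intro x y v _
    rw [hD1, hD1]
    nlinarith [nsqNN v]
  · intro x
    refine (hM' x).trans ?_
    rw [mul_add, mul_div_cancel₀ _ hc.ne']
    linarith

/-- near isometries -/
theorem near_maps (n : ℕ) : ∃ ε : ℝ, 0 < ε ∧ ∀ φ ψ : SympCt n,
    (∀ x v, nsq (D φ x v) ≤ (1 + ε) * nsq (D ψ x v)) → Joined φ ψ := by
  obtain ⟨ε, hε, hnear⟩ := near_one n
  refine ⟨ε, hε, fun φ ψ h => ?_⟩
  have h1 : Joined (comp φ (inv ψ)) one := by
    refine hnear _ fun y w => ?_
    obtain ⟨x, rfl⟩ := ψ.toEquiv.surjective y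
    unfold D
    rw [comp_fderiv]
    have e5 := inv_left ψ.smooth ψ.smooth_symm (ψ.toEquiv x) w
    change nsq (fderiv ℝ φ.toEquiv (ψ.toEquiv.symm (ψ.toEquiv x))
      (fderiv ℝ ψ.toEquiv.symm (ψ.toEquiv x) w)) ≤ _
    rw [Equiv.symm_apply_apply] at e5 ⊢
    have h2 := h x (fderiv ℝ ψ.toEquiv.symm (ψ.toEquiv x) w)
    unfold D at h2
    rwa [e5] at h2
  have h2 := joined_comp_right h1 ψ
  rw [comp_inv_comp] at h2
  have h3 : comp one ψ = ψ := SympCt.ext' fun p => rfl
  rwa [h3] at h2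

end Pool.Agent.W5h49.EC
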