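import Mathlib
import Pool.Agent.W5h49.EC.Defs3

set_option autoImplicit false

open scoped ContDiff Topology
open Set

namespace Pool.Agent.W5h49.EC

open Pool.Agent.W71.EC Pool.Agent.W5h83.HG

variable {n : ℕ}

/-- the corrected maps are symplectic -/
theorem moser_sympl {F : ℝ × R2 n → R2 n} (hF : ContDiff ℝ ∞ F)
    (tame : ∀ z v, v ≠ 0 → 0 < omega (DFm F z v) (DFm F z (J v))) {Φ : ℝ → ℝ × R2 n → R2 n}
    (hΦ : ContDiff ℝ ∞ (fun q : ℝ × (ℝ × R2 n) => Φ q.1 q.2)) (hΦ0 : ∀ t x, Φ t (0, x) = x)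
    (hΦd : ∀ t s x, HasDerivAt (fun s => Φ t (s, x)) (Xf F (s, (t, Φ t (s, x)))) s)
    {t : ℝ} (ht : t ∈ Icc (0 : ℝ) 1) (s : ℝ)
    (hs : Real.smoothTransition s = 1 ∨
      ∀ p a b, omega (DFm F (t, p) a) (DFm F (t, p) b) = omega a b) (x u v : R2 n) :
    omega (fderiv ℝ (fun y => F (t, Φ t (s, y))) x u)
      (fderiv ℝ (fun y => F (t, Φ t (s, y))) x v) = omega u v := by
  have hΦt : ContDiff ℝ ∞ (Φ t) := hΦ.comp (contDiff_const.prodMk contDiff_id)
  have h1 : HasFDerivAt (fun y => F (t, y)) (DFm F (t, Φ t (s, x))) (Φ t (s, x)) := by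
    rw [← DFm_eq hF]
    have : ContDiff ℝ ∞ (fun y => F (t, y)) := hF.comp (contDiff_const.prodMk contDiff_id)
    exact ((this.differentiable (by simp)) _).hasFDerivAt
  have h2 : HasFDerivAt (fun y => Φ t (s, y)) (DFm (Φ t) (s, x)) x := by
    rw [← DFm_eq hΦt]
    have : ContDiff ℝ ∞ (fun y => Φ t (s, y)) := hΦt.comp (contDiff_const.prodMk contDiff_id)
    exact ((this.differentiable (by simp)) _).hasFDerivAt
  have h3 : HasFDerivAt (fun y => F (t, Φ t (s, y)))
      ((DFm F (t, Φ t (s, x))).comp (DFm (Φ t) (s, x))) x :=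
    HasFDerivAt.comp (g := fun y => F (t, y)) (f := fun y => Φ t (s, y)) x h1 h2
  rw [h3.fderiv]
  simp only [ContinuousLinearMap.comp_apply]
  have h4 := moser_const hF tame hΦ hΦ0 hΦd ht s x u v
  rw [W_apply, W_apply, W_apply] at h4
  rcases hs with hs | hs
  · rw [hs] at h4
    simp only [sub_self, zero_mul, one_mul, zero_add] at h4
    exact h4
  · rw [hs] at h4 ⊢
    have h5 : omega (dd (Φ t) (iv u) (s, x)) (dd (Φ t) (iv v) (s, x)) = omega u v := by
      linarith
    exact h5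

/-- jointly smooth families with common support give homotopies -/
theorem homotopic_of_JS {C : Type} [TopologicalSpace C] {K : Set (R2 n)} (hK : IsCompact K)
    (H : unitInterval × C → SympCt n) (hJ : JS H) (hs : ∀ q, H q ∈ supportedIn K)
    (f g : C(C, SympCt n)) (h0 : ∀ c, H (0, c) = f c) (h1 : ∀ c, H (1, c) = g c) (A : Set C)
    (hA : ∀ t, ∀ c ∈ A, H (t, c) = f c) : f.HomotopicRel g A :=
  ⟨⟨⟨⟨H, hJ.continuous K hK hs⟩, h0, h1⟩, hA⟩⟩

/-- **Moser's argument for families.** -/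
theorem moser_fam (hFlow : S_FLOWJC n) (hX : S_XJC n) (C : Type) [TopologicalSpace C]
    [CompactSpace C] (F : C → ℝ × R2 n → R2 n) (K : Set (R2 n)) (hF : ∀ p, ContDiff ℝ ∞ (F p))
    (hJ : ∀ k, JC k (R2 n) (fun (q : C × ℝ) (x : R2 n) => F q.1 (q.2, x))) (hK : IsCompact K)
    (h0 : ∀ p t x, x ∉ K → F p (t, x) = x)
    (tame₀ : ∀ p t x v, v ≠ 0 → 0 < omega (DF (F p) t x v) (DF (F p) t x (J v)))
    (f g : C(C, SympCt n)) (hf : ∀ p x, F p (0, x) = (f p).toEquiv x)
    (hg : ∀ p x, F p (1, x) = (g p).toEquiv x) :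
    f.HomotopicRel g {p | ∀ t x, F p (t, x) = x} := by
  have tame : ∀ p z v, v ≠ 0 → 0 < omega (DFm (F p) z v) (DFm (F p) z (J v)) := by
    rintro p ⟨t, x⟩ v hv
    rw [← DFm_eq (hF p)]
    exact tame₀ p t x v hv
  have hex := fun p => exists_flow (hF p) (tame p) hK (h0 p)
  choose Φ hΦ hΦ0 hΦd hΦb hΦc using hex
  have hb0 : ∀ p, Function.Bijective (fun x => F p (0, x)) := by
    intro p
    have : (fun x => F p (0, x)) = (f p).toEquiv := funext (hf p)
    rw [this]
    exact (f p).toEquiv.bijective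
  have hbF : ∀ p, ∀ t ∈ Icc (0 : ℝ) 1, Function.Bijective (fun x => F p (t, x)) := fun p =>
    bij (hF p) hK (h0 p) (fun z v h => A_inj (tame p z) v h) (hb0 p)
  -- joint smoothness of the flows
  have hXJ : ∀ k, JC k (R2 n) (fun (q : C × unitInterval) (z : ℝ × R2 n) =>
      Xf (F q.1) (z.1, ((q.2 : ℝ), z.2))) := fun k =>
    (hX C F hF hJ tame k).param (a := fun q : C × unitInterval => (q.1, (q.2 : ℝ)))
      (continuous_fst.prodMk (continuous_subtype_val.comp continuous_snd))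
  have hΦJ : ∀ k, JC k (R2 n) (fun (q : (C × unitInterval) × ℝ) (x : R2 n) =>
      Φ q.1.1 (q.1.2 : ℝ) (q.2, x)) :=
    hFlow (C × unitInterval) _ (Icc (0 : ℝ) 1 ×ˢ K) (isCompact_Icc.prod hK)
      (fun p z hz => Xf_out (hF p.1) hK (h0 p.1) _ fun h => hz ⟨h.1, h.2.2⟩) hXJ
      (fun q => Φ q.1 (q.2 : ℝ)) (fun p x => hΦ0 p.1 _ x) (fun p s x => hΦd p.1 _ s x)
  set fam : (C × unitInterval) × ℝ → R2 n → R2 n :=
    fun q x => F q.1.1 ((q.1.2 : ℝ), Φ q.1.1 (q.1.2 : ℝ) (q.2, x)) with hfam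
  have hfamJ : ∀ k, JC k (R2 n) fam := fun k =>
    JC.comp (f := fun (q : (C × unitInterval) × ℝ) (x : R2 n) => F q.1.1 ((q.1.2 : ℝ), x))
      ((hJ k).param (a := fun q : (C × unitInterval) × ℝ => (q.1.1, (q.1.2 : ℝ)))
        ((continuous_fst.comp continuous_fst).prodMk
          (continuous_subtype_val.comp (continuous_snd.comp continuous_fst)))) (hΦJ k)
  have hfams : ∀ q, ContDiff ℝ ∞ (fam q) := fun q =>
    (hF q.1.1).comp (contDiff_const.prodMk ((hΦ q.1.1).comp
      (contDiff_const.prodMk (contDiff_const.prodMk contDiff_id))))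
  have hfamb : ∀ q, Function.Bijective (fam q) := fun q =>
    (hbF q.1.1 _ q.1.2.2).comp (hΦb q.1.1 _ q.2)
  have hfam0 : ∀ q x, x ∉ K → fam q x = x := by
    intro q x hx
    simp only [hfam]
    rw [hΦc q.1.1 _ x hx, h0 q.1.1 _ x hx]
  have hsym : ∀ q : (C × unitInterval) × ℝ, (Real.smoothTransition q.2 = 1 ∨
      ∀ p a b, omega (DFm (F q.1.1) (((q.1.2 : ℝ)), p) a) (DFm (F q.1.1) (((q.1.2 : ℝ)), p) b)
        = omega a b) → ∀ x u v, omega (fderiv ℝ (fam q) x u) (fderiv ℝ (fam q) x v) =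
        omega u v := fun q hq x u v =>
    moser_sympl (hF q.1.1) (tame q.1.1) (hΦ q.1.1) (hΦ0 q.1.1) (hΦd q.1.1) q.1.2.2 q.2 hq x u v
  have hend : ∀ (χ : C(C, SympCt n)) (t : ℝ), (∀ p x, F p (t, x) = (χ p).toEquiv x) →
      ∀ c p a b, omega (DFm (F c) (t, p) a) (DFm (F c) (t, p) b) = omega a b := by
    intro χ t hχ c p a b
    rw [← DFm_eq (hF c)]
    unfold DF
    have : (fun y => F c (t, y)) = (χ c).toEquiv := funext (hχ c)
    rw [this]
    exact (χ c).symplectic _ a b
  -- constancy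
  have hconst : ∀ c : C, (∀ t x, F c (t, x) = x) → ∀ (t : unitInterval) (s : ℝ) (x : R2 n),
      fam ((c, t), s) x = x := by
    intro c hc t s x
    have hal : ∀ z, al (F c) z = 0 := by
      rintro ⟨r, y⟩
      have h1 : DFm (F c) (r, y) = ContinuousLinearMap.id ℝ (R2 n) := by
        rw [← DFm_eq (hF c)]
        unfold DF
        have h2 : (fun y => F c (r, y)) = id := funext (hc r)
        rw [h2, fderiv_id]
      unfold al
      rw [h1, hc]
      simp
    have hXf : ∀ q, Xf (F c) q = 0 := by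
      intro q
      unfold Xf
      rw [hal]
      simp
    have hd : ∀ r, HasDerivAt (fun r => Φ c (t : ℝ) (r, x)) 0 r := by
      intro r
      have := hΦd c (t : ℝ) r x
      rwa [hXf] at this
    have h3 := is_const_of_deriv_eq_zero (fun r => (hd r).differentiableAt)
      (fun r => (hd r).deriv) s 0
    simp only [hΦ0] at h3
    simp only [hfam]
    rw [h3, hc]
  -- the three homotopies
  let H0 : unitInterval × C → SympCt n := fun q =>
    mk (fam ((q.2, 0), (q.1 : ℝ))) (hfamb _) (hfams _)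
      (hsym _ (Or.inr (fun p a b => by
        have := hend f 0 hf q.2 p a b
        simpa using this))) K hK (hfam0 _)
  let H1 : unitInterval × C → SympCt n := fun q =>
    mk (fam ((q.2, 1), (q.1 : ℝ))) (hfamb _) (hfams _)
      (hsym _ (Or.inr (fun p a b => by
        have := hend g 1 hg q.2 p a b
        simpa using this))) K hK (hfam0 _)
  let Hm : unitInterval × C → SympCt n := fun q =>
    mk (fam ((q.2, q.1), (1 : ℝ))) (hfamb _) (hfams _)
      (hsym _ (Or.inl Real.smoothTransition.one)) K hK (hfam0 _)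
  have J0 : JS H0 := fun k => (hfamJ k).param (a := fun q : unitInterval × C =>
    ((q.2, (0 : unitInterval)), (q.1 : ℝ))) (by fun_prop)
  have J1 : JS H1 := fun k => (hfamJ k).param (a := fun q : unitInterval × C =>
    ((q.2, (1 : unitInterval)), (q.1 : ℝ))) (by fun_prop)
  have Jm : JS Hm := fun k => (hfamJ k).param (a := fun q : unitInterval × C =>
    ((q.2, q.1), (1 : ℝ))) (by fun_prop)
  have s0 : ∀ q, H0 q ∈ supportedIn K := fun q x hx => hfam0 _ x hx
  have s1 : ∀ q, H1 q ∈ supportedIn K := fun q x hx => hfam0 _ x hx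
  have sm : ∀ q, Hm q ∈ supportedIn K := fun q x hx => hfam0 _ x hx
  have cm : Continuous Hm := Jm.continuous K hK sm
  let θ0 : C(C, SympCt n) := ⟨fun c => Hm (0, c), cm.comp (continuous_const.prodMk continuous_id)⟩
  let θ1 : C(C, SympCt n) := ⟨fun c => Hm (1, c), cm.comp (continuous_const.prodMk continuous_id)⟩
  set A : Set C := {p | ∀ t x, F p (t, x) = x} with hAdef
  have hfA : ∀ c ∈ A, f c = Pool.Agent.W71.EC.one := fun c hc => SympCt.ext' fun x => by
    rw [← hf]
    exact hc 0 x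
  have hgA : ∀ c ∈ A, g c = Pool.Agent.W71.EC.one := fun c hc => SympCt.ext' fun x => by
    rw [← hg]
    exact hc 1 x
  have e1 : f.HomotopicRel θ0 A := by
    refine homotopic_of_JS hK H0 J0 s0 f θ0 (fun c => ?_) (fun c => ?_) A ?_
    · refine SympCt.ext' fun x => ?_
      change fam ((c, 0), ((0 : unitInterval) : ℝ)) x = _
      simp only [hfam, Icc.coe_zero]
      rw [hΦ0]
      exact hf c x
    · refine SympCt.ext' fun x => ?_
      change fam ((c, 0), ((1 : unitInterval) : ℝ)) x = fam ((c, 0), (1 : ℝ)) x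
      rw [Icc.coe_one]
    · intro t c hc
      rw [hfA c hc]
      exact SympCt.ext' fun x => hconst c hc _ _ x
  have e2 : θ0.HomotopicRel θ1 A := homotopic_of_JS hK Hm Jm sm θ0 θ1 (fun c => rfl)
    (fun c => rfl) A (fun t c hc => SympCt.ext' fun x =>
      (hconst c hc _ _ x).trans (hconst c hc _ _ x).symm)
  have e3 : g.HomotopicRel θ1 A := by
    refine homotopic_of_JS hK H1 J1 s1 g θ1 (fun c => ?_) (fun c => ?_) A ?_
    · refine SympCt.ext' fun x => ?_
      change fam ((c, 1), ((0 : unitInterval) : ℝ)) x = _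
      simp only [hfam, Icc.coe_zero, Icc.coe_one]
      rw [hΦ0]
      exact hg c x
    · refine SympCt.ext' fun x => ?_
      change fam ((c, 1), ((1 : unitInterval) : ℝ)) x = fam ((c, 1), (1 : ℝ)) x
      rw [Icc.coe_one]
    · intro t c hc
      rw [hgA c hc]
      exact SympCt.ext' fun x => hconst c hc _ _ x
  exact (e1.trans e2).trans e3.symm

end Pool.Agent.W5h49.EC
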