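import Mathlib
import Pool.Agent.W5h49.EC.MosFam
import Pool.Agent.W5h49.EC.Final
import Pool.Agent.W5h83.HG.Prod

set_option autoImplicit false

open scoped ContDiff Topology
open MeasureTheory

namespace Pool.Agent.W5h49.EC

open Pool.Agent.W71.EC Pool.Agent.W5h83.HG

variable {n : ℕ}

theorem rel_mono {C : Type} [TopologicalSpace C] {f g : C(C, SympCt n)} {A B : Set C}
    (h : f.HomotopicRel g B) (hAB : A ⊆ B) : f.HomotopicRel g A := by
  obtain ⟨H⟩ := h
  exact ⟨⟨H.toHomotopy, fun t x hx => H.prop' t x (hAB hx)⟩⟩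

theorem MD_one {η : R2 n → ℝ} (hη : Moll η) (r : ℝ) (x v : R2 n) :
    MD η (one : SympCt n) r x v = v := by
  unfold MD
  have h1 : ∀ y, D (one : SympCt n) y v = v := fun y => one_fderiv y v
  simp only [h1]
  rw [integral_smul_const, hη.integral, one_smul]

/-- a map with differential one which is the identity outside a compact set is the identity -/
theorem eq_id_of_fderiv {G : R2 n → R2 n} (hG : ContDiff ℝ ∞ G) {K : Set (R2 n)}
    (hK : IsCompact K) (h0 : ∀ x, x ∉ K → G x = x) (hd : ∀ x v, fderiv ℝ G x v = v) (x : R2 n) :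
    G x = x := by
  rcases subsingleton_or_nontrivial (R2 n) with h | h
  · exact Subsingleton.elim _ _
  · have hnc : NoncompactSpace (R2 n) := NormedSpace.noncompactSpace ℝ (R2 n)
    obtain ⟨y, hy⟩ : ∃ y, y ∉ K := by
      by_contra hcon
      push Not at hcon
      exact hK.ne_univ (Set.eq_univ_of_forall hcon)
    have hd' : ∀ z, fderiv ℝ (fun z => G z - z) z = 0 := by
      intro z
      have h1 : HasFDerivAt (fun z => G z - z) (fderiv ℝ G z - ContinuousLinearMap.id ℝ (R2 n)) z :=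
        ((hG.differentiable (by simp)) z).hasFDerivAt.sub (hasFDerivAt_id z)
      rw [h1.fderiv]
      refine ContinuousLinearMap.ext fun v => ?_
      simp [hd]
    have h2 := is_const_of_fderiv_eq_zero (𝕜 := ℝ) (f := fun z => G z - z)
      ((hG.sub contDiff_id).differentiable (by simp)) hd' x y
    simp only [h0 y hy, sub_self] at h2
    exact sub_eq_zero.1 h2

/-- the pointwise inequality -/
theorem tame_aux {θ κ c : ℝ} (hθ : θ < 1) (hκ : κ < 4 * (1 - θ)) (hc0 : 0 ≤ c) (hc1 : c ≤ 1)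
    {a a' b b' v : R2 n} (hv : v ≠ 0) (h1 : (1 - θ) * nsq v ≤ omega a a')
    (h2 : (1 - θ) * nsq v ≤ omega b b')
    (h : c = 0 ∨ c = 1 ∨ (nsq (a - b) ≤ κ * nsq v ∧ nsq (a' - b') ≤ κ * nsq v)) :
    0 < omega ((1 - c) • a + c • b) ((1 - c) • a' + c • b') := by
  rw [pencil]
  have hp := nsqPos hv
  have h3 : 0 < (1 - θ) * nsq v := mul_pos (by linarith) hp
  rcases h with h | h | ⟨h5, h6⟩
  · rw [h]
    linarith
  · rw [h]
    linarith
  · have h4 := omega_le (a - b) (a' - b')
    have h7 : omega (a - b) (a' - b') ≤ κ * nsq v := by linarith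
    have h8 : 0 ≤ κ * nsq v := (nsqNN _).trans h5
    have h9 : 0 ≤ c * (1 - c) := mul_nonneg hc0 (by linarith)
    have h10 : c * (1 - c) ≤ 1 / 4 := by nlinarith [sq_nonneg (c - 1 / 2)]
    have h11 : c * (1 - c) * omega (a - b) (a' - b') ≤ 1 / 4 * (κ * nsq v) := by
      calc _ ≤ c * (1 - c) * (κ * nsq v) := mul_le_mul_of_nonneg_left h7 h9
        _ ≤ 1 / 4 * (κ * nsq v) := mul_le_mul_of_nonneg_right h10 h8
    have h12 : κ * nsq v < 4 * (1 - θ) * nsq v := mul_lt_mul_of_pos_right hκ hp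
    have h13 : (1 - c) * ((1 - θ) * nsq v) ≤ (1 - c) * omega a a' :=
      mul_le_mul_of_nonneg_left h1 (by linarith)
    have h14 : c * ((1 - θ) * nsq v) ≤ c * omega b b' := mul_le_mul_of_nonneg_left h2 hc0
    nlinarith

/-- the assumptions still to be proved -/
structure Tasks (n : ℕ) : Prop where
  flow : S_FLOWJC n
  x : S_XJC n
  mol : S_MOLJC n

/-- **Kernel form of the theorem for families.** -/
theorem kernel_fam (T : Tasks n) {η : R2 n → ℝ} (hη : Moll η) {θ κ R : ℝ}
    (hR : 0 < R) (hθ : θ < 1) (hκ : κ < 4 * (1 - θ)) (C : Type) [TopologicalSpace C]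
    [CompactSpace C] (f g : C(C, SympCt n)) (hφ : ∀ p, VarLe η θ R (f p))
    (hψ : ∀ p, VarLe η θ R (g p))
    (hd : ∀ p, ∀ x v : R2 n, nsq (MD η (f p) R x v - MD η (g p) R x v) ≤ κ * nsq v)
    (A : Set C) (hA : ∀ p ∈ A, f p = one ∧ g p = one) : f.HomotopicRel g A := by
  obtain ⟨F, K, c, r, hF, hJ, hK, hF0, hF1, hF2, hr, hc, hcr, hDF⟩ := T.mol C f g η hη R hR
  have h := moser_fam T.flow T.x C F K hF hJ hK hF0 ?_ f g hF1 hF2
  · refine rel_mono h fun p hp t x => ?_
    obtain ⟨hfp, hgp⟩ := hA p hp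
    have hs : ContDiff ℝ ∞ (fun y => F p (t, y)) :=
      (hF p).comp (contDiff_const.prodMk contDiff_id)
    refine eq_id_of_fderiv hs hK (fun x hx => hF0 p t x hx) (fun x v => ?_) x
    have h1 := hDF p t x v
    rw [hfp, hgp, MD_one hη, ← add_smul] at h1
    unfold DF at h1
    rw [h1]
    rw [show (1 - c t + c t : ℝ) = 1 by ring, one_smul]
  · intro p t x v hv
    rw [hDF, hDF]
    refine tame_aux hθ hκ (hc t).1 (hc t).2 hv
      (var2 n (f p) η hη θ R (hφ p) (r t) (hr t).1 (hr t).2 x v)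
      (var2 n (g p) η hη θ R (hψ p) (r t) (hr t).1 (hr t).2 x v) ?_
    rcases hcr t with h | h | h
    · exact Or.inl h
    · exact Or.inr (Or.inl h)
    · refine Or.inr (Or.inr ?_)
      rw [h]
      refine ⟨hd p x v, ?_⟩
      have := hd p x (J v)
      rwa [nsq_J] at this

/-- two families -/
theorem two_maps_fam (T : Tasks n) {θ : ℝ} (hθ : θ < 1) : ∃ c : ℝ, 0 < c ∧
    ∀ (R : ℝ), 0 < R → ∀ (C : Type) [TopologicalSpace C] [CompactSpace C]
      (f g : C(C, SympCt n)), (∀ p, OscLe θ R (f p)) → (∀ p, OscLe θ R (g p)) →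
      (∀ p x, ⨍ y in Metric.ball x R, ‖(f p).toEquiv y - (g p).toEquiv y‖ ≤ c * R) →
      ∀ A : Set C, (∀ p ∈ A, f p = one ∧ g p = one) → f.HomotopicRel g A := by
  obtain ⟨η, θ', hη, hs, hθ', hcube⟩ := cube2 n θ hθ
  obtain ⟨C₀, hC0, hdiff⟩ := diff n η hη hs
  have h1 : 0 < 1 - θ' := by linarith
  refine ⟨Real.sqrt (1 - θ') / C₀, div_pos (Real.sqrt_pos.2 h1) hC0, ?_⟩
  intro R hR C _ _ f g hφ hψ hd A hA
  refine kernel_fam T hη (κ := 1 - θ') hR hθ' (by linarith) C f g (fun p => hcube _ R (hφ p))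
    (fun p => hcube _ R (hψ p)) ?_ A hA
  intro p x v
  refine (hdiff (f p) (g p) R hR x v).trans ?_
  refine mul_le_mul_of_nonneg_right ?_ (nsqNN v)
  have h2 : C₀ / R * ⨍ y in Metric.ball x R, ‖(f p).toEquiv y - (g p).toEquiv y‖ ≤
      Real.sqrt (1 - θ') := by
    calc _ ≤ C₀ / R * (Real.sqrt (1 - θ') / C₀ * R) :=
          mul_le_mul_of_nonneg_left (hd p x) (by positivity)
      _ = Real.sqrt (1 - θ') := by
          field_simp
  have h3 : 0 ≤ C₀ / R * ⨍ y in Metric.ball x R, ‖(f p).toEquiv y - (g p).toEquiv y‖ := by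
    refine mul_nonneg (by positivity) ?_
    rw [setAverage_eq]
    refine smul_nonneg (by positivity) (integral_nonneg fun y => norm_nonneg _)
  calc _ ≤ Real.sqrt (1 - θ') ^ 2 := by gcongr
    _ = 1 - θ' := Real.sq_sqrt h1.le

/-- uniform bound for the displacement in a compact family -/
theorem disp_bound {C : Type} [TopologicalSpace C] [CompactSpace C] (f : C(C, SympCt n)) :
    ∃ M : ℝ, 0 ≤ M ∧ ∀ p y, ‖(f p).toEquiv y - (one : SympCt n).toEquiv y‖ ≤ M := by
  obtain ⟨m, hm⟩ := supp_unif (isCompact_range f.continuous)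
  refine ⟨2 * m, by positivity, fun p y => ?_⟩
  change ‖(f p).toEquiv y - y‖ ≤ _
  have hs := hm (f p) ⟨p, rfl⟩
  by_cases hy : y ∈ Metric.closedBall (0 : R2 n) m
  · have h1 : (f p).toEquiv y ∈ Metric.closedBall (0 : R2 n) m := by
      by_contra h2
      have h3 := hs _ h2
      have h4 := (f p).toEquiv.injective h3
      exact h2 (by rw [h4]; exact hy)
    rw [mem_closedBall_zero_iff] at hy h1
    calc ‖(f p).toEquiv y - y‖ ≤ ‖(f p).toEquiv y‖ + ‖y‖ := norm_sub_le _ _
      _ ≤ 2 * m := by linarith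
  · rw [hs y hy, sub_self, norm_zero]
    positivity

/-- the constant family -/
noncomputable def cone (C : Type) [TopologicalSpace C] (n : ℕ) : C(C, SympCt n) :=
  ContinuousMap.const C one

theorem cone_apply {C : Type} [TopologicalSpace C] (p : C) : cone C n p = one := rfl

theorem osc_one {θ R : ℝ} {φ : SympCt n} (h : OscLe θ R φ) : OscLe θ R (one : SympCt n) := by
  intro r hr hrR x v
  have h1 := h r hr hrR x v
  have h2 : 0 ≤ ⨍ y in Metric.ball x r, nsq (D φ y v - ⨍ z in Metric.ball x r, D φ z v) := by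
    rw [setAverage_eq]
    exact smul_nonneg (by positivity) (integral_nonneg fun y => nsqNN _)
  have h3 : ∀ y, D (one : SympCt n) y v = v := fun y => one_fderiv y v
  have h4 : (fun y => nsq (D (one : SympCt n) y v - ⨍ z in Metric.ball x r,
      D (one : SympCt n) z v)) = fun _ => (0 : ℝ) := by
    funext y
    simp only [h3]
    rw [avg_const v x hr, sub_self]
    simp [nsq]
  rw [h4, avg_const (0 : ℝ) x hr]
  linarith

/-- families with small mean oscillation at all scales are null homotopic -/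
theorem all_scales_fam (T : Tasks n) {θ : ℝ} (hθ : θ < 1) (C : Type) [TopologicalSpace C]
    [CompactSpace C] (f : C(C, SympCt n)) (h : ∀ p, ∀ R : ℝ, 0 < R → OscLe θ R (f p))
    (A : Set C) (hA : ∀ p ∈ A, f p = one) : f.HomotopicRel (cone C n) A := by
  obtain ⟨c, hc, key⟩ := two_maps_fam (n := n) T hθ
  obtain ⟨M, hM0, hM⟩ := disp_bound f
  set R : ℝ := M / c + 1 with hR
  have hR0 : 0 < R := by positivity
  refine key R hR0 C f (cone C n) (fun p => h p R hR0) (fun p => osc_one (h p R hR0)) ?_ A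
    (fun p hp => ⟨hA p hp, rfl⟩)
  intro p x
  have hcont : Continuous (fun y => ‖(f p).toEquiv y - (one : SympCt n).toEquiv y‖) := by
    have h1 : Continuous (f p).toEquiv := (f p).smooth.continuous
    exact (h1.sub continuous_id).norm
  refine (avg_le hcont hM0 (hM p) x R).trans ?_
  rw [hR, mul_add, mul_div_cancel₀ _ hc.ne']
  linarith

/-- local near isometries, families -/
theorem metric_maps_fam (T : Tasks n) (Λ : ℝ) (hΛ : 0 < Λ) : ∃ ε c : ℝ, 0 < ε ∧ 0 < c ∧
    ∀ (R : ℝ), 0 < R → ∀ (C : Type) [TopologicalSpace C] [CompactSpace C]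
      (f g : C(C, SympCt n)),
      (∀ p x v, nsq (D (f p) x v) ≤ Λ * nsq v) → (∀ p x v, nsq (D (g p) x v) ≤ Λ * nsq v) →
      (∀ p x y v, ‖x - y‖ ≤ R → nsq (D (f p) y v) ≤ (1 + ε) * nsq (D (f p) x v)) →
      (∀ p x y v, ‖x - y‖ ≤ R → nsq (D (g p) y v) ≤ (1 + ε) * nsq (D (g p) x v)) →
      (∀ p x, ‖(f p).toEquiv x - (g p).toEquiv x‖ ≤ c * R) →
      ∀ A : Set C, (∀ p ∈ A, f p = one ∧ g p = one) → f.HomotopicRel g A := by
  obtain ⟨ε, c, η, hε, hc, hη, hs, hloc⟩ := nearloc n Λ (1 / 2) hΛ (by norm_num)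
  obtain ⟨C₀, hC0, hdiff⟩ := diff n η hη hs
  refine ⟨ε, c / C₀, hε, div_pos hc hC0, ?_⟩
  intro R hR C _ _ f g hφΛ hψΛ hφ hψ hd A hA
  have hcR : 0 < c * R := mul_pos hc hR
  refine kernel_fam T hη (θ := 1 / 2) (κ := 1) hcR (by norm_num) (by norm_num) C f g
    (fun p => hloc _ R (hφΛ p) (hφ p)) (fun p => hloc _ R (hψΛ p) (hψ p)) ?_ A hA
  intro p x v
  refine (hdiff (f p) (g p) (c * R) hcR x v).trans ?_
  refine mul_le_mul_of_nonneg_right ?_ (nsqNN v)
  have hcont : Continuous (fun y => ‖(f p).toEquiv y - (g p).toEquiv y‖) :=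
    ((f p).smooth.continuous.sub (g p).smooth.continuous).norm
  have h1 := avg_le hcont (by positivity) (hd p) x (c * R)
  have h0 : 0 ≤ ⨍ y in Metric.ball x (c * R), ‖(f p).toEquiv y - (g p).toEquiv y‖ := by
    rw [setAverage_eq]
    exact smul_nonneg (by positivity) (integral_nonneg fun y => norm_nonneg _)
  have h2 : C₀ / (c * R) * ⨍ y in Metric.ball x (c * R), ‖(f p).toEquiv y - (g p).toEquiv y‖
      ≤ 1 := by
    calc _ ≤ C₀ / (c * R) * (c / C₀ * R) := mul_le_mul_of_nonneg_left h1 (by positivity)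
      _ = 1 := by
          field_simp
  have h3 : 0 ≤ C₀ / (c * R) *
      ⨍ y in Metric.ball x (c * R), ‖(f p).toEquiv y - (g p).toEquiv y‖ :=
    mul_nonneg (by positivity) h0
  exact pow_le_one₀ h3 h2

/-- right multiplication of homotopies -/
theorem rel_mul_right {C : Type} [TopologicalSpace C] [CompactSpace C] {a b : C(C, SympCt n)}
    {A : Set C} (h : a.HomotopicRel b A) (g : C(C, SympCt n)) :
    (mulC a g).HomotopicRel (mulC b g) A := by
  obtain ⟨H⟩ := h
  let G : C(unitInterval × C, SympCt n) := mulC H.toHomotopy.toContinuousMap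
    (g.comp ⟨Prod.snd, continuous_snd⟩)
  refine ⟨⟨⟨G, fun c => ?_, fun c => ?_⟩, fun t c hc => ?_⟩⟩
  · change comp (H.toHomotopy (0, c)) (g c) = comp (a c) (g c)
    rw [H.toHomotopy.apply_zero]
  · change comp (H.toHomotopy (1, c)) (g c) = comp (b c) (g c)
    rw [H.toHomotopy.apply_one]
  · change comp (H.toHomotopy (t, c)) (g c) = comp (a c) (g c)
    have : H.toHomotopy (t, c) = a c := H.prop' t c hc
    rw [this]

/-- near isometric families -/
theorem near_fam (T : Tasks n) : ∃ ε : ℝ, 0 < ε ∧ ∀ (C : Type) [TopologicalSpace C]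
    [CompactSpace C] (f g : C(C, SympCt n)),
    (∀ p x v, nsq (D (f p) x v) ≤ (1 + ε) * nsq (D (g p) x v)) →
    f.HomotopicRel g {p | f p = g p} := by
  obtain ⟨ε', c, hε', hc, key⟩ := metric_maps_fam (n := n) T 2 (by norm_num)
  set ε : ℝ := min 1 (ε' / 3) with hε
  have hε0 : 0 < ε := lt_min one_pos (by positivity)
  have hε1 : ε ≤ 1 := min_le_left _ _
  have hε3 : 3 * ε ≤ ε' := by
    have := min_le_right 1 (ε' / 3)
    linarith
  refine ⟨ε, hε0, fun C _ _ f g h => ?_⟩
  set χ : C(C, SympCt n) := mulC f (invC g) with hχ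
  have hχ1 : ∀ p y w, nsq (D (χ p) y w) ≤ (1 + ε) * nsq w := by
    intro p y w
    obtain ⟨x, rfl⟩ := (g p).toEquiv.surjective y
    change nsq (fderiv ℝ (comp (f p) (inv (g p))).toEquiv _ w) ≤ _
    rw [comp_fderiv]
    have e5 := inv_left (g p).smooth (g p).smooth_symm ((g p).toEquiv x) w
    change nsq (fderiv ℝ (f p).toEquiv ((g p).toEquiv.symm ((g p).toEquiv x))
      (fderiv ℝ (g p).toEquiv.symm ((g p).toEquiv x) w)) ≤ _
    rw [Equiv.symm_apply_apply] at e5 ⊢
    have h2 := h p x (fderiv ℝ (g p).toEquiv.symm ((g p).toEquiv x) w)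
    unfold D at h2
    rwa [e5] at h2
  obtain ⟨M, hM0, hM⟩ := disp_bound χ
  have hD1 : ∀ y v, D (one : SympCt n) y v = v := fun y v => one_fderiv y v
  have hlow : ∀ p x v, nsq v ≤ (1 + ε) * nsq (D (χ p) x v) := fun p x v =>
    Near.inv_bound (χ p) (hχ1 p) x v
  have h1 : χ.HomotopicRel (cone C n) {p | f p = g p} := by
    refine key (M / c + 1) (by positivity) C χ (cone C n) ?_ ?_ ?_ ?_ ?_ _ ?_
    · intro p x v
      exact (hχ1 p x v).trans (mul_le_mul_of_nonneg_right (by linarith) (nsqNN v))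
    · intro p x v
      rw [cone_apply, hD1]
      linarith [nsqNN v]
    · intro p x y v _
      have h1 := hχ1 p y v
      have h2 := hlow p x v
      have h3 := nsqNN (D (χ p) x v)
      calc nsq (D (χ p) y v) ≤ (1 + ε) * nsq v := h1
        _ ≤ (1 + ε) * ((1 + ε) * nsq (D (χ p) x v)) := mul_le_mul_of_nonneg_left h2 (by linarith)
        _ = (1 + (2 * ε + ε ^ 2)) * nsq (D (χ p) x v) := by ring
        _ ≤ (1 + ε') * nsq (D (χ p) x v) := by
            refine mul_le_mul_of_nonneg_right ?_ h3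
            nlinarith
    · intro p x y v _
      rw [cone_apply, hD1, hD1]
      nlinarith [nsqNN v]
    · intro p x
      rw [cone_apply]
      refine (hM p x).trans ?_
      rw [mul_add, mul_div_cancel₀ _ hc.ne']
      linarith
    · intro p hp
      refine ⟨?_, rfl⟩
      change comp (f p) (inv (g p)) = one
      have hp' : f p = g p := hp
      rw [hp']
      exact comp_inv_self (g p)
  have h2 := rel_mul_right h1 g
  have h3 : mulC χ g = f := by
    ext1 p
    exact comp_inv_comp (f p) (g p)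
  have h4 : mulC (cone C n) g = g := by
    ext1 p
    exact one_comp (g p)
  rwa [h3, h4] at h2

end Pool.Agent.W5h49.EC
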