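import Mathlib
import Pool.Agent.W5h49.EC.MosFam
import Pool.Agent.W5h83.HG.Prod

set_option autoImplicit false

open scoped ContDiff Topology
open Set

namespace Pool.Agent.W5h49.EC

open Pool.Agent.W71.EC Pool.Agent.W5h83.HG

variable {n : ℕ}

/-- the correction does not depend on `t` where the family does not -/
theorem flow_const {F : ℝ × R2 n → R2 n} (hF : ContDiff ℝ ∞ F)
    (tame : ∀ z v, v ≠ 0 → 0 < omega (DFm F z v) (DFm F z (J v))) {K : Set (R2 n)}
    (hK : IsCompact K) (h0 : ∀ t x, x ∉ K → F (t, x) = x) {Φ : ℝ → ℝ × R2 n → R2 n}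
    (hΦ0 : ∀ t x, Φ t (0, x) = x)
    (hΦd : ∀ t s x, HasDerivAt (fun s => Φ t (s, x)) (Xf F (s, (t, Φ t (s, x)))) s)
    (hc : ∀ t x, F (t, x) = F (0, x)) {t : ℝ} (ht : t ∈ Icc (0 : ℝ) 1) (s : ℝ) (x : R2 n) :
    Φ t (s, x) = Φ 0 (s, x) := by
  have e1 : ∀ y, DFm F (t, y) = DFm F (0, y) := by
    intro y
    rw [← DFm_eq hF, ← DFm_eq hF]
    unfold DF
    have : (fun y => F (t, y)) = fun y => F (0, y) := funext (hc t)
    rw [this]
  have e2 : ∀ y, al F (t, y) = al F (0, y) := by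
    intro y
    unfold al
    rw [e1, hc]
  have e3 : ∀ s y, Xf F (s, (t, y)) = Xf F (s, (0, y)) := by
    intro s y
    unfold Xf
    simp only
    rw [e1, e2, rho_one ht.1 ht.2, rho_one le_rfl zero_le_one]
  have hs : ContDiff ℝ ∞ (Xf F) := Xf_smooth hF tame
  have hcs : HasCompactSupport (Xf F) :=
    HasCompactSupport.intro (isCompact_Icc.prod (isCompact_Icc.prod hK))
      (fun q hq => Xf_out hF hK h0 q hq)
  obtain ⟨L, hL⟩ := hs.lipschitzWith_of_hasCompactSupport hcs (by simp)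
  have hL' : ∀ s, LipschitzWith L (fun y => Xf F (s, ((0 : ℝ), y))) := by
    intro s
    refine LipschitzWith.of_dist_le_mul fun a b => ?_
    refine (hL.dist_le_mul _ _).trans (le_of_eq ?_)
    simp [Prod.dist_eq]
  have h2 : (fun s => Φ t (s, x)) = fun s => Φ 0 (s, x) := by
    refine ODE_solution_unique_univ (v := fun s y => Xf F (s, ((0 : ℝ), y)))
      (s := fun _ => univ) (K := L) (t₀ := 0)
      (fun s => (hL' s).lipschitzOnWith) (fun s => ⟨?_, trivial⟩)
      (fun s => ⟨hΦd 0 s x, trivial⟩) ?_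
    · have := hΦd t s x
      rwa [e3] at this
    · rw [hΦ0, hΦ0]
  exact congrFun h2 s

/-- **Moser's argument for families**, relative to the parameters where the family is constant. -/
theorem moser_fam2 (hFlow : S_FLOWJC n) (hX : S_XJC n) (C : Type) [TopologicalSpace C]
    [CompactSpace C] (F : C → ℝ × R2 n → R2 n) (K : Set (R2 n)) (hF : ∀ p, ContDiff ℝ ∞ (F p))
    (hJ : ∀ k, JC k (R2 n) (fun (q : C × ℝ) (x : R2 n) => F q.1 (q.2, x))) (hK : IsCompact K)
    (h0 : ∀ p t x, x ∉ K → F p (t, x) = x)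
    (tame₀ : ∀ p t x v, v ≠ 0 → 0 < omega (DF (F p) t x v) (DF (F p) t x (J v)))
    (f g : C(C, SympCt n)) (hf : ∀ p x, F p (0, x) = (f p).toEquiv x)
    (hg : ∀ p x, F p (1, x) = (g p).toEquiv x) :
    f.HomotopicRel g {p | ∀ t x, F p (t, x) = F p (0, x)} := by
  have tame : ∀ p z v, v ≠ 0 → 0 < omega (DFm (F p) z v) (DFm (F p) z (J v)) := by
    rintro p ⟨t, x⟩ v hv
    rw [← DFm_eq (hF p)]
    exact tame₀ p t x v hv
  have hex := fun p => exists_flow (hF p) (tame p) hK (h0 p)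
  choose Φ hΦ hΦ0 hΦd hΦb hΦc using hex
  have hb0 : ∀ p, Function.Bijective (fun x => F p (0, x)) := by
    intro p
    have : (fun x => F p (0, x)) = (f p).toEquiv := funext (hf p)
    rw [this]
    exact (f p).toEquiv.bijective
  have hbF : ∀ p, ∀ t ∈ Icc (0 : ℝ) 1, Function.Bijective (fun x => F p (t, x)) := fun p =>
    bij (hF p) hK (h0 p) (fun z v h => A_inj (tame p z) v h) (hb0 p)
  -- joint smoothness of the flows
  have hXJ : ∀ k, JC k (R2 n) (fun (q : C × unitInterval) (z : ℝ × R2 n) =>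
      Xf (F q.1) (z.1, ((q.2 : ℝ), z.2))) := fun k =>
    (hX C F hF hJ tame k).param (a := fun q : C × unitInterval => (q.1, (q.2 : ℝ)))
      (continuous_fst.prodMk (continuous_subtype_val.comp continuous_snd))
  have hΦJ : ∀ k, JC k (R2 n) (fun (q : (C × unitInterval) × ℝ) (x : R2 n) =>
      Φ q.1.1 (q.1.2 : ℝ) (q.2, x)) :=
    hFlow (C × unitInterval) _ (Icc (0 : ℝ) 1 ×ˢ K) (isCompact_Icc.prod hK)
      (fun p z hz => Xf_out (hF p.1) hK (h0 p.1) _ fun h => hz ⟨h.1, h.2.2⟩) hXJ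
      (fun q => Φ q.1 (q.2 : ℝ)) (fun p x => hΦ0 p.1 _ x) (fun p s x => hΦd p.1 _ s x)
  set fam : (C × unitInterval) × ℝ → R2 n → R2 n :=
    fun q x => F q.1.1 ((q.1.2 : ℝ), Φ q.1.1 (q.1.2 : ℝ) (q.2, x)) with hfam
  have hfamJ : ∀ k, JC k (R2 n) fam := fun k =>
    JC.comp (f := fun (q : (C × unitInterval) × ℝ) (x : R2 n) => F q.1.1 ((q.1.2 : ℝ), x))
      ((hJ k).param (a := fun q : (C × unitInterval) × ℝ => (q.1.1, (q.1.2 : ℝ)))
        ((continuous_fst.comp continuous_fst).prodMk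
          (continuous_subtype_val.comp (continuous_snd.comp continuous_fst)))) (hΦJ k)
  have hfams : ∀ q, ContDiff ℝ ∞ (fam q) := fun q =>
    (hF q.1.1).comp (contDiff_const.prodMk ((hΦ q.1.1).comp
      (contDiff_const.prodMk (contDiff_const.prodMk contDiff_id))))
  have hfamb : ∀ q, Function.Bijective (fam q) := fun q =>
    (hbF q.1.1 _ q.1.2.2).comp (hΦb q.1.1 _ q.2)
  have hfam0 : ∀ q x, x ∉ K → fam q x = x := by
    intro q x hx
    simp only [hfam]
    rw [hΦc q.1.1 _ x hx, h0 q.1.1 _ x hx]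
  have hsym : ∀ q : (C × unitInterval) × ℝ, (Real.smoothTransition q.2 = 1 ∨
      ∀ p a b, omega (DFm (F q.1.1) (((q.1.2 : ℝ)), p) a) (DFm (F q.1.1) (((q.1.2 : ℝ)), p) b)
        = omega a b) → ∀ x u v, omega (fderiv ℝ (fam q) x u) (fderiv ℝ (fam q) x v) =
        omega u v := fun q hq x u v =>
    moser_sympl (hF q.1.1) (tame q.1.1) (hΦ q.1.1) (hΦ0 q.1.1) (hΦd q.1.1) q.1.2.2 q.2 hq x u v
  have hend : ∀ (χ : C(C, SympCt n)) (t : ℝ), (∀ p x, F p (t, x) = (χ p).toEquiv x) →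
      ∀ c p a b, omega (DFm (F c) (t, p) a) (DFm (F c) (t, p) b) = omega a b := by
    intro χ t hχ c p a b
    rw [← DFm_eq (hF c)]
    unfold DF
    have : (fun y => F c (t, y)) = (χ c).toEquiv := funext (hχ c)
    rw [this]
    exact (χ c).symplectic _ a b
  -- constancy
  have hconst : ∀ c : C, (∀ t x, F c (t, x) = F c (0, x)) → ∀ (t : unitInterval) (s : ℝ)
      (x : R2 n), fam ((c, t), s) x = fam ((c, 0), s) x := by
    intro c hc t s x
    simp only [hfam, Icc.coe_zero]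
    rw [flow_const (hF c) (tame c) hK (h0 c) (hΦ0 c) (hΦd c) hc t.2, hc]
  -- the three homotopies
  let H0 : unitInterval × C → SympCt n := fun q =>
    mk (fam ((q.2, 0), (q.1 : ℝ))) (hfamb _) (hfams _)
      (hsym _ (Or.inr (fun p a b => by
        have := hend f 0 hf q.2 p a b
        simpa using this))) K hK (hfam0 _)
  let H1 : unitInterval × C → SympCt n := fun q =>
    mk (fam ((q.2, 1), (q.1 : ℝ))) (hfamb _) (hfams _)
      (hsym _ (Or.inr (fun p a b => by
        have := hend g 1 hg q.2 p a b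
        simpa using this))) K hK (hfam0 _)
  let Hm : unitInterval × C → SympCt n := fun q =>
    mk (fam ((q.2, q.1), (1 : ℝ))) (hfamb _) (hfams _)
      (hsym _ (Or.inl Real.smoothTransition.one)) K hK (hfam0 _)
  have J0 : JS H0 := fun k => (hfamJ k).param (a := fun q : unitInterval × C =>
    ((q.2, (0 : unitInterval)), (q.1 : ℝ))) (by fun_prop)
  have J1 : JS H1 := fun k => (hfamJ k).param (a := fun q : unitInterval × C =>
    ((q.2, (1 : unitInterval)), (q.1 : ℝ))) (by fun_prop)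
  have Jm : JS Hm := fun k => (hfamJ k).param (a := fun q : unitInterval × C =>
    ((q.2, q.1), (1 : ℝ))) (by fun_prop)
  have s0 : ∀ q, H0 q ∈ supportedIn K := fun q x hx => hfam0 _ x hx
  have s1 : ∀ q, H1 q ∈ supportedIn K := fun q x hx => hfam0 _ x hx
  have sm : ∀ q, Hm q ∈ supportedIn K := fun q x hx => hfam0 _ x hx
  have cm : Continuous Hm := Jm.continuous K hK sm
  let θ0 : C(C, SympCt n) := ⟨fun c => Hm (0, c), cm.comp (continuous_const.prodMk continuous_id)⟩
  let θ1 : C(C, SympCt n) := ⟨fun c => Hm (1, c), cm.comp (continuous_const.prodMk continuous_id)⟩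
  have c0 : Continuous H0 := J0.continuous K hK s0
  have c1 : Continuous H1 := J1.continuous K hK s1
  set A : Set C := {p | ∀ t x, F p (t, x) = F p (0, x)} with hAdef
  have e0 : ∀ c ∈ A, ∀ s, H0 (s, c) = H1 (s, c) := fun c hc s =>
    SympCt.ext' fun x => (hconst c hc 1 _ x).symm
  have em : ∀ c ∈ A, ∀ t, Hm (t, c) = Hm (0, c) := fun c hc t =>
    SympCt.ext' fun x => hconst c hc t _ x
  have ef : ∀ c, H0 (0, c) = f c := by
    intro c
    refine SympCt.ext' fun x => ?_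
    change fam ((c, 0), ((0 : unitInterval) : ℝ)) x = _
    simp only [hfam, Icc.coe_zero]
    rw [hΦ0]
    exact hf c x
  have eg : ∀ c, H1 (0, c) = g c := by
    intro c
    refine SympCt.ext' fun x => ?_
    change fam ((c, 1), ((0 : unitInterval) : ℝ)) x = _
    simp only [hfam, Icc.coe_zero, Icc.coe_one]
    rw [hΦ0]
    exact hg c x
  have eθ0 : ∀ c, H0 (1, c) = θ0 c := by
    intro c
    refine SympCt.ext' fun x => ?_
    change fam ((c, 0), ((1 : unitInterval) : ℝ)) x = fam ((c, 0), (1 : ℝ)) x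
    rw [Icc.coe_one]
  have eθ1 : ∀ c, H1 (1, c) = θ1 c := by
    intro c
    refine SympCt.ext' fun x => ?_
    change fam ((c, 1), ((1 : unitInterval) : ℝ)) x = fam ((c, 1), (1 : ℝ)) x
    rw [Icc.coe_one]
  let π : C(unitInterval × C, C) := ⟨Prod.snd, continuous_snd⟩
  let G1 : C(unitInterval × C, SympCt n) := mulC (f.comp π) (mulC (invC ⟨H0, c0⟩) ⟨H1, c1⟩)
  let G2 : C(unitInterval × C, SympCt n) := mulC (f.comp π) (mulC (invC (θ0.comp π)) ⟨Hm, cm⟩)
  let χ : C(C, SympCt n) := mulC f (mulC (invC θ0) θ1)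
  have k1 : ∀ φ ψ : SympCt n, comp φ (comp (inv φ) ψ) = ψ := fun φ ψ =>
    SympCt.ext' fun x => by
      change φ.toEquiv (φ.toEquiv.symm (ψ.toEquiv x)) = _
      rw [Equiv.apply_symm_apply]
  have k2 : ∀ φ ψ : SympCt n, comp φ (comp (inv ψ) ψ) = φ := fun φ ψ =>
    SympCt.ext' fun x => by
      change φ.toEquiv (ψ.toEquiv.symm (ψ.toEquiv x)) = _
      rw [Equiv.symm_apply_apply]
  have r1 : g.HomotopicRel χ A := by
    refine ⟨⟨⟨G1, fun c => ?_, fun c => ?_⟩, fun t c hc => ?_⟩⟩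
    · change comp (f c) (comp (inv (H0 (0, c))) (H1 (0, c))) = g c
      rw [ef, eg]
      exact k1 _ _
    · change comp (f c) (comp (inv (H0 (1, c))) (H1 (1, c))) = comp (f c) (comp (inv (θ0 c)) (θ1 c))
      rw [eθ0, eθ1]
    · change comp (f c) (comp (inv (H0 (t, c))) (H1 (t, c))) = g c
      rw [e0 c hc t, k2, ← ef, ← eg, e0 c hc 0]
  have r2 : f.HomotopicRel χ A := by
    refine ⟨⟨⟨G2, fun c => ?_, fun c => ?_⟩, fun t c hc => ?_⟩⟩
    · change comp (f c) (comp (inv (Hm (0, c))) (Hm (0, c))) = f c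
      exact k2 _ _
    · rfl
    · change comp (f c) (comp (inv (Hm (0, c))) (Hm (t, c))) = f c
      rw [em c hc t]
      exact k2 _ _
  exact r2.trans r1.symm

end Pool.Agent.W5h49.EC
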