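import Mathlib
import Pool.Agent.W5h49.EC.Defs3

/-!
# Nemytskii operators of jointly smooth families are smooth
-/

set_option autoImplicit false

open scoped ContDiff Topology
open MeasureTheory

namespace Pool.Agent.W5h49.EC

open Pool.Agent.W71.EC Pool.Agent.W5h83.HG

namespace Nem

noncomputable section

variable {P : Type} [TopologicalSpace P] [CompactSpace P]

omit [CompactSpace P] in
/-- pointwise application as a bilinear map -/
def pAppL {G E F : Type} [NormedAddCommGroup E] [NormedSpace ℝ E] [NormedAddCommGroup F]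
    [NormedSpace ℝ F] [NormedAddCommGroup G] [NormedSpace ℝ G] (B : G →L[ℝ] E →L[ℝ] F) :
    C(P, G) →ₗ[ℝ] C(P, E) →ₗ[ℝ] C(P, F) :=
  LinearMap.mk₂ ℝ (fun (A : C(P, G)) (β : C(P, E)) =>
    (⟨fun s => B (A s) (β s), (B.continuous.comp A.continuous).clm_apply β.continuous⟩ : C(P, F)))
    (fun A B β => by ext s; simp) (fun c A β => by ext s; simp)
    (fun A β γ => by ext s; simp) (fun c A β => by ext s; simp)

/-- pointwise application as a bounded bilinear map -/
def pApp {G E F : Type} [NormedAddCommGroup E] [NormedSpace ℝ E] [NormedAddCommGroup F]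
    [NormedSpace ℝ F] [NormedAddCommGroup G] [NormedSpace ℝ G] (B : G →L[ℝ] E →L[ℝ] F) :
    C(P, G) →L[ℝ] (C(P, E) →L[ℝ] C(P, F)) :=
  LinearMap.mkContinuous₂ (pAppL B) ‖B‖ (by
    intro A β
    refine (ContinuousMap.norm_le _ (by positivity)).2 fun s => ?_
    calc ‖B (A s) (β s)‖ ≤ ‖B‖ * ‖A s‖ * ‖β s‖ := B.le_opNorm₂ _ _
      _ ≤ ‖B‖ * ‖A‖ * ‖β‖ := by
        gcongr
        · exact A.norm_coe_le_norm s
        · exact β.norm_coe_le_norm s)

@[simp] lemma pApp_apply {G E F : Type} [NormedAddCommGroup E] [NormedSpace ℝ E]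
    [NormedAddCommGroup F] [NormedSpace ℝ F] [NormedAddCommGroup G] [NormedSpace ℝ G]
    (B : G →L[ℝ] E →L[ℝ] F) (A : C(P, G)) (β : C(P, E)) (s : P) :
    pApp B A β s = B (A s) (β s) := rfl

/-- the Nemytskii operator of a jointly continuous family -/
def nemO {E F : Type} [NormedAddCommGroup E] [NormedAddCommGroup F] (X : P → E → F)
    (hX : Continuous (Function.uncurry X)) (u : C(P, E)) : C(P, F) :=
  ⟨fun p => X p (u p), hX.comp (continuous_id.prodMk u.continuous)⟩

omit [CompactSpace P] in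
@[simp] lemma nemO_apply {E F : Type} [NormedAddCommGroup E] [NormedAddCommGroup F]
    (X : P → E → F) (hX : Continuous (Function.uncurry X)) (u : C(P, E)) (p : P) :
    nemO X hX u p = X p (u p) := rfl

lemma continuous_nemO {E F : Type} [NormedAddCommGroup E] [NormedAddCommGroup F]
    (X : P → E → F) (hX : Continuous (Function.uncurry X)) : Continuous (nemO X hX) := by
  refine ContinuousMap.continuous_of_continuous_uncurry _ ?_
  have h1 : Continuous fun q : C(P, E) × P => q.1 q.2 := ContinuousEval.continuous_eval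
  exact hX.comp (continuous_snd.prodMk h1)

lemma hasFDerivAt_nemO {G E F : Type} [NormedAddCommGroup E] [NormedSpace ℝ E]
    [NormedAddCommGroup F] [NormedSpace ℝ F] [NormedAddCommGroup G] [NormedSpace ℝ G]
    (B : G →L[ℝ] E →L[ℝ] F) (X : P → E → F)
    (hX : Continuous (Function.uncurry X)) (X' : P → E → G)
    (hX' : Continuous (Function.uncurry X')) (hd : ∀ p x, HasFDerivAt (X p) (B (X' p x)) x)
    (α : C(P, E)) :
    HasFDerivAt (nemO X hX) (pApp B (nemO X' hX' α)) α := by
  rw [hasFDerivAt_iff_isLittleO_nhds_zero, Asymptotics.isLittleO_iff]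
  intro ε' hε'
  set ε : ℝ := ε' / (‖B‖ + 1) with hεdef
  have hε : 0 < ε := by positivity
  have hεB : ‖B‖ * ε ≤ ε' := by
    rw [hεdef]
    have : ‖B‖ * (ε' / (‖B‖ + 1)) = (‖B‖ / (‖B‖ + 1)) * ε' := by ring
    rw [this]
    have h2 : ‖B‖ / (‖B‖ + 1) ≤ 1 := by
      rw [div_le_one (by positivity)]; linarith
    nlinarith
  have hc := (continuous_nemO X' hX').continuousAt (x := α)
  have h1 : ∀ᶠ γ : C(P, E) in 𝓝 α, dist (nemO X' hX' γ) (nemO X' hX' α) < ε :=
    hc.eventually (Metric.ball_mem_nhds _ hε)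
  obtain ⟨δ, hδ, h1⟩ := Metric.eventually_nhds_iff.1 h1
  filter_upwards [Metric.ball_mem_nhds (0 : C(P, E)) hδ] with β hβ
  rw [mem_ball_zero_iff] at hβ
  refine (ContinuousMap.norm_le _ (by positivity)).2 fun s => ?_
  have h2 : ∀ z ∈ segment ℝ (α s) (α s + β s), ‖B (X' s z) - B (X' s (α s))‖ ≤ ε' := by
    intro z hz
    rw [segment_eq_image'] at hz
    obtain ⟨θ, hθ, rfl⟩ := hz
    have h3 : dist (α + θ • β) α < δ := by
      rw [dist_eq_norm, add_sub_cancel_left, norm_smul, Real.norm_of_nonneg hθ.1]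
      calc θ * ‖β‖ ≤ 1 * ‖β‖ := by gcongr; exact hθ.2
        _ < δ := by rwa [one_mul]
    have h4 := h1 h3
    rw [dist_eq_norm] at h4
    have h5 := (ContinuousMap.norm_coe_le_norm
      (nemO X' hX' (α + θ • β) - nemO X' hX' α) s).trans h4.le
    have h6 : ‖X' s (α s + θ • (α s + β s - α s)) - X' s (α s)‖ ≤ ε := by simpa using h5
    rw [← map_sub]
    exact (B.le_opNorm _).trans ((mul_le_mul_of_nonneg_left h6 (norm_nonneg _)).trans hεB)
  have h3 := (convex_segment (α s) (α s + β s)).norm_image_sub_le_of_norm_hasFDerivWithin_le'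
    (f := X s) (f' := fun z => B (X' s z)) (φ := B (X' s (α s))) (C := ε')
    (fun z _ => (hd s z).hasFDerivWithinAt) h2 (left_mem_segment ℝ _ _) (right_mem_segment ℝ _ _)
  have h4 : ‖β s‖ ≤ ‖β‖ := β.norm_coe_le_norm s
  calc ‖(nemO X hX (α + β) - nemO X hX α - (pApp B (nemO X' hX' α)) β) s‖
      = ‖X s (α s + β s) - X s (α s) - B (X' s (α s)) (α s + β s - α s)‖ := by simp
    _ ≤ ε' * ‖α s + β s - α s‖ := h3
    _ = ε' * ‖β s‖ := by rw [add_sub_cancel_left]
    _ ≤ ε' * ‖β‖ := by gcongr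

lemma contDiff_nemO_step {G E F : Type} [NormedAddCommGroup E] [NormedSpace ℝ E]
    [NormedAddCommGroup F] [NormedSpace ℝ F] [NormedAddCommGroup G] [NormedSpace ℝ G]
    (B : G →L[ℝ] E →L[ℝ] F) (X : P → E → F)
    (hX : Continuous (Function.uncurry X)) (X' : P → E → G)
    (hX' : Continuous (Function.uncurry X')) (hd : ∀ p x, HasFDerivAt (X p) (B (X' p x)) x)
    (m : ℕ) (ih : ContDiff ℝ m (nemO X' hX')) : ContDiff ℝ (m + 1) (nemO X hX) := by
  rw [contDiff_succ_iff_hasFDerivAt]
  exact ⟨fun α => pApp B (nemO X' hX' α), ContDiff.comp (g := pApp B)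
    (ContinuousLinearMap.contDiff _) ih, fun α => hasFDerivAt_nemO B X hX X' hX' hd α⟩

lemma contDiff_nemO {E : Type} [NormedAddCommGroup E] [NormedSpace ℝ E] (m : ℕ) :
    ∀ {F : Type} [NormedAddCommGroup F] [NormedSpace ℝ F] (X : P → E → F)
      (hX : Continuous (Function.uncurry X)), JC m F X → ContDiff ℝ m (nemO X hX) := by
  induction m with
  | zero =>
    intro F _ _ X hX _
    rw [Nat.cast_zero, contDiff_zero]
    exact continuous_nemO X hX
  | succ m ih =>
    intro F _ _ X hX h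
    push_cast
    exact contDiff_nemO_step (G := E →L[ℝ] F) (ContinuousLinearMap.id ℝ (E →L[ℝ] F)) X hX
      (fun p x => fderiv ℝ (X p) x) h.2.2.cont (fun p x => (h.2.1 p x).hasFDerivAt) m
      (ih _ h.2.2.cont h.2.2)

end

end Nem

theorem nem : S_NEM := by
  intro P E F _ _ _ _ _ _ X hX
  refine ⟨Nem.nemO X (hX 0), ?_, fun u p => rfl⟩
  rw [contDiff_infty]
  exact fun m => Nem.contDiff_nemO m X (hX 0) (hX m)

end Pool.Agent.W5h49.EC
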