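import Pool.Agent.W5h49.EC.Defs3

set_option autoImplicit false

/-!
# The Moser vector field of a jointly smooth family is jointly smooth
-/

open scoped ContDiff Topology

namespace Pool.Agent.W5h49.EC

open Pool.Agent.W71.EC Pool.Agent.W5h83.HG

namespace XJ

universe v

variable {P : Type*} [TopologicalSpace P]

/-- composition with a fixed continuous linear map -/
theorem postLin {E F G : Type v} [NormedAddCommGroup E] [NormedSpace ℝ E] [NormedAddCommGroup F]
    [NormedSpace ℝ F] [NormedAddCommGroup G] [NormedSpace ℝ G] (T : F →L[ℝ] G) {k : ℕ}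
    {f : P → E → F} (hf : JC k F f) : JC k G (fun p x => T (f p x)) :=
  JC.bilin (ContinuousLinearMap.id ℝ (F →L[ℝ] G)) (JC.constX (a := fun _ : P => T)
    continuous_const k) hf

/-- products with functions -/
theorem smulJC {E F : Type} [NormedAddCommGroup E] [NormedSpace ℝ E] [NormedAddCommGroup F]
    [NormedSpace ℝ F] {k : ℕ} {a : P → E → ℝ} {f : P → E → F} (ha : JC k ℝ a) (hf : JC k F f) :
    JC k F (fun p x => a p x • f p x) :=
  JC.bilin (ContinuousLinearMap.lsmul ℝ ℝ) ha hf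

/-- composition of linear maps -/
theorem compJC {E F G H : Type} [NormedAddCommGroup E] [NormedSpace ℝ E] [NormedAddCommGroup F]
    [NormedSpace ℝ F] [NormedAddCommGroup G] [NormedSpace ℝ G] [NormedAddCommGroup H]
    [NormedSpace ℝ H] {k : ℕ} {a : P → E → (G →L[ℝ] H)} {f : P → E → (F →L[ℝ] G)}
    (ha : JC k (G →L[ℝ] H) a) (hf : JC k (F →L[ℝ] G) f) :
    JC k (F →L[ℝ] H) (fun p x => (a p x).comp (f p x)) :=
  JC.bilin (ContinuousLinearMap.compL ℝ F G H) ha hf

/-- precomposition with a fixed continuous linear map -/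
theorem preLin {E E' : Type v} [NormedAddCommGroup E] [NormedSpace ℝ E] [NormedAddCommGroup E']
    [NormedSpace ℝ E'] (l : E' →L[ℝ] E) {k : ℕ} {F : Type v} [NormedAddCommGroup F]
    [NormedSpace ℝ F] {f : P → E → F} (hf : JC k F f) : JC k F (fun p z => f p (l z)) := by
  induction k generalizing F with
  | zero =>
    exact Continuous.comp (g := Function.uncurry f) hf
      (continuous_fst.prodMk (l.continuous.comp continuous_snd))
  | succ k ih =>
    refine ⟨hf.1.comp (continuous_fst.prodMk (l.continuous.comp continuous_snd)), fun p z =>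
      (hf.2.1 p (l z)).comp z l.differentiableAt, ?_⟩
    have : (fun p z => fderiv ℝ (fun z => f p (l z)) z) =
        fun p z => ((ContinuousLinearMap.compL ℝ E' E F).flip l) (fderiv ℝ (f p) (l z)) := by
      funext p z
      exact ((hf.2.1 p (l z)).hasFDerivAt.comp z l.hasFDerivAt).fderiv
    rw [this]
    exact postLin _ (ih hf.2.2)

/-- composition with a smooth map on an open set -/
theorem compSmooth {E F : Type v} [NormedAddCommGroup E] [NormedSpace ℝ E] [NormedAddCommGroup F]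
    [NormedSpace ℝ F] {U : Set F} (hU : IsOpen U) {k : ℕ} {G : Type v} [NormedAddCommGroup G]
    [NormedSpace ℝ G] {φ : F → G} (hφ : ContDiffOn ℝ ∞ φ U) {f : P → E → F} (hf : JC k F f)
    (hfU : ∀ p x, f p x ∈ U) : JC k G (fun p x => φ (f p x)) := by
  have hc : Continuous (Function.uncurry fun p x => φ (f p x)) := by
    rw [continuous_iff_continuousAt]
    rintro ⟨p, x⟩
    have h1 : ContinuousAt φ (f p x) := hφ.continuousOn.continuousAt (hU.mem_nhds (hfU p x))
    have h2 : ContinuousAt (Function.uncurry f) (p, x) := hf.cont.continuousAt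
    exact ContinuousAt.comp (f := Function.uncurry f) (x := (p, x)) h1 h2
  induction k generalizing G with
  | zero => exact hc
  | succ k ih =>
    have hd : ∀ p x, HasFDerivAt (fun x => φ (f p x))
        ((fderiv ℝ φ (f p x)).comp (fderiv ℝ (f p) x)) x := by
      intro p x
      have h1 : DifferentiableAt ℝ φ (f p x) :=
        (hφ.contDiffAt (hU.mem_nhds (hfU p x))).differentiableAt (by norm_num)
      exact h1.hasFDerivAt.comp x (hf.2.1 p x).hasFDerivAt
    refine ⟨hc, fun p x => (hd p x).differentiableAt, ?_⟩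
    have : (fun p x => fderiv ℝ (fun x => φ (f p x)) x) = fun p x =>
        ContinuousLinearMap.compL ℝ E F G (fderiv ℝ φ (f p x)) (fderiv ℝ (f p) x) := by
      funext p x
      exact (hd p x).fderiv
    rw [this]
    have hφ' : ContDiffOn ℝ ∞ (fderiv ℝ φ) U := hφ.fderiv_of_isOpen hU (by norm_num)
    refine JC.bilin _ (ih hφ' hf.pred ?_) hf.2.2
    rw [continuous_iff_continuousAt]
    rintro ⟨p, x⟩
    have h1 : ContinuousAt (fderiv ℝ φ) (f p x) :=
      hφ'.continuousOn.continuousAt (hU.mem_nhds (hfU p x))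
    have h2 : ContinuousAt (Function.uncurry f) (p, x) := hf.cont.continuousAt
    exact ContinuousAt.comp (f := Function.uncurry f) (x := (p, x)) h1 h2

/-- the inverse of a jointly smooth family of invertible maps -/
theorem inverseJC {E G H : Type v} [NormedAddCommGroup E] [NormedSpace ℝ E] [NormedAddCommGroup G]
    [NormedSpace ℝ G] [CompleteSpace G] [NormedAddCommGroup H] [NormedSpace ℝ H] {k : ℕ}
    {f : P → E → (G →L[ℝ] H)} (hf : JC k (G →L[ℝ] H) f)
    (hi : ∀ p x, ∃ e : G ≃L[ℝ] H, (e : G →L[ℝ] H) = f p x) :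
    JC k (H →L[ℝ] G) (fun p x => (f p x).inverse) := by
  refine compSmooth (U := Set.range ((↑) : (G ≃L[ℝ] H) → (G →L[ℝ] H)))
    (ContinuousLinearEquiv.isOpen) (φ := ContinuousLinearMap.inverse) ?_ hf (fun p x => hi p x)
  rintro _ ⟨e, rfl⟩
  exact (contDiffAt_map_inverse e).contDiffWithinAt

end XJ

open XJ

/-- TASK XJC -/
theorem xjc (n : ℕ) : S_XJC n := by
  intro C _ F hF hJ tame k
  -- the family and its differential
  have hA : ∀ k, JC k (R2 n →L[ℝ] R2 n) (fun (q : C × ℝ) (x : R2 n) => DFm (F q.1) (q.2, x)) := by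
    intro k
    have h1 := (hJ (k + 1)).2.2
    have h2 : (fun (q : C × ℝ) (x : R2 n) => fderiv ℝ (fun y => F q.1 (q.2, y)) x) =
        fun q x => DFm (F q.1) (q.2, x) := by
      funext q x
      exact DFm_eq (hF q.1) q.2 x
    rw [← h2]
    exact h1
  set sn : ℝ × R2 n →L[ℝ] R2 n := ContinuousLinearMap.snd ℝ ℝ (R2 n) with hsn
  have hF' : JC k (R2 n) (fun (q : C × ℝ) (z : ℝ × R2 n) => F q.1 (q.2, z.2)) :=
    preLin sn (hJ k)
  have hA' : JC k (R2 n →L[ℝ] R2 n) (fun (q : C × ℝ) (z : ℝ × R2 n) => DFm (F q.1) (q.2, z.2)) :=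
    preLin sn (hA k)
  have hst : JC k ℝ (fun (_ : C × ℝ) (z : ℝ × R2 n) => Real.smoothTransition z.1) :=
    JC.ofSmooth (Real.smoothTransition.contDiff.comp contDiff_fst) k
  have hst1 : JC k ℝ (fun (_ : C × ℝ) (z : ℝ × R2 n) => 1 - Real.smoothTransition z.1) :=
    JC.ofSmooth (contDiff_const.sub (Real.smoothTransition.contDiff.comp contDiff_fst)) k
  have hsd : JC k ℝ (fun (_ : C × ℝ) (z : ℝ × R2 n) => deriv Real.smoothTransition z.1) :=
    JC.ofSmooth (step_deriv_smooth.comp contDiff_fst) k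
  -- the primitive
  have hal : JC k (R2 n →L[ℝ] ℝ)
      (fun (q : C × ℝ) (z : ℝ × R2 n) => al (F q.1) (q.2, z.2)) := by
    have h1 : JC k (R2 n →L[ℝ] ℝ)
        (fun (q : C × ℝ) (z : ℝ × R2 n) => (W n (F q.1 (q.2, z.2))).comp
          (DFm (F q.1) (q.2, z.2))) :=
      JC.bilin (ContinuousLinearMap.compL ℝ (R2 n) (R2 n) ℝ) (postLin (W n) hF') hA'
    have h2 : JC k (R2 n →L[ℝ] ℝ) (fun (_ : C × ℝ) (z : ℝ × R2 n) => -(W n z.2)) :=
      JC.neg (JC.ofSmooth ((W n).contDiff.comp contDiff_snd) k)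
    have h3 := JC.smulP (a := fun _ : C × ℝ => (1 / 2 : ℝ)) continuous_const (h1.add h2)
    have h4 : (fun (q : C × ℝ) (z : ℝ × R2 n) => al (F q.1) (q.2, z.2)) =
        fun q z => (1 / 2 : ℝ) • ((W n (F q.1 (q.2, z.2))).comp (DFm (F q.1) (q.2, z.2)) +
          -(W n z.2)) := by
      funext q z
      unfold al
      rw [sub_eq_add_neg]
    rw [h4]
    exact h3
  -- the forms
  have hOm : JC k (R2 n →L[ℝ] R2 n →L[ℝ] ℝ) (fun (q : C × ℝ) (z : ℝ × R2 n) =>
      Om (Real.smoothTransition z.1) (DFm (F q.1) (q.2, z.2))) := by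
    unfold Om
    have h1 : JC k (R2 n →L[ℝ] R2 n →L[ℝ] ℝ)
        (fun (_ : C × ℝ) (z : ℝ × R2 n) => (1 - Real.smoothTransition z.1) • W n) :=
      smulJC hst1 (JC.constX (a := fun _ : C × ℝ => W n) continuous_const k)
    have h2 : JC k ((R2 n →L[ℝ] ℝ) →L[ℝ] (R2 n →L[ℝ] ℝ)) (fun (q : C × ℝ) (z : ℝ × R2 n) =>
        (ContinuousLinearMap.compL ℝ (R2 n) (R2 n) ℝ).flip (DFm (F q.1) (q.2, z.2))) :=
      postLin _ hA'
    have h3 : JC k (R2 n →L[ℝ] R2 n →L[ℝ] ℝ) (fun (q : C × ℝ) (z : ℝ × R2 n) =>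
        (W n).comp (DFm (F q.1) (q.2, z.2))) :=
      compJC (JC.constX (a := fun _ : C × ℝ => W n) continuous_const k) hA'
    have h4 : JC k (R2 n →L[ℝ] R2 n →L[ℝ] ℝ) (fun (q : C × ℝ) (z : ℝ × R2 n) =>
        ((ContinuousLinearMap.compL ℝ (R2 n) (R2 n) ℝ).flip (DFm (F q.1) (q.2, z.2))).comp
          ((W n).comp (DFm (F q.1) (q.2, z.2)))) :=
      compJC h2 h3
    exact h1.add (smulJC hst h4)
  have hinv : JC k ((R2 n →L[ℝ] ℝ) →L[ℝ] R2 n) (fun (q : C × ℝ) (z : ℝ × R2 n) =>
      (Om (Real.smoothTransition z.1) (DFm (F q.1) (q.2, z.2))).inverse) :=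
    inverseJC hOm fun q z => exists_equiv finrank_dual _
      fun v h => Om_inj' (tame q.1) z.1 (q.2, z.2) v h
  have happ : JC k (R2 n) (fun (q : C × ℝ) (z : ℝ × R2 n) =>
      (Om (Real.smoothTransition z.1) (DFm (F q.1) (q.2, z.2))).inverse (al (F q.1) (q.2, z.2))) :=
    JC.bilin (ContinuousLinearMap.id ℝ ((R2 n →L[ℝ] ℝ) →L[ℝ] R2 n)) hinv hal
  have hrho : Continuous (fun q : C × ℝ => rho q.2) := rho_smooth.continuous.comp continuous_snd
  have hfin := JC.neg (JC.smulP hrho (smulJC hsd happ))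
  have h5 : (fun (q : C × ℝ) (z : ℝ × R2 n) => Xf (F q.1) (z.1, (q.2, z.2))) =
      fun q z => -(rho q.2 • (deriv Real.smoothTransition z.1 •
        ((Om (Real.smoothTransition z.1) (DFm (F q.1) (q.2, z.2))).inverse
          (al (F q.1) (q.2, z.2))))) := by
    funext q z
    unfold Xf
    simp only [mul_smul]
  rw [h5]
  exact hfin

end Pool.Agent.W5h49.EC
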