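import Mathlib
import Pool.Agent.W5h49.EC.MosFam2
import Pool.Agent.W5h49.EC.MainFam
import Pool.Agent.W5h49.EC.Defs4
import Pool.Agent.W5h49.EC.Nem
import Pool.Agent.W5h49.EC.Ev
import Pool.Agent.W5h49.EC.FlowJC
import Pool.Agent.W5h49.EC.XJC

/-!
# The kernel theorem for families with variable scale, and its consequences
-/

set_option autoImplicit false

open scoped ContDiff Topology
open MeasureTheory

namespace Pool.Agent.W5h49.EC

open Pool.Agent.W71.EC Pool.Agent.W5h83.HG

variable {n : ℕ}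

/-- **Kernel form of the theorem for families.** -/
theorem kerfam (hM : S_MOLJC2 n) : S_KERFAM n := by
  intro η hη θ κ hθ hκ C _ _ f g R hR hR0 hφ hψ hd
  obtain ⟨F, K, c, r, hF, hJ, hK, hF0, hF1, hF2, hr, hc, hcr, hDF, hconst⟩ := hM C f g η hη R hR
  have h := moser_fam2 (flow_jc nem ev n) (xjc n) C F K hF hJ hK hF0 ?_ f g hF1 hF2
  · exact rel_mono h fun p hp => hconst p hp (hR0 p hp)
  · intro p t x v hv
    have h1 : 0 ≤ r t * R p := mul_nonneg (hr t).1 (hR p)
    have h2 : r t * R p ≤ R p := mul_le_of_le_one_left (hR p) (hr t).2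
    rw [hDF, hDF]
    have hκ' : max κ 0 < 4 * (1 - θ) := max_lt hκ (by linarith)
    refine tame_aux hθ hκ' (hc t).1 (hc t).2 hv
      (var2 n (f p) η hη θ (R p) (hφ p) (r t * R p) h1 h2 x v)
      (var2 n (g p) η hη θ (R p) (hψ p) (r t * R p) h1 h2 x v) ?_
    rcases hcr t with h | h | h
    · exact Or.inl h
    · exact Or.inr (Or.inl h)
    · refine Or.inr (Or.inr ?_)
      rw [h, one_mul]
      have h3 : ∀ x v, nsq (MD η (f p) (R p) x v - MD η (g p) (R p) x v) ≤
          max κ 0 * nsq v := by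
        intro x v
        rcases (hR p).eq_or_lt with h0 | h0
        · rw [hR0 p h0.symm, sub_self]
          have h4 : nsq (0 : R2 n) = 0 := by simp [nsq]
          rw [h4]
          exact mul_nonneg (le_max_right _ _) (nsqNN v)
        · exact (hd p h0 x v).trans (mul_le_mul_of_nonneg_right (le_max_left _ _) (nsqNN v))
      refine ⟨h3 x v, ?_⟩
      have := h3 x (J v)
      rwa [nsq_J] at this

theorem VarLe.mono {η : R2 n → ℝ} {θ R R' : ℝ} {φ : SympCt n} (h : VarLe η θ R φ)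
    (hR : R' ≤ R) : VarLe η θ R' φ := fun r h0 h1 => h r h0 (h1.trans hR)

theorem eq_of_toEquiv {φ ψ : SympCt n} (h : ∀ x, ‖φ.toEquiv x - ψ.toEquiv x‖ ≤ 0) : φ = ψ :=
  SympCt.ext' fun x => sub_eq_zero.1 (norm_le_zero_iff.1 (h x))

/-- two families -/
theorem two_maps_fam2 (hM : S_MOLJC2 n) (hS : S_SUPC n) {θ : ℝ} (hθ : θ < 1) :
    ∃ c : ℝ, 0 < c ∧
    ∀ (R : ℝ), 0 < R → ∀ (C : Type) [TopologicalSpace C] [CompactSpace C]
      (f g : C(C, SympCt n)), (∀ p, OscLe θ R (f p)) → (∀ p, OscLe θ R (g p)) →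
      (∀ p x, ⨍ y in Metric.ball x R, ‖(f p).toEquiv y - (g p).toEquiv y‖ ≤ c * R) →
      f.HomotopicRel g {p | f p = g p} := by
  obtain ⟨η, θ', hη, hs, hθ', hcube⟩ := cube2 n θ hθ
  obtain ⟨C₀, hC0, hdiff⟩ := diff n η hη hs
  have h1 : 0 < 1 - θ' := by linarith
  set c : ℝ := Real.sqrt (1 - θ') / C₀ with hc
  have hc0 : 0 < c := div_pos (Real.sqrt_pos.2 h1) hC0
  refine ⟨c, hc0, ?_⟩
  intro R hR C _ _ f g hφ hψ hd
  obtain ⟨M, hM0, hM1, hM2⟩ := hS C f g
  let ρ : C(C, ℝ) := ⟨fun p => min R (M p / c), continuous_const.min (M.continuous.div_const c)⟩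
  have hρ : ∀ p, ρ p = min R (M p / c) := fun p => rfl
  have hρR : ∀ p, ρ p ≤ R := fun p => min_le_left _ _
  have hρ0 : ∀ p, 0 ≤ ρ p := fun p => le_min hR.le (div_nonneg (hM0 p) hc0.le)
  have hρe : ∀ p, ρ p = 0 → f p = g p := by
    intro p hp
    have h2 : M p / c ≤ 0 := by
      by_contra h3
      push Not at h3
      have : 0 < ρ p := lt_min hR h3
      exact this.ne' hp
    have h3 : M p ≤ 0 := by
      by_contra h4
      push Not at h4
      exact absurd (div_pos h4 hc0) (not_lt.2 h2)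
    exact eq_of_toEquiv fun x => (hM1 p x).trans h3
  have key := kerfam hM η hη θ' (1 - θ') hθ' (by linarith) C f g ρ hρ0 hρe
    (fun p => (hcube _ R (hφ p)).mono (hρR p)) (fun p => (hcube _ R (hψ p)).mono (hρR p)) ?_
  · refine rel_mono key fun p hp => ?_
    have hp' : f p = g p := hp
    change ρ p = 0
    rw [hρ, hM2 p hp', zero_div]
    exact min_eq_right hR.le
  · intro p hp x v
    have hcont : Continuous (fun y => ‖(f p).toEquiv y - (g p).toEquiv y‖) :=
      ((f p).smooth.continuous.sub (g p).smooth.continuous).norm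
    have hav : ⨍ y in Metric.ball x (ρ p), ‖(f p).toEquiv y - (g p).toEquiv y‖ ≤ c * ρ p := by
      rcases le_total R (M p / c) with h2 | h2
      · have h3 : ρ p = R := min_eq_left h2
        rw [h3]
        exact hd p x
      · have h3 : ρ p = M p / c := min_eq_right h2
        rw [h3, mul_div_cancel₀ _ hc0.ne']
        exact avg_le hcont (hM0 p) (hM1 p) x _
    refine (hdiff (f p) (g p) (ρ p) hp x v).trans ?_
    refine mul_le_mul_of_nonneg_right ?_ (nsqNN v)
    have h2 : C₀ / ρ p * ⨍ y in Metric.ball x (ρ p), ‖(f p).toEquiv y - (g p).toEquiv y‖ ≤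
        Real.sqrt (1 - θ') := by
      calc _ ≤ C₀ / ρ p * (c * ρ p) :=
            mul_le_mul_of_nonneg_left hav (by positivity)
        _ = Real.sqrt (1 - θ') := by
            rw [hc]
            field_simp
    have h3 : 0 ≤ C₀ / ρ p * ⨍ y in Metric.ball x (ρ p), ‖(f p).toEquiv y - (g p).toEquiv y‖ := by
      refine mul_nonneg (by positivity) ?_
      rw [setAverage_eq]
      refine smul_nonneg (by positivity) (integral_nonneg fun y => norm_nonneg _)
    calc _ ≤ Real.sqrt (1 - θ') ^ 2 := by gcongr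
      _ = 1 - θ' := Real.sq_sqrt h1.le

/-- families with small mean oscillation at all scales are null homotopic -/
theorem all_scales_fam2 (hM : S_MOLJC2 n) (hS : S_SUPC n) {θ : ℝ} (hθ : θ < 1) (C : Type)
    [TopologicalSpace C] [CompactSpace C] (f : C(C, SympCt n))
    (h : ∀ p, ∀ R : ℝ, 0 < R → OscLe θ R (f p)) :
    f.HomotopicRel (ContinuousMap.const C one) {p | f p = one} := by
  obtain ⟨c, hc, key⟩ := two_maps_fam2 (n := n) hM hS hθ
  obtain ⟨M, hM0, hM⟩ := disp_bound f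
  set R : ℝ := M / c + 1 with hR
  have hR0 : 0 < R := by positivity
  refine key R hR0 C f (ContinuousMap.const C one) (fun p => h p R hR0)
    (fun p => osc_one (h p R hR0)) ?_
  intro p x
  have hcont : Continuous (fun y => ‖(f p).toEquiv y - (one : SympCt n).toEquiv y‖) := by
    have h1 : Continuous (f p).toEquiv := (f p).smooth.continuous
    exact (h1.sub continuous_id).norm
  refine (avg_le hcont hM0 (hM p) x R).trans ?_
  rw [hR, mul_add, mul_div_cancel₀ _ hc.ne']
  linarith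

/-- local near isometries, families -/
theorem metric_maps_fam2 (hM : S_MOLJC2 n) (hS : S_SUPC n) (Λ : ℝ) (hΛ : 0 < Λ) :
    ∃ ε c : ℝ, 0 < ε ∧ 0 < c ∧
    ∀ (R : ℝ), 0 < R → ∀ (C : Type) [TopologicalSpace C] [CompactSpace C]
      (f g : C(C, SympCt n)),
      (∀ p x v, nsq (D (f p) x v) ≤ Λ * nsq v) → (∀ p x v, nsq (D (g p) x v) ≤ Λ * nsq v) →
      (∀ p x y v, ‖x - y‖ ≤ R → nsq (D (f p) y v) ≤ (1 + ε) * nsq (D (f p) x v)) →
      (∀ p x y v, ‖x - y‖ ≤ R → nsq (D (g p) y v) ≤ (1 + ε) * nsq (D (g p) x v)) →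
      (∀ p x, ‖(f p).toEquiv x - (g p).toEquiv x‖ ≤ c * R) →
      f.HomotopicRel g {p | f p = g p} := by
  obtain ⟨ε, c, η, hε, hc, hη, hs, hloc⟩ := nearloc n Λ (1 / 2) hΛ (by norm_num)
  obtain ⟨C₀, hC0, hdiff⟩ := diff n η hη hs
  refine ⟨ε, c / C₀, hε, div_pos hc hC0, ?_⟩
  intro R hR C _ _ f g hφΛ hψΛ hφ hψ hd
  obtain ⟨M, hM0, hM1, hM2⟩ := hS C f g
  have hcR : 0 < c * R := mul_pos hc hR
  -- scale `ρ p = min (c R) (C₀ M p)`
  let ρ : C(C, ℝ) := ⟨fun p => min (c * R) (C₀ * M p),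
    continuous_const.min (continuous_const.mul M.continuous)⟩
  have hρ : ∀ p, ρ p = min (c * R) (C₀ * M p) := fun p => rfl
  have hρR : ∀ p, ρ p ≤ c * R := fun p => min_le_left _ _
  have hρ0 : ∀ p, 0 ≤ ρ p := fun p => le_min hcR.le (mul_nonneg hC0.le (hM0 p))
  have hρe : ∀ p, ρ p = 0 → f p = g p := by
    intro p hp
    have h3 : M p ≤ 0 := by
      by_contra h4
      push Not at h4
      have : 0 < ρ p := lt_min hcR (mul_pos hC0 h4)
      exact this.ne' hp
    exact eq_of_toEquiv fun x => (hM1 p x).trans h3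
  have key := kerfam hM η hη (1 / 2) 1 (by norm_num) (by norm_num) C f g ρ hρ0 hρe
    (fun p => (hloc _ R (hφΛ p) (hφ p)).mono (hρR p))
    (fun p => (hloc _ R (hψΛ p) (hψ p)).mono (hρR p)) ?_
  · refine rel_mono key fun p hp => ?_
    have hp' : f p = g p := hp
    change ρ p = 0
    rw [hρ, hM2 p hp', mul_zero]
    exact min_eq_right hcR.le
  · intro p hp x v
    have hcont : Continuous (fun y => ‖(f p).toEquiv y - (g p).toEquiv y‖) :=
      ((f p).smooth.continuous.sub (g p).smooth.continuous).norm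
    have hav : C₀ * ⨍ y in Metric.ball x (ρ p), ‖(f p).toEquiv y - (g p).toEquiv y‖ ≤ ρ p := by
      rcases le_total (c * R) (C₀ * M p) with h2 | h2
      · have h3 : ρ p = c * R := min_eq_left h2
        rw [h3]
        calc _ ≤ C₀ * (c / C₀ * R) :=
              mul_le_mul_of_nonneg_left (avg_le hcont (by positivity) (hd p) x _) hC0.le
          _ = c * R := by field_simp
      · have h3 : ρ p = C₀ * M p := min_eq_right h2
        rw [h3]
        exact mul_le_mul_of_nonneg_left (avg_le hcont (hM0 p) (hM1 p) x _) hC0.le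
    refine (hdiff (f p) (g p) (ρ p) hp x v).trans ?_
    refine mul_le_mul_of_nonneg_right ?_ (nsqNN v)
    have h0 : 0 ≤ ⨍ y in Metric.ball x (ρ p), ‖(f p).toEquiv y - (g p).toEquiv y‖ := by
      rw [setAverage_eq]
      exact smul_nonneg (by positivity) (integral_nonneg fun y => norm_nonneg _)
    have h2 : C₀ / ρ p * ⨍ y in Metric.ball x (ρ p), ‖(f p).toEquiv y - (g p).toEquiv y‖
        ≤ 1 := by
      rw [div_mul_eq_mul_div, div_le_one hp]
      exact hav
    have h3 : 0 ≤ C₀ / ρ p *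
        ⨍ y in Metric.ball x (ρ p), ‖(f p).toEquiv y - (g p).toEquiv y‖ :=
      mul_nonneg (by positivity) h0
    exact pow_le_one₀ h3 h2

end Pool.Agent.W5h49.EC
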