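import Pool.Agent.W5h49.EC.Defs4
import Pool.Agent.W5h49.EC.MolJC

/-!
# Mollified families of families, the scale depends on the parameter (task MOLJC2)
-/

set_option autoImplicit false
set_option maxHeartbeats 1000000

open scoped ContDiff Topology
open MeasureTheory Set Metric

namespace Pool.Agent.W5h49.EC

open Pool.Agent.W71.EC Pool.Agent.W5h83.HG

theorem moljc2 (n : ℕ) : S_MOLJC2 n := by
  intro C _ _ f g η hη R hR
  set c : ℝ → ℝ := fun t => Real.smoothTransition (3 * t - 1) with hc
  set r : ℝ → ℝ := fun t =>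
    Real.smoothTransition (3 * t) * Real.smoothTransition (3 - 3 * t) with hr
  have hcs : ContDiff ℝ ∞ c :=
    Real.smoothTransition.contDiff.comp ((contDiff_const.mul contDiff_id).sub contDiff_const)
  have hrs : ContDiff ℝ ∞ r :=
    (Real.smoothTransition.contDiff.comp
      (contDiff_const.mul contDiff_id)).mul (Real.smoothTransition.contDiff.comp
        (contDiff_const.sub (contDiff_const.mul contDiff_id)))
  have hc0 : ∀ t, 0 ≤ c t ∧ c t ≤ 1 := fun t =>
    ⟨Real.smoothTransition.nonneg _, Real.smoothTransition.le_one _⟩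
  have hr0 : ∀ t, 0 ≤ r t ∧ r t ≤ 1 := by
    intro t
    have h1 := Real.smoothTransition.nonneg (3 * t)
    have h2 := Real.smoothTransition.le_one (3 * t)
    have h3 := Real.smoothTransition.nonneg (3 - 3 * t)
    have h4 := Real.smoothTransition.le_one (3 - 3 * t)
    exact ⟨mul_nonneg h1 h3, mul_le_one₀ h2 h3 h4⟩
  obtain ⟨T0, hT0⟩ := (isCompact_range R.continuous).bddAbove
  set T : ℝ := max T0 0 with hT
  have hRT : ∀ p, R p ≤ T := fun p => (hT0 ⟨p, rfl⟩).trans (le_max_left _ _)
  have hT1 : 0 ≤ T := le_max_right _ _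
  have hrR0 : ∀ t p, 0 ≤ r t * R p := fun t p => mul_nonneg (hr0 t).1 (hR p)
  have hrR1 : ∀ t p, r t * R p ≤ T := fun t p =>
    (mul_le_of_le_one_left (hR p) (hr0 t).2).trans (hRT p)
  obtain ⟨m1, hm1⟩ := supp_unif (isCompact_range f.continuous)
  obtain ⟨m2, hm2⟩ := supp_unif (isCompact_range g.continuous)
  obtain ⟨B1, hB1⟩ := HH_supp_unif hη m1 hT1
  obtain ⟨B2, hB2⟩ := HH_supp_unif hη m2 hT1
  have hDF : ∀ p t x, DF (fun q : ℝ × R2 n => q.2 + ((1 - c q.1) • HH η (f p) (r q.1 * R p) q.2 +
      c q.1 • HH η (g p) (r q.1 * R p) q.2)) t x =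
      ContinuousLinearMap.id ℝ (R2 n) +
        ((1 - c t) • (∫ y, η y • fderiv ℝ (hh (f p)) (x - (r t * R p) • y)) +
        c t • ∫ y, η y • fderiv ℝ (hh (g p)) (x - (r t * R p) • y)) := by
    intro p t x
    exact ((hasFDerivAt_id x).add (((HH_fderiv hη (f p) (r t * R p) x).const_smul (1 - c t)).add
      ((HH_fderiv hη (g p) (r t * R p) x).const_smul (c t)))).fderiv
  have hhJ : ∀ (f : C(C, SympCt n)) (k : ℕ), JC k (R2 n) (fun p x => hh (f p) x) := by
    intro f k
    have h1 := (JS.of_continuous f.continuous k).add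
      (JC.ofSmooth (P := C) (φ := fun x : R2 n => -x) contDiff_neg k)
    have h2 : (fun p x => hh (f p) x) = fun p x => (f p).toEquiv x + -x := by
      funext p x
      rw [hh, sub_eq_add_neg]
    rw [h2]
    exact h1
  have hHJ : ∀ (f : C(C, SympCt n)) (k : ℕ),
      JC k (R2 n) (fun (q : C × ℝ) x => HH η (f q.1) (r q.2 * R q.1) x) := by
    intro f k
    exact JC_int hη (σ := fun q : C × ℝ => r q.2 * R q.1)
      ((hrs.continuous.comp continuous_snd).mul (R.continuous.comp continuous_fst)) k
      ((hhJ f k).param continuous_fst)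
  refine ⟨fun p q => q.2 + ((1 - c q.1) • HH η (f p) (r q.1 * R p) q.2 +
      c q.1 • HH η (g p) (r q.1 * R p) q.2),
    closedBall 0 (max B1 B2), c, r, ?_, ?_, isCompact_closedBall _ _, ?_, ?_, ?_, hr0, hc0, ?_, ?_,
    ?_⟩
  · intro p
    apply contDiff_snd.add
    have e1 : ContDiff ℝ ∞ (fun q : ℝ × R2 n => (r q.1 * R p, q.2)) :=
      ((hrs.comp contDiff_fst).mul contDiff_const).prodMk contDiff_snd
    have e2 : ContDiff ℝ ∞ (fun p : ℝ × R2 n => c p.1) := hcs.comp contDiff_fst
    exact ((contDiff_const.sub e2).smul ((HH_smooth hη (f p)).comp e1)).add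
      (e2.smul ((HH_smooth hη (g p)).comp e1))
  · intro k
    have h1 : Continuous (fun q : C × ℝ => 1 - c q.2) :=
      continuous_const.sub (hcs.continuous.comp continuous_snd)
    have h2 : Continuous (fun q : C × ℝ => c q.2) := hcs.continuous.comp continuous_snd
    exact (JC.ofSmooth (P := C × ℝ) (φ := fun x : R2 n => x) contDiff_id k).add
      (((hHJ f k).smulP h1).add ((hHJ g k).smulP h2))
  · intro p t x hx
    have h1 : HH η (f p) (r t * R p) x = 0 :=
      hB1 (f p) (hm1 _ ⟨p, rfl⟩) (r t * R p) (hrR0 t p) (hrR1 t p) x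
        (fun h => hx (closedBall_subset_closedBall (le_max_left _ _) h))
    have h2 : HH η (g p) (r t * R p) x = 0 :=
      hB2 (g p) (hm2 _ ⟨p, rfl⟩) (r t * R p) (hrR0 t p) (hrR1 t p) x
        (fun h => hx (closedBall_subset_closedBall (le_max_right _ _) h))
    show x + ((1 - c t) • HH η (f p) (r t * R p) x + c t • HH η (g p) (r t * R p) x) = x
    rw [h1, h2, smul_zero, smul_zero, add_zero, add_zero]
  · intro p x
    show x + ((1 - c 0) • HH η (f p) (r 0 * R p) x + c 0 • HH η (g p) (r 0 * R p) x) =
      (f p).toEquiv x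
    have h1 : c 0 = 0 := Real.smoothTransition.zero_of_nonpos (by norm_num)
    have h2 : r 0 = 0 := by
      show Real.smoothTransition (3 * 0) * _ = 0
      rw [mul_zero, Real.smoothTransition.zero, zero_mul]
    rw [h1, h2, zero_mul, HH_zero hη]
    simp [hh]
  · intro p x
    show x + ((1 - c 1) • HH η (f p) (r 1 * R p) x + c 1 • HH η (g p) (r 1 * R p) x) =
      (g p).toEquiv x
    have h1 : c 1 = 1 := Real.smoothTransition.one_of_one_le (by norm_num)
    have h2 : r 1 = 0 := by
      show _ * Real.smoothTransition (3 - 3 * 1) = 0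
      have : (3 : ℝ) - 3 * 1 = 0 := by norm_num
      rw [this, Real.smoothTransition.zero, mul_zero]
    rw [h1, h2, zero_mul, HH_zero hη (g p)]
    simp [hh]
  · intro t
    rcases le_total (3 * t) 1 with ht | ht
    · left
      exact Real.smoothTransition.zero_of_nonpos (by linarith)
    · rcases le_total (3 * t) 2 with ht2 | ht2
      · right; right
        show Real.smoothTransition (3 * t) * Real.smoothTransition (3 - 3 * t) = 1
        rw [Real.smoothTransition.one_of_one_le ht,
          Real.smoothTransition.one_of_one_le (by linarith), mul_one]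
      · right; left
        exact Real.smoothTransition.one_of_one_le (by linarith)
  · intro p t x v
    rw [hDF, MD_eq hη (f p), MD_eq hη (g p)]
    simp only [_root_.add_apply, ContinuousLinearMap.id_apply, _root_.smul_apply,
      smul_add]
    have h5 : (1 - c t) • v + c t • v = v := by rw [← add_smul]; simp
    calc _ = ((1 - c t) • v + c t • v) + _ := by rw [h5]
      _ = _ := by abel
  · intro p hp hfg t x
    have h1 : ∀ t, x + ((1 - c t) • HH η (f p) (r t * R p) x +
        c t • HH η (g p) (r t * R p) x) = x + hh (f p) x := by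
      intro t
      rw [← hfg, hp, mul_zero, HH_zero hη, ← add_smul]
      simp
    show x + ((1 - c t) • HH η (f p) (r t * R p) x + c t • HH η (g p) (r t * R p) x) =
      x + ((1 - c 0) • HH η (f p) (r 0 * R p) x + c 0 • HH η (g p) (r 0 * R p) x)
    rw [h1, h1]

end Pool.Agent.W5h49.EC
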