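import Mathlib
import Pool.Agent.W5h49.EC.MosFam
import Pool.Agent.W5h49.EC.MosFam2
import Pool.Agent.W5h49.EC.XJC
import Pool.Agent.W5h83.HG.Prod

/-!
# Moser's argument when the segments between the two forms are nondegenerate
-/

set_option autoImplicit false

open scoped ContDiff Topology
open Set

namespace Pool.Agent.W5h49.EC.ND

open Pool.Agent.W71.EC Pool.Agent.W5h83.HG Pool.Agent.W5h49.EC Pool.Agent.W5h49.EC.XJ

variable {n : ℕ}

/-- the differentials are injective -/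
theorem A_inj {A : R2 n →L[ℝ] R2 n}
    (nd : ∀ (s : ℝ), 0 ≤ s → s ≤ 1 → ∀ v, Om s A v = 0 → v = 0) (v : R2 n) (h : A v = 0) :
    v = 0 := by
  refine nd 1 zero_le_one le_rfl v (ContinuousLinearMap.ext fun w => ?_)
  rw [Om_apply, h]
  simp

section

variable {F : ℝ × R2 n → R2 n} (hF : ContDiff ℝ ∞ F)
  (nd : ∀ z (s : ℝ), 0 ≤ s → s ≤ 1 → ∀ v, Om s (DFm F z) v = 0 → v = 0)

include nd in
theorem Om_inj' (s : ℝ) (z : ℝ × R2 n) (v : R2 n)
    (h : Om (Real.smoothTransition s) (DFm F z) v = 0) : v = 0 :=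
  nd z _ (Real.smoothTransition.nonneg s) (Real.smoothTransition.le_one s) v h

include hF nd in
theorem Xf_smooth : ContDiff ℝ ∞ (Xf F) := by
  unfold Xf
  refine ContDiff.neg (smul_smooth ?_ ?_)
  · exact (rho_smooth.comp (contDiff_fst.comp contDiff_snd)).mul
      (step_deriv_smooth.comp contDiff_fst)
  · refine (inverse_smooth finrank_dual (L := fun q : ℝ × (ℝ × R2 n) =>
      Om (Real.smoothTransition q.1) (DFm F q.2)) ?_ ?_).clm_apply
      ((al_smooth hF).comp contDiff_snd)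
    · exact Om_smooth (Real.smoothTransition.contDiff.comp contDiff_fst)
        ((DFm_smooth hF).comp contDiff_snd)
    · intro q v h
      exact Om_inj' nd q.1 q.2 v h

include nd in
theorem Xf_eq {t : ℝ} (ht : t ∈ Icc (0 : ℝ) 1) (s : ℝ) (x w : R2 n) :
    Om (Real.smoothTransition s) (DFm F (t, x)) (Xf F (s, (t, x))) w =
      - (deriv Real.smoothTransition s * al F (t, x) w) := by
  unfold Xf
  simp only
  rw [rho_one ht.1 ht.2, one_mul, map_neg, map_smul,
    inverse_apply finrank_dual _ (fun v h => Om_inj' nd s (t, x) v h)]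
  simp

variable {K : Set (R2 n)} (hK : IsCompact K) (h0 : ∀ t x, x ∉ K → F (t, x) = x)

include hF nd hK h0 in
/-- the flow of the Moser vector field -/
theorem exists_flow : ∃ Φ : ℝ → ℝ × R2 n → R2 n,
    ContDiff ℝ ∞ (fun q : ℝ × (ℝ × R2 n) => Φ q.1 q.2) ∧
    (∀ t x, Φ t (0, x) = x) ∧
    (∀ t s x, HasDerivAt (fun s => Φ t (s, x)) (Xf F (s, (t, Φ t (s, x)))) s) ∧
    (∀ t s, Function.Bijective (fun x => Φ t (s, x))) ∧
    (∀ t x, x ∉ K → ∀ s, Φ t (s, x) = x) := by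
  set Y : ℝ × (ℝ × R2 n) → ℝ × R2 n := fun q => (0, Xf F q) with hY
  have hYs : ContDiff ℝ ∞ Y := contDiff_const.prodMk (Xf_smooth hF nd)
  have hYc : HasCompactSupport Y := by
    refine HasCompactSupport.intro ((isCompact_Icc (a := (0 : ℝ)) (b := 1)).prod
      ((isCompact_Icc (a := (-2 : ℝ)) (b := 3)).prod hK)) ?_
    intro q hq
    rw [hY]
    simp only
    rw [Xf_out hF hK h0 q hq]
    rfl
  obtain ⟨Ψ, hΨ, hΨ0, hΨd, hΨb, hΨc⟩ := flow_time Y hYs hYc
  have hfst : ∀ s t x, (Ψ (s, (t, x))).1 = t := by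
    intro s t x
    have h1 : ∀ r, HasDerivAt (fun r => (Ψ (r, (t, x))).1) 0 r := by
      intro r
      have h3 := (hΨd r (t, x))
      have h4 := (ContinuousLinearMap.fst ℝ ℝ (R2 n)).hasFDerivAt.comp_hasDerivAt r h3
      have h5 : (ContinuousLinearMap.fst ℝ ℝ (R2 n)) (Y (r, Ψ (r, (t, x)))) = 0 := rfl
      rw [h5] at h4
      exact h4
    have h2 := is_const_of_deriv_eq_zero (fun r => (h1 r).differentiableAt)
      (fun r => (h1 r).deriv) s 0
    simp only [hΨ0] at h2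
    exact h2
  have hpair : ∀ s t x, Ψ (s, (t, x)) = (t, (Ψ (s, (t, x))).2) := fun s t x =>
    Prod.ext (hfst s t x) rfl
  refine ⟨fun t q => (Ψ (q.1, (t, q.2))).2, ?_, ?_, ?_, ?_, ?_⟩
  · exact contDiff_snd.comp (hΨ.comp ((contDiff_fst.comp contDiff_snd).prodMk
      (contDiff_fst.prodMk (contDiff_snd.comp contDiff_snd))))
  · intro t x
    simp [hΨ0]
  · intro t s x
    have h3 := (hΨd s (t, x))
    have h4 := (ContinuousLinearMap.snd ℝ ℝ (R2 n)).hasFDerivAt.comp_hasDerivAt s h3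
    have h5 : (ContinuousLinearMap.snd ℝ ℝ (R2 n)) (Y (s, Ψ (s, (t, x)))) =
        Xf F (s, (t, (Ψ (s, (t, x))).2)) := by
      rw [← hpair]
      rfl
    rw [h5] at h4
    exact h4
  · intro t s
    constructor
    · intro x x' h
      have h1 : Ψ (s, (t, x)) = Ψ (s, (t, x')) := by
        rw [hpair, hpair s t x']
        exact Prod.ext rfl h
      have h2 := (hΨb s).1 h1
      exact (Prod.ext_iff.1 h2).2
    · intro y
      obtain ⟨⟨t', x⟩, hx⟩ := (hΨb s).2 (t, y)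
      have h1 : t' = t := by
        have := congrArg Prod.fst hx
        simp only [hfst] at this
        exact this
      subst h1
      refine ⟨x, ?_⟩
      have := congrArg Prod.snd hx
      exact this
  · intro t x hx s
    have h1 := hΨc (t, x) (fun s => by
      rw [hY]
      simp only
      rw [Xf_out hF hK h0 (s, (t, x)) (fun h => hx h.2.2)]
      rfl) s
    simp only
    rw [h1]

include hF nd in
/-- the pulled back forms are constant along the Moser flow -/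
theorem moser_const {Φ : ℝ → ℝ × R2 n → R2 n}
    (hΦ : ContDiff ℝ ∞ (fun q : ℝ × (ℝ × R2 n) => Φ q.1 q.2)) (hΦ0 : ∀ t x, Φ t (0, x) = x)
    (hΦd : ∀ t s x, HasDerivAt (fun s => Φ t (s, x)) (Xf F (s, (t, Φ t (s, x)))) s)
    {t : ℝ} (ht : t ∈ Icc (0 : ℝ) 1) (s : ℝ) (x v w : R2 n) :
    (1 - Real.smoothTransition s) * W n (dd (Φ t) (iv v) (s, x)) (dd (Φ t) (iv w) (s, x))
      + Real.smoothTransition s * W n (DFm F (t, Φ t (s, x)) (dd (Φ t) (iv v) (s, x)))
        (DFm F (t, Φ t (s, x)) (dd (Φ t) (iv w) (s, x))) = W n v w := by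
  have hΦt : ContDiff ℝ ∞ (Φ t) := hΦ.comp (contDiff_const.prodMk contDiff_id)
  set f : ℝ × R2 n → R2 n := fun p => F (t, Φ t p) with hf
  have hfs : ContDiff ℝ ∞ f := hF.comp (contDiff_const.prodMk hΦt)
  have hddf : ∀ (b p : ℝ × R2 n), dd f b p = DFm F (t, Φ t p) (dd (Φ t) b p) := by
    intro b p
    have h1 : HasFDerivAt (fun y => F (t, y)) (DFm F (t, Φ t p)) (Φ t p) := by
      rw [← DFm_eq hF]
      have : ContDiff ℝ ∞ (fun y => F (t, y)) := hF.comp (contDiff_const.prodMk contDiff_id)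
      exact ((this.differentiable (by simp)) _).hasFDerivAt
    have h2 : HasFDerivAt (Φ t) (fderiv ℝ (Φ t) p) p :=
      ((hΦt.differentiable (by simp)) _).hasFDerivAt
    have h3 := h1.comp p h2
    have h4 : HasFDerivAt f ((DFm F (t, Φ t p)).comp (fderiv ℝ (Φ t) p)) p := h3
    unfold dd
    rw [h4.fderiv]
    rfl
  have hdde : ∀ p : ℝ × R2 n, dd (Φ t) (ee (R2 n)) p = Xf F (p.1, (t, Φ t p)) := by
    intro p
    have h1 : HasDerivAt (fun r : ℝ => ((r, p.2) : ℝ × R2 n)) (ee (R2 n)) p.1 :=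
      (hasDerivAt_id p.1).prodMk (hasDerivAt_const p.1 p.2)
    have h2 : HasFDerivAt (Φ t) (fderiv ℝ (Φ t) (p.1, p.2)) (p.1, p.2) :=
      ((hΦt.differentiable (by simp)) _).hasFDerivAt
    have h3 := h2.comp_hasDerivAt p.1 h1
    exact h3.unique (hΦd t p.1 p.2)
  have h := conserve (W n) W_anti Real.smoothTransition Real.smoothTransition.contDiff (Φ t) f
    hΦt hfs (fun p w => ?_) x v w s
  · rw [hddf, hddf] at h
    rw [h, Real.smoothTransition.zero]
    have h1 : ∀ u : R2 n, dd (Φ t) (iv u) (0, x) = u := by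
      intro u
      have h2 : HasFDerivAt (fun y : R2 n => Φ t (0, y))
          ((fderiv ℝ (Φ t) (0, x)).comp (ContinuousLinearMap.inr ℝ ℝ (R2 n))) x := by
        have h3 : HasFDerivAt (Φ t) (fderiv ℝ (Φ t) (0, x)) (0, x) :=
          ((hΦt.differentiable (by simp)) _).hasFDerivAt
        have h4 : HasFDerivAt (fun y : R2 n => ((0, y) : ℝ × R2 n))
            (ContinuousLinearMap.inr ℝ ℝ (R2 n)) x := by
          have := (hasFDerivAt_const (𝕜 := ℝ) (E := R2 n) (0 : ℝ) x).prodMk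
            (hasFDerivAt_id (𝕜 := ℝ) (E := R2 n) x)
          exact this
        exact h3.comp x h4
      have h5 : (fun y : R2 n => Φ t (0, y)) = id := funext (hΦ0 t)
      rw [h5] at h2
      have h6 := h2.unique (hasFDerivAt_id x)
      exact DFunLike.congr_fun h6 u
    rw [h1, h1]
    ring
  · rw [hddf, hddf, hdde]
    have h1 := Xf_eq nd ht p.1 (Φ t p) (dd (Φ t) (iv w) p)
    rw [Om_apply] at h1
    have h2 : al F (t, Φ t p) (dd (Φ t) (iv w) p) = 1 / 2 *
        (W n (f p) (DFm F (t, Φ t p) (dd (Φ t) (iv w) p)) - W n (Φ t p) (dd (Φ t) (iv w) p)) := by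
      unfold al
      simp [hf]
    rw [h2] at h1
    linear_combination h1

end

/-- joint smoothness of the Moser vector field -/
theorem xjc (n : ℕ) (C : Type) [TopologicalSpace C] (F : C → ℝ × R2 n → R2 n)
    (hF : ∀ c, ContDiff ℝ ∞ (F c))
    (hJ : ∀ k, JC k (R2 n) (fun (q : C × ℝ) (x : R2 n) => F q.1 (q.2, x)))
    (nd : ∀ c z (s : ℝ), 0 ≤ s → s ≤ 1 → ∀ v, Om s (DFm (F c) z) v = 0 → v = 0) (k : ℕ) :
    JC k (R2 n) (fun (q : C × ℝ) (z : ℝ × R2 n) => Xf (F q.1) (z.1, (q.2, z.2))) := by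
  -- the family and its differential
  have hA : ∀ k, JC k (R2 n →L[ℝ] R2 n) (fun (q : C × ℝ) (x : R2 n) => DFm (F q.1) (q.2, x)) := by
    intro k
    have h1 := (hJ (k + 1)).2.2
    have h2 : (fun (q : C × ℝ) (x : R2 n) => fderiv ℝ (fun y => F q.1 (q.2, y)) x) =
        fun q x => DFm (F q.1) (q.2, x) := by
      funext q x
      exact DFm_eq (hF q.1) q.2 x
    rw [← h2]
    exact h1
  set sn : ℝ × R2 n →L[ℝ] R2 n := ContinuousLinearMap.snd ℝ ℝ (R2 n) with hsn
  have hF' : JC k (R2 n) (fun (q : C × ℝ) (z : ℝ × R2 n) => F q.1 (q.2, z.2)) :=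
    preLin sn (hJ k)
  have hA' : JC k (R2 n →L[ℝ] R2 n) (fun (q : C × ℝ) (z : ℝ × R2 n) => DFm (F q.1) (q.2, z.2)) :=
    preLin sn (hA k)
  have hst : JC k ℝ (fun (_ : C × ℝ) (z : ℝ × R2 n) => Real.smoothTransition z.1) :=
    JC.ofSmooth (Real.smoothTransition.contDiff.comp contDiff_fst) k
  have hst1 : JC k ℝ (fun (_ : C × ℝ) (z : ℝ × R2 n) => 1 - Real.smoothTransition z.1) :=
    JC.ofSmooth (contDiff_const.sub (Real.smoothTransition.contDiff.comp contDiff_fst)) k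
  have hsd : JC k ℝ (fun (_ : C × ℝ) (z : ℝ × R2 n) => deriv Real.smoothTransition z.1) :=
    JC.ofSmooth (step_deriv_smooth.comp contDiff_fst) k
  -- the primitive
  have hal : JC k (R2 n →L[ℝ] ℝ)
      (fun (q : C × ℝ) (z : ℝ × R2 n) => al (F q.1) (q.2, z.2)) := by
    have h1 : JC k (R2 n →L[ℝ] ℝ)
        (fun (q : C × ℝ) (z : ℝ × R2 n) => (W n (F q.1 (q.2, z.2))).comp
          (DFm (F q.1) (q.2, z.2))) :=
      JC.bilin (ContinuousLinearMap.compL ℝ (R2 n) (R2 n) ℝ) (postLin (W n) hF') hA'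
    have h2 : JC k (R2 n →L[ℝ] ℝ) (fun (_ : C × ℝ) (z : ℝ × R2 n) => -(W n z.2)) :=
      JC.neg (JC.ofSmooth ((W n).contDiff.comp contDiff_snd) k)
    have h3 := JC.smulP (a := fun _ : C × ℝ => (1 / 2 : ℝ)) continuous_const (h1.add h2)
    have h4 : (fun (q : C × ℝ) (z : ℝ × R2 n) => al (F q.1) (q.2, z.2)) =
        fun q z => (1 / 2 : ℝ) • ((W n (F q.1 (q.2, z.2))).comp (DFm (F q.1) (q.2, z.2)) +
          -(W n z.2)) := by
      funext q z
      unfold al
      rw [sub_eq_add_neg]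
    rw [h4]
    exact h3
  -- the forms
  have hOm : JC k (R2 n →L[ℝ] R2 n →L[ℝ] ℝ) (fun (q : C × ℝ) (z : ℝ × R2 n) =>
      Om (Real.smoothTransition z.1) (DFm (F q.1) (q.2, z.2))) := by
    unfold Om
    have h1 : JC k (R2 n →L[ℝ] R2 n →L[ℝ] ℝ)
        (fun (_ : C × ℝ) (z : ℝ × R2 n) => (1 - Real.smoothTransition z.1) • W n) :=
      smulJC hst1 (JC.constX (a := fun _ : C × ℝ => W n) continuous_const k)
    have h2 : JC k ((R2 n →L[ℝ] ℝ) →L[ℝ] (R2 n →L[ℝ] ℝ)) (fun (q : C × ℝ) (z : ℝ × R2 n) =>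
        (ContinuousLinearMap.compL ℝ (R2 n) (R2 n) ℝ).flip (DFm (F q.1) (q.2, z.2))) :=
      postLin _ hA'
    have h3 : JC k (R2 n →L[ℝ] R2 n →L[ℝ] ℝ) (fun (q : C × ℝ) (z : ℝ × R2 n) =>
        (W n).comp (DFm (F q.1) (q.2, z.2))) :=
      compJC (JC.constX (a := fun _ : C × ℝ => W n) continuous_const k) hA'
    have h4 : JC k (R2 n →L[ℝ] R2 n →L[ℝ] ℝ) (fun (q : C × ℝ) (z : ℝ × R2 n) =>
        ((ContinuousLinearMap.compL ℝ (R2 n) (R2 n) ℝ).flip (DFm (F q.1) (q.2, z.2))).comp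
          ((W n).comp (DFm (F q.1) (q.2, z.2)))) :=
      compJC h2 h3
    exact h1.add (smulJC hst h4)
  have hinv : JC k ((R2 n →L[ℝ] ℝ) →L[ℝ] R2 n) (fun (q : C × ℝ) (z : ℝ × R2 n) =>
      (Om (Real.smoothTransition z.1) (DFm (F q.1) (q.2, z.2))).inverse) :=
    inverseJC hOm fun q z => exists_equiv finrank_dual _
      fun v h => Om_inj' (nd q.1) z.1 (q.2, z.2) v h
  have happ : JC k (R2 n) (fun (q : C × ℝ) (z : ℝ × R2 n) =>
      (Om (Real.smoothTransition z.1) (DFm (F q.1) (q.2, z.2))).inverse (al (F q.1) (q.2, z.2))) :=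
    JC.bilin (ContinuousLinearMap.id ℝ ((R2 n →L[ℝ] ℝ) →L[ℝ] R2 n)) hinv hal
  have hrho : Continuous (fun q : C × ℝ => rho q.2) := rho_smooth.continuous.comp continuous_snd
  have hfin := JC.neg (JC.smulP hrho (smulJC hsd happ))
  have h5 : (fun (q : C × ℝ) (z : ℝ × R2 n) => Xf (F q.1) (z.1, (q.2, z.2))) =
      fun q z => -(rho q.2 • (deriv Real.smoothTransition z.1 •
        ((Om (Real.smoothTransition z.1) (DFm (F q.1) (q.2, z.2))).inverse
          (al (F q.1) (q.2, z.2))))) := by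
    funext q z
    unfold Xf
    simp only [mul_smul]
  rw [h5]
  exact hfin

/-- the corrected maps are symplectic -/
theorem moser_sympl {F : ℝ × R2 n → R2 n} (hF : ContDiff ℝ ∞ F)
    (nd : ∀ z (s : ℝ), 0 ≤ s → s ≤ 1 → ∀ v, Om s (DFm F z) v = 0 → v = 0) {Φ : ℝ → ℝ × R2 n → R2 n}
    (hΦ : ContDiff ℝ ∞ (fun q : ℝ × (ℝ × R2 n) => Φ q.1 q.2)) (hΦ0 : ∀ t x, Φ t (0, x) = x)
    (hΦd : ∀ t s x, HasDerivAt (fun s => Φ t (s, x)) (Xf F (s, (t, Φ t (s, x)))) s)
    {t : ℝ} (ht : t ∈ Icc (0 : ℝ) 1) (s : ℝ)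
    (hs : Real.smoothTransition s = 1 ∨
      ∀ p a b, omega (DFm F (t, p) a) (DFm F (t, p) b) = omega a b) (x u v : R2 n) :
    omega (fderiv ℝ (fun y => F (t, Φ t (s, y))) x u)
      (fderiv ℝ (fun y => F (t, Φ t (s, y))) x v) = omega u v := by
  have hΦt : ContDiff ℝ ∞ (Φ t) := hΦ.comp (contDiff_const.prodMk contDiff_id)
  have h1 : HasFDerivAt (fun y => F (t, y)) (DFm F (t, Φ t (s, x))) (Φ t (s, x)) := by
    rw [← DFm_eq hF]
    have : ContDiff ℝ ∞ (fun y => F (t, y)) := hF.comp (contDiff_const.prodMk contDiff_id)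
    exact ((this.differentiable (by simp)) _).hasFDerivAt
  have h2 : HasFDerivAt (fun y => Φ t (s, y)) (DFm (Φ t) (s, x)) x := by
    rw [← DFm_eq hΦt]
    have : ContDiff ℝ ∞ (fun y => Φ t (s, y)) := hΦt.comp (contDiff_const.prodMk contDiff_id)
    exact ((this.differentiable (by simp)) _).hasFDerivAt
  have h3 : HasFDerivAt (fun y => F (t, Φ t (s, y)))
      ((DFm F (t, Φ t (s, x))).comp (DFm (Φ t) (s, x))) x :=
    HasFDerivAt.comp (g := fun y => F (t, y)) (f := fun y => Φ t (s, y)) x h1 h2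
  rw [h3.fderiv]
  simp only [ContinuousLinearMap.comp_apply]
  have h4 := moser_const hF nd hΦ hΦ0 hΦd ht s x u v
  rw [W_apply, W_apply, W_apply] at h4
  rcases hs with hs | hs
  · rw [hs] at h4
    simp only [sub_self, zero_mul, one_mul, zero_add] at h4
    exact h4
  · rw [hs] at h4 ⊢
    have h5 : omega (dd (Φ t) (iv u) (s, x)) (dd (Φ t) (iv v) (s, x)) = omega u v := by
      linarith
    exact h5

/-- the correction does not depend on `t` where the family does not -/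
theorem flow_const {F : ℝ × R2 n → R2 n} (hF : ContDiff ℝ ∞ F)
    (nd : ∀ z (s : ℝ), 0 ≤ s → s ≤ 1 → ∀ v, Om s (DFm F z) v = 0 → v = 0) {K : Set (R2 n)}
    (hK : IsCompact K) (h0 : ∀ t x, x ∉ K → F (t, x) = x) {Φ : ℝ → ℝ × R2 n → R2 n}
    (hΦ0 : ∀ t x, Φ t (0, x) = x)
    (hΦd : ∀ t s x, HasDerivAt (fun s => Φ t (s, x)) (Xf F (s, (t, Φ t (s, x)))) s)
    (hc : ∀ t x, F (t, x) = F (0, x)) {t : ℝ} (ht : t ∈ Icc (0 : ℝ) 1) (s : ℝ) (x : R2 n) :
    Φ t (s, x) = Φ 0 (s, x) := by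
  have e1 : ∀ y, DFm F (t, y) = DFm F (0, y) := by
    intro y
    rw [← DFm_eq hF, ← DFm_eq hF]
    unfold DF
    have : (fun y => F (t, y)) = fun y => F (0, y) := funext (hc t)
    rw [this]
  have e2 : ∀ y, al F (t, y) = al F (0, y) := by
    intro y
    unfold al
    rw [e1, hc]
  have e3 : ∀ s y, Xf F (s, (t, y)) = Xf F (s, (0, y)) := by
    intro s y
    unfold Xf
    simp only
    rw [e1, e2, rho_one ht.1 ht.2, rho_one le_rfl zero_le_one]
  have hs : ContDiff ℝ ∞ (Xf F) := Xf_smooth hF nd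
  have hcs : HasCompactSupport (Xf F) :=
    HasCompactSupport.intro (isCompact_Icc.prod (isCompact_Icc.prod hK))
      (fun q hq => Xf_out hF hK h0 q hq)
  obtain ⟨L, hL⟩ := hs.lipschitzWith_of_hasCompactSupport hcs (by simp)
  have hL' : ∀ s, LipschitzWith L (fun y => Xf F (s, ((0 : ℝ), y))) := by
    intro s
    refine LipschitzWith.of_dist_le_mul fun a b => ?_
    refine (hL.dist_le_mul _ _).trans (le_of_eq ?_)
    simp [Prod.dist_eq]
  have h2 : (fun s => Φ t (s, x)) = fun s => Φ 0 (s, x) := by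
    refine ODE_solution_unique_univ (v := fun s y => Xf F (s, ((0 : ℝ), y)))
      (s := fun _ => univ) (K := L) (t₀ := 0)
      (fun s => (hL' s).lipschitzOnWith) (fun s => ⟨?_, trivial⟩)
      (fun s => ⟨hΦd 0 s x, trivial⟩) ?_
    · have := hΦd t s x
      rwa [e3] at this
    · rw [hΦ0, hΦ0]
  exact congrFun h2 s

/-- **Moser's argument for families**, relative to the parameters where the family is constant. -/
theorem moser_fam_nd (hFlow : S_FLOWJC n) (C : Type) [TopologicalSpace C]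
    [CompactSpace C] (F : C → ℝ × R2 n → R2 n) (K : Set (R2 n)) (hF : ∀ p, ContDiff ℝ ∞ (F p))
    (hJ : ∀ k, JC k (R2 n) (fun (q : C × ℝ) (x : R2 n) => F q.1 (q.2, x))) (hK : IsCompact K)
    (h0 : ∀ p t x, x ∉ K → F p (t, x) = x)
    (nd₀ : ∀ p t x (s : ℝ), 0 ≤ s → s ≤ 1 → ∀ v, Om s (DF (F p) t x) v = 0 → v = 0)
    (f g : C(C, SympCt n)) (hf : ∀ p x, F p (0, x) = (f p).toEquiv x)
    (hg : ∀ p x, F p (1, x) = (g p).toEquiv x) :
    f.HomotopicRel g {p | ∀ t x, F p (t, x) = F p (0, x)} := by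
  have nd : ∀ p z (s : ℝ), 0 ≤ s → s ≤ 1 → ∀ v, Om s (DFm (F p) z) v = 0 → v = 0 := by
    rintro p ⟨t, x⟩ s hs0 hs1 v hv
    rw [← DFm_eq (hF p)] at hv
    exact nd₀ p t x s hs0 hs1 v hv
  have hex := fun p => exists_flow (hF p) (nd p) hK (h0 p)
  choose Φ hΦ hΦ0 hΦd hΦb hΦc using hex
  have hb0 : ∀ p, Function.Bijective (fun x => F p (0, x)) := by
    intro p
    have : (fun x => F p (0, x)) = (f p).toEquiv := funext (hf p)
    rw [this]
    exact (f p).toEquiv.bijective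
  have hbF : ∀ p, ∀ t ∈ Icc (0 : ℝ) 1, Function.Bijective (fun x => F p (t, x)) := fun p =>
    bij (hF p) hK (h0 p) (fun z v h => A_inj (nd p z) v h) (hb0 p)
  -- joint smoothness of the flows
  have hXJ : ∀ k, JC k (R2 n) (fun (q : C × unitInterval) (z : ℝ × R2 n) =>
      Xf (F q.1) (z.1, ((q.2 : ℝ), z.2))) := fun k =>
    (xjc n C F hF hJ nd k).param (a := fun q : C × unitInterval => (q.1, (q.2 : ℝ)))
      (continuous_fst.prodMk (continuous_subtype_val.comp continuous_snd))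
  have hΦJ : ∀ k, JC k (R2 n) (fun (q : (C × unitInterval) × ℝ) (x : R2 n) =>
      Φ q.1.1 (q.1.2 : ℝ) (q.2, x)) :=
    hFlow (C × unitInterval) _ (Icc (0 : ℝ) 1 ×ˢ K) (isCompact_Icc.prod hK)
      (fun p z hz => Xf_out (hF p.1) hK (h0 p.1) _ fun h => hz ⟨h.1, h.2.2⟩) hXJ
      (fun q => Φ q.1 (q.2 : ℝ)) (fun p x => hΦ0 p.1 _ x) (fun p s x => hΦd p.1 _ s x)
  set fam : (C × unitInterval) × ℝ → R2 n → R2 n :=
    fun q x => F q.1.1 ((q.1.2 : ℝ), Φ q.1.1 (q.1.2 : ℝ) (q.2, x)) with hfam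
  have hfamJ : ∀ k, JC k (R2 n) fam := fun k =>
    JC.comp (f := fun (q : (C × unitInterval) × ℝ) (x : R2 n) => F q.1.1 ((q.1.2 : ℝ), x))
      ((hJ k).param (a := fun q : (C × unitInterval) × ℝ => (q.1.1, (q.1.2 : ℝ)))
        ((continuous_fst.comp continuous_fst).prodMk
          (continuous_subtype_val.comp (continuous_snd.comp continuous_fst)))) (hΦJ k)
  have hfams : ∀ q, ContDiff ℝ ∞ (fam q) := fun q =>
    (hF q.1.1).comp (contDiff_const.prodMk ((hΦ q.1.1).comp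
      (contDiff_const.prodMk (contDiff_const.prodMk contDiff_id))))
  have hfamb : ∀ q, Function.Bijective (fam q) := fun q =>
    (hbF q.1.1 _ q.1.2.2).comp (hΦb q.1.1 _ q.2)
  have hfam0 : ∀ q x, x ∉ K → fam q x = x := by
    intro q x hx
    simp only [hfam]
    rw [hΦc q.1.1 _ x hx, h0 q.1.1 _ x hx]
  have hsym : ∀ q : (C × unitInterval) × ℝ, (Real.smoothTransition q.2 = 1 ∨
      ∀ p a b, omega (DFm (F q.1.1) (((q.1.2 : ℝ)), p) a) (DFm (F q.1.1) (((q.1.2 : ℝ)), p) b)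
        = omega a b) → ∀ x u v, omega (fderiv ℝ (fam q) x u) (fderiv ℝ (fam q) x v) =
        omega u v := fun q hq x u v =>
    moser_sympl (hF q.1.1) (nd q.1.1) (hΦ q.1.1) (hΦ0 q.1.1) (hΦd q.1.1) q.1.2.2 q.2 hq x u v
  have hend : ∀ (χ : C(C, SympCt n)) (t : ℝ), (∀ p x, F p (t, x) = (χ p).toEquiv x) →
      ∀ c p a b, omega (DFm (F c) (t, p) a) (DFm (F c) (t, p) b) = omega a b := by
    intro χ t hχ c p a b
    rw [← DFm_eq (hF c)]
    unfold DF
    have : (fun y => F c (t, y)) = (χ c).toEquiv := funext (hχ c)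
    rw [this]
    exact (χ c).symplectic _ a b
  -- constancy
  have hconst : ∀ c : C, (∀ t x, F c (t, x) = F c (0, x)) → ∀ (t : unitInterval) (s : ℝ)
      (x : R2 n), fam ((c, t), s) x = fam ((c, 0), s) x := by
    intro c hc t s x
    simp only [hfam, Icc.coe_zero]
    rw [flow_const (hF c) (nd c) hK (h0 c) (hΦ0 c) (hΦd c) hc t.2, hc]
  -- the three homotopies
  let H0 : unitInterval × C → SympCt n := fun q =>
    mk (fam ((q.2, 0), (q.1 : ℝ))) (hfamb _) (hfams _)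
      (hsym _ (Or.inr (fun p a b => by
        have := hend f 0 hf q.2 p a b
        simpa using this))) K hK (hfam0 _)
  let H1 : unitInterval × C → SympCt n := fun q =>
    mk (fam ((q.2, 1), (q.1 : ℝ))) (hfamb _) (hfams _)
      (hsym _ (Or.inr (fun p a b => by
        have := hend g 1 hg q.2 p a b
        simpa using this))) K hK (hfam0 _)
  let Hm : unitInterval × C → SympCt n := fun q =>
    mk (fam ((q.2, q.1), (1 : ℝ))) (hfamb _) (hfams _)
      (hsym _ (Or.inl Real.smoothTransition.one)) K hK (hfam0 _)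
  have J0 : JS H0 := fun k => (hfamJ k).param (a := fun q : unitInterval × C =>
    ((q.2, (0 : unitInterval)), (q.1 : ℝ))) (by fun_prop)
  have J1 : JS H1 := fun k => (hfamJ k).param (a := fun q : unitInterval × C =>
    ((q.2, (1 : unitInterval)), (q.1 : ℝ))) (by fun_prop)
  have Jm : JS Hm := fun k => (hfamJ k).param (a := fun q : unitInterval × C =>
    ((q.2, q.1), (1 : ℝ))) (by fun_prop)
  have s0 : ∀ q, H0 q ∈ supportedIn K := fun q x hx => hfam0 _ x hx
  have s1 : ∀ q, H1 q ∈ supportedIn K := fun q x hx => hfam0 _ x hx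
  have sm : ∀ q, Hm q ∈ supportedIn K := fun q x hx => hfam0 _ x hx
  have cm : Continuous Hm := Jm.continuous K hK sm
  let θ0 : C(C, SympCt n) := ⟨fun c => Hm (0, c), cm.comp (continuous_const.prodMk continuous_id)⟩
  let θ1 : C(C, SympCt n) := ⟨fun c => Hm (1, c), cm.comp (continuous_const.prodMk continuous_id)⟩
  have c0 : Continuous H0 := J0.continuous K hK s0
  have c1 : Continuous H1 := J1.continuous K hK s1
  set A : Set C := {p | ∀ t x, F p (t, x) = F p (0, x)} with hAdef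
  have e0 : ∀ c ∈ A, ∀ s, H0 (s, c) = H1 (s, c) := fun c hc s =>
    SympCt.ext' fun x => (hconst c hc 1 _ x).symm
  have em : ∀ c ∈ A, ∀ t, Hm (t, c) = Hm (0, c) := fun c hc t =>
    SympCt.ext' fun x => hconst c hc t _ x
  have ef : ∀ c, H0 (0, c) = f c := by
    intro c
    refine SympCt.ext' fun x => ?_
    change fam ((c, 0), ((0 : unitInterval) : ℝ)) x = _
    simp only [hfam, Icc.coe_zero]
    rw [hΦ0]
    exact hf c x
  have eg : ∀ c, H1 (0, c) = g c := by
    intro c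
    refine SympCt.ext' fun x => ?_
    change fam ((c, 1), ((0 : unitInterval) : ℝ)) x = _
    simp only [hfam, Icc.coe_zero, Icc.coe_one]
    rw [hΦ0]
    exact hg c x
  have eθ0 : ∀ c, H0 (1, c) = θ0 c := by
    intro c
    refine SympCt.ext' fun x => ?_
    change fam ((c, 0), ((1 : unitInterval) : ℝ)) x = fam ((c, 0), (1 : ℝ)) x
    rw [Icc.coe_one]
  have eθ1 : ∀ c, H1 (1, c) = θ1 c := by
    intro c
    refine SympCt.ext' fun x => ?_
    change fam ((c, 1), ((1 : unitInterval) : ℝ)) x = fam ((c, 1), (1 : ℝ)) x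
    rw [Icc.coe_one]
  let π : C(unitInterval × C, C) := ⟨Prod.snd, continuous_snd⟩
  let G1 : C(unitInterval × C, SympCt n) := mulC (f.comp π) (mulC (invC ⟨H0, c0⟩) ⟨H1, c1⟩)
  let G2 : C(unitInterval × C, SympCt n) := mulC (f.comp π) (mulC (invC (θ0.comp π)) ⟨Hm, cm⟩)
  let χ : C(C, SympCt n) := mulC f (mulC (invC θ0) θ1)
  have k1 : ∀ φ ψ : SympCt n, comp φ (comp (inv φ) ψ) = ψ := fun φ ψ =>
    SympCt.ext' fun x => by
      change φ.toEquiv (φ.toEquiv.symm (ψ.toEquiv x)) = _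
      rw [Equiv.apply_symm_apply]
  have k2 : ∀ φ ψ : SympCt n, comp φ (comp (inv ψ) ψ) = φ := fun φ ψ =>
    SympCt.ext' fun x => by
      change φ.toEquiv (ψ.toEquiv.symm (ψ.toEquiv x)) = _
      rw [Equiv.symm_apply_apply]
  have r1 : g.HomotopicRel χ A := by
    refine ⟨⟨⟨G1, fun c => ?_, fun c => ?_⟩, fun t c hc => ?_⟩⟩
    · change comp (f c) (comp (inv (H0 (0, c))) (H1 (0, c))) = g c
      rw [ef, eg]
      exact k1 _ _
    · change comp (f c) (comp (inv (H0 (1, c))) (H1 (1, c))) = comp (f c) (comp (inv (θ0 c)) (θ1 c))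
      rw [eθ0, eθ1]
    · change comp (f c) (comp (inv (H0 (t, c))) (H1 (t, c))) = g c
      rw [e0 c hc t, k2, ← ef, ← eg, e0 c hc 0]
  have r2 : f.HomotopicRel χ A := by
    refine ⟨⟨⟨G2, fun c => ?_, fun c => ?_⟩, fun t c hc => ?_⟩⟩
    · change comp (f c) (comp (inv (Hm (0, c))) (Hm (0, c))) = f c
      exact k2 _ _
    · rfl
    · change comp (f c) (comp (inv (Hm (0, c))) (Hm (t, c))) = f c
      rw [em c hc t]
      exact k2 _ _
  exact r2.trans r1.symm

end Pool.Agent.W5h49.EC.ND
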