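import Mathlib
import Pool.Agent.W5h49.EC.NDMos
import Pool.Agent.W5h49.EC.KerFam
import Pool.Agent.W5h49.EC.Defs5
import Pool.Agent.W5h49.EC.MolJC2

/-!
# Homotopies when no averaged differential reverses `ω`
-/

set_option autoImplicit false

open scoped ContDiff Topology
open MeasureTheory

namespace Pool.Agent.W5h49.EC

open Pool.Agent.W71.EC Pool.Agent.W5h83.HG

variable {n : ℕ}

theorem nd_of_NR {A : R2 n →L[ℝ] R2 n} (h : NR A) (s : ℝ) (h0 : 0 ≤ s) (h1 : s ≤ 1) (v : R2 n)
    (hv : Om s A v = 0) : v = 0 := by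
  by_contra hne
  have key : ∀ w, (1 - s) * omega v w + s * omega (A v) (A w) = 0 := by
    intro w
    have h2 : Om s A v w = 0 := by rw [hv]; rfl
    rwa [Om_apply, W_apply, W_apply] at h2
  rcases eq_or_lt_of_le h0 with h5 | h5
  · have h2 := key (J v)
    rw [← h5, omJ] at h2
    have := nsqPos hne
    linarith
  · refine h ⟨v, hne, (1 - s) / s, div_nonneg (by linarith) h0, fun w => ?_⟩
    have h2 := key w
    field_simp
    linarith

theorem NR_of_tame {A : R2 n → R2 n} (h : ∀ v, v ≠ 0 → 0 < omega (A v) (A (J v))) : NR A := by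
  rintro ⟨v, hv, c, hc, hw⟩
  have h1 := hw (J v)
  rw [omJ] at h1
  have h2 := h v hv
  have h3 := nsqPos hv
  nlinarith

/-- **The kernel theorem without norms.** -/
theorem kernel_nd (η : R2 n → ℝ) (hη : Moll η) (C : Type) [TopologicalSpace C] [CompactSpace C]
    (f g : C(C, SympCt n)) (R : C(C, ℝ)) (hR : ∀ p, 0 ≤ R p) (hR0 : ∀ p, R p = 0 → f p = g p)
    (hf : ∀ (p : C) (r : ℝ), 0 ≤ r → r ≤ R p → ∀ x, NR (MD η (f p) r x))
    (hg : ∀ (p : C) (r : ℝ), 0 ≤ r → r ≤ R p → ∀ x, NR (MD η (g p) r x))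
    (hfg : ∀ (p : C) (t : ℝ), 0 ≤ t → t ≤ 1 → ∀ x,
      NR (fun v => (1 - t) • MD η (f p) (R p) x v + t • MD η (g p) (R p) x v)) :
    f.HomotopicRel g {p | R p = 0 ∨ (f p = one ∧ g p = one)} := by
  obtain ⟨F, K, c, r, hF, hJ, hK, hF0, hF1, hF2, hr, hc, hcr, hDF, hconst⟩ :=
    moljc2 n C f g η hη R hR
  have h := ND.moser_fam_nd (flow_jc nem ev n) C F K hF hJ hK hF0 ?_ f g hF1 hF2
  · refine rel_mono h fun p hp t x => ?_
    rcases hp with hp | ⟨hfp, hgp⟩
    · exact hconst p hp (hR0 p hp) t x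
    · have h1 : ∀ t x, F p (t, x) = x := by
        intro t x
        have hs : ContDiff ℝ ∞ (fun y => F p (t, y)) :=
          (hF p).comp (contDiff_const.prodMk contDiff_id)
        refine eq_id_of_fderiv hs hK (fun x hx => hF0 p t x hx) (fun x v => ?_) x
        have h1 := hDF p t x v
        rw [hfp, hgp, MD_one hη, ← add_smul] at h1
        unfold DF at h1
        rw [h1]
        rw [show (1 - c t + c t : ℝ) = 1 by ring, one_smul]
      rw [h1, h1]
  · intro p t x s hs0 hs1 v hv
    refine nd_of_NR ?_ s hs0 hs1 v hv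
    have hr0 : 0 ≤ r t * R p := mul_nonneg (hr t).1 (hR p)
    have hr1 : r t * R p ≤ R p := mul_le_of_le_one_left (hR p) (hr t).2
    have e : (DF (F p) t x : R2 n → R2 n) = fun v =>
      (1 - c t) • MD η (f p) (r t * R p) x v + c t • MD η (g p) (r t * R p) x v :=
      funext (hDF p t x)
    rw [e]
    rcases hcr t with h | h | h
    · rw [h]
      simp only [sub_zero, one_smul, zero_smul, add_zero]
      exact hf p _ hr0 hr1 x
    · rw [h]
      simp only [sub_self, one_smul, zero_smul, zero_add]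
      exact hg p _ hr0 hr1 x
    · rw [h, one_mul]
      exact hfg p (c t) (hc t).1 (hc t).2 x

/-- a map close to the identity is tame -/
theorem near_id_tame {a a' v : R2 n} (h1 : nsq (a - v) ≤ 1 / 16 * nsq v)
    (h2 : nsq (a' - J v) ≤ 1 / 16 * nsq v) : (1 - 9 / 16) * nsq v ≤ omega a a' := by
  have e : omega a a' = nsq v + omega v (a' - J v) + omega (a - v) (J v) +
      omega (a - v) (a' - J v) := by
    have h3 : omega v (J v) = nsq v := omJ v
    rw [← h3]
    simp only [← W_apply, map_sub, _root_.sub_apply]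
    ring
  have k1 : -(nsq v / 4) ≤ omega v (a' - J v) := by
    have h3 := omega_le (-((1 / 2 : ℝ) • v)) ((2 : ℝ) • (a' - J v))
    have h4 : omega (-((1 / 2 : ℝ) • v)) ((2 : ℝ) • (a' - J v)) = - omega v (a' - J v) := by
      simp only [← W_apply, map_neg, map_smul, _root_.neg_apply,
        ContinuousLinearMap.smul_apply, smul_eq_mul]
      ring
    rw [h4, Near.nsq_neg, Near.nsq_smul, Near.nsq_smul] at h3
    nlinarith
  have k2 : -(nsq v / 4) ≤ omega (a - v) (J v) := by
    have h3 := omega_le (-((2 : ℝ) • (a - v))) ((1 / 2 : ℝ) • J v)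
    have h4 : omega (-((2 : ℝ) • (a - v))) ((1 / 2 : ℝ) • J v) = - omega (a - v) (J v) := by
      simp only [← W_apply, map_neg, map_smul, _root_.neg_apply,
        ContinuousLinearMap.smul_apply, smul_eq_mul]
      ring
    rw [h4, Near.nsq_neg, Near.nsq_smul, Near.nsq_smul, Near.nsq_J] at h3
    nlinarith
  have k3 : -(nsq v / 16) ≤ omega (a - v) (a' - J v) := by
    have h3 := omega_le (-(a - v)) (a' - J v)
    have h4 : omega (-(a - v)) (a' - J v) = - omega (a - v) (a' - J v) := by
      simp only [← W_apply, map_neg, _root_.neg_apply]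
    rw [h4, Near.nsq_neg] at h3
    linarith
  rw [e]
  linarith

/-- **No reversal at any scale.** -/
theorem all_scales_nd (hFar : S_FAR n) (η : R2 n → ℝ) (hη : Moll η) (C : Type)
    [TopologicalSpace C] [CompactSpace C] (f : C(C, SympCt n))
    (hf : ∀ p r, 0 < r → ∀ x, NR (MD η (f p) r x)) :
    f.HomotopicRel (ContinuousMap.const C one) {p | f p = one} := by
  obtain ⟨R, hR, hfar⟩ := hFar η hη C f (1 / 16) (by norm_num)
  have hf0 : ∀ p r, 0 ≤ r → ∀ x, NR (MD η (f p) r x) := by
    intro p r hr x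
    rcases eq_or_lt_of_le hr with h | h
    · refine NR_of_tame fun v hv => ?_
      have e : ∀ w, MD η (f p) r x w = D (f p) x w := by
        intro w
        rw [← h]
        unfold MD
        simp only [zero_smul, sub_zero]
        rw [integral_smul_const, hη.integral, one_smul]
      rw [e, e]
      have h2 : omega (D (f p) x v) (D (f p) x (J v)) = omega v (J v) := (f p).symplectic x v (J v)
      rw [h2, omJ]
      exact nsqPos hv
    · exact hf p r h x
  have key := kernel_nd η hη C f (ContinuousMap.const C one) (ContinuousMap.const C R)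
    (fun _ => hR.le) (fun p hp => absurd hp hR.ne')
    (fun p r h _ x => hf0 p r h x) ?_ ?_
  · exact rel_mono key fun p hp => Or.inr ⟨hp, rfl⟩
  · intro p r _ _ x
    refine NR_of_tame fun v hv => ?_
    change 0 < omega (MD η one r x v) (MD η one r x (J v))
    rw [MD_one hη, MD_one hη, omJ]
    exact nsqPos hv
  · intro p t ht0 ht1 x
    refine NR_of_tame fun v hv => ?_
    change 0 < omega ((1 - t) • MD η (f p) R x v + t • MD η one R x v)
      ((1 - t) • MD η (f p) R x (J v) + t • MD η one R x (J v))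
    rw [MD_one hη, MD_one hη]
    have h1 := hfar R le_rfl p x v
    have h2 := hfar R le_rfl p x (J v)
    rw [Near.nsq_J] at h2
    have h3 := near_id_tame h1 h2
    have h4 : (1 - 9 / 16 : ℝ) * nsq v ≤ omega v (J v) := by
      rw [omJ]
      linarith [nsqPos hv]
    exact tame_aux (θ := 9 / 16) (κ := 1 / 16) (c := t) (a := MD η (f p) R x v)
      (a' := MD η (f p) R x (J v)) (b := v) (b' := J v) (v := v) (by norm_num) (by norm_num)
      ht0 ht1 hv h3 h4 (Or.inr (Or.inr ⟨h1, h2⟩))

end Pool.Agent.W5h49.EC
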