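import Mathlib
import Pool.Agent.W5h49.EC.KerND
import Pool.Agent.W5h49.EC.Defs6
import Pool.Agent.W5h49.EC.Form

/-!
# Cubes: homotopies when no averaged differential reverses `ω`
-/

set_option autoImplicit false

open scoped ContDiff Topology
open MeasureTheory Set

namespace Pool.Agent.W5h49.EC

open Pool.Agent.W71.EC Pool.Agent.W5h83.HG

variable {n : ℕ}

/-- the lemmas on averages over cubes -/
structure CubeTasks (n : ℕ) : Prop where
  nr : S_NROPEN n
  ca1 : S_CA1 n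
  ca2 : S_CA2 n
  ca3 : S_CA3 n
  ca4 : S_CA4 n
  ca5 : S_CA5 n

theorem NR_CA_zero (T : CubeTasks n) (φ : SympCt n) (x : R2 n) : NR (CA φ 0 x) := by
  refine NR_of_tame fun v hv => ?_
  rw [(T.ca2 φ).2.1, (T.ca2 φ).2.1]
  have h2 : omega (D φ x v) (D φ x (J v)) = omega v (J v) := φ.symplectic x v (J v)
  rw [h2, omJ]
  exact nsqPos hv

theorem NR_id : NR (ContinuousLinearMap.id ℝ (R2 n)) := by
  refine NR_of_tame fun v hv => ?_
  simp only [ContinuousLinearMap.id_apply]
  rw [omJ]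
  exact nsqPos hv

/-- **The kernel theorem for cubes.** -/
theorem cube_kernel (T : CubeTasks n) (C : Type) [TopologicalSpace C] [CompactSpace C]
    (f g : C(C, SympCt n)) (R : C(C, ℝ)) (hR : ∀ p, 0 ≤ R p) (hR0 : ∀ p, R p = 0 → f p = g p)
    (hf : ∀ (p : C) (r : ℝ), 0 < r → r ≤ R p → ∀ x, NR (CA (f p) r x))
    (hg : ∀ (p : C) (r : ℝ), 0 < r → r ≤ R p → ∀ x, NR (CA (g p) r x))
    (hfg : ∀ (p : C) (t : ℝ), 0 ≤ t → t ≤ 1 → 0 < R p → ∀ x,
      NR ((1 - t) • CA (f p) (R p) x + t • CA (g p) (R p) x : R2 n →L[ℝ] R2 n)) :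
    f.HomotopicRel g {p | R p = 0 ∨ (f p = one ∧ g p = one)} := by
  obtain ⟨T₀, hT₀⟩ := (isCompact_range R.continuous).bddAbove
  have hT : ∀ p, R p ≤ T₀ := fun p => hT₀ ⟨p, rfl⟩
  obtain ⟨Mf, hMf⟩ := T.ca5 C f T₀
  obtain ⟨Mg, hMg⟩ := T.ca5 C g T₀
  set M : ℝ := max Mf Mg with hM
  -- the family of averaged differentials
  let Tm : C × (ℝ × (ℝ × R2 n)) → (R2 n →L[ℝ] R2 n) := fun z =>
    (1 - z.2.1) • CA (f z.1) z.2.2.1 z.2.2.2 + z.2.1 • CA (g z.1) z.2.2.1 z.2.2.2
  have hTm : Continuous Tm := by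
    have e : Continuous (fun z : C × (ℝ × (ℝ × R2 n)) => (z.1, z.2.2)) :=
      continuous_fst.prodMk (continuous_snd.comp continuous_snd)
    have e1 : Continuous (fun z : C × (ℝ × (ℝ × R2 n)) => z.2.1) :=
      continuous_fst.comp continuous_snd
    exact ((continuous_const.sub e1).smul ((T.ca1 C f).comp e)).add
      (e1.smul ((T.ca1 C g).comp e))
  let P : Set (C × (ℝ × (ℝ × R2 n))) := {z | z.2.2.1 ≤ R z.1 ∧
    (z.2.1 = 0 ∨ z.2.1 = 1 ∨ z.2.2.1 = R z.1)} ∩
      (univ ×ˢ (Icc (0 : ℝ) 1 ×ˢ (Icc (0 : ℝ) T₀ ×ˢ Metric.closedBall (0 : R2 n) M)))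
  have hP : IsCompact P := by
    refine IsCompact.inter_left (isCompact_univ.prod (isCompact_Icc.prod (isCompact_Icc.prod
      (isCompact_closedBall _ _)))) ?_
    have c1 : Continuous (fun z : C × (ℝ × (ℝ × R2 n)) => z.2.1) :=
      continuous_fst.comp continuous_snd
    have c2 : Continuous (fun z : C × (ℝ × (ℝ × R2 n)) => z.2.2.1) :=
      continuous_fst.comp (continuous_snd.comp continuous_snd)
    have c3 : Continuous (fun z : C × (ℝ × (ℝ × R2 n)) => R z.1) :=
      R.continuous.comp continuous_fst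
    exact (isClosed_le c2 c3).inter ((isClosed_eq c1 continuous_const).union
      ((isClosed_eq c1 continuous_const).union (isClosed_eq c2 c3)))
  -- they do not reverse `ω`
  have hNR : ∀ (p : C) (t r : ℝ) (x : R2 n), 0 ≤ t → t ≤ 1 → 0 ≤ r → r ≤ R p → (t = 0 ∨ t = 1 ∨ r = R p) →
      NR (Tm (p, t, r, x)) := by
    intro p t r x ht0 ht1 hr0 hr1 h
    change NR ((1 - t) • CA (f p) r x + t • CA (g p) r x : R2 n →L[ℝ] R2 n)
    rcases h with h | h | h
    · subst h
      rw [sub_zero, one_smul, zero_smul, add_zero]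
      rcases eq_or_lt_of_le hr0 with h5 | h5
      · rw [← h5]
        exact NR_CA_zero T _ _
      · exact hf p r h5 hr1 x
    · subst h
      rw [sub_self, one_smul, zero_smul, zero_add]
      rcases eq_or_lt_of_le hr0 with h5 | h5
      · rw [← h5]
        exact NR_CA_zero T _ _
      · exact hg p r h5 hr1 x
    · subst h
      rcases eq_or_lt_of_le hr0 with h5 | h5
      · rw [hR0 p h5.symm, ← add_smul, sub_add_cancel, one_smul, ← h5]
        exact NR_CA_zero T _ _
      · exact hfg p t ht0 ht1 h5 x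
  have hS : IsCompact (Tm '' P ∪ {ContinuousLinearMap.id ℝ (R2 n)}) :=
    (hP.image hTm).union isCompact_singleton
  have hSN : Tm '' P ∪ {ContinuousLinearMap.id ℝ (R2 n)} ⊆ {A : R2 n →L[ℝ] R2 n | NR A} := by
    rintro A (⟨⟨p, t, r, x⟩, hz, rfl⟩ | hA)
    · obtain ⟨⟨h1, h2⟩, -, h3, h4, -⟩ := hz
      exact hNR p t r x h3.1 h3.2 h4.1 h1 h2
    · rw [mem_singleton_iff] at hA
      rw [hA]
      exact NR_id
  obtain ⟨δ, hδ, hthick⟩ := hS.exists_thickening_subset_open T.nr hSN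
  obtain ⟨kf, hkf0, hkf⟩ := T.ca3 C f δ hδ
  obtain ⟨kg, hkg0, hkg⟩ := T.ca3 C g δ hδ
  obtain ⟨η, hη, hη0, hη1⟩ := CubeAux.exists_moll n (lt_min hkf0 hkg0)
  have hf' := hkf (min kf kg) (lt_min hkf0 hkg0) (min_le_left _ _) η hη hη0 hη1
  have hg' := hkg (min kf kg) (lt_min hkf0 hkg0) (min_le_right _ _) η hη hη0 hη1
  have main : ∀ (p : C) (t r : ℝ) (x : R2 n), 0 ≤ t → t ≤ 1 → 0 ≤ r → r ≤ R p → (t = 0 ∨ t = 1 ∨ r = R p) →
      NR ((1 - t) • MA η (f p) r x + t • MA η (g p) r x : R2 n →L[ℝ] R2 n) := by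
    intro p t r x ht0 ht1 hr0 hr1 h
    have hmem : Tm (p, t, r, x) ∈ Tm '' P ∪ {ContinuousLinearMap.id ℝ (R2 n)} := by
      by_cases hx : ‖x‖ ≤ M
      · left
        refine ⟨(p, t, r, x), ⟨⟨hr1, h⟩, trivial, ⟨ht0, ht1⟩, ⟨hr0, hr1.trans (hT p)⟩, ?_⟩, rfl⟩
        rw [mem_closedBall_zero_iff]
        exact hx
      · right
        push Not at hx
        have e1 : CA (f p) r x = ContinuousLinearMap.id ℝ (R2 n) :=
          hMf p r x hr0 (hr1.trans (hT p)) ((le_max_left _ _).trans_lt hx)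
        have e2 : CA (g p) r x = ContinuousLinearMap.id ℝ (R2 n) :=
          hMg p r x hr0 (hr1.trans (hT p)) ((le_max_right _ _).trans_lt hx)
        rw [mem_singleton_iff]
        change (1 - t) • CA (f p) r x + t • CA (g p) r x = _
        rw [e1, e2, ← add_smul, sub_add_cancel, one_smul]
    refine hthick (Metric.mem_thickening_iff.2 ⟨_, hmem, ?_⟩)
    change dist ((1 - t) • MA η (f p) r x + t • MA η (g p) r x)
      ((1 - t) • CA (f p) r x + t • CA (g p) r x) < δ
    rw [dist_eq_norm]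
    have e : (1 - t) • MA η (f p) r x + t • MA η (g p) r x -
        ((1 - t) • CA (f p) r x + t • CA (g p) r x) =
        (1 - t) • (MA η (f p) r x - CA (f p) r x) + t • (MA η (g p) r x - CA (g p) r x) := by
      rw [smul_sub, smul_sub]
      abel
    rw [e]
    have n1 := hf' p r x
    have n2 := hg' p r x
    have t1 : 0 ≤ 1 - t := by linarith
    calc _ ≤ ‖(1 - t) • (MA η (f p) r x - CA (f p) r x)‖ +
          ‖t • (MA η (g p) r x - CA (g p) r x)‖ := norm_add_le _ _
      _ = (1 - t) * ‖MA η (f p) r x - CA (f p) r x‖ + t * ‖MA η (g p) r x - CA (g p) r x‖ := by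
          rw [norm_smul, norm_smul, Real.norm_of_nonneg t1, Real.norm_of_nonneg ht0]
      _ < δ := by
          rcases eq_or_lt_of_le ht0 with h5 | h5
          · rw [← h5]
            simpa using n1
          · nlinarith
  have hMA : ∀ (φ : SympCt n) r x, (MA η φ r x : R2 n → R2 n) = MD η φ r x := fun φ r x =>
    funext fun v => (T.ca2 φ).2.2 η hη r x v
  refine kernel_nd η hη C f g R hR hR0 ?_ ?_ ?_
  · intro p r hr0 hr1 x
    have h := main p 0 r x le_rfl zero_le_one hr0 hr1 (Or.inl rfl)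
    rw [sub_zero, one_smul, zero_smul, add_zero] at h
    rwa [hMA] at h
  · intro p r hr0 hr1 x
    have h := main p 1 r x zero_le_one le_rfl hr0 hr1 (Or.inr (Or.inl rfl))
    rw [sub_self, one_smul, zero_smul, zero_add] at h
    rwa [hMA] at h
  · intro p t ht0 ht1 x
    have h := main p t (R p) x ht0 ht1 (hR p) le_rfl (Or.inr (Or.inr rfl))
    have e : (((1 - t) • MA η (f p) (R p) x + t • MA η (g p) (R p) x : R2 n →L[ℝ] R2 n) :
        R2 n → R2 n) =
        fun v => (1 - t) • MD η (f p) (R p) x v + t • MD η (g p) (R p) x v := by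
      funext v
      rw [← hMA, ← hMA]
      rfl
    rwa [e] at h

theorem CA_one (T : CubeTasks n) {r : ℝ} (hr : 0 ≤ r) (x : R2 n) :
    CA (one : SympCt n) r x = ContinuousLinearMap.id ℝ (R2 n) := by
  refine ContinuousLinearMap.ext fun v => ?_
  have h3 : ∀ y, D (one : SympCt n) y v = v := fun y => one_fderiv y v
  rcases eq_or_lt_of_le hr with h | h
  · rw [← h, (T.ca2 one).2.1, h3]
    rfl
  · rw [(T.ca2 one).1 r h]
    simp only [h3]
    rw [avg_const v x h]
    rfl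

/-- **No reversal on any cube.** -/
theorem cube_all_scales (T : CubeTasks n) (C : Type) [TopologicalSpace C] [CompactSpace C]
    (f : C(C, SympCt n)) (hf : ∀ (p : C) (r : ℝ), 0 < r → ∀ x, NR (CA (f p) r x)) :
    f.HomotopicRel (ContinuousMap.const C one) {p | f p = one} := by
  set δ : ℝ := 1 / (4 * (2 * n + 1)) with hδ
  have hδ0 : 0 < δ := by positivity
  have hδ1 : 2 * n * δ ^ 2 ≤ 1 / 16 := by
    have hn : (0 : ℝ) ≤ n := Nat.cast_nonneg n
    rw [hδ, div_pow, one_pow, mul_one_div, div_le_div_iff₀ (by positivity) (by norm_num)]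
    nlinarith
  obtain ⟨R, hR, hfar⟩ := T.ca4 C f δ hδ0
  have hfar' : ∀ p x v, nsq (CA (f p) R x v - v) ≤ 1 / 16 * nsq v := by
    intro p x v
    have h1 : ‖CA (f p) R x v - v‖ ≤ δ * ‖v‖ := by
      have h2 := (CA (f p) R x - ContinuousLinearMap.id ℝ (R2 n)).le_opNorm v
      rw [_root_.sub_apply, ContinuousLinearMap.id_apply] at h2
      exact h2.trans (mul_le_mul_of_nonneg_right (hfar R le_rfl p x) (norm_nonneg _))
    calc nsq (CA (f p) R x v - v) ≤ 2 * n * ‖CA (f p) R x v - v‖ ^ 2 := Form.nsq_le_norm_sq _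
      _ ≤ 2 * n * (δ * ‖v‖) ^ 2 := by gcongr
      _ = (2 * n * δ ^ 2) * ‖v‖ ^ 2 := by ring
      _ ≤ 1 / 16 * nsq v := mul_le_mul hδ1 (Form.norm_sq_le_nsq v) (by positivity) (by norm_num)
  have key := cube_kernel T C f (ContinuousMap.const C one) (ContinuousMap.const C R)
    (fun _ => hR.le) (fun p hp => absurd hp hR.ne')
    (fun p r h _ x => hf p r h x) ?_ ?_
  · exact rel_mono key fun p hp => Or.inr ⟨hp, rfl⟩
  · intro p r hr _ x
    change NR (CA (one : SympCt n) r x)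
    rw [CA_one T hr.le]
    exact NR_id
  · intro p t ht0 ht1 _ x
    change NR ((1 - t) • CA (f p) R x + t • CA (one : SympCt n) R x : R2 n →L[ℝ] R2 n)
    rw [CA_one T hR.le]
    refine NR_of_tame fun v hv => ?_
    change 0 < omega ((1 - t) • CA (f p) R x v + t • v)
      ((1 - t) • CA (f p) R x (J v) + t • J v)
    have h1 := hfar' p x v
    have h2 := hfar' p x (J v)
    rw [Near.nsq_J] at h2
    have h3 := near_id_tame h1 h2
    have h4 : (1 - 9 / 16 : ℝ) * nsq v ≤ omega v (J v) := by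
      rw [omJ]
      linarith [nsqPos hv]
    exact tame_aux (θ := 9 / 16) (κ := 1 / 16) (c := t) (a := CA (f p) R x v)
      (a' := CA (f p) R x (J v)) (b := v) (b' := J v) (v := v) (by norm_num) (by norm_num)
      ht0 ht1 hv h3 h4 (Or.inr (Or.inr ⟨h1, h2⟩))

end Pool.Agent.W5h49.EC
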