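import Mathlib
import Pool.Agent.W5h49.EC.Defs5

set_option autoImplicit false

open scoped ContDiff Topology
open MeasureTheory

namespace Pool.Agent.W5h49.EC

open Pool.Agent.W71.EC

/-- TASK POIN (Poincaré inequality on cubes) -/
def S_POIN (n : ℕ) : Prop := ∃ C : ℝ, 0 < C ∧ ∀ u : R2 n → R2 n, ContDiff ℝ ∞ u →
  ∀ (x : R2 n) (r : ℝ), 0 < r →
    ⨍ y in Metric.ball x r, ‖u y - ⨍ z in Metric.ball x r, u z‖ ^ 2 ≤
      C * r ^ 2 * ⨍ y in Metric.ball x r, ‖fderiv ℝ u y‖ ^ 2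

/-- TASK POIN1 (averages over segments) -/
def S_POIN1 (n : ℕ) : Prop := ∀ h : R2 n → ℝ, Continuous h → (∀ y, 0 ≤ h y) →
  ∀ (x : R2 n) (r : ℝ), 0 < r → ∀ t : ℝ, 0 ≤ t → t ≤ 1 →
    ∫ y in Metric.ball x r, ∫ z in Metric.ball x r, h (y + t • (z - y)) ≤
      2 ^ (2 * n) * volume.real (Metric.ball x r) * ∫ y in Metric.ball x r, h y

/-- TASK POIN2 (from segments to the inequality) -/
def S_POIN2 (n : ℕ) : Prop := S_POIN1 n → S_POIN n

end Pool.Agent.W5h49.EC
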