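import Mathlib
import Pool.Agent.W5h49.EC.KerFam
import Pool.Agent.W5h49.EC.Form
import Pool.Agent.W5h49.EC.Cube
import Pool.Agent.W5h49.EC.Defs7

/-!
# Small energy
-/

set_option autoImplicit false

open scoped ContDiff Topology
open MeasureTheory Set

namespace Pool.Agent.W5h49.EC

open Pool.Agent.W71.EC Pool.Agent.W5h83.HG

variable {n : ℕ}

/-- the density of the energy -/
noncomputable def en (φ : SympCt n) (y : R2 n) : ℝ := ‖fderiv ℝ (fderiv ℝ φ.toEquiv) y‖

theorem en_nonneg (φ : SympCt n) (y : R2 n) : 0 ≤ en φ y := by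
  unfold en
  exact norm_nonneg (fderiv ℝ (fderiv ℝ φ.toEquiv) y)

theorem en_cont (φ : SympCt n) : Continuous (en φ) := by
  have h1 : ContDiff ℝ ∞ (fderiv ℝ φ.toEquiv) := φ.smooth.fderiv_right (by simp)
  exact (h1.continuous_fderiv (by simp)).norm

theorem fderiv_D (φ : SympCt n) (v y : R2 n) :
    ‖fderiv ℝ (fun y => D φ y v) y‖ ≤ en φ y * ‖v‖ := by
  have h1 : ContDiff ℝ ∞ (fderiv ℝ φ.toEquiv) := φ.smooth.fderiv_right (by simp)
  have h2 : HasFDerivAt (fderiv ℝ φ.toEquiv) (fderiv ℝ (fderiv ℝ φ.toEquiv) y) y :=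
    ((h1.differentiable (by simp)) y).hasFDerivAt
  have h3 : HasFDerivAt (fun y => D φ y v)
      ((fderiv ℝ (fderiv ℝ φ.toEquiv) y).flip v) y := by
    have h4 := h2.clm_apply (hasFDerivAt_const v y)
    simp only [ContinuousLinearMap.comp_zero, zero_add] at h4
    exact h4
  rw [h3.fderiv]
  calc _ ≤ ‖(fderiv ℝ (fderiv ℝ φ.toEquiv) y).flip‖ * ‖v‖ :=
        ContinuousLinearMap.le_opNorm _ _
    _ = en φ y * ‖v‖ := by
        rw [ContinuousLinearMap.opNorm_flip]
        rfl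

theorem nsq_n0 (w : R2 0) : nsq w = 0 := by
  unfold nsq
  simp

/-- from small energy to small mean oscillation -/
theorem energy_osc (hP : S_POIN n) {θ : ℝ} (hθ : 0 < θ) : ∃ c : ℝ, 0 < c ∧
    ∀ (φ : SympCt n) (x : R2 n) (r : ℝ), 0 < r →
      ∫ y in Metric.ball x r, en φ y ^ (2 * n) ≤ c → ∀ v : R2 n,
      ⨍ y in Metric.ball x r, nsq (D φ y v - ⨍ z in Metric.ball x r, D φ z v) ≤ θ * nsq v := by
  rcases Nat.eq_zero_or_pos n with h0 | hn
  · subst h0
    refine ⟨1, one_pos, fun φ x r hr _ v => ?_⟩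
    simp only [nsq_n0]
    rw [avg_const (0 : ℝ) x hr]
    simp
  obtain ⟨C, hC, hP⟩ := hP
  have hn' : (0 : ℝ) < n := Nat.cast_pos.2 hn
  set δ : ℝ := θ / (4 * n * C) with hδ
  have hδ0 : 0 < δ := by positivity
  set V : ℝ := volume.real (Metric.ball (0 : R2 n) 1) with hV
  have hV0 : 0 < V := CubeAux.pos_ball
  refine ⟨δ ^ n * V, by positivity, fun φ x r hr hE v => ?_⟩
  set B := Metric.ball x r with hB
  have hBm : volume.real B = r ^ (2 * n) * V := by
    rw [hB, hV, measureReal_def, Measure.addHaar_ball_of_pos _ _ hr, ENNReal.toReal_mul,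
      ENNReal.toReal_ofReal (by positivity)]
    have : Module.finrank ℝ (R2 n) = 2 * n := by
      simp [R2, two_mul]
    rw [this]
    rfl
  have hBpos : 0 < volume.real B := by rw [hBm]; positivity
  have hint : ∀ {g : R2 n → ℝ}, Continuous g → IntegrableOn g B := fun hg =>
    (hg.continuousOn.integrableOn_compact (isCompact_closedBall x r)).mono_set
      Metric.ball_subset_closedBall
  have hDc : Continuous fun z => D φ z v := CubeAux.continuous_D φ v
  have hDs : ContDiff ℝ ∞ (fun z => D φ z v) :=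
    (φ.smooth.fderiv_right (m := ∞) (by simp)).clm_apply contDiff_const
  set m := ⨍ z in B, D φ z v with hm
  have havg : ∀ {g h : R2 n → ℝ}, Continuous g → Continuous h → (∀ y, g y ≤ h y) →
      ⨍ y in B, g y ≤ ⨍ y in B, h y := by
    intro g h hg hh hgh
    rw [setAverage_eq, setAverage_eq, smul_eq_mul, smul_eq_mul]
    exact mul_le_mul_of_nonneg_left (setIntegral_mono (hint hg) (hint hh) hgh)
      (inv_nonneg.2 hBpos.le)
  have havgm : ∀ (k : ℝ) (g : R2 n → ℝ), ⨍ y in B, k * g y = k * ⨍ y in B, g y := by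
    intro k g
    rw [setAverage_eq, setAverage_eq, smul_eq_mul, smul_eq_mul, integral_const_mul]
    ring
  have s1 : ⨍ y in B, nsq (D φ y v - m) ≤ 2 * n * ⨍ y in B, ‖D φ y v - m‖ ^ 2 := by
    rw [← havgm]
    exact havg (CubeAux.continuous_nsq.comp (hDc.sub continuous_const))
      (((hDc.sub continuous_const).norm.pow 2).const_mul _) fun y => Form.nsq_le_norm_sq _
  have s2 : ⨍ y in B, ‖D φ y v - m‖ ^ 2 ≤
      C * r ^ 2 * ⨍ y in B, ‖fderiv ℝ (fun y => D φ y v) y‖ ^ 2 := hP _ hDs x r hr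
  have s3 : ⨍ y in B, ‖fderiv ℝ (fun y => D φ y v) y‖ ^ 2 ≤ ‖v‖ ^ 2 * ⨍ y in B, en φ y ^ 2 := by
    rw [← havgm]
    refine havg ((hDs.continuous_fderiv (by simp)).norm.pow 2)
      (((en_cont φ).pow 2).const_mul _) fun y => ?_
    calc _ ≤ (en φ y * ‖v‖) ^ 2 := by
          have := fderiv_D φ v y
          gcongr
      _ = _ := by ring
  -- the elementary inequality
  have s4 : r ^ 2 * ⨍ y in B, en φ y ^ 2 ≤ 2 * δ := by
    obtain ⟨k, rfl⟩ : ∃ k, n = k + 1 := ⟨n - 1, by omega⟩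
    set lam : ℝ := δ / r ^ 2 with hlam
    have hl0 : 0 < lam := by positivity
    have e1 : ∀ y, en φ y ^ 2 ≤ lam + (lam ^ k)⁻¹ * en φ y ^ (2 * (k + 1)) := by
      intro y
      set a := en φ y ^ 2 with ha
      have ha0 : 0 ≤ a := by positivity
      have e2 : en φ y ^ (2 * (k + 1)) = a ^ (k + 1) := by rw [ha, ← pow_mul]
      rw [e2]
      rcases le_total a lam with h | h
      · have : 0 ≤ (lam ^ k)⁻¹ * a ^ (k + 1) := by positivity
        linarith
      · have h3 : lam ^ k * a ≤ a ^ (k + 1) := by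
          rw [pow_succ]
          gcongr
        have h4 : a ≤ (lam ^ k)⁻¹ * a ^ (k + 1) := by
          rw [inv_mul_eq_div, le_div_iff₀ (by positivity)]
          linarith
        linarith
    have hec : Continuous fun y => (lam ^ k)⁻¹ * en φ y ^ (2 * (k + 1)) :=
      continuous_const.mul ((en_cont φ).pow _)
    have e3 : ⨍ y in B, en φ y ^ 2 ≤ lam + (lam ^ k)⁻¹ * ⨍ y in B, en φ y ^ (2 * (k + 1)) := by
      have h5 : ⨍ y in B, en φ y ^ 2 ≤
          ⨍ y in B, (lam + (lam ^ k)⁻¹ * en φ y ^ (2 * (k + 1))) :=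
        havg ((en_cont φ).pow 2) (continuous_const.add hec) e1
      refine h5.trans (le_of_eq ?_)
      have h6 : ∫ y in B, (lam + (lam ^ k)⁻¹ * en φ y ^ (2 * (k + 1))) =
          volume.real B * lam + (lam ^ k)⁻¹ * ∫ y in B, en φ y ^ (2 * (k + 1)) := by
        rw [integral_add (hint continuous_const) (hint hec), integral_const_mul,
          setIntegral_const, smul_eq_mul]
      rw [setAverage_eq, h6, setAverage_eq, smul_eq_mul, smul_eq_mul]
      field_simp
    have e4 : ⨍ y in B, en φ y ^ (2 * (k + 1)) ≤ δ ^ (k + 1) / r ^ (2 * (k + 1)) := by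
      rw [setAverage_eq, smul_eq_mul, hBm, inv_mul_eq_div, div_le_div_iff₀ (by positivity)
        (by positivity)]
      calc _ ≤ δ ^ (k + 1) * V * r ^ (2 * (k + 1)) :=
            mul_le_mul_of_nonneg_right hE (by positivity)
        _ = _ := by ring
    calc r ^ 2 * ⨍ y in B, en φ y ^ 2
        ≤ r ^ 2 * (lam + (lam ^ k)⁻¹ * (δ ^ (k + 1) / r ^ (2 * (k + 1)))) := by
          refine mul_le_mul_of_nonneg_left (e3.trans ?_) (by positivity)
          gcongr
      _ = 2 * δ := by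
          rw [hlam, div_pow, inv_div, pow_mul r 2 (k + 1)]
          field_simp
          ring
  have hCr : 0 ≤ 2 * n * C * ‖v‖ ^ 2 := by positivity
  calc ⨍ y in B, nsq (D φ y v - m) ≤ 2 * n * (C * r ^ 2 * (‖v‖ ^ 2 * ⨍ y in B, en φ y ^ 2)) := by
        refine s1.trans (mul_le_mul_of_nonneg_left (s2.trans ?_) (by positivity))
        exact mul_le_mul_of_nonneg_left s3 (by positivity)
    _ = 2 * n * C * ‖v‖ ^ 2 * (r ^ 2 * ⨍ y in B, en φ y ^ 2) := by ring
    _ ≤ 2 * n * C * ‖v‖ ^ 2 * (2 * δ) := mul_le_mul_of_nonneg_left s4 hCr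
    _ = θ * ‖v‖ ^ 2 := by
        rw [hδ]
        field_simp
        ring
    _ ≤ θ * nsq v := mul_le_mul_of_nonneg_left (Form.norm_sq_le_nsq v) hθ.le

theorem en_out {φ : SympCt n} {m : ℝ} (h : φ ∈ supportedIn (Metric.closedBall (0 : R2 n) m))
    {y : R2 n} (hy : y ∉ Metric.closedBall (0 : R2 n) m) : en φ y = 0 := by
  have ho : IsOpen (Metric.closedBall (0 : R2 n) m)ᶜ := Metric.isClosed_closedBall.isOpen_compl
  have h1 : ∀ z ∈ (Metric.closedBall (0 : R2 n) m)ᶜ,
      fderiv ℝ φ.toEquiv z = ContinuousLinearMap.id ℝ (R2 n) := by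
    intro z hz
    have h2 : (φ.toEquiv : R2 n → R2 n) =ᶠ[𝓝 z] id := by
      filter_upwards [ho.mem_nhds hz] with w hw
      exact h w hw
    rw [h2.fderiv_eq, fderiv_id]
  have h2 : fderiv ℝ φ.toEquiv =ᶠ[𝓝 y] fun _ => ContinuousLinearMap.id ℝ (R2 n) := by
    filter_upwards [ho.mem_nhds hy] with w hw
    exact h1 w hw
  have h3 : fderiv ℝ (fderiv ℝ φ.toEquiv) y = 0 := by
    rw [h2.fderiv_eq]
    exact (hasFDerivAt_const (ContinuousLinearMap.id ℝ (R2 n)) y).fderiv
  change ‖fderiv ℝ (fderiv ℝ φ.toEquiv) y‖ = 0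
  rw [h3]
  exact norm_zero (E := R2 n →L[ℝ] (R2 n →L[ℝ] R2 n))

theorem en_integrable (hn : 0 < n) (φ : SympCt n) : Integrable fun y => en φ y ^ (2 * n) := by
  obtain ⟨m, hm⟩ := Pool.Agent.W5h83.HG.exists_ball φ
  refine ((en_cont φ).pow (2 * n)).integrable_of_hasCompactSupport ?_
  refine HasCompactSupport.intro (isCompact_closedBall (0 : R2 n) m) fun y hy => ?_
  change en φ y ^ (2 * n) = 0
  rw [en_out hm hy, zero_pow (by omega)]

/-- local energy at most `c` at the scale `R` -/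
def EnLe (c R : ℝ) (φ : SympCt n) : Prop :=
  ∀ x : R2 n, ∫ y in Metric.ball x R, en φ y ^ (2 * n) ≤ c

theorem EnLe.osc {c θ : ℝ} (hc : ∀ (φ : SympCt n) (x : R2 n) (r : ℝ), 0 < r →
      ∫ y in Metric.ball x r, en φ y ^ (2 * n) ≤ c → ∀ v : R2 n,
      ⨍ y in Metric.ball x r, nsq (D φ y v - ⨍ z in Metric.ball x r, D φ z v) ≤ θ * nsq v)
    {R : ℝ} {φ : SympCt n} (h : EnLe c R φ) : OscLe θ R φ := by
  intro r hr hrR x v
  refine hc φ x r hr ((setIntegral_mono_set ?_ ?_ ?_).trans (h x)) v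
  · exact ((en_cont φ).pow _).continuousOn.integrableOn_compact (isCompact_closedBall x R)
      |>.mono_set Metric.ball_subset_closedBall
  · exact Filter.Eventually.of_forall fun y => pow_nonneg (en_nonneg φ y) _
  · exact (Metric.ball_subset_ball hrR).eventuallyLE

/-- **Small local energy, families.** -/
theorem energy_fam (hM : S_MOLJC2 n) (hS : S_SUPC n) (hF : S_FINFAM n) (hP : S_POIN n) :
    ∃ c : ℝ, 0 < c ∧
    (∀ (R : ℝ), 0 < R → ∀ (C : Type) [TopologicalSpace C] [CompactSpace C]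
      (f g : C(C, SympCt n)), (∀ p, EnLe c R (f p)) → (∀ p, EnLe c R (g p)) →
      (∀ p x, ⨍ y in Metric.ball x R, ‖(f p).toEquiv y - (g p).toEquiv y‖ ≤ c * R) →
      f.HomotopicRel g {p | f p = g p}) ∧
    (∀ R L : ℝ, 0 < R → 0 < L → ∀ K : Set (R2 n), IsCompact K →
      ∀ (C : Type) [MetricSpace C] [CompactSpace C] (A : Set C) (f₀ : C(C, SympCt n)),
      ∃ S : Finset C(C, SympCt n), ∀ f : C(C, SympCt n),
        (∀ p, f p ∈ supportedIn K) → (∀ p, EnLe c R (f p)) →
        (∀ p q x, ‖(f p).toEquiv x - (f q).toEquiv x‖ ≤ L * dist p q) →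
        (∀ p ∈ A, f p = f₀ p) → ∃ g ∈ S, f.HomotopicRel g A) ∧
    ∀ (C : Type) [TopologicalSpace C] [CompactSpace C] (f : C(C, SympCt n)),
      (∀ p, ∫ y, en (f p) y ^ (2 * n) ≤ c) →
      f.HomotopicRel (ContinuousMap.const C one) {p | f p = one} := by
  obtain ⟨c₁, hc₁, key⟩ := two_maps_fam2 (n := n) hM hS (θ := 1 / 2) (by norm_num)
  obtain ⟨c₂, hc₂, hosc⟩ := energy_osc (n := n) hP (θ := 1 / 2) (by norm_num)
  have hmono : ∀ {R : ℝ} {φ : SympCt n}, EnLe (min c₁ c₂) R φ → OscLe (1 / 2) R φ :=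
    fun h => EnLe.osc hosc fun x => (h x).trans (min_le_right _ _)
  refine ⟨min c₁ c₂, lt_min hc₁ hc₂, ?_, ?_, ?_⟩
  · intro R hR C _ _ f g hf hg hd
    refine key R hR C f g (fun p => hmono (hf p)) (fun p => hmono (hg p)) fun p x => ?_
    exact (hd p x).trans (mul_le_mul_of_nonneg_right (min_le_left _ _) hR.le)
  · intro R L hR hL K hK C _ _ A f₀
    obtain ⟨S, hS'⟩ := hF (kerfam hM) (1 / 2) (by norm_num) R L hR hL K hK C A f₀
    exact ⟨S, fun f h1 h2 h3 h4 => hS' f h1 (fun p => hmono (h2 p)) h3 h4⟩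
  · intro C _ _ f hf
    refine all_scales_fam2 hM hS (θ := 1 / 2) (by norm_num) C f fun p R hR => ?_
    rcases Nat.eq_zero_or_pos n with h0 | hn
    · subst h0
      intro r hr _ x v
      simp only [nsq_n0]
      rw [avg_const (0 : ℝ) x hr]
      simp
    · refine hmono fun x => ?_
      refine (setIntegral_le_integral (en_integrable hn (f p)) ?_).trans (hf p)
      exact Filter.Eventually.of_forall fun y => pow_nonneg (en_nonneg (f p) y) _

end Pool.Agent.W5h49.EC
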