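import Mathlib

/-! Averages of a nonnegative function over the points which divide the segments in a ball in a
given ratio. -/

set_option autoImplicit false

open MeasureTheory Metric

namespace Pool.Agent.W5h49.EC.Poin0

variable {E : Type*} [NormedAddCommGroup E] [NormedSpace ℝ E] [MeasurableSpace E] [BorelSpace E]
  [FiniteDimensional ℝ E] (μ : Measure E) [μ.IsAddHaarMeasure]

theorem integrableOn_ball {h : E → ℝ} (hc : Continuous h) (x : E) (r : ℝ) :
    IntegrableOn h (ball x r) μ := by
  have : ProperSpace E := FiniteDimensional.proper_real E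
  exact (hc.continuousOn.integrableOn_compact (isCompact_closedBall x r)).mono_set
    ball_subset_closedBall

theorem inner_bound {h : E → ℝ} (hc : Continuous h) (h0 : ∀ y, 0 ≤ h y) (x : E) (r : ℝ)
    (t : ℝ) (ht : 1 / 2 ≤ t) (ht1 : t ≤ 1) (y : E) (hy : y ∈ ball x r) :
    ∫ z in ball x r, h (y + t • (z - y)) ∂μ ≤
      2 ^ (Module.finrank ℝ E) * ∫ z in ball x r, h z ∂μ := by
  set d := Module.finrank ℝ E with hd
  have ht0 : 0 < t := by linarith
  set c : E := (1 - t) • y with hcdef
  set g : E → ℝ := (ball x r).indicator h with hg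
  have hgi : Integrable g μ := (integrable_indicator_iff measurableSet_ball).mpr
    (integrableOn_ball μ hc x r)
  have hg0 : ∀ u, 0 ≤ g u := fun u => Set.indicator_nonneg (fun v _ => h0 v) u
  have e1 : ∫ z in ball x r, h (y + t • (z - y)) ∂μ =
      ∫ z, (ball x r).indicator (fun z => h (c + t • z)) z ∂μ := by
    rw [integral_indicator measurableSet_ball]
    refine setIntegral_congr_fun measurableSet_ball fun z _ => ?_
    simp only [hcdef]
    congr 1
    rw [smul_sub, sub_smul, one_smul]
    abel
  have e2 : ∫ z, (ball x r).indicator (fun z => h (c + t • z)) z ∂μ ≤ ∫ z, g (c + t • z) ∂μ := by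
    apply integral_mono
    · rw [integrable_indicator_iff measurableSet_ball]
      exact integrableOn_ball μ (by fun_prop) x r
    · have h1 : Integrable (fun u => g (c + u)) μ := hgi.comp_add_left c
      exact h1.comp_smul ht0.ne'
    · intro z
      simp only
      by_cases hz : z ∈ ball x r
      · have hin : c + t • z ∈ ball x r := by
          have := convex_ball x r hy hz (by linarith : (0 : ℝ) ≤ 1 - t) ht0.le (by ring)
          exact this
        rw [Set.indicator_of_mem hz, hg, Set.indicator_of_mem hin]
      · rw [Set.indicator_of_notMem hz]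
        exact hg0 _
  have e3 : ∫ z, g (c + t • z) ∂μ = |(t ^ d)⁻¹| * ∫ z in ball x r, h z ∂μ := by
    have := Measure.integral_comp_smul μ (fun u => g (c + u)) t
    rw [this, integral_add_left_eq_self, hg, integral_indicator measurableSet_ball, smul_eq_mul]
  have hI : 0 ≤ ∫ z in ball x r, h z ∂μ := integral_nonneg fun z => h0 z
  have e4 : |(t ^ d)⁻¹| ≤ 2 ^ d := by
    rw [abs_of_pos (by positivity), inv_le_comm₀ (by positivity) (by positivity), ← inv_pow]
    apply pow_le_pow_left₀ (by norm_num)
    rw [← one_div]; exact ht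
  rw [e1]
  refine e2.trans ?_
  rw [e3]
  exact mul_le_mul_of_nonneg_right e4 hI

theorem prod_integrable {h : E → ℝ} (hc : Continuous h) (x : E) (r t : ℝ) :
    Integrable (Function.uncurry fun y z : E => h (y + t • (z - y)))
      ((μ.restrict (ball x r)).prod (μ.restrict (ball x r))) := by
  have : ProperSpace E := FiniteDimensional.proper_real E
  rw [Measure.prod_restrict]
  have hcont : Continuous (Function.uncurry fun y z : E => h (y + t • (z - y))) := by
    unfold Function.uncurry
    fun_prop
  have h1 : IntegrableOn (Function.uncurry fun y z : E => h (y + t • (z - y)))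
      (closedBall x r ×ˢ closedBall x r) (μ.prod μ) :=
    hcont.continuousOn.integrableOn_compact
      ((isCompact_closedBall x r).prod (isCompact_closedBall x r))
  exact h1.mono_set (Set.prod_mono ball_subset_closedBall ball_subset_closedBall)

theorem large {h : E → ℝ} (hc : Continuous h) (h0 : ∀ y, 0 ≤ h y) (x : E) (r : ℝ)
    (t : ℝ) (ht : 1 / 2 ≤ t) (ht1 : t ≤ 1) :
    ∫ y in ball x r, ∫ z in ball x r, h (y + t • (z - y)) ∂μ ∂μ ≤
      2 ^ (Module.finrank ℝ E) * μ.real (ball x r) * ∫ y in ball x r, h y ∂μ := by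
  have : ProperSpace E := FiniteDimensional.proper_real E
  have hi := (prod_integrable μ hc x r t).integral_prod_left
  have hfin : μ (ball x r) ≠ ⊤ := measure_ball_lt_top.ne
  calc ∫ y in ball x r, ∫ z in ball x r, h (y + t • (z - y)) ∂μ ∂μ
      ≤ ∫ _y in ball x r, 2 ^ (Module.finrank ℝ E) * ∫ z in ball x r, h z ∂μ ∂μ := by
        apply setIntegral_mono_on hi (integrableOn_const hfin) measurableSet_ball
        intro y hy
        exact inner_bound μ hc h0 x r t ht ht1 y hy
    _ = 2 ^ (Module.finrank ℝ E) * μ.real (ball x r) * ∫ y in ball x r, h y ∂μ := by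
        rw [setIntegral_const, smul_eq_mul]; ring

theorem seg {h : E → ℝ} (hc : Continuous h) (h0 : ∀ y, 0 ≤ h y) (x : E) (r : ℝ)
    (t : ℝ) (ht : 0 ≤ t) (ht1 : t ≤ 1) :
    ∫ y in ball x r, ∫ z in ball x r, h (y + t • (z - y)) ∂μ ∂μ ≤
      2 ^ (Module.finrank ℝ E) * μ.real (ball x r) * ∫ y in ball x r, h y ∂μ := by
  rcases le_total (1 / 2) t with h2 | h2
  · exact large μ hc h0 x r t h2 ht1
  · have hsw := integral_integral_swap (prod_integrable μ hc x r t)
    have he : ∫ z in ball x r, ∫ y in ball x r, h (y + t • (z - y)) ∂μ ∂μ =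
        ∫ z in ball x r, ∫ y in ball x r, h (z + (1 - t) • (y - z)) ∂μ ∂μ := by
      refine integral_congr_ae (Filter.Eventually.of_forall fun z => ?_)
      refine integral_congr_ae (Filter.Eventually.of_forall fun y => ?_)
      simp only
      congr 1
      rw [sub_smul, one_smul, smul_sub, smul_sub]
      abel
    calc ∫ y in ball x r, ∫ z in ball x r, h (y + t • (z - y)) ∂μ ∂μ
        = ∫ z in ball x r, ∫ y in ball x r, h (y + t • (z - y)) ∂μ ∂μ := hsw
      _ = ∫ z in ball x r, ∫ y in ball x r, h (z + (1 - t) • (y - z)) ∂μ ∂μ := he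
      _ ≤ _ := large μ hc h0 x r (1 - t) (by linarith) (by linarith)

end Pool.Agent.W5h49.EC.Poin0
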