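import Pool.Agent.W5h49.EC.Defs7
import Pool.Agent.W5h49.EC.Poin0

set_option autoImplicit false

open MeasureTheory

namespace Pool.Agent.W5h49.EC

open Pool.Agent.W71.EC

theorem haarP (n : ℕ) : (volume : Measure (R2 n)).IsAddHaarMeasure :=
  MeasureTheory.Measure.prod.instIsAddHaarMeasure _ _

/-- averages over the points which divide the segments in a ball in a given ratio -/
theorem poin1 (n : ℕ) : S_POIN1 n := by
  intro h hc h0 x r _ t ht ht1
  have hh := haarP n
  have hd : Module.finrank ℝ (R2 n) = 2 * n := by
    rw [Module.finrank_prod, Module.finrank_fin_fun]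
    ring
  have := Poin0.seg (volume : Measure (R2 n)) hc h0 x r t ht ht1
  rw [hd] at this
  exact this

end Pool.Agent.W5h49.EC
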