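import Mathlib
import Pool.Agent.W5h49.EC.Poin1
import Pool.Agent.W5h49.EC.Poin2

set_option autoImplicit false

open scoped ContDiff Topology
open MeasureTheory Metric Set

namespace Pool.Agent.W5h49.EC

open Pool.Agent.W71.EC Poin2H

variable {n : ℕ}

/-- the Poincaré inequality on cubes with an explicit constant -/
theorem poin_explicit (hP1 : S_POIN1 n) {u : R2 n → R2 n} (hu : ContDiff ℝ ∞ u) (x : R2 n) {r : ℝ}
    (hr : 0 < r) : ⨍ y in Metric.ball x r, ‖u y - ⨍ z in Metric.ball x r, u z‖ ^ 2 ≤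
      4 * 2 ^ (2 * n) * r ^ 2 * ⨍ y in Metric.ball x r, ‖fderiv ℝ u y‖ ^ 2 := by
  set B := ball x r with hB
  have hBm : MeasurableSet B := measurableSet_ball
  have hBt : volume B ≠ ⊤ := measure_ball_lt_top.ne
  set ν := (volume : Measure (R2 n)).restrict B with hν
  haveI : IsFiniteMeasure ν := ⟨by rw [Measure.restrict_apply_univ]; exact measure_ball_lt_top⟩
  set V := volume.real B with hVdef
  have hV : 0 < V := ENNReal.toReal_pos (measure_ball_pos volume _ hr).ne' hBt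
  have hVν : ν.real univ = V := by rw [hν, measureReal_restrict_apply_univ]
  have huc : Continuous u := hu.continuous
  set h : R2 n → ℝ := fun y => ‖fderiv ℝ u y‖ ^ 2 with hh
  have hhc : Continuous h := ((hu.continuous_fderiv (by norm_num)).norm).pow 2
  have hh0 : ∀ y, 0 ≤ h y := fun y => sq_nonneg _
  have hcB : IsCompact (closedBall x r) := isCompact_closedBall x r
  -- integrability
  have int1 : ∀ {F : Type} [NormedAddCommGroup F] {f : R2 n → F}, Continuous f →
      Integrable f ν := fun hf =>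
    (hf.continuousOn.integrableOn_compact hcB).mono_set ball_subset_closedBall
  set τ := (volume : Measure ℝ).restrict (Icc (0:ℝ) 1) with hτ
  haveI : IsFiniteMeasure τ := ⟨by rw [Measure.restrict_apply_univ]; exact measure_Icc_lt_top⟩
  have hPr : ν.prod ν = ((volume : Measure (R2 n)).prod (volume : Measure (R2 n))).restrict
      (B ×ˢ B) := Measure.prod_restrict _ _
  have int2 : ∀ {f : R2 n × R2 n → ℝ}, Continuous f → Integrable f (ν.prod ν) := by
    intro f hf
    rw [hPr]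
    exact (hf.continuousOn.integrableOn_compact (hcB.prod hcB)).mono_set
      (prod_mono ball_subset_closedBall ball_subset_closedBall)
  have int3 : ∀ {f : (R2 n × R2 n) × ℝ → ℝ}, Continuous f →
      Integrable f ((ν.prod ν).prod τ) := by
    intro f hf
    rw [hPr, hτ, Measure.prod_restrict]
    exact (hf.continuousOn.integrableOn_compact ((hcB.prod hcB).prod isCompact_Icc)).mono_set
      (prod_mono (prod_mono ball_subset_closedBall ball_subset_closedBall) subset_rfl)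
  set uB := ⨍ z in B, u z with huB
  have hstep2 : ∀ y, ‖u y - uB‖ ^ 2 ≤ V⁻¹ * ∫ z in B, ‖u y - u z‖ ^ 2 := by
    intro y
    have e : u y - uB = V⁻¹ • ∫ z in B, (u y - u z) := by
      rw [integral_sub (int1 continuous_const) (int1 huc), setIntegral_const, smul_sub, smul_smul,
        inv_mul_cancel₀ hV.ne', one_smul, huB, setAverage_eq]
    have hc1 : Continuous fun z => ‖u y - u z‖ := (continuous_const.sub huc).norm
    have h1 : ‖u y - uB‖ ≤ V⁻¹ * ∫ z in B, ‖u y - u z‖ := by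
      rw [e, norm_smul, norm_inv, Real.norm_of_nonneg hV.le]
      gcongr
      exact norm_integral_le_integral_norm _
    have h2 := sq_int_le ν (g := fun z => ‖u y - u z‖) (int1 hc1) (int1 (hc1.pow 2))
    rw [hVν] at h2
    calc ‖u y - uB‖ ^ 2 ≤ (V⁻¹ * ∫ z in B, ‖u y - u z‖) ^ 2 := by gcongr
      _ = V⁻¹ ^ 2 * (∫ z in B, ‖u y - u z‖) ^ 2 := by ring
      _ ≤ V⁻¹ ^ 2 * (V * ∫ z in B, ‖u y - u z‖ ^ 2) := by gcongr
      _ = V⁻¹ * ∫ z in B, ‖u y - u z‖ ^ 2 := by field_simp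
  have hKc : Continuous (fun q : R2 n × R2 n => ‖u q.1 - u q.2‖ ^ 2) :=
    (((huc.comp continuous_fst).sub (huc.comp continuous_snd)).norm).pow 2
  have hHc : Continuous (fun w : (R2 n × R2 n) × ℝ => h (w.1.1 + w.2 • (w.1.2 - w.1.1))) :=
    hhc.comp ((continuous_fst.comp continuous_fst).add (continuous_snd.smul
      ((continuous_snd.comp continuous_fst).sub (continuous_fst.comp continuous_fst))))
  have hHi := int3 hHc
  -- the double integral
  have hdouble : ∫ y in B, ∫ z in B, ‖u y - u z‖ ^ 2 ≤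
      4 * r ^ 2 * (2 ^ (2 * n) * V * ∫ y in B, h y) := by
    have e1 : ∫ y in B, ∫ z in B, ‖u y - u z‖ ^ 2 =
        ∫ q, ‖u q.1 - u q.2‖ ^ 2 ∂(ν.prod ν) := (integral_prod _ (int2 hKc)).symm
    have hLi : Integrable (fun q : R2 n × R2 n => ∫ t, h (q.1 + t • (q.2 - q.1)) ∂τ)
        (ν.prod ν) := hHi.integral_prod_left
    have e2 : ∫ q, ‖u q.1 - u q.2‖ ^ 2 ∂(ν.prod ν) ≤
        ∫ q, 4 * r ^ 2 * (∫ t, h (q.1 + t • (q.2 - q.1)) ∂τ) ∂(ν.prod ν) := by
      have hi1 := int2 hKc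
      have hi2 := hLi.const_mul (4 * r ^ 2)
      rw [hPr] at hi1 hi2 ⊢
      refine setIntegral_mono_on hi1 hi2 (hBm.prod hBm) fun q hq => ?_
      refine (segment_le hu q.1 q.2).trans ?_
      have hq1 : ‖q.2 - q.1‖ ≤ 2 * r := by
        have h1 := mem_ball.1 hq.1
        have h2 := mem_ball.1 hq.2
        rw [← dist_eq_norm]
        have h3 := dist_triangle_right q.2 q.1 x
        linarith
      have hpos : 0 ≤ ∫ t, h (q.1 + t • (q.2 - q.1)) ∂τ :=
        integral_nonneg fun t => hh0 _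
      have hq2 : ‖q.2 - q.1‖ ^ 2 ≤ 4 * r ^ 2 := by
        calc ‖q.2 - q.1‖ ^ 2 ≤ (2 * r) ^ 2 := by gcongr
          _ = 4 * r ^ 2 := by ring
      exact mul_le_mul_of_nonneg_right hq2 hpos
    have e3 : ∫ q, (∫ t, h (q.1 + t • (q.2 - q.1)) ∂τ) ∂(ν.prod ν) =
        ∫ t, (∫ q, h (q.1 + t • (q.2 - q.1)) ∂(ν.prod ν)) ∂τ :=
      integral_integral_swap (f := fun (q : R2 n × R2 n) (t : ℝ) => h (q.1 + t • (q.2 - q.1))) hHi
    have e4 : ∀ t ∈ Icc (0:ℝ) 1, ∫ q, h (q.1 + t • (q.2 - q.1)) ∂(ν.prod ν) ≤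
        2 ^ (2 * n) * V * ∫ y in B, h y := by
      intro t ht
      have hct : Continuous (fun q : R2 n × R2 n => h (q.1 + t • (q.2 - q.1))) :=
        hhc.comp (continuous_fst.add ((continuous_snd.sub continuous_fst).const_smul t))
      rw [integral_prod _ (int2 hct)]
      exact hP1 h hhc hh0 x r hr t ht.1 ht.2
    have e5 : ∫ t, (∫ q, h (q.1 + t • (q.2 - q.1)) ∂(ν.prod ν)) ∂τ ≤
        2 ^ (2 * n) * V * ∫ y in B, h y := by
      have hi3 : Integrable (fun t => ∫ q, h (q.1 + t • (q.2 - q.1)) ∂(ν.prod ν)) τ :=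
        hHi.integral_prod_right
      have hτ1 : τ.real univ = 1 := by
        rw [hτ, measureReal_restrict_apply_univ, Real.volume_real_Icc]
        norm_num
      have h1 : ∫ t, (∫ q, h (q.1 + t • (q.2 - q.1)) ∂(ν.prod ν)) ∂τ ≤
          ∫ _, (2 ^ (2 * n) * V * ∫ y in B, h y) ∂τ := by
        refine integral_mono_ae hi3 (integrable_const _) ?_
        filter_upwards [ae_restrict_mem (μ := (volume : Measure ℝ))
          (measurableSet_Icc (a := (0:ℝ)) (b := 1))] with t ht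
        exact e4 t ht
      rw [integral_const, hτ1, one_smul] at h1
      exact h1
    rw [e1]
    refine e2.trans ?_
    rw [integral_const_mul, e3]
    gcongr
  -- conclusion
  have hYi : Integrable (fun y => ∫ z in B, ‖u y - u z‖ ^ 2) ν := (int2 hKc).integral_prod_left
  have hfin : ∫ y in B, ‖u y - uB‖ ^ 2 ≤ V⁻¹ * (4 * r ^ 2 * (2 ^ (2 * n) * V * ∫ y in B, h y)) := by
    calc ∫ y in B, ‖u y - uB‖ ^ 2 ≤ ∫ y in B, V⁻¹ * ∫ z in B, ‖u y - u z‖ ^ 2 :=
          integral_mono (int1 (((huc.sub continuous_const).norm).pow 2)) (hYi.const_mul _) hstep2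
      _ = V⁻¹ * ∫ y in B, ∫ z in B, ‖u y - u z‖ ^ 2 := integral_const_mul _ _
      _ ≤ _ := by gcongr
  rw [setAverage_eq, setAverage_eq, smul_eq_mul, smul_eq_mul]
  calc V⁻¹ * ∫ y in B, ‖u y - uB‖ ^ 2
      ≤ V⁻¹ * (V⁻¹ * (4 * r ^ 2 * (2 ^ (2 * n) * V * ∫ y in B, h y))) := by gcongr
    _ = 4 * 2 ^ (2 * n) * r ^ 2 * (V⁻¹ * ∫ y in B, h y) := by field_simp

end Pool.Agent.W5h49.EC
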