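import Mathlib
import Pool.Agent.W5h49.EC.Energy
import Pool.Agent.W5h49.EC.PoinE
import Pool.Agent.W5h49.EC.CubeND

/-!
# The energy gap with explicit constants
-/

set_option autoImplicit false

open scoped ContDiff Topology
open MeasureTheory Set

namespace Pool.Agent.W5h49.EC

open Pool.Agent.W71.EC Pool.Agent.W5h83.HG

variable {n : ℕ}

/-- mean oscillation less than `1` on a cube: no reversal -/
theorem NR_of_osc (T : CubeTasks n) {φ : SympCt n} {x : R2 n} {r : ℝ} (hr : 0 < r)
    (h : ∀ v : R2 n, v ≠ 0 →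
      ⨍ y in Metric.ball x r, nsq (D φ y v - ⨍ z in Metric.ball x r, D φ z v) < nsq v) :
    NR (CA φ r x) := by
  refine NR_of_tame fun v hv => ?_
  rw [(T.ca2 φ).1 r hr, (T.ca2 φ).1 r hr]
  set B := Metric.ball x r with hB
  have hBpos : 0 < volume.real B :=
    ENNReal.toReal_pos (Metric.measure_ball_pos _ _ hr).ne' measure_ball_lt_top.ne
  have hint : ∀ {E : Type} [NormedAddCommGroup E] {g : R2 n → E}, Continuous g →
      IntegrableOn g B := fun hg =>
    (hg.continuousOn.integrableOn_compact (isCompact_closedBall x r)).mono_set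
      Metric.ball_subset_closedBall
  set A := ⨍ z in B, D φ z v with hA
  set A' := ⨍ z in B, D φ z (J v) with hA'
  have ca : Continuous fun y => D φ y v := CubeAux.continuous_D φ v
  have cb : Continuous fun y => D φ y (J v) := CubeAux.continuous_D φ (J v)
  have iA : ∫ z in B, D φ z v = volume.real B • A := by
    rw [hA, setAverage_eq, smul_smul, mul_inv_cancel₀ hBpos.ne', one_smul]
  have iA' : ∫ z in B, D φ z (J v) = volume.real B • A' := by
    rw [hA', setAverage_eq, smul_smul, mul_inv_cancel₀ hBpos.ne', one_smul]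
  have hJv : J v ≠ 0 := by
    intro h0
    have h1 := nsqPos hv
    rw [← Near.nsq_J, h0] at h1
    simp [nsq] at h1
  have h1 := h v hv
  have h2 := h (J v) hJv
  rw [Near.nsq_J] at h2
  -- the variance identity
  have e1 : ∫ y in B, omega (D φ y v - A) (D φ y (J v) - A') =
      volume.real B * (nsq v - omega A A') := by
    have e2 : ∀ y, omega (D φ y v - A) (D φ y (J v) - A') =
        (nsq v + omega A A') - (omega (D φ y v) A' + omega A (D φ y (J v))) := by
      intro y
      have h3 : omega (D φ y v) (D φ y (J v)) = nsq v := by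
        rw [← omJ]
        exact φ.symplectic y v (J v)
      rw [← h3]
      simp only [← W_apply, map_sub, _root_.sub_apply]
      ring
    have c1 : Continuous fun y => omega (D φ y v) A' := continuous_omega ca continuous_const
    have c2 : Continuous fun y => omega A (D φ y (J v)) := continuous_omega continuous_const cb
    have c12 : Continuous fun y => omega (D φ y v) A' + omega A (D φ y (J v)) := c1.add c2
    simp only [e2]
    rw [integral_sub (hint continuous_const) (hint c12),
      integral_add (hint c1) (hint c2), setIntegral_const]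
    have e3 : ∫ y in B, omega (D φ y v) A' = volume.real B * omega A A' := by
      have h4 := ContinuousLinearMap.integral_comp_comm (omL A') (hint ca).integrable
      simp only [omL_apply] at h4
      rw [h4, iA]
      simp only [← W_apply, map_smul, ContinuousLinearMap.smul_apply, smul_eq_mul]
    have e4 : ∫ y in B, omega A (D φ y (J v)) = volume.real B * omega A A' := by
      have h4 := ContinuousLinearMap.integral_comp_comm (omR A) (hint cb).integrable
      simp only [omR_apply] at h4
      rw [h4, iA']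
      simp only [← W_apply, map_smul, smul_eq_mul]
    rw [e3, e4, smul_eq_mul]
    ring
  have e5 : ∫ y in B, omega (D φ y v - A) (D φ y (J v) - A') ≤
      ∫ y in B, (nsq (D φ y v - A) + nsq (D φ y (J v) - A')) / 2 := by
    refine setIntegral_mono (hint (continuous_omega (ca.sub continuous_const)
      (cb.sub continuous_const))) (hint ?_) fun y => omega_le _ _
    exact ((CubeAux.continuous_nsq.comp (ca.sub continuous_const)).add
      (CubeAux.continuous_nsq.comp (cb.sub continuous_const))).div_const 2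
  have c3 : Continuous fun y => nsq (D φ y v - A) :=
    CubeAux.continuous_nsq.comp (ca.sub continuous_const)
  have c4 : Continuous fun y => nsq (D φ y (J v) - A') :=
    CubeAux.continuous_nsq.comp (cb.sub continuous_const)
  have e6 : ∫ y in B, (nsq (D φ y v - A) + nsq (D φ y (J v) - A')) / 2 <
      volume.real B * nsq v := by
    rw [integral_div, integral_add (hint c3) (hint c4)]
    rw [setAverage_eq, smul_eq_mul, inv_mul_lt_iff₀ hBpos] at h1 h2
    linarith
  have e7 : volume.real B * (nsq v - omega A A') < volume.real B * nsq v := by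
    rw [← e1]
    exact e5.trans_lt e6
  have e8 := lt_of_mul_lt_mul_left e7 hBpos.le
  linarith

/-- small Morrey energy: no reversal -/
theorem NR_of_morrey (T : CubeTasks n) {φ : SympCt n} {x : R2 n} {r : ℝ} (hr : 0 < r)
    (h : r ^ 2 * ⨍ y in Metric.ball x r, en φ y ^ 2 < 1 / (8 * n * 4 ^ n)) : NR (CA φ r x) := by
  rcases Nat.eq_zero_or_pos n with h0 | hn
  · subst h0
    rintro ⟨v, hv, -⟩
    exact hv (Subsingleton.elim _ _)
  have hn' : (0 : ℝ) < n := Nat.cast_pos.2 hn
  refine NR_of_osc T hr fun v hv => ?_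
  set B := Metric.ball x r with hB
  have hBpos : 0 < volume.real B :=
    ENNReal.toReal_pos (Metric.measure_ball_pos _ _ hr).ne' measure_ball_lt_top.ne
  have hint : ∀ {g : R2 n → ℝ}, Continuous g → IntegrableOn g B := fun hg =>
    (hg.continuousOn.integrableOn_compact (isCompact_closedBall x r)).mono_set
      Metric.ball_subset_closedBall
  have hDc : Continuous fun z => D φ z v := CubeAux.continuous_D φ v
  have hDs : ContDiff ℝ ∞ (fun z => D φ z v) :=
    (φ.smooth.fderiv_right (m := ∞) (by simp)).clm_apply contDiff_const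
  set m := ⨍ z in B, D φ z v with hm
  have havg : ∀ {g h : R2 n → ℝ}, Continuous g → Continuous h → (∀ y, g y ≤ h y) →
      ⨍ y in B, g y ≤ ⨍ y in B, h y := by
    intro g h hg hh hgh
    rw [setAverage_eq, setAverage_eq, smul_eq_mul, smul_eq_mul]
    exact mul_le_mul_of_nonneg_left (setIntegral_mono (hint hg) (hint hh) hgh)
      (inv_nonneg.2 hBpos.le)
  have havgm : ∀ (k : ℝ) (g : R2 n → ℝ), ⨍ y in B, k * g y = k * ⨍ y in B, g y := by
    intro k g
    rw [setAverage_eq, setAverage_eq, smul_eq_mul, smul_eq_mul, integral_const_mul]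
    ring
  have s1 : ⨍ y in B, nsq (D φ y v - m) ≤ 2 * n * ⨍ y in B, ‖D φ y v - m‖ ^ 2 := by
    rw [← havgm]
    exact havg (CubeAux.continuous_nsq.comp (hDc.sub continuous_const))
      (((hDc.sub continuous_const).norm.pow 2).const_mul _) fun y => Form.nsq_le_norm_sq _
  have s2 : ⨍ y in B, ‖D φ y v - m‖ ^ 2 ≤
      4 * 2 ^ (2 * n) * r ^ 2 * ⨍ y in B, ‖fderiv ℝ (fun y => D φ y v) y‖ ^ 2 :=
    poin_explicit (poin1 n) hDs x hr
  have s3 : ⨍ y in B, ‖fderiv ℝ (fun y => D φ y v) y‖ ^ 2 ≤ ‖v‖ ^ 2 * ⨍ y in B, en φ y ^ 2 := by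
    rw [← havgm]
    refine havg ((hDs.continuous_fderiv (by simp)).norm.pow 2)
      (((en_cont φ).pow 2).const_mul _) fun y => ?_
    calc _ ≤ (en φ y * ‖v‖) ^ 2 := by
          have := fderiv_D φ v y
          gcongr
      _ = _ := by ring
  have hv2 : 0 < ‖v‖ ^ 2 := by
    have := norm_pos_iff.2 hv
    positivity
  have e4 : (2 : ℝ) ^ (2 * n) = 4 ^ n := by
    rw [pow_mul]
    norm_num
  calc ⨍ y in B, nsq (D φ y v - m)
      ≤ 2 * n * (4 * 2 ^ (2 * n) * r ^ 2 * (‖v‖ ^ 2 * ⨍ y in B, en φ y ^ 2)) := by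
        refine s1.trans (mul_le_mul_of_nonneg_left (s2.trans ?_) (by positivity))
        exact mul_le_mul_of_nonneg_left s3 (by positivity)
    _ = (8 * n * 4 ^ n * ‖v‖ ^ 2) * (r ^ 2 * ⨍ y in B, en φ y ^ 2) := by
        rw [e4]
        ring
    _ < (8 * n * 4 ^ n * ‖v‖ ^ 2) * (1 / (8 * n * 4 ^ n)) :=
        mul_lt_mul_of_pos_left h (by positivity)
    _ = ‖v‖ ^ 2 := by
        field_simp
    _ ≤ nsq v := Form.norm_sq_le_nsq v

theorem vol_ball (x : R2 n) {r : ℝ} (hr : 0 < r) :
    volume.real (Metric.ball x r) = (2 * r) ^ (2 * n) := by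
  have h1 : Metric.ball x r = Metric.ball x.1 r ×ˢ Metric.ball x.2 r :=
    (ball_prod_same x.1 x.2 r).symm
  have h2 : (volume : Measure (R2 n)) =
    (volume : Measure (Fin n → ℝ)).prod (volume : Measure (Fin n → ℝ)) := rfl
  rw [measureReal_def, h1, h2, Measure.prod_prod, Real.volume_pi_ball _ hr,
    Real.volume_pi_ball _ hr, ENNReal.toReal_mul, ENNReal.toReal_ofReal (by positivity)]
  simp only [Fintype.card_fin]
  ring

/-- from the total energy to the Morrey energy -/
theorem morrey_of_total {φ : SympCt n} (h : ∫ y, en φ y ^ (2 * n) < (1 / (2 * n * 4 ^ n)) ^ n)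
    (hn : 0 < n) (x : R2 n) {r : ℝ} (hr : 0 < r) :
    r ^ 2 * ⨍ y in Metric.ball x r, en φ y ^ 2 < 1 / (8 * n * 4 ^ n) := by
  have hn' : (0 : ℝ) < n := Nat.cast_pos.2 hn
  set B := Metric.ball x r with hB
  have hBv : volume.real B = (2 * r) ^ (2 * n) := vol_ball x hr
  have hBpos : 0 < volume.real B := by rw [hBv]; positivity
  have hint : ∀ {g : R2 n → ℝ}, Continuous g → IntegrableOn g B := fun hg =>
    (hg.continuousOn.integrableOn_compact (isCompact_closedBall x r)).mono_set
      Metric.ball_subset_closedBall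
  -- Jensen
  have h1 : (⨍ y in B, en φ y ^ 2) ^ n ≤ ⨍ y in B, (en φ y ^ 2) ^ n := by
    refine (convexOn_pow n).map_set_average_le (continuous_pow n).continuousOn isClosed_Ici
      (Metric.measure_ball_pos _ _ hr).ne' measure_ball_lt_top.ne
      (Filter.Eventually.of_forall fun y => ?_) (hint ((en_cont φ).pow 2)) ?_
    · change (0 : ℝ) ≤ en φ y ^ 2
      exact sq_nonneg (en φ y)
    · exact hint (((en_cont φ).pow 2).pow n)
  have h2 : ∫ y in B, (en φ y ^ 2) ^ n ≤ ∫ y, en φ y ^ (2 * n) := by
    simp only [← pow_mul]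
    exact setIntegral_le_integral (en_integrable hn φ)
      (Filter.Eventually.of_forall fun y => pow_nonneg (en_nonneg φ y) _)
  have h3 : (r ^ 2 * ⨍ y in B, en φ y ^ 2) ^ n < (1 / (8 * n * 4 ^ n)) ^ n := by
    calc (r ^ 2 * ⨍ y in B, en φ y ^ 2) ^ n
        = (r ^ 2) ^ n * (⨍ y in B, en φ y ^ 2) ^ n := mul_pow _ _ _
      _ ≤ (r ^ 2) ^ n * ⨍ y in B, (en φ y ^ 2) ^ n :=
          mul_le_mul_of_nonneg_left h1 (by positivity)
      _ = (1 / 4) ^ n * ∫ y in B, (en φ y ^ 2) ^ n := by
          have e0 : (2 : ℝ) ^ 2 = 4 := by norm_num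
          rw [setAverage_eq, smul_eq_mul, hBv, pow_mul (2 * r) 2 n, mul_pow 2 r 2, e0, mul_pow,
            one_div, inv_pow]
          field_simp
      _ < (1 / 4) ^ n * (1 / (2 * n * 4 ^ n)) ^ n :=
          mul_lt_mul_of_pos_left (h2.trans_lt h) (by positivity)
      _ = (1 / (8 * n * 4 ^ n)) ^ n := by
          rw [← mul_pow]
          congr 1
          field_simp
          norm_num
  exact lt_of_pow_lt_pow_left₀ n (by positivity) h3

/-- **The energy gap with explicit constants.** -/
theorem energy_gap (T : CubeTasks n) (C : Type) [TopologicalSpace C] [CompactSpace C]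
    (f : C(C, SympCt n)) (h : ∀ p, (∀ (r : ℝ), 0 < r → ∀ x : R2 n,
      r ^ 2 * ⨍ y in Metric.ball x r, en (f p) y ^ 2 < 1 / (8 * n * 4 ^ n)) ∨
      ∫ y, en (f p) y ^ (2 * n) < (1 / (2 * n * 4 ^ n)) ^ n) :
    f.HomotopicRel (ContinuousMap.const C one) {p | f p = one} := by
  refine cube_all_scales T C f fun p r hr x => ?_
  rcases Nat.eq_zero_or_pos n with h0 | hn
  · subst h0
    rintro ⟨v, hv, -⟩
    exact hv (Subsingleton.elim _ _)
  rcases h p with h | h
  · exact NR_of_morrey T hr (h r hr x)
  · exact NR_of_morrey T hr (morrey_of_total h hn x hr)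

end Pool.Agent.W5h49.EC
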