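import Mathlib
import Pool.Agent.W5h49.EC.Defs4
import Pool.Agent.W5h49.EC.Final

set_option autoImplicit false

open scoped ContDiff Topology
open MeasureTheory

namespace Pool.Agent.W5h49.EC

open Pool.Agent.W71.EC Pool.Agent.W5h83.HG

variable {n : ℕ}

namespace FinFam

theorem varLe_mono {η : R2 n → ℝ} {θ R R' : ℝ} {φ : SympCt n} (h : VarLe η θ R φ) (hR : R' ≤ R) :
    VarLe η θ R' φ := fun r hr hrR x v => h r hr (hrR.trans hR) x v

theorem md_le {η : R2 n → ℝ} {C0 : ℝ} (hC0 : 0 < C0)
    (hdiff : ∀ (φ ψ : SympCt n) (R : ℝ), 0 < R → ∀ x v : R2 n,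
      nsq (MD η φ R x v - MD η ψ R x v) ≤
        (C0 / R * ⨍ y in Metric.ball x R, ‖φ.toEquiv y - ψ.toEquiv y‖) ^ 2 * nsq v)
    {φ ψ : SympCt n} {R M : ℝ} (hR : 0 < R) (hM : 0 ≤ M)
    (h : ∀ x, ‖φ.toEquiv x - ψ.toEquiv x‖ ≤ M) (x v : R2 n) :
    nsq (MD η φ R x v - MD η ψ R x v) ≤ (C0 / R * M) ^ 2 * nsq v := by
  refine (hdiff φ ψ R hR x v).trans ?_
  refine mul_le_mul_of_nonneg_right ?_ (nsqNN v)
  have hcont : Continuous (fun y => ‖φ.toEquiv y - ψ.toEquiv y‖) :=
    (φ.smooth.continuous.sub ψ.smooth.continuous).norm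
  have h1 := avg_le hcont hM h x R
  have h0 : 0 ≤ ⨍ y in Metric.ball x R, ‖φ.toEquiv y - ψ.toEquiv y‖ := by
    rw [setAverage_eq]
    exact smul_nonneg (by positivity) (integral_nonneg fun y => norm_nonneg _)
  have h3 : 0 ≤ C0 / R := by positivity
  gcongr

theorem nsq_add3 (a b c : R2 n) : nsq (a + b + c) ≤ 3 * (nsq a + nsq b + nsq c) := by
  unfold nsq
  rw [← Finset.sum_add_distrib, ← Finset.sum_add_distrib, Finset.mul_sum]
  refine Finset.sum_le_sum fun i _ => ?_
  simp only [Prod.fst_add, Prod.snd_add, Pi.add_apply]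
  nlinarith [sq_nonneg (a.1 i - b.1 i), sq_nonneg (b.1 i - c.1 i), sq_nonneg (a.1 i - c.1 i),
    sq_nonneg (a.2 i - b.2 i), sq_nonneg (b.2 i - c.2 i), sq_nonneg (a.2 i - c.2 i)]

/-- homotopies relative to a smaller set -/
theorem rel_mono {X Y : Type} [TopologicalSpace X] [TopologicalSpace Y] {f g : C(X, Y)}
    {S T : Set X} (h : f.HomotopicRel g T) (hST : S ⊆ T) : f.HomotopicRel g S := by
  obtain ⟨F⟩ := h
  exact ⟨⟨F.toHomotopy, fun t x hx => F.prop' t x (hST hx)⟩⟩

/-- the radius function -/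
theorem exists_rad {C : Type} [MetricSpace C] (A : Set C) {R b : ℝ} (hR : 0 < R) (hb : 0 < b) :
    ∃ Rad : C(C, ℝ), (∀ p, 0 ≤ Rad p) ∧ (∀ p, Rad p ≤ R) ∧ (∀ p ∈ A, Rad p = 0) ∧
      ∀ p, Rad p = R ∨ (A.Nonempty ∧ Rad p = b * Metric.infDist p A) := by
  by_cases hA : A.Nonempty
  · refine ⟨⟨fun p => min R (b * Metric.infDist p A),
      continuous_const.min (continuous_const.mul (Metric.continuous_infDist_pt A))⟩,
      fun p => le_min hR.le (mul_nonneg hb.le Metric.infDist_nonneg), fun p => min_le_left _ _,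
      fun p hp => ?_, fun p => ?_⟩
    · change min R (b * Metric.infDist p A) = 0
      rw [Metric.infDist_zero_of_mem hp, mul_zero]
      exact min_eq_right hR.le
    · change min R (b * Metric.infDist p A) = R ∨ _
      rcases le_total R (b * Metric.infDist p A) with h | h
      · exact Or.inl (min_eq_left h)
      · exact Or.inr ⟨hA, min_eq_right h⟩
  · rw [Set.not_nonempty_iff_eq_empty] at hA
    subst hA
    exact ⟨⟨fun _ => R, continuous_const⟩, fun p => hR.le, fun p => le_rfl,
      fun p hp => hp.elim, fun p => Or.inl rfl⟩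

end FinFam

open FinFam

theorem finfam (n : ℕ) : S_FINFAM n := by
  classical
  intro hker θ hθ R L hR hL K hK C _ _ A f₀
  obtain ⟨η, θ', hη, hs, hθ', hcube⟩ := cube2 n θ hθ
  obtain ⟨C0, hC0, hdiff⟩ := diff n η hη hs
  have hκ : 0 < 1 - θ' := by linarith
  set κ : ℝ := 1 - θ' with hκdef
  obtain ⟨N, cd, hcode⟩ := code n η hη K hK R (κ / 9) hR (by positivity)
  have hsq : 0 < Real.sqrt κ := Real.sqrt_pos.2 hκ
  set b : ℝ := 2 * L * C0 / Real.sqrt κ with hb
  have hb0 : 0 < b := by positivity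
  obtain ⟨Rad, hRad0, hRadR, hRadA, hRad⟩ := exists_rad A hR hb0
  set δ : ℝ := Real.sqrt κ / 3 * R / (C0 * L) with hδ
  have hδ0 : 0 < δ := by positivity
  obtain ⟨t, -, htfin, ht⟩ := (isCompact_univ (X := C)).finite_cover_balls hδ0
  -- the key statement for two maps in the same class
  have key : ∀ f g : C(C, SympCt n), (∀ p, f p ∈ supportedIn K) → (∀ p, OscLe θ R (f p)) →
      (∀ p q x, ‖(f p).toEquiv x - (f q).toEquiv x‖ ≤ L * dist p q) → (∀ p ∈ A, f p = f₀ p) →
      (∀ p, g p ∈ supportedIn K) → (∀ p, OscLe θ R (g p)) →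
      (∀ p q x, ‖(g p).toEquiv x - (g q).toEquiv x‖ ≤ L * dist p q) → (∀ p ∈ A, g p = f₀ p) →
      (∀ p ∈ t, cd (f p) = cd (g p)) → f.HomotopicRel g A := by
    intro f g hf1 hf2 hf3 hf4 hg1 hg2 hg3 hg4 hfg
    have hclose : A.Nonempty → ∀ p x, ‖(f p).toEquiv x - (g p).toEquiv x‖ ≤
        2 * L * Metric.infDist p A := by
      intro hA p x
      have h1 : ‖(f p).toEquiv x - (g p).toEquiv x‖ / (2 * L) ≤ Metric.infDist p A := by
        rw [Metric.le_infDist hA]
        intro a ha
        rw [div_le_iff₀ (by positivity)]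
        have e1 := hf3 p a x
        have e2 := hg3 a p x
        rw [dist_comm a p] at e2
        have e3 : (f a).toEquiv x = (g a).toEquiv x := by rw [hf4 a ha, hg4 a ha]
        have e4 : (f p).toEquiv x - (g p).toEquiv x =
            ((f p).toEquiv x - (f a).toEquiv x) + ((g a).toEquiv x - (g p).toEquiv x) := by
          rw [e3]
          abel
        rw [e4]
        refine (norm_add_le _ _).trans ?_
        linarith
      rw [div_le_iff₀ (by positivity)] at h1
      linarith
    refine rel_mono (hker η hη θ' κ hθ' (by linarith) C f g Rad hRad0 ?_ ?_ ?_ ?_)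
      (T := {p | Rad p = 0}) fun p hp => hRadA p hp
    · intro p hp
      rcases hRad p with h | ⟨hA, h⟩
      · exact absurd (h.symm.trans hp) hR.ne'
      · have h1 : Metric.infDist p A = 0 := by
          rcases mul_eq_zero.1 (h.symm.trans hp) with h2 | h2
          · exact absurd h2 hb0.ne'
          · exact h2
        refine SympCt.ext' fun x => ?_
        have h2 := hclose hA p x
        rw [h1, mul_zero] at h2
        exact sub_eq_zero.1 (norm_le_zero_iff.1 h2)
    · exact fun p => varLe_mono (hcube (f p) R (hf2 p)) (hRadR p)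
    · exact fun p => varLe_mono (hcube (g p) R (hg2 p)) (hRadR p)
    · intro p hp x v
      rcases hRad p with h | ⟨hA, h⟩
      · rw [h]
        obtain ⟨q, hq, hpq⟩ : ∃ q ∈ t, p ∈ Metric.ball q δ := by
          have := ht (Set.mem_univ p)
          simpa using this
        rw [Metric.mem_ball] at hpq
        have hLδ : 0 ≤ L * δ := by positivity
        have hval : (C0 / R * (L * δ)) ^ 2 = κ / 9 := by
          have : C0 / R * (L * δ) = Real.sqrt κ / 3 := by
            rw [hδ]
            field_simp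
          rw [this, div_pow, Real.sq_sqrt hκ.le]
          norm_num
        have a1 : nsq (MD η (f p) R x v - MD η (f q) R x v) ≤ κ / 9 * nsq v := by
          rw [← hval]
          refine md_le hC0 hdiff hR hLδ (fun y => (hf3 p q y).trans ?_) x v
          exact mul_le_mul_of_nonneg_left hpq.le hL.le
        have a2 : nsq (MD η (f q) R x v - MD η (g q) R x v) ≤ κ / 9 * nsq v :=
          hcode (f q) (g q) (hf1 q) (hg1 q) (hfg q hq) x v
        have a3 : nsq (MD η (g q) R x v - MD η (g p) R x v) ≤ κ / 9 * nsq v := by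
          rw [← hval]
          refine md_le hC0 hdiff hR hLδ (fun y => (hg3 q p y).trans ?_) x v
          rw [dist_comm]
          exact mul_le_mul_of_nonneg_left hpq.le hL.le
        have a4 : MD η (f p) R x v - MD η (g p) R x v =
            (MD η (f p) R x v - MD η (f q) R x v) + (MD η (f q) R x v - MD η (g q) R x v) +
              (MD η (g q) R x v - MD η (g p) R x v) := by abel
        rw [a4]
        refine (nsq_add3 _ _ _).trans ?_
        linarith
      · have hd : 0 < Metric.infDist p A := by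
          rw [h] at hp
          exact (mul_pos_iff_of_pos_left hb0).1 hp
        have hM : 0 ≤ 2 * L * Metric.infDist p A := by positivity
        have h1 := md_le hC0 hdiff hp hM (hclose hA p) x v
        refine h1.trans (mul_le_mul_of_nonneg_right (le_of_eq ?_) (nsqNN v))
        have : C0 / Rad p * (2 * L * Metric.infDist p A) = Real.sqrt κ := by
          rw [h, hb]
          field_simp
        rw [this, Real.sq_sqrt hκ.le]
  -- pigeonhole
  have := htfin.fintype
  let Good : C(C, SympCt n) → Prop := fun f => (∀ p, f p ∈ supportedIn K) ∧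
    (∀ p, OscLe θ R (f p)) ∧
    (∀ p q x, ‖(f p).toEquiv x - (f q).toEquiv x‖ ≤ L * dist p q) ∧ (∀ p ∈ A, f p = f₀ p)
  have hex : ∀ c : t → Fin N, ∃ g : C(C, SympCt n), ∀ f : C(C, SympCt n), Good f →
      (∀ p : t, cd (f p) = c p) → f.HomotopicRel g A := by
    intro c
    by_cases h : ∃ g : C(C, SympCt n), Good g ∧ ∀ p : t, cd (g p) = c p
    · obtain ⟨g, ⟨g1, g2, g3, g4⟩, g5⟩ := h
      refine ⟨g, fun f ⟨f1, f2, f3, f4⟩ f5 => ?_⟩
      exact key f g f1 f2 f3 f4 g1 g2 g3 g4 fun p hp => (f5 ⟨p, hp⟩).trans (g5 ⟨p, hp⟩).symm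
    · exact ⟨f₀, fun f hf hfc => (h ⟨f, hf, hfc⟩).elim⟩
  choose g hg using hex
  refine ⟨Finset.univ.image g, fun f h1 h2 h3 h4 =>
    ⟨g fun p : t => cd (f p), Finset.mem_image_of_mem _ (Finset.mem_univ _), ?_⟩⟩
  exact hg _ f ⟨h1, h2, h3, h4⟩ fun p => rfl

end Pool.Agent.W5h49.EC
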