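import Mathlib
import Pool.Agent.W5h49.EC.Defs4

set_option autoImplicit false

open scoped ContDiff Topology
open MeasureTheory

namespace Pool.Agent.W5h49.EC

open Pool.Agent.W71.EC Pool.Agent.W5h83.HG

theorem supc (n : ℕ) : S_SUPC n := by
  intro C _ _ f g
  obtain ⟨m1, h1⟩ := supp_unif (isCompact_range f.continuous)
  obtain ⟨m2, h2⟩ := supp_unif (isCompact_range g.continuous)
  set B : Set (R2 n) := Metric.closedBall 0 (max (m1 : ℝ) m2) with hB
  have hBc : IsCompact B := isCompact_closedBall _ _
  have : CompactSpace B := isCompact_iff_compactSpace.1 hBc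
  have hf : Continuous (Function.uncurry fun (p : C) (x : R2 n) => (f p).toEquiv x) :=
    JS.of_continuous f.continuous 0
  have hg : Continuous (Function.uncurry fun (p : C) (x : R2 n) => (g p).toEquiv x) :=
    JS.of_continuous g.continuous 0
  let D : C → C(B, R2 n) := fun p => ⟨fun y => (f p).toEquiv y - (g p).toEquiv y,
    ((f p).smooth.continuous.comp continuous_subtype_val).sub
      ((g p).smooth.continuous.comp continuous_subtype_val)⟩
  have hD : Continuous D := by
    refine ContinuousMap.continuous_of_continuous_uncurry _ ?_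
    have e : Continuous (fun z : C × B => (z.1, (z.2 : R2 n))) :=
      continuous_fst.prodMk (continuous_subtype_val.comp continuous_snd)
    exact (hf.comp e).sub (hg.comp e)
  refine ⟨⟨fun p => ‖D p‖, hD.norm⟩, fun p => norm_nonneg (D p), fun p x => ?_, fun p hp => ?_⟩
  · change _ ≤ ‖D p‖
    by_cases hx : x ∈ B
    · exact (D p).norm_coe_le_norm ⟨x, hx⟩
    · have h3 : x ∉ Metric.closedBall (0 : R2 n) m1 := fun h =>
        hx (Metric.closedBall_subset_closedBall (le_max_left _ _) h)
      have h4 : x ∉ Metric.closedBall (0 : R2 n) m2 := fun h =>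
        hx (Metric.closedBall_subset_closedBall (le_max_right _ _) h)
      rw [h1 (f p) ⟨p, rfl⟩ x h3, h2 (g p) ⟨p, rfl⟩ x h4, sub_self, norm_zero]
      exact norm_nonneg _
  · change ‖D p‖ = 0
    rw [norm_eq_zero]
    ext1 y
    change (f p).toEquiv y - (g p).toEquiv y = 0
    rw [hp, sub_self]

end Pool.Agent.W5h49.EC
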