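import Mathlib
import Pool.Agent.W5h49.EC.CubeND
import Pool.Agent.W5h49.EC.MolJC2
import Pool.Agent.W5h49.EC.SupC
import Pool.Agent.W5h49.EC.FinFam

/-!
# Homotopy groups
-/

set_option autoImplicit false

open scoped ContDiff Topology
open MeasureTheory Set

namespace Pool.Agent.W5h49.EC

open Pool.Agent.W71.EC Pool.Agent.W5h83.HG

variable {n : ℕ}

theorem tasks (n : ℕ) : Tasks n := ⟨flow_jc nem ev n, xjc n, moljc n⟩

/-- trivial elements of the homotopy groups -/
theorem pik_trivial (T : CubeTasks n) (k : ℕ) (γ : GenLoop (Fin k) (SympCt n) one)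
    (h : ∀ (y : Fin k → unitInterval) (r : ℝ), 0 < r → ∀ x, NR (CA (γ y) r x)) :
    (Quotient.mk _ γ : HomotopyGroup (Fin k) (SympCt n) one) = Quotient.mk _ GenLoop.const := by
  have h1 := cube_all_scales T (Fin k → unitInterval) γ.1 h
  exact Quotient.sound (rel_mono h1 fun p hp => γ.2 p hp)

/-- finitely many elements of the homotopy groups -/
theorem pik_finite {θ : ℝ} (hθ : θ < 1) {R L : ℝ} (hR : 0 < R) (hL : 0 < L) {K : Set (R2 n)}
    (hK : IsCompact K) (k : ℕ) :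
    {a : HomotopyGroup (Fin k) (SympCt n) one | ∃ γ : GenLoop (Fin k) (SympCt n) one,
      (Quotient.mk _ γ : HomotopyGroup (Fin k) (SympCt n) one) = a ∧
      (∀ y, γ y ∈ supportedIn K) ∧ (∀ y, OscLe θ R (γ y)) ∧
      ∀ y z x, ‖(γ y).toEquiv x - (γ z).toEquiv x‖ ≤ L * dist y z}.Finite := by
  obtain ⟨S, hS⟩ := finfam n (kerfam (moljc2 n)) θ hθ R L hR hL K hK (Fin k → unitInterval)
    (Cube.boundary (Fin k)) (ContinuousMap.const _ one)
  have h1 : ∀ a : {a : HomotopyGroup (Fin k) (SympCt n) one |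
      ∃ γ : GenLoop (Fin k) (SympCt n) one,
      (Quotient.mk _ γ : HomotopyGroup (Fin k) (SympCt n) one) = a ∧
      (∀ y, γ y ∈ supportedIn K) ∧ (∀ y, OscLe θ R (γ y)) ∧
      ∀ y z x, ‖(γ y).toEquiv x - (γ z).toEquiv x‖ ≤ L * dist y z},
      ∃ γ : GenLoop (Fin k) (SympCt n) one, ∃ g : S,
      (Quotient.mk _ γ : HomotopyGroup (Fin k) (SympCt n) one) = a.1 ∧
      γ.1.HomotopicRel g.1 (Cube.boundary (Fin k)) := by
    rintro ⟨a, γ, ha, h1, h2, h3⟩
    obtain ⟨g, hg, h4⟩ := hS γ.1 h1 h2 h3 (fun p hp => γ.2 p hp)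
    exact ⟨γ, ⟨g, hg⟩, ha, h4⟩
  choose γ g h2 h3 using h1
  have hinj : Function.Injective g := by
    intro a b hab
    have h4 := h3 a
    rw [hab] at h4
    have h5 := h4.trans (h3 b).symm
    refine Subtype.ext ?_
    rw [← h2 a, ← h2 b]
    exact Quotient.sound h5
  have := Finite.of_injective g hinj
  exact Set.toFinite _

end Pool.Agent.W5h49.EC
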