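import Mathlib
import Pool.Agent.W5h49.EC.Defs6
import Pool.Agent.W5h49.EC.Lin

/-!
# The maps which reverse `ω` in no direction form an open set
-/

set_option autoImplicit false

open scoped ContDiff Topology
open MeasureTheory

namespace Pool.Agent.W5h49.EC

open Pool.Agent.W71.EC Pool.Agent.W5h83.HG

variable {n : ℕ}

namespace NROpen

theorem nr_iff (A : R2 n →L[ℝ] R2 n) :
    NR A ↔ ∀ z ∈ Set.Icc (0 : ℝ) 1 ×ˢ Metric.sphere (0 : R2 n) 1, Om z.1 A z.2 ≠ 0 := by
  constructor
  · rintro h ⟨s, v⟩ ⟨⟨h0, h1⟩, hv1⟩ hv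
    have hne : v ≠ 0 := by
      rintro rfl
      rw [mem_sphere_zero_iff_norm, norm_zero] at hv1
      exact zero_ne_one hv1
    have key : ∀ w, (1 - s) * omega v w + s * omega (A v) (A w) = 0 := by
      intro w
      have h2 : Om s A v w = 0 := by
        have h3 : Om s A v = 0 := hv
        rw [h3]; rfl
      rwa [Om_apply, W_apply, W_apply] at h2
    have h0' : 0 ≤ s := h0
    have h1' : s ≤ 1 := h1
    rcases eq_or_lt_of_le h0' with h5 | h5
    · have h2 := key (J v)
      rw [← h5, omJ] at h2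
      have := nsqPos hne
      linarith
    · refine h ⟨v, hne, (1 - s) / s, div_nonneg (by linarith) h0', fun w => ?_⟩
      have h2 := key w
      field_simp
      linarith
  · rintro h ⟨v, hv, c, hc, hw⟩
    have hc1 : (0 : ℝ) < 1 + c := by linarith
    have hv0 : (0 : ℝ) < ‖v‖ := norm_pos_iff.2 hv
    refine h (1 / (1 + c), ‖v‖⁻¹ • v) ⟨⟨by positivity, ?_⟩, ?_⟩ ?_
    · show 1 / (1 + c) ≤ 1
      rw [div_le_one hc1]
      linarith
    · rw [mem_sphere_zero_iff_norm]
      show ‖‖v‖⁻¹ • v‖ = 1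
      rw [norm_smul, norm_inv, norm_norm, inv_mul_cancel₀ hv0.ne']
    · show Om (1 / (1 + c)) A (‖v‖⁻¹ • v) = 0
      rw [map_smul]
      have h1 : Om (1 / (1 + c)) A v = 0 := by
        refine ContinuousLinearMap.ext fun w => ?_
        rw [Om_apply, W_apply, W_apply, hw w]
        show (1 - 1 / (1 + c)) * omega v w + 1 / (1 + c) * (-c * omega v w) = 0
        field_simp
        ring
      rw [h1, smul_zero]

theorem Om_eq (s : ℝ) (A : R2 n →L[ℝ] R2 n) (v : R2 n) :
    Om s A v = (1 - s) • W n v + s • (W n (A v)).comp A := by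
  refine ContinuousLinearMap.ext fun w => ?_
  rw [Om_apply]
  rfl

theorem Om_cont : Continuous fun z : (R2 n →L[ℝ] R2 n) × (ℝ × R2 n) => Om z.2.1 z.1 z.2.2 := by
  have h : (fun z : (R2 n →L[ℝ] R2 n) × (ℝ × R2 n) => Om z.2.1 z.1 z.2.2) =
      fun z => (1 - z.2.1) • W n z.2.2 + z.2.1 • (W n (z.1 z.2.2)).comp z.1 :=
    funext fun z => Om_eq _ _ _
  rw [h]
  have h1 : Continuous fun z : (R2 n →L[ℝ] R2 n) × (ℝ × R2 n) => z.1 z.2.2 :=
    continuous_fst.clm_apply (continuous_snd.comp continuous_snd)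
  have h2 : Continuous fun z : (R2 n →L[ℝ] R2 n) × (ℝ × R2 n) => W n (z.1 z.2.2) :=
    (W n).continuous.comp h1
  have h3 : Continuous fun z : (R2 n →L[ℝ] R2 n) × (ℝ × R2 n) => W n z.2.2 :=
    (W n).continuous.comp (continuous_snd.comp continuous_snd)
  have h4 : Continuous fun z : (R2 n →L[ℝ] R2 n) × (ℝ × R2 n) => z.2.1 :=
    continuous_fst.comp continuous_snd
  exact ((continuous_const.sub h4).smul h3).add (h4.smul (h2.clm_comp continuous_fst))

end NROpen

theorem nr_open (n : ℕ) : S_NROPEN n := by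
  unfold S_NROPEN
  rw [isOpen_iff_eventually]
  intro A hA
  have hK : IsCompact (Set.Icc (0 : ℝ) 1 ×ˢ Metric.sphere (0 : R2 n) 1) :=
    isCompact_Icc.prod (isCompact_sphere _ _)
  have h := hK.eventually_forall_of_forall_eventually (x₀ := A)
    (P := fun A z => Om z.1 A z.2 ≠ 0) (fun z hz =>
      (NROpen.Om_cont.continuousAt.eventually_ne ((NROpen.nr_iff A).1 hA z hz)))
  filter_upwards [h] with B hB
  exact (NROpen.nr_iff B).2 hB

end Pool.Agent.W5h49.EC
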