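import Mathlib
import Pool.Agent.W5h49.EC.Defs5
import Pool.Agent.W5h49.EC.SupC
import Pool.Agent.W5h49.EC.Form
import Pool.Agent.W5h49.EC.Final

set_option autoImplicit false

open scoped ContDiff Topology
open MeasureTheory

namespace Pool.Agent.W5h49.EC

open Pool.Agent.W71.EC Pool.Agent.W5h83.HG

variable {n : ℕ}

namespace Far

/-- the mollified differential of the identity -/
theorem md_one {η : R2 n → ℝ} (hη : Moll η) (R : ℝ) (x v : R2 n) :
    MD η (one : SympCt n) R x v = v := by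
  unfold MD
  have h : ∀ y : R2 n, D (one : SympCt n) (x - R • y) v = v := fun y => one_fderiv _ v
  simp only [h]
  rw [integral_smul_const, hη.integral, one_smul]

/-- the mollified differentials are close to the identity at large scales -/
theorem md_far {η : R2 n → ℝ} (hη : Moll η) {φ : SympCt n} {R B : ℝ} (hR : 0 < R)
    (hB : ∀ x, ‖φ.toEquiv x - (one : SympCt n).toEquiv x‖ ≤ B) (x v : R2 n) :
    ‖MD η φ R x v - v‖ ≤ R⁻¹ * ((∫ y, ‖fderiv ℝ η y‖) * B) * ‖v‖ := by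
  have hη' : Continuous (fderiv ℝ η) := hη.smooth.continuous_fderiv (by simp)
  have hint : Integrable (fun y => ‖fderiv ℝ η y‖) :=
    hη'.norm.integrable_of_hasCompactSupport (hη.cpt.fderiv (𝕜 := ℝ)).norm
  have h1 := Form.diff_eq hη φ one hR x v
  rw [md_one hη] at h1
  rw [h1, norm_smul, Real.norm_eq_abs, abs_of_pos (inv_pos.2 hR), mul_assoc]
  refine mul_le_mul_of_nonneg_left ?_ (inv_pos.2 hR).le
  have h2 : ∫ y, ‖fderiv ℝ η y‖ * (B * ‖v‖) = (∫ y, ‖fderiv ℝ η y‖) * B * ‖v‖ := by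
    rw [integral_mul_const]
    ring
  rw [← h2]
  refine (norm_integral_le_integral_norm _).trans ?_
  refine integral_mono_of_nonneg (Filter.Eventually.of_forall fun y => norm_nonneg _)
    (hint.mul_const _) (Filter.Eventually.of_forall fun y => ?_)
  change ‖fderiv ℝ η y v • (φ.toEquiv (x - R • y) - (one : SympCt n).toEquiv (x - R • y))‖ ≤ _
  rw [norm_smul]
  calc ‖fderiv ℝ η y v‖ * ‖φ.toEquiv (x - R • y) - (one : SympCt n).toEquiv (x - R • y)‖
      ≤ (‖fderiv ℝ η y‖ * ‖v‖) * B :=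
        mul_le_mul ((fderiv ℝ η y).le_opNorm v) (hB _) (norm_nonneg _) (by positivity)
    _ = ‖fderiv ℝ η y‖ * (B * ‖v‖) := by ring

end Far

theorem far (n : ℕ) : S_FAR n := by
  intro η hη C _ _ f ε hε
  obtain ⟨M, -, hM, -⟩ := supc n C f (ContinuousMap.const C one)
  obtain ⟨B, hB⟩ := (isCompact_range M.continuous).bddAbove
  have hMB : ∀ p x, ‖(f p).toEquiv x - (one : SympCt n).toEquiv x‖ ≤ B := fun p x =>
    (hM p x).trans (hB ⟨p, rfl⟩)
  set K : ℝ := (∫ y, ‖fderiv ℝ η y‖) * B with hK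
  set a : ℝ := 2 * n * K ^ 2 / ε with ha
  have ha0 : 0 ≤ a := by positivity
  refine ⟨a + 1, by linarith, fun R hR p x v => ?_⟩
  have hR1 : 1 ≤ R := by linarith
  have hR0 : 0 < R := by linarith
  have h1 := Far.md_far hη hR0 (hMB p) x v
  have h2 : ‖MD η (f p) R x v - v‖ ^ 2 ≤ (R⁻¹ * K * ‖v‖) ^ 2 :=
    pow_le_pow_left₀ (norm_nonneg _) h1 2
  have h3 : 2 * n * K ^ 2 ≤ ε * R ^ 2 := by
    have h4 : a ≤ R ^ 2 := by nlinarith
    rw [ha, div_le_iff₀ hε] at h4
    linarith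
  calc nsq (MD η (f p) R x v - v) ≤ 2 * n * ‖MD η (f p) R x v - v‖ ^ 2 := Form.nsq_le_norm_sq _
    _ ≤ 2 * n * (R⁻¹ * K * ‖v‖) ^ 2 := by gcongr
    _ = (2 * n * K ^ 2) / R ^ 2 * ‖v‖ ^ 2 := by
        field_simp
    _ ≤ ε * ‖v‖ ^ 2 := by
        refine mul_le_mul_of_nonneg_right ?_ (by positivity)
        rw [div_le_iff₀ (by positivity)]
        exact h3
    _ ≤ ε * nsq v := mul_le_mul_of_nonneg_left (Form.norm_sq_le_nsq v) hε.le

end Pool.Agent.W5h49.EC
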