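import Mathlib
import Pool.Agent.W5h49.EC.Energy
import Pool.Agent.W5h49.EC.Poin1
import Pool.Agent.W5h49.EC.Poin2

/-!
# Small Morrey energy
-/

set_option autoImplicit false

open scoped ContDiff Topology
open MeasureTheory Set

namespace Pool.Agent.W5h49.EC

open Pool.Agent.W71.EC Pool.Agent.W5h83.HG

variable {n : ℕ}

theorem poin (n : ℕ) : S_POIN n := poin2 n (poin1 n)

/-- from small Morrey energy to small mean oscillation -/
theorem morrey_osc (n : ℕ) {θ : ℝ} (hθ : 0 < θ) : ∃ c : ℝ, 0 < c ∧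
    ∀ (φ : SympCt n) (x : R2 n) (r : ℝ), 0 < r →
      r ^ 2 * ⨍ y in Metric.ball x r, en φ y ^ 2 ≤ c → ∀ v : R2 n,
      ⨍ y in Metric.ball x r, nsq (D φ y v - ⨍ z in Metric.ball x r, D φ z v) ≤ θ * nsq v := by
  obtain ⟨C, hC, hP⟩ := poin n
  have hn' : (0 : ℝ) ≤ n := Nat.cast_nonneg n
  refine ⟨θ / (2 * n * C + 1), by positivity, fun φ x r hr hE v => ?_⟩
  set B := Metric.ball x r with hB
  have hBpos : 0 < volume.real B :=
    ENNReal.toReal_pos (Metric.measure_ball_pos _ _ hr).ne' measure_ball_lt_top.ne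
  have hint : ∀ {g : R2 n → ℝ}, Continuous g → IntegrableOn g B := fun hg =>
    (hg.continuousOn.integrableOn_compact (isCompact_closedBall x r)).mono_set
      Metric.ball_subset_closedBall
  have hDc : Continuous fun z => D φ z v := CubeAux.continuous_D φ v
  have hDs : ContDiff ℝ ∞ (fun z => D φ z v) :=
    (φ.smooth.fderiv_right (m := ∞) (by simp)).clm_apply contDiff_const
  set m := ⨍ z in B, D φ z v with hm
  have havg : ∀ {g h : R2 n → ℝ}, Continuous g → Continuous h → (∀ y, g y ≤ h y) →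
      ⨍ y in B, g y ≤ ⨍ y in B, h y := by
    intro g h hg hh hgh
    rw [setAverage_eq, setAverage_eq, smul_eq_mul, smul_eq_mul]
    exact mul_le_mul_of_nonneg_left (setIntegral_mono (hint hg) (hint hh) hgh)
      (inv_nonneg.2 hBpos.le)
  have havgm : ∀ (k : ℝ) (g : R2 n → ℝ), ⨍ y in B, k * g y = k * ⨍ y in B, g y := by
    intro k g
    rw [setAverage_eq, setAverage_eq, smul_eq_mul, smul_eq_mul, integral_const_mul]
    ring
  have s1 : ⨍ y in B, nsq (D φ y v - m) ≤ 2 * n * ⨍ y in B, ‖D φ y v - m‖ ^ 2 := by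
    rw [← havgm]
    exact havg (CubeAux.continuous_nsq.comp (hDc.sub continuous_const))
      (((hDc.sub continuous_const).norm.pow 2).const_mul _) fun y => Form.nsq_le_norm_sq _
  have s2 : ⨍ y in B, ‖D φ y v - m‖ ^ 2 ≤
      C * r ^ 2 * ⨍ y in B, ‖fderiv ℝ (fun y => D φ y v) y‖ ^ 2 := hP _ hDs x r hr
  have s3 : ⨍ y in B, ‖fderiv ℝ (fun y => D φ y v) y‖ ^ 2 ≤ ‖v‖ ^ 2 * ⨍ y in B, en φ y ^ 2 := by
    rw [← havgm]
    refine havg ((hDs.continuous_fderiv (by simp)).norm.pow 2)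
      (((en_cont φ).pow 2).const_mul _) fun y => ?_
    calc _ ≤ (en φ y * ‖v‖) ^ 2 := by
          have := fderiv_D φ v y
          gcongr
      _ = _ := by ring
  calc ⨍ y in B, nsq (D φ y v - m) ≤ 2 * n * (C * r ^ 2 * (‖v‖ ^ 2 * ⨍ y in B, en φ y ^ 2)) := by
        refine s1.trans (mul_le_mul_of_nonneg_left (s2.trans ?_) (by positivity))
        exact mul_le_mul_of_nonneg_left s3 (by positivity)
    _ = 2 * n * C * ‖v‖ ^ 2 * (r ^ 2 * ⨍ y in B, en φ y ^ 2) := by ring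
    _ ≤ 2 * n * C * ‖v‖ ^ 2 * (θ / (2 * n * C + 1)) :=
        mul_le_mul_of_nonneg_left hE (by positivity)
    _ = (2 * n * C / (2 * n * C + 1)) * (θ * ‖v‖ ^ 2) := by ring
    _ ≤ 1 * (θ * ‖v‖ ^ 2) := by
        refine mul_le_mul_of_nonneg_right ?_ (by positivity)
        rw [div_le_one (by positivity)]
        linarith
    _ ≤ θ * nsq v := by
        rw [one_mul]
        exact mul_le_mul_of_nonneg_left (Form.norm_sq_le_nsq v) hθ.le

/-- Morrey energy at most `c` at the scales up to `R` -/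
def MoLe (c R : ℝ) (φ : SympCt n) : Prop :=
  ∀ r : ℝ, 0 < r → r ≤ R → ∀ x : R2 n, r ^ 2 * ⨍ y in Metric.ball x r, en φ y ^ 2 ≤ c

/-- **Small Morrey energy, families.** -/
theorem morrey_fam (hM : S_MOLJC2 n) (hS : S_SUPC n) (hF : S_FINFAM n) :
    ∃ c : ℝ, 0 < c ∧
    (∀ (R : ℝ), 0 < R → ∀ (C : Type) [TopologicalSpace C] [CompactSpace C]
      (f g : C(C, SympCt n)), (∀ p, MoLe c R (f p)) → (∀ p, MoLe c R (g p)) →
      (∀ p x, ⨍ y in Metric.ball x R, ‖(f p).toEquiv y - (g p).toEquiv y‖ ≤ c * R) →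
      f.HomotopicRel g {p | f p = g p}) ∧
    (∀ R L : ℝ, 0 < R → 0 < L → ∀ K : Set (R2 n), IsCompact K →
      ∀ (C : Type) [MetricSpace C] [CompactSpace C] (A : Set C) (f₀ : C(C, SympCt n)),
      ∃ S : Finset C(C, SympCt n), ∀ f : C(C, SympCt n),
        (∀ p, f p ∈ supportedIn K) → (∀ p, MoLe c R (f p)) →
        (∀ p q x, ‖(f p).toEquiv x - (f q).toEquiv x‖ ≤ L * dist p q) →
        (∀ p ∈ A, f p = f₀ p) → ∃ g ∈ S, f.HomotopicRel g A) ∧
    (∀ (C : Type) [TopologicalSpace C] [CompactSpace C] (f : C(C, SympCt n)),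
      (∀ p, ∀ r : ℝ, 0 < r → ∀ x : R2 n,
        r ^ 2 * ⨍ y in Metric.ball x r, en (f p) y ^ 2 ≤ c) →
      f.HomotopicRel (ContinuousMap.const C one) {p | f p = one}) ∧
    ∀ (C : Type) [TopologicalSpace C] [CompactSpace C] (f : C(C, SympCt n)),
      (∀ p, ∫ y, en (f p) y ^ (2 * n) ≤ c) →
      f.HomotopicRel (ContinuousMap.const C one) {p | f p = one} := by
  obtain ⟨c₀, hc₀, -, -, key₀⟩ := energy_fam hM hS hF (poin n)
  obtain ⟨c₁, hc₁, key⟩ := two_maps_fam2 (n := n) hM hS (θ := 1 / 2) (by norm_num)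
  obtain ⟨c₂, hc₂, hosc⟩ := morrey_osc n (θ := 1 / 2) (by norm_num)
  set c : ℝ := min c₀ (min c₁ c₂) with hc
  have hcc0 : c ≤ c₀ := min_le_left _ _
  have hcc1 : c ≤ c₁ := (min_le_right _ _).trans (min_le_left _ _)
  have hcc2 : c ≤ c₂ := (min_le_right _ _).trans (min_le_right _ _)
  have hmono : ∀ {R : ℝ} {φ : SympCt n}, MoLe c R φ → OscLe (1 / 2) R φ :=
    fun h r hr hrR x v => hosc _ x r hr ((h r hr hrR x).trans hcc2) v
  refine ⟨c, lt_min hc₀ (lt_min hc₁ hc₂), ?_, ?_, ?_, ?_⟩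
  · intro R hR C _ _ f g hf hg hd
    refine key R hR C f g (fun p => hmono (hf p)) (fun p => hmono (hg p)) fun p x => ?_
    exact (hd p x).trans (mul_le_mul_of_nonneg_right hcc1 hR.le)
  · intro R L hR hL K hK C _ _ A f₀
    obtain ⟨S, hS'⟩ := hF (kerfam hM) (1 / 2) (by norm_num) R L hR hL K hK C A f₀
    exact ⟨S, fun f h1 h2 h3 h4 => hS' f h1 (fun p => hmono (h2 p)) h3 h4⟩
  · intro C _ _ f hf
    exact all_scales_fam2 hM hS (θ := 1 / 2) (by norm_num) C f fun p R _ =>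
      hmono fun r hr _ x => hf p r hr x
  · intro C _ _ f hf
    exact key₀ C f fun p => (hf p).trans hcc0

end Pool.Agent.W5h49.EC
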